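import Pool.Agent.Lib.TV.SpecV

/-! MP_00e23e_nt, Lib/TV: the Ramanujan sum of a number coprime to the modulus has norm at most one. -/

namespace Pool.Agent.Lib.TV

open Finset Pool.Agent.Lib.EH3 Pool.Agent.Lib.TB Pool.Agent.Lib.TN Pool.Agent.Lib.TM Pool.Agent.Results.MP_00e23e_nt

/-- the residue of c times the inverse of x -/
private noncomputable def Vrm_ip (c : ℤ) (q x : ℕ) : ℕ := ((c * (iv x q : ℤ)) % (q : ℤ)).toNat

private theorem Vrm_spec {c : ℤ} {q x : ℕ} (hq : 1 ≤ q) (hx : x.Coprime q) :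
    Vrm_ip c q x < q ∧ (q : ℤ) ∣ c * (iv x q : ℤ) - (Vrm_ip c q x : ℤ) ∧
      (q : ℤ) ∣ (x : ℤ) * (Vrm_ip c q x : ℤ) - c := by
  have hq0 : (0 : ℤ) < (q : ℤ) := by exact_mod_cast hq
  have h1 : ((Vrm_ip c q x : ℕ) : ℤ) = (c * (iv x q : ℤ)) % (q : ℤ) := by
    unfold Vrm_ip
    exact Int.toNat_of_nonneg (Int.emod_nonneg _ hq0.ne')
  have h2 : (q : ℤ) ∣ c * (iv x q : ℤ) - (Vrm_ip c q x : ℤ) := by
    rw [h1]
    exact Int.dvd_self_sub_emod
  refine ⟨?_, h2, ?_⟩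
  · have h3 := Int.emod_lt_of_pos (c * (iv x q : ℤ)) hq0
    rw [← h1] at h3
    exact_mod_cast h3
  · have h3 := iv_dvd hx hq
    have h4 : (x : ℤ) * (Vrm_ip c q x : ℤ) - c =
        c * ((iv x q : ℤ) * x - 1) - x * (c * (iv x q : ℤ) - (Vrm_ip c q x : ℤ)) := by ring
    rw [h4]
    exact dvd_sub (Dvd.dvd.mul_left h3 c) (Dvd.dvd.mul_left h2 x)

private theorem Vrm_cop {c : ℤ} {q x : ℕ} (hq : 1 ≤ q) (hc : Int.gcd c q = 1) (hx : x.Coprime q) :
    (Vrm_ip c q x).Coprime q := by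
  obtain ⟨-, -, h3⟩ := Vrm_spec (c := c) hq hx
  have h5 : IsCoprime c (q : ℤ) := Int.isCoprime_iff_gcd_eq_one.mpr hc
  have h6 : IsCoprime ((x : ℤ) * (Vrm_ip c q x : ℤ)) (q : ℤ) := by
    obtain ⟨k, hk⟩ := h3
    have h7 : (x : ℤ) * (Vrm_ip c q x : ℤ) = c + q * k := by linarith
    rw [h7]
    exact IsCoprime.add_mul_left_left h5 k
  exact Nat.isCoprime_iff_coprime.mp (IsCoprime.of_mul_left_right h6)

private theorem Vrm_inv {c : ℤ} {q x : ℕ} (hq : 1 ≤ q) (hc : Int.gcd c q = 1) (hx : x.Coprime q)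
    (hxq : x < q) : Vrm_ip c q (Vrm_ip c q x) = x := by
  obtain ⟨-, -, h3⟩ := Vrm_spec (c := c) hq hx
  have h4 := Vrm_cop hq hc hx
  obtain ⟨h5, -, h6⟩ := Vrm_spec (c := c) hq h4
  have h7 : (q : ℤ) ∣ ((Vrm_ip c q (Vrm_ip c q x) : ℤ) - x) * (Vrm_ip c q x : ℤ) := by
    have h8 := dvd_sub h6 h3
    have h9 : ((Vrm_ip c q (Vrm_ip c q x) : ℤ) - x) * (Vrm_ip c q x : ℤ) =
        (Vrm_ip c q x : ℤ) * (Vrm_ip c q (Vrm_ip c q x) : ℤ) - c - (x * (Vrm_ip c q x : ℤ) - c) := by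
      ring
    rw [h9]
    exact h8
  have h8 : IsCoprime (q : ℤ) (Vrm_ip c q x : ℤ) := (Nat.isCoprime_iff_coprime.mpr h4).symm
  obtain ⟨k, hk⟩ := h8.dvd_of_dvd_mul_right h7
  have h10 : k = 0 := by
    by_contra hk0
    rcases lt_or_gt_of_ne hk0 with h | h
    · have : (q : ℤ) * k ≤ -q := by nlinarith
      omega
    · have : (q : ℤ) ≤ q * k := by nlinarith
      omega
  rw [h10] at hk
  omega

/-- the sum over the reduced residues -/
private noncomputable def Vrm_R (q : ℕ) : ℂ :=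
  ∑ y ∈ (range q).filter (fun y => y.Coprime q), ee ((y : ℝ) / (q : ℝ))

private theorem Vrm_kl {c : ℤ} {q : ℕ} (hq : 1 ≤ q) (hc : Int.gcd c q = 1) :
    kl c 0 q = Vrm_R q := by
  unfold kl Vrm_R
  refine Finset.sum_bij' (fun x _ => Vrm_ip c q x) (fun y _ => Vrm_ip c q y) ?_ ?_ ?_ ?_ ?_
  · intro x hx
    obtain ⟨h1, h2⟩ := mem_filter.mp hx
    exact mem_filter.mpr ⟨mem_range.mpr (Vrm_spec hq h2).1, Vrm_cop hq hc h2⟩
  · intro x hx
    obtain ⟨h1, h2⟩ := mem_filter.mp hx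
    exact mem_filter.mpr ⟨mem_range.mpr (Vrm_spec hq h2).1, Vrm_cop hq hc h2⟩
  · intro x hx
    obtain ⟨h1, h2⟩ := mem_filter.mp hx
    exact Vrm_inv hq hc h2 (mem_range.mp h1)
  · intro x hx
    obtain ⟨h1, h2⟩ := mem_filter.mp hx
    exact Vrm_inv hq hc h2 (mem_range.mp h1)
  · intro x hx
    obtain ⟨h1, h2⟩ := mem_filter.mp hx
    have h3 := (Vrm_spec (c := c) hq h2).2.1
    have h4 := ee_congr (b := q) h3
    push_cast at h4
    rw [← h4]
    congr 1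
    push_cast
    ring

/-- the part with a given greatest common divisor -/
private theorem Vrm_part {q d : ℕ} (hq : 1 ≤ q) (hd : d ∣ q) :
    ∑ y ∈ (range q).filter (fun y => q.gcd y = d), ee ((y : ℝ) / (q : ℝ)) = Vrm_R (q / d) := by
  obtain ⟨e, he⟩ := hd
  have hd0 : 0 < d := Nat.pos_of_ne_zero (by rintro rfl; omega)
  have he0 : 0 < e := Nat.pos_of_ne_zero (by rintro rfl; omega)
  have hqe : q / d = e := by rw [he, Nat.mul_div_cancel_left e hd0]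
  rw [hqe]
  unfold Vrm_R
  symm
  refine Finset.sum_nbij (fun z => d * z) ?_ ?_ ?_ ?_
  · intro z hz
    obtain ⟨h1, h2⟩ := mem_filter.mp hz
    rw [mem_range] at h1
    refine mem_filter.mpr ⟨mem_range.mpr ?_, ?_⟩
    · rw [he]
      exact Nat.mul_lt_mul_of_pos_left h1 hd0
    · rw [he, Nat.gcd_mul_left, Nat.Coprime.gcd_eq_one h2.symm, mul_one]
  · intro z _ z' _ h
    exact Nat.eq_of_mul_eq_mul_left hd0 h
  · intro y hy
    obtain ⟨h1, h2⟩ := mem_filter.mp (mem_coe.mp hy)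
    rw [mem_range] at h1
    obtain ⟨z, hz⟩ : d ∣ y := h2 ▸ Nat.gcd_dvd_right q y
    refine ⟨z, mem_coe.mpr (mem_filter.mpr ⟨mem_range.mpr ?_, ?_⟩), hz.symm⟩
    · rw [he, hz] at h1
      exact Nat.lt_of_mul_lt_mul_left h1
    · rw [he, hz, Nat.gcd_mul_left] at h2
      have h3 : d * e.gcd z = d * 1 := by rw [h2, mul_one]
      have h4 : e.Coprime z := Nat.eq_of_mul_eq_mul_left hd0 h3
      exact h4.symm
  · intro z _
    congr 1
    rw [he]
    push_cast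
    have hdR : (d : ℝ) ≠ 0 := by exact_mod_cast hd0.ne'
    have heR : (e : ℝ) ≠ 0 := by exact_mod_cast he0.ne'
    field_simp

private theorem Vrm_sum {q : ℕ} (hq : 0 < q) :
    ∑ d ∈ q.divisors, Vrm_R d = if q = 1 then (1 : ℂ) else 0 := by
  rw [← Nat.sum_div_divisors q Vrm_R]
  have h1 : ∑ d ∈ q.divisors, Vrm_R (q / d) = ∑ y ∈ range q, ee ((y : ℝ) / (q : ℝ)) := by
    have h2 : ∀ y ∈ range q, q.gcd y ∈ q.divisors := by
      intro y _
      exact Nat.mem_divisors.mpr ⟨Nat.gcd_dvd_left q y, hq.ne'⟩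
    rw [← Finset.sum_fiberwise_of_maps_to h2]
    refine Finset.sum_congr rfl fun d hd => ?_
    exact (Vrm_part hq (Nat.dvd_of_mem_divisors hd)).symm
  rw [h1]
  have h2 := orth hq 1
  have h3 : ∑ y ∈ range q, ee ((y : ℝ) / (q : ℝ)) = ∑ b ∈ range q, ee (b * (((1 : ℤ) : ℝ) / q)) := by
    refine Finset.sum_congr rfl fun y _ => ?_
    congr 1
    push_cast
    ring
  rw [h3, h2]
  by_cases hq1 : q = 1
  · rw [if_pos hq1, hq1]
    simp
  · rw [if_neg hq1, if_neg]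
    intro h
    have h4 : (q : ℤ) = 1 := Int.eq_one_of_dvd_one (by positivity) h
    exact hq1 (by exact_mod_cast h4)

private theorem Vrm_mu {q : ℕ} (hq : 0 < q) : Vrm_R q = ((ArithmeticFunction.moebius q : ℤ) : ℂ) := by
  have h1 := (ArithmeticFunction.sum_eq_iff_sum_mul_moebius_eq (R := ℂ) (f := Vrm_R)
    (g := fun n => if n = 1 then (1 : ℂ) else 0)).mp (fun n hn => Vrm_sum hn) q hq
  rw [← h1]
  rw [Finset.sum_eq_single (q, 1)]
  · simp
  · rintro ⟨a, b⟩ hab hne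
    rw [Nat.mem_divisorsAntidiagonal] at hab
    have hb : b ≠ 1 := by
      rintro rfl
      apply hne
      rw [← hab.1]
      simp
    show _ * (if b = 1 then (1 : ℂ) else 0) = 0
    rw [if_neg hb, mul_zero]
  · intro h
    exact absurd (Nat.mem_divisorsAntidiagonal.mpr ⟨mul_one q, hq.ne'⟩) h

theorem tVrm : VrmStmt := by
  intro q c hq hc
  rw [Vrm_kl hq hc, Vrm_mu hq]
  have h1 := ArithmeticFunction.abs_moebius_le_one (n := q)
  rw [Complex.norm_intCast]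
  exact_mod_cast h1

end Pool.Agent.Lib.TV
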