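import Pool.Agent.Lib.TV.SpecV

/-! MP_00e23e_nt, Lib/TV: incomplete Kloosterman sums, general numerator. -/

namespace Pool.Agent.Lib.TV

open Finset Pool.Agent.Lib.EH3 Pool.Agent.Lib.TB Pool.Agent.Lib.TN Pool.Agent.Lib.TM Pool.Agent.Results.MP_00e23e_nt

private lemma Vsq_moeb (m g : ℕ) (hg : 1 ≤ g) :
    ∑ e ∈ g.divisors, (if e ∣ m then ((ArithmeticFunction.moebius e : ℤ) : ℂ) else 0) =
      if m.Coprime g then 1 else 0 := by
  rw [← sum_filter]
  have h1 : g.divisors.filter (fun e => e ∣ m) = (Nat.gcd m g).divisors := by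
    ext e
    simp only [mem_filter, Nat.mem_divisors, Nat.dvd_gcd_iff]
    have : Nat.gcd m g ≠ 0 := (Nat.gcd_pos_of_pos_right m (by omega)).ne'
    constructor
    · rintro ⟨⟨a, b⟩, c⟩
      exact ⟨⟨c, a⟩, this⟩
    · rintro ⟨⟨a, b⟩, c⟩
      exact ⟨⟨b, by omega⟩, a⟩
  rw [h1]
  have h2 : ∑ e ∈ (Nat.gcd m g).divisors, ArithmeticFunction.moebius e =
      if Nat.gcd m g = 1 then 1 else 0 := by
    rw [← ArithmeticFunction.coe_zeta_mul_apply, ArithmeticFunction.coe_zeta_mul_moebius,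
      ArithmeticFunction.one_apply]
  have h3 : (∑ e ∈ (Nat.gcd m g).divisors, ((ArithmeticFunction.moebius e : ℤ) : ℂ)) =
      ((∑ e ∈ (Nat.gcd m g).divisors, ArithmeticFunction.moebius e : ℤ) : ℂ) := by
    push_cast
    rfl
  rw [h3, h2]
  unfold Nat.Coprime
  split_ifs <;> simp

private lemma Vsq_norm_moeb (e : ℕ) : ‖((ArithmeticFunction.moebius e : ℤ) : ℂ)‖ ≤ 1 := by
  rw [Complex.norm_intCast]
  have := ArithmeticFunction.abs_moebius_le_one (n := e)
  exact_mod_cast this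

private lemma Vsq_ceil {T e t : ℕ} (he : 1 ≤ e) : (T + e - 1) / e ≤ t ↔ T ≤ e * t := by
  rw [← Nat.lt_succ_iff, Nat.div_lt_iff_lt_mul (by omega), Nat.succ_mul, mul_comm t e]
  omega

private lemma Vsq_iv_coprime {e q : ℕ} (h : e.Coprime q) (hq : 1 ≤ q) :
    IsCoprime (iv e q : ℤ) (q : ℤ) := by
  obtain ⟨z, hz⟩ := iv_dvd h hq
  exact ⟨e, -z, by linear_combination hz⟩

/-- the sum over the multiples of e -/
private lemma Vsq_Se (h1 : VsrStmt) {q e T1 T2 : ℕ} {c : ℤ} (hq : 1 ≤ q) (hsq : Squarefree q)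
    (hT : T1 ≤ T2) (he : 1 ≤ e) (heq : e.Coprime q) (hc : Int.gcd c q = 1) :
    ‖∑ m ∈ Ico T1 T2, (if e ∣ m ∧ m.Coprime q then ee ((c : ℝ) * (iv m q : ℝ) / q) else 0)‖ ≤
      (((T2 : ℝ) - T1) + 1) / q +
        (q.divisors.card : ℝ) * (q : ℝ) ^ ((1 : ℝ) / 2) * (2 + Real.log q) := by
  have hq0 : (0 : ℝ) < q := by exact_mod_cast hq
  set a := (T1 + e - 1) / e with ha
  set b := (T2 + e - 1) / e with hb
  have hab : a ≤ b := Nat.div_le_div_right (by omega)
  have hcop : Int.gcd (c * (iv e q : ℤ)) q = 1 := by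
    rw [← Int.isCoprime_iff_gcd_eq_one] at hc ⊢
    exact hc.mul_left (Vsq_iv_coprime heq hq)
  have hbij : ∑ m ∈ Ico T1 T2, (if e ∣ m ∧ m.Coprime q then ee ((c : ℝ) * (iv m q : ℝ) / q) else 0)
      = ∑ t ∈ (Ico a b).filter (fun t => t.Coprime q),
        ee (((c * (iv e q : ℤ) : ℤ) : ℝ) * (iv t q : ℝ) / q) := by
    rw [← sum_filter]
    symm
    refine sum_bij (fun t _ => e * t) ?_ ?_ ?_ ?_
    · intro t ht
      simp only [mem_filter, mem_Ico] at ht ⊢
      obtain ⟨⟨h3, h4⟩, h5⟩ := ht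
      refine ⟨⟨(Vsq_ceil he).1 h3, ?_⟩, dvd_mul_right e t, Nat.Coprime.mul_left heq h5⟩
      by_contra hcon
      push Not at hcon
      have := (Vsq_ceil he).2 hcon
      omega
    · intro t _ t' _ h
      exact Nat.eq_of_mul_eq_mul_left (by omega) h
    · intro m hm
      simp only [mem_filter, mem_Ico] at hm
      obtain ⟨⟨h3, h4⟩, ⟨t, rfl⟩, h5⟩ := hm
      refine ⟨t, ?_, rfl⟩
      simp only [mem_filter, mem_Ico]
      refine ⟨⟨(Vsq_ceil he).2 h3, ?_⟩, Nat.Coprime.coprime_mul_left h5⟩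
      by_contra hcon
      push Not at hcon
      have := (Vsq_ceil he).1 hcon
      omega
    · intro t ht
      simp only [mem_filter, mem_Ico] at ht
      obtain ⟨_, h5⟩ := ht
      have h6 : (e * t).Coprime q := Nat.Coprime.mul_left heq h5
      have h7 : (q : ℤ) ∣ (iv e q : ℤ) * (iv t q : ℤ) - iv (e * t) q := by
        refine iv_unique h6 hq ?_
        obtain ⟨z1, hz1⟩ := iv_dvd heq hq
        obtain ⟨z2, hz2⟩ := iv_dvd h5 hq
        refine ⟨z1 * ((iv t q : ℤ) * t) + z2, ?_⟩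
        push_cast
        linear_combination ((iv t q : ℤ) * t) * hz1 + hz2
      have h8 : (q : ℤ) ∣ (c * (iv e q : ℤ)) * (iv t q : ℤ) - c * (iv (e * t) q : ℤ) := by
        have := Dvd.dvd.mul_left h7 c
        rwa [show c * ((iv e q : ℤ) * (iv t q : ℤ) - iv (e * t) q) =
          (c * (iv e q : ℤ)) * (iv t q : ℤ) - c * (iv (e * t) q : ℤ) by ring] at this
      have h9 := ee_congr h8
      push_cast at h9 ⊢
      exact h9
  rw [hbij]
  refine le_trans (h1 q a b _ hq hsq hab hcop) ?_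
  have he' : (1 : ℝ) ≤ e := by exact_mod_cast he
  have h3 : (T1 : ℝ) ≤ e * a := by
    have := (Vsq_ceil (T := T1) (t := a) he).1 le_rfl
    exact_mod_cast this
  have h4 : (b : ℝ) * e ≤ T2 + e - 1 := by
    have h5 : b * e ≤ T2 + e - 1 := Nat.div_mul_le_self _ _
    have h6 : b * e + 1 ≤ T2 + e := by omega
    have h7 : ((b * e + 1 : ℕ) : ℝ) ≤ ((T2 + e : ℕ) : ℝ) := by exact_mod_cast h6
    push_cast at h7
    linarith
  have hT' : (T1 : ℝ) ≤ T2 := by exact_mod_cast hT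
  have h5 : ((b : ℝ) - a) ≤ ((T2 : ℝ) - T1) + 1 := by
    have h6 : ((b : ℝ) - a) * e ≤ (((T2 : ℝ) - T1) + 1) * e := by nlinarith
    exact le_of_mul_le_mul_right h6 (by linarith)
  have h6 : ((b : ℝ) - a) / q ≤ (((T2 : ℝ) - T1) + 1) / q := by
    gcongr
  linarith

theorem tVsq (h1 : VsrStmt) : VsqStmt := by
  intro q T1 T2 c hq hsq hT
  obtain ⟨g, hg⟩ : ∃ g : ℕ, g = Int.gcd c q := ⟨_, rfl⟩
  have hgq : g ∣ q := by
    have : (g : ℤ) ∣ (q : ℤ) := by rw [hg]; exact Int.gcd_dvd_right _ _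
    exact_mod_cast this
  have hgc : (g : ℤ) ∣ c := by rw [hg]; exact Int.gcd_dvd_left _ _
  have hg1 : 1 ≤ g := Nat.pos_of_dvd_of_pos hgq (by omega)
  rw [← hg]
  obtain ⟨q', hq'⟩ := hgq
  obtain ⟨c', hc'⟩ := hgc
  have hq'1 : 1 ≤ q' := by
    rcases Nat.eq_zero_or_pos q' with h | h
    · rw [h, mul_zero] at hq'
      omega
    · exact h
  have hgcd : Int.gcd c' q' = 1 := by
    have h3 : g = g * Int.gcd c' q' := by
      conv_lhs => rw [hg, hc', hq']
      push_cast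
      rw [Int.gcd_mul_left]
      simp
    have h4 : g * Int.gcd c' q' = g * 1 := by omega
    exact Nat.eq_of_mul_eq_mul_left (by omega) h4
  have hcop : g.Coprime q' := by
    rw [hq'] at hsq
    exact Nat.coprime_of_squarefree_mul hsq
  have hsq' : Squarefree q' := by
    rw [hq'] at hsq
    exact hsq.of_mul_right
  have hgR : (0 : ℝ) < g := by exact_mod_cast hg1
  have hq'R : (0 : ℝ) < q' := by exact_mod_cast hq'1
  have hqR : (q : ℝ) = g * q' := by rw [hq']; push_cast; ring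
  -- the pointwise identity
  have hpt : ∀ m : ℕ, m.Coprime q → ee ((c : ℝ) * (iv m q : ℝ) / q) =
      ee ((c' : ℝ) * (iv m q' : ℝ) / q') := by
    intro m hm
    have hmq' : m.Coprime q' := Nat.Coprime.coprime_dvd_right ⟨g, by rw [hq', mul_comm]⟩ hm
    have h3 : (q' : ℤ) ∣ (iv m q : ℤ) - iv m q' := by
      refine iv_unique hmq' hq'1 ?_
      exact dvd_trans ⟨(g : ℤ), by rw [hq']; push_cast; ring⟩ (iv_dvd hm hq)
    have h4 : (q' : ℤ) ∣ c' * (iv m q : ℤ) - c' * (iv m q' : ℤ) := by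
      have := Dvd.dvd.mul_left h3 c'
      rwa [mul_sub] at this
    have h5 := ee_congr h4
    push_cast at h5
    rw [← h5]
    congr 1
    rw [hqR, hc']
    push_cast
    field_simp
  have hsum : ∑ m ∈ (Ico T1 T2).filter (fun m => m.Coprime q), ee ((c : ℝ) * (iv m q : ℝ) / q) =
      ∑ e ∈ g.divisors, ((ArithmeticFunction.moebius e : ℤ) : ℂ) *
        ∑ m ∈ Ico T1 T2, (if e ∣ m ∧ m.Coprime q' then ee ((c' : ℝ) * (iv m q' : ℝ) / q') else 0) := by
    rw [sum_filter]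
    simp_rw [mul_sum]
    rw [sum_comm]
    refine sum_congr rfl fun m _ => ?_
    have h3 := Vsq_moeb m g hg1
    have h4 : m.Coprime q ↔ m.Coprime g ∧ m.Coprime q' := by
      rw [hq']
      exact Nat.coprime_mul_iff_right
    by_cases hm' : m.Coprime q'
    · have h5 : ∑ e ∈ g.divisors, ((ArithmeticFunction.moebius e : ℤ) : ℂ) *
          (if e ∣ m ∧ m.Coprime q' then ee ((c' : ℝ) * (iv m q' : ℝ) / q') else 0) =
          (∑ e ∈ g.divisors, (if e ∣ m then ((ArithmeticFunction.moebius e : ℤ) : ℂ) else 0)) *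
            ee ((c' : ℝ) * (iv m q' : ℝ) / q') := by
        rw [sum_mul]
        refine sum_congr rfl fun e _ => ?_
        by_cases he : e ∣ m
        · rw [if_pos ⟨he, hm'⟩, if_pos he]
        · rw [if_neg (fun h => he h.1), if_neg he, mul_zero, zero_mul]
      rw [h5, h3]
      by_cases hmg : m.Coprime g
      · rw [if_pos (h4.2 ⟨hmg, hm'⟩), if_pos hmg, one_mul]
        exact hpt m (h4.2 ⟨hmg, hm'⟩)
      · rw [if_neg (fun h => hmg (h4.1 h).1), if_neg hmg, zero_mul]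
    · rw [if_neg (fun h => hm' (h4.1 h).2)]
      symm
      refine sum_eq_zero fun e _ => ?_
      rw [if_neg (fun h => hm' h.2), mul_zero]
  have hT' : (T1 : ℝ) ≤ T2 := by exact_mod_cast hT
  set Bd : ℝ := (((T2 : ℝ) - T1) + 1) / q' +
        (q'.divisors.card : ℝ) * (q' : ℝ) ^ ((1 : ℝ) / 2) * (2 + Real.log q') with hBd
  have hbd : ‖∑ m ∈ (Ico T1 T2).filter (fun m => m.Coprime q), ee ((c : ℝ) * (iv m q : ℝ) / q)‖ ≤
      (g.divisors.card : ℝ) * Bd := by
    rw [hsum]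
    refine le_trans (norm_sum_le _ _) ?_
    calc ∑ e ∈ g.divisors, ‖((ArithmeticFunction.moebius e : ℤ) : ℂ) *
          ∑ m ∈ Ico T1 T2, (if e ∣ m ∧ m.Coprime q' then
            ee ((c' : ℝ) * (iv m q' : ℝ) / q') else 0)‖
        ≤ ∑ e ∈ g.divisors, Bd := by
          refine sum_le_sum fun e he => ?_
          have he2 := Nat.dvd_of_mem_divisors he
          have he1 : 1 ≤ e := Nat.pos_of_dvd_of_pos he2 (by omega)
          have h6 := Vsq_Se h1 (c := c') hq'1 hsq' hT he1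
            (Nat.Coprime.coprime_dvd_left he2 hcop) hgcd
          rw [norm_mul]
          calc ‖((ArithmeticFunction.moebius e : ℤ) : ℂ)‖ * _ ≤ 1 * _ :=
                mul_le_mul_of_nonneg_right (Vsq_norm_moeb e) (norm_nonneg _)
            _ ≤ Bd := by rw [one_mul]; exact h6
      _ = (g.divisors.card : ℝ) * Bd := by rw [sum_const, nsmul_eq_mul]
  refine le_trans hbd ?_
  have htau : (q.divisors.card : ℝ) = (g.divisors.card : ℝ) * (q'.divisors.card : ℝ) := by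
    rw [hq', Nat.Coprime.card_divisors_mul hcop]
    push_cast
    ring
  have hdiv : (q : ℝ) / g = q' := by
    rw [hqR]
    field_simp
  have hdiv2 : ((T2 : ℝ) - T1) * g / q = ((T2 : ℝ) - T1) / q' := by
    rw [hqR]
    field_simp
  rw [htau, hdiv, hdiv2, mul_assoc]
  apply mul_le_mul_of_nonneg_left _ (Nat.cast_nonneg _)
  have hτ : (1 : ℝ) ≤ (q'.divisors.card : ℝ) := by
    have : 0 < q'.divisors.card := Finset.card_pos.2 ⟨1, Nat.one_mem_divisors.2 (by omega)⟩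
    exact_mod_cast this
  have hs : (1 : ℝ) ≤ (q' : ℝ) ^ ((1 : ℝ) / 2) :=
    Real.one_le_rpow (by exact_mod_cast hq'1) (by norm_num)
  have hlog0 : 0 ≤ Real.log q' := Real.log_nonneg (by exact_mod_cast hq'1)
  have hlog : Real.log q' ≤ Real.log q := by
    apply Real.log_le_log hq'R
    rw [hqR]
    have : (1 : ℝ) ≤ g := by exact_mod_cast hg1
    nlinarith
  have hinv : 1 / (q' : ℝ) ≤ 1 := by
    rw [div_le_one hq'R]
    exact_mod_cast hq'1
  have hX : 0 ≤ ((T2 : ℝ) - T1) / q' := div_nonneg (by linarith) hq'R.le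
  have e1 : (((T2 : ℝ) - T1) + 1) / q' = ((T2 : ℝ) - T1) / q' + 1 / q' := by ring
  rw [hBd, e1]
  have e2 : ((T2 : ℝ) - T1) / q' ≤ (q'.divisors.card : ℝ) * (((T2 : ℝ) - T1) / q') := by
    nlinarith
  have e3 : (1 : ℝ) ≤ (q'.divisors.card : ℝ) * (q' : ℝ) ^ ((1 : ℝ) / 2) := by nlinarith
  have e4 : (q'.divisors.card : ℝ) * (q' : ℝ) ^ ((1 : ℝ) / 2) * (2 + Real.log q') ≤
      (q'.divisors.card : ℝ) * (q' : ℝ) ^ ((1 : ℝ) / 2) * (2 + Real.log q) :=
    mul_le_mul_of_nonneg_left (by linarith)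
      (mul_nonneg (Nat.cast_nonneg _) (Real.rpow_nonneg hq'R.le _))
  calc ((T2 : ℝ) - T1) / q' + 1 / q' +
        (q'.divisors.card : ℝ) * (q' : ℝ) ^ ((1 : ℝ) / 2) * (2 + Real.log q')
      ≤ (q'.divisors.card : ℝ) * (((T2 : ℝ) - T1) / q') +
        (q'.divisors.card : ℝ) * (q' : ℝ) ^ ((1 : ℝ) / 2) +
        (q'.divisors.card : ℝ) * (q' : ℝ) ^ ((1 : ℝ) / 2) * (2 + Real.log q) := by linarith
    _ = (q'.divisors.card : ℝ) * (((T2 : ℝ) - T1) / q' +
        (q' : ℝ) ^ ((1 : ℝ) / 2) * (3 + Real.log q)) := by ring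

end Pool.Agent.Lib.TV
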