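import Pool.Agent.Lib.TV.SpecV
import Pool.Agent.Lib.TB.Cmp
import Pool.Agent.Lib.TB.Geo

/-! MP_00e23e_nt, Lib/TV: incomplete Kloosterman sums with the exact zero frequency. -/

namespace Pool.Agent.Lib.TV

open Finset Pool.Agent.Lib.EH3 Pool.Agent.Lib.TB Pool.Agent.Lib.TN Pool.Agent.Lib.TM Pool.Agent.Results.MP_00e23e_nt

private lemma Vsr_full {f : ℕ → ℂ} {q : ℕ} (hf : ∀ t, f (t + q) = f t) (a : ℕ) :
    ∑ t ∈ Ico a (a + q), f t = ∑ t ∈ range q, f t := by
  induction a with
  | zero => rw [Nat.zero_add, range_eq_Ico]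
  | succ a ih =>
    rw [← ih]
    rcases Nat.eq_zero_or_pos q with h | h
    · subst h
      simp
    · have e1 := Finset.sum_Ico_consecutive f (show a ≤ a + 1 by omega)
        (show a + 1 ≤ a + 1 + q by omega)
      have e2 := Finset.sum_Ico_consecutive f (show a ≤ a + q by omega)
        (show a + q ≤ a + 1 + q by omega)
      have e3 : ∑ t ∈ Ico a (a + 1), f t = f a := by
        rw [Finset.sum_Ico_succ_top (by omega)]
        simp
      have e4 : ∑ t ∈ Ico (a + q) (a + 1 + q), f t = f a := by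
        rw [show a + 1 + q = a + q + 1 by ring, Finset.sum_Ico_succ_top (by omega)]
        simp [hf]
      rw [e3] at e1
      rw [e4] at e2
      have e5 : f a + ∑ t ∈ Ico (a + 1) (a + 1 + q), f t =
          ∑ t ∈ Ico a (a + q), f t + f a := by rw [e1, e2]
      linear_combination e5

private lemma Vsr_mult {f : ℕ → ℂ} {q : ℕ} (hf : ∀ t, f (t + q) = f t)
    (h0 : ∑ t ∈ range q, f t = 0) (a k : ℕ) : ∑ t ∈ Ico a (a + k * q), f t = 0 := by
  induction k with
  | zero => simp
  | succ k ih =>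
    have e1 := Finset.sum_Ico_consecutive f (show a ≤ a + k * q by omega)
      (show a + k * q ≤ a + k * q + q by omega)
    rw [ih, Vsr_full hf, h0] at e1
    rw [show a + (k + 1) * q = a + k * q + q by ring, ← e1, add_zero]

theorem tVsr (h1 : KsqStmt) (h2 : VrmStmt) : VsrStmt := by
  intro q T1 T2 c hq hsq hT hc
  have hq0 : (0 : ℝ) < q := by exact_mod_cast hq
  have hqC : (q : ℂ) ≠ 0 := by
    have : q ≠ 0 := by omega
    exact_mod_cast this
  rw [sum_filter]
  set f : ℕ → ℂ := fun x : ℕ => if x.Coprime q then ee ((c : ℝ) * (iv x q : ℝ) / q) else 0 with hf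
  have hper : ∀ t, f (t + q) = f t := by
    intro t
    have e : t + q ≡ t [MOD q] := by
      simp [Nat.ModEq]
    have hc : (t + q).Coprime q ↔ t.Coprime q := by
      unfold Nat.Coprime
      rw [e.gcd_eq]
    change (if (t + q).Coprime q then ee ((c : ℝ) * (iv (t + q) q : ℝ) / q) else 0) =
      if t.Coprime q then ee ((c : ℝ) * (iv t q : ℝ) / q) else 0
    rw [iv_congr e]
    by_cases h : t.Coprime q
    · rw [if_pos h, if_pos (hc.2 h)]
    · rw [if_neg h, if_neg (fun h' => h (hc.1 h'))]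
  have hkl : ∀ j : ℕ, ∑ x ∈ range q, f x * ee ((j : ℝ) * x / q) = kl c j q := by
    intro j
    unfold kl
    rw [sum_filter]
    refine sum_congr rfl (fun x _ => ?_)
    simp only [hf]
    by_cases h : x.Coprime q
    · rw [if_pos h, if_pos h, ← ee_add]
      congr 1
      push_cast
      ring
    · rw [if_neg h, if_neg h, zero_mul]
  have hsum : ∑ x ∈ range q, f x = kl c 0 q := by
    have := hkl 0
    simp only [Nat.cast_zero, zero_mul, zero_div, ee_zero, mul_one] at this
    exact_mod_cast this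
  set A : ℂ := (1 / (q : ℂ)) * kl c 0 q with hA
  have hAn : ‖A‖ ≤ 1 / q := by
    rw [hA, norm_mul, norm_div, norm_one, Complex.norm_natCast]
    have := h2 q c hq hc
    have h0 : (0 : ℝ) ≤ 1 / q := by positivity
    calc 1 / (q : ℝ) * ‖kl c 0 q‖ ≤ 1 / (q : ℝ) * 1 := mul_le_mul_of_nonneg_left this h0
      _ = 1 / q := mul_one _
  have hqA : (q : ℂ) * A = kl c 0 q := by
    rw [hA]
    field_simp
  set f0 : ℕ → ℂ := fun x => f x - A with hf0
  have hper0 : ∀ t, f0 (t + q) = f0 t := fun t => by simp only [hf0, hper t]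
  have hz0 : ∑ t ∈ range q, f0 t = 0 := by
    simp only [hf0]
    rw [sum_sub_distrib, hsum, sum_const, card_range, nsmul_eq_mul, hqA, sub_self]
  set B : ℝ := (q.divisors.card : ℝ) * (q : ℝ) ^ ((1 : ℝ) / 2) with hB
  have hB0 : 0 ≤ B := by positivity
  have hcoef : ∀ j ∈ range q, ‖∑ x ∈ range q, f0 x * ee ((j : ℝ) * x / q)‖ ≤ B := by
    intro j hj
    rcases Nat.eq_zero_or_pos j with h | h
    · subst h
      simp only [Nat.cast_zero, zero_mul, zero_div, ee_zero, mul_one]
      rw [hz0, norm_zero]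
      exact hB0
    · have e1 : ∑ x ∈ range q, ee ((j : ℝ) * x / q) = 0 := by
        have h3 := orth (show 0 < q by omega) (j : ℤ)
        have h4 : ¬ ((q : ℤ) ∣ (j : ℤ)) := by
          intro hd
          have := Int.le_of_dvd (by exact_mod_cast h) hd
          have h5 := mem_range.1 hj
          omega
        rw [if_neg h4] at h3
        rw [← h3]
        refine sum_congr rfl fun x _ => ?_
        congr 1
        push_cast
        ring
      have e2 : ∑ x ∈ range q, f0 x * ee ((j : ℝ) * x / q) = kl c j q := by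
        simp only [hf0, sub_mul]
        rw [sum_sub_distrib, hkl, ← mul_sum, e1, mul_zero, sub_zero]
      rw [e2]
      have h6 := h1 q c j hq hsq
      rw [hc] at h6
      simp only [Nat.cast_one, Real.one_rpow, mul_one] at h6
      exact h6
  have hlog : 0 ≤ Real.log q := Real.log_nonneg (by exact_mod_cast hq)
  have hf0sum : ‖∑ t ∈ Ico T1 T2, f0 t‖ ≤ B * (2 + Real.log q) := by
    have hdm := Nat.mod_add_div (T2 - T1) q
    set r := (T2 - T1) % q with hr
    set k := (T2 - T1) / q with hk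
    have hrq : r < q := Nat.mod_lt _ (by omega)
    have e0 : T2 = T1 + r + k * q := by
      rw [mul_comm] at hdm
      omega
    have e1 := Finset.sum_Ico_consecutive f0 (show T1 ≤ T1 + r by omega)
      (show T1 + r ≤ T1 + r + k * q by omega)
    rw [Vsr_mult hper0 hz0, add_zero, ← e0] at e1
    rw [← e1]
    have e2 := tCmp tGeo f0 q T1 (T1 + r) B hq (by omega) hper0 hcoef
    refine le_trans e2 (mul_le_mul_of_nonneg_left ?_ hB0)
    have e3 : (((T1 + r : ℕ) : ℝ) - T1) / q ≤ 1 := by
      rw [div_le_one hq0]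
      push_cast
      have : (r : ℝ) ≤ q := by exact_mod_cast hrq.le
      linarith
    linarith
  have hfin : ∑ t ∈ Ico T1 T2, f t = ∑ t ∈ Ico T1 T2, f0 t + ((T2 : ℂ) - T1) * A := by
    simp only [hf0]
    rw [sum_sub_distrib, sum_const, Nat.card_Ico, nsmul_eq_mul, Nat.cast_sub hT]
    ring
  have hAT : ‖((T2 : ℂ) - T1) * A‖ ≤ ((T2 : ℝ) - T1) / q := by
    have h7 : (T1 : ℝ) ≤ T2 := by exact_mod_cast hT
    have h8 : ‖((T2 : ℂ) - T1)‖ = (T2 : ℝ) - T1 := by
      rw [show ((T2 : ℂ) - T1) = (((T2 : ℝ) - T1 : ℝ) : ℂ) by push_cast; ring,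
        Complex.norm_real, Real.norm_eq_abs, abs_of_nonneg (by linarith)]
    rw [norm_mul, h8]
    calc ((T2 : ℝ) - T1) * ‖A‖ ≤ ((T2 : ℝ) - T1) * (1 / q) :=
          mul_le_mul_of_nonneg_left hAn (by linarith)
      _ = ((T2 : ℝ) - T1) / q := by ring
  have hgoal : ‖∑ t ∈ Ico T1 T2, f t‖ ≤ ((T2 : ℝ) - T1) / q + B * (2 + Real.log q) := by
    rw [hfin]
    refine le_trans (norm_add_le _ _) ?_
    linarith
  exact hgoal

end Pool.Agent.Lib.TV
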