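import Pool.Agent.Lib.TV.StmV

/-!
MP_00e23e_nt, directory Lib/TV, part T of THEOREM V (helper3): the trilinear form of a family with the better bound.
Final statement UpvStmt (Lib/TV/StmV.lean).

RULES. Module X: file Pool/Agent/Lib/TV/X.lean, first line `import Pool.Agent.Lib.TV.SpecV`, then
`namespace Pool.Agent.Lib.TV` and `open Finset Pool.Agent.Lib.EH3 Pool.Agent.Lib.TB Pool.Agent.Lib.TN Pool.Agent.Lib.TM Pool.Agent.Results.MP_00e23e_nt`,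
private lemmas with names starting with X_, final theorem `theorem tX (h1 : AStmt) ... : XStmt`; the statements listed
under Uses are hypotheses of your theorem, in this order. The docstring contains a complete proof. Some modules are small
changes of a module of Lib/TM (given as MODEL): copy the file and change it. Basic lemmas: iv_mul, iv_dvd, iv_congr,
iv_unique, ee_congr, ee_add_int in TB/Basic.lean, ee_add, ee_int, norm_ee, conj_ee in EH3/LS1.lean. kl: TB/SpecK.lean.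
Never use congr!. Every module below 60 s.
-/

namespace Pool.Agent.Lib.TV

open Finset Pool.Agent.Lib.EH3 Pool.Agent.Lib.TB Pool.Agent.Lib.TN Pool.Agent.Lib.TM Pool.Agent.Results.MP_00e23e_nt

/-- Module Vrm (theorem tVrm; Ramanujan's sum). Uses: nothing.
Proof. The map x ↦ (c * iv x q) mod q is a bijection of the x < q coprime to q onto themselves (Int.gcd c q = 1; iv x q is an inverse of x mod q,
iv_dvd), so kl c 0 q = ∑_{y < q, (y, q) = 1} ee(y/q) =: R(q) (ee_congr). R(q) = ∑_{e | q} μ(e) ∑_{z < q/e} ee(z/(q/e)) (1_{(y,q)=1} = ∑_{e | (y,q)} μ(e), y = e z), and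
the inner sum is 0 unless q/e = 1 (orthogonality, e.g. orth in EH3, or the geometric sum), so R(q) = μ(q). (Or: the divisors d of q: ∑_{d | q} R(d) = ∑_{y < q} ee(y/q) = [q = 1],
Möbius inversion, or strong induction.) |μ(q)| ≤ 1. -/
def VrmStmt : Prop := ∀ (q : ℕ) (c : ℤ), 1 ≤ q → Int.gcd c q = 1 → ‖kl c 0 q‖ ≤ 1

/-- Module Vsr (theorem tVsr; incomplete sums with c coprime to q). Uses: KsqStmt, VrmStmt. MODEL: TN/Isq.lean. (Import also TB/Cmp.lean: tCmp, and TB/Geo.lean: tGeo.)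
Proof. f x = if x coprime to q then ee(c iv x q/q) else 0 is periodic with period q, and ∑_{x < q} f x ee(j x/q) = kl c j q (see TN/Isq.lean). Let A = (1/q) ∑_{x < q} f x =
(1/q) kl c 0 q, ‖A‖ ≤ 1/q (VrmStmt), and f0 x = f x - A. For j ∈ range q: the coefficient ∑_{x < q} f0 x ee(j x/q) is 0 for j = 0 and kl c j q for j ≠ 0 (∑_{x<q} ee(j x/q) = 0), so its norm is
≤ B = τ(q) q^(1/2) (KsqStmt, gcd = 1). Let T2 - T1 = k q + r, r < q. The sum of f0 over the k full periods Ico (T1 + r) T2 is 0 (periodic and ∑_{x < q} f0 x = 0), and tCmp tGeo for f0 on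
Ico T1 (T1 + r): ≤ B (r/q + 1 + log q) ≤ B (2 + log q). Finally ∑ f = ∑ f0 + A (T2 - T1). -/
def VsrStmt : Prop := ∀ (q T1 T2 : ℕ) (c : ℤ), 1 ≤ q → Squarefree q → T1 ≤ T2 → Int.gcd c q = 1 →
  ‖∑ m ∈ (Ico T1 T2).filter (fun m => m.Coprime q), ee ((c : ℝ) * (iv m q : ℝ) / q)‖ ≤
    ((T2 : ℝ) - T1) / q + (q.divisors.card : ℝ) * (q : ℝ) ^ ((1 : ℝ) / 2) * (2 + Real.log q)

/-- Module Vsq (theorem tVsq; incomplete sums, general c). Uses: VsrStmt.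
Proof. g = Int.gcd c q, q = g q', c = g c' (c' integer), Int.gcd c' q' = 1, g coprime to q' (q squarefree). For m coprime to q: ee(c iv m q/q) = ee(c' iv m q/q') =
ee(c' iv m q'/q') because q' | iv m q - iv m q' (iv_unique), and m is coprime to q iff it is coprime to g and to q'. 1_{(m,g)=1} = ∑_{e | g, e | m} μ(e), so the sum is
∑_{e | g} μ(e) S_e, S_e = ∑_{m ∈ Ico T1 T2, e | m, (m,q')=1} ee(c' iv m q'/q'). m = e t, t ∈ Ico ⌈T1/e⌉ ⌈T2/e⌉ ((T1 + e - 1)/e in ℕ), (e, q') = 1, so (m, q') = 1 iff (t, q') = 1, and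
iv (e t) q' ≡ iv e q' iv t q' mod q' (iv_mul), so ee(..) = ee(c'' iv t q'/q'), c'' = c' iv e q', Int.gcd c'' q' = 1. VsrStmt: ‖S_e‖ ≤ len/q' + τ(q') q'^(1/2) (2 + log q'), len ≤ (T2-T1)/e + 1 ≤
(T2 - T1) + 1. Sum over the τ(g) divisors e: ≤ τ(g) τ(q') ((T2-T1)/q' + q'^(1/2) (3 + log q)) (1/q' ≤ 1 ≤ q'^(1/2), τ(q') ≥ 1), τ(g) τ(q') = τ(q) (Nat.Coprime.card_divisors_mul), 1/q' = g/q. -/
def VsqStmt : Prop := ∀ (q T1 T2 : ℕ) (c : ℤ), 1 ≤ q → Squarefree q → T1 ≤ T2 →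
  ‖∑ m ∈ (Ico T1 T2).filter (fun m => m.Coprime q), ee ((c : ℝ) * (iv m q : ℝ) / q)‖ ≤
    (q.divisors.card : ℝ) * (((T2 : ℝ) - T1) * (Int.gcd c q : ℝ) / q +
      ((q : ℝ) / (Int.gcd c q : ℝ)) ^ ((1 : ℝ) / 2) * (3 + Real.log q))

/-- Module Vim (theorem tVim; the inner sum). Uses: VsqStmt, UphStmt. MODEL: TM/Uim.lean (only the bound of the sums over subintervals changes). (Import also TB/Psm.lean: tPsm.)
Proof. As TM/Uim.lean. For a subinterval Ico T1 T2 of Ico (P+1) (3P+1): VsqStmt with q = q0 = r lcm(s1, s2) squarefree, q0 ≥ r s1 > P, g = gcd(kM, q0) ≥ 1: the sum has norm ≤ τ(q0) (2P g/q0 +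
(q0/g)^(1/2) (3 + log q0)) ≤ τ(q0) (2 g + q0^(1/2) (3 + log q0)) =: B. Partial summation (tPsm): ‖ImM‖ ≤ B (1 + 2π H |τ|/P^2) ≤ 7 B (1 + H |τ|/P^2). -/
def VimStmt : Prop := ∀ (P H : ℕ) (θ1 θ2 : ℤ) (τ : ℝ) (r s1 s2 h1 h2 : ℕ), 1 ≤ P → h1 ≤ H → h2 ≤ H → P < r * s1 →
  P < r * s2 → Squarefree (r * s1) → Squarefree (r * s2) →
  ‖ImM P θ1 θ2 τ r s1 s2 h1 h2‖ ≤ 7 * (1 + (H : ℝ) * |τ| / (P : ℝ) ^ 2) *
    (((q0 r s1 s2).divisors.card : ℝ) * (2 * (Int.gcd (kM θ1 θ2 h1 h2 s1 s2) (q0 r s1 s2) : ℝ) +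
      ((q0 r s1 s2 : ℕ) : ℝ) ^ ((1 : ℝ) / 2) * (3 + Real.log (q0 r s1 s2 : ℕ))))

/-- Module Vdg (theorem tVdg; the weighted diagonal). Uses: nothing. (Import also TB/Tauk.lean: tTauk. See TM/Udg.lean.)
Proof. Write Y = γ θ a b1 = e (b1 - a), Z = γ θ a b2 = e (b2 - a) (nonzero integers, |Y|, |Z| ≤ X; Y - Z = e (b1 - b2)). kM = 0 iff θ1 h1 s2 = θ2 h2 s1 (as in TM/Udg.lean) iff
Y h1 s2 = Z h2 s1 (*). The condition is symmetric under (b1, s1, h1) ↔ (b2, s2, h2), and w1 w2 ≤ (w1^2 + w2^2)/2 (w_i = w b_i s_i ≥ 0), so the sum is at most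
∑_{(b1, s1), b1 ∈ A, s1 ∈ Ico S 2S} (w b1 s1)^2 N(b1, s1), N(b1, s1) = the number of (a, b2, s2, h1, h2), a ∈ A, b1, b2 ∈ B a, s2 ∈ Ico S 2S, h1, h2 ∈ Icc 1 H, with (*). Bound of N(b1, s1):
(i) b2 = b1: Y = Z, h1 s2 = h2 s1: |A| H choices of (a, h2), then h1 and s2 are divisors of h2 s1 ≥ 1 and s2 = h2 s1/h1: τ(h2 s1) choices.
(ii) b2 ≠ b1: |A| H choices of (b2, h2). From (*): Y (h2 s1 - h1 s2) = (Y - Z) h2 s1 = e (b1 - b2) h2 s1 =: n0 ≠ 0, |n0| ≤ 2X H 2S. So Y is a (positive or negative) divisor of n0: at most 2 τ(|n0|)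
choices of Y, and a = b1 - e Y (e^2 = 1). Then Z = Y - e (b1 - b2) is determined and h1 s2 = Z h2 s1/Y =: n1 is a fixed number, 1 ≤ n1 ≤ 2 H S; h1 is a divisor of n1 and s2 = n1/h1: τ(n1) choices.
(Formally: the map (a, b2, s2, h1, h2) ↦ (b2, h2, Y or |Y| and its sign, h1) is injective on the set of case (ii), with image in A × Icc 1 H × {divisors of |n0|} × {±1} × {divisors of n1}; you may also
count by nested sums.) τ(n) ≤ C n^(ε/2) (tTauk), so N(b1, s1) ≤ C (X H S)^ε |A| H. -/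
def VdgStmt : Prop := ∀ ε : ℝ, 0 < ε → ∃ C : ℝ, 0 ≤ C ∧ ∀ (S H γ : ℕ) (X : ℝ) (e : ℤ) (A : Finset ℤ) (B : ℤ → Finset ℤ)
    (θ : ℤ → ℤ → ℤ) (w : ℤ → ℕ → ℝ), 1 ≤ S → 1 ≤ H → 1 ≤ γ → 1 ≤ X → IsTh γ e X A B θ → (∀ b s, 0 ≤ w b s) →
  ∑ a ∈ A, ∑ b1 ∈ B a, ∑ b2 ∈ B a, ∑ s1 ∈ Ico S (2 * S), ∑ s2 ∈ Ico S (2 * S), ∑ h1 ∈ Icc 1 H, ∑ h2 ∈ Icc 1 H,
    w b1 s1 * w b2 s2 * (if kM (θ a b1) (θ a b2) h1 h2 s1 s2 = 0 then (1 : ℝ) else 0) ≤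
    C * (X * H * S) ^ ε * ((A.card : ℝ) * H * ∑ b ∈ A, ∑ s ∈ Ico S (2 * S), w b s ^ 2)

/-- Module Vtr (theorem tVtr; the trilinear form of the family). Uses: UcsStmt, VimStmt, VdgStmt, UgfStmt. MODEL: TM/Utr.lean (or TN/Tri.lean). (Import also TB/Tauk.lean.)
Proof. R = 3P/S ≤ 3P/S as reals, V = 1 + H τ0/P^2 ≥ 1 + H |τ a|/P^2, K ≥ 0, W ≥ 0. From IsTh and γ ≥ 1: θ a b ≠ 0 and |θ a b| ≤ X for b ∈ B a. For b1, b2 ∈ B a ⊆ A and r, s1, s2 with β b1 r s1, β b2 r s2 ≠ 0: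
P < r s_i ≤ 3P, squarefree, q0 ≤ r s1 s2 ≤ 6 P S ≤ 6 P^2. If kM = 0: ‖ImM‖ ≤ 2P. If kM ≠ 0: VimStmt and τ(q0) (3 + log q0) ≤ C2 P^ε': ‖ImM‖ ≤ 7 V C2 P^ε' (2 g + (6 P S)^(1/2)), g = gcd(kM, q0). So
‖β1‖‖β2‖‖ImM‖ ≤ 2P ‖β1‖‖β2‖ [kM = 0] + 14 V C2 P^ε' [kM ≠ 0] g + 7 V C2 P^ε' (6PS)^(1/2) ‖β1‖‖β2‖ (‖β‖ ≤ 1). Sum over everything:
(1) for every r: VdgStmt with w b s = ‖β b r s‖, ∑_{b ∈ A} ∑_{s ∈ Ico S 2S} w^2 ≤ S K (w ≤ 1, ∑_b w ≤ K): total ≤ 2P R C1 (X H S)^ε' W H S K;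
(2) for every (a, b1, b2) (at most W^3 triples): UgfStmt: total ≤ 14 V C2 P^ε' W^3 C3 (X H S)^ε' R S^2 H^2;
(3) ∑_a ∑_r ∑_{s1, s2, h1, h2} (∑_{b1 ∈ B a} ‖β b1 r s1‖)(∑_{b2 ∈ B a} ‖β b2 r s2‖) ≤ W R S^2 H^2 K^2: total ≤ 7 V C2 P^ε' (6PS)^(1/2) W R S^2 H^2 K^2.
UcsStmt: ‖TfM‖^2 ≤ K 2P R ((1) + (2) + (3)), R^2 ≤ 9 P^2/S^2: (1) gives 36 C1 (..)^ε' K^2 W P^4 H/S, (2) gives 252 C2 C3 V (..)^(2ε') K W^3 P^3 H^2, (3) gives 126 C2 V (..)^ε' 6^(1/2) K^3 W H^2 P^(7/2) S^(1/2).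
ε' = ε/2; X H S ≤ P H X, V ≥ 1. -/
def VtrStmt : Prop := ∀ ε : ℝ, 0 < ε → ∃ C : ℝ, 0 ≤ C ∧ ∀ (P S H γ : ℕ) (K W X τ0 : ℝ) (e : ℤ) (A : Finset ℤ)
    (B : ℤ → Finset ℤ) (α : ℤ → ℕ → ℂ) (β : ℤ → ℕ → ℕ → ℂ) (θ : ℤ → ℤ → ℤ) (τ : ℤ → ℝ),
  1 ≤ P → 1 ≤ S → 1 ≤ H → 1 ≤ γ → S ≤ P → (∀ a m, ‖α a m‖ ≤ 1) → (∀ m, ∑ a ∈ A, ‖α a m‖ ≤ K) →
  (∀ b r s, ‖β b r s‖ ≤ 1) → (∀ r s, ∑ b ∈ A, ‖β b r s‖ ≤ K) →
  (∀ b r s, β b r s ≠ 0 → P < r * s ∧ r * s ≤ 3 * P ∧ Squarefree (r * s)) →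
  (A.card : ℝ) ≤ W → IsTh γ e X A B θ → 1 ≤ X → (∀ a ∈ A, |τ a| ≤ τ0) → 0 ≤ τ0 →
  ‖TfM P S H A B α β θ τ‖ ^ 2 ≤ C * ((P : ℝ) * H * X) ^ ε * (1 + (H : ℝ) * τ0 / (P : ℝ) ^ 2) *
    (K ^ 2 * W * ((P : ℝ) ^ 4 * H / S) + K * W ^ 3 * ((P : ℝ) ^ 3 * (H : ℝ) ^ 2) +
      K ^ 3 * W * ((H : ℝ) ^ 2 * ((P : ℝ) ^ ((7 : ℝ) / 2) * (S : ℝ) ^ ((1 : ℝ) / 2))))

/-- Module Vpg (theorem tVpg). FINAL STATEMENT UpvStmt (TV/StmV.lean). Uses: VtrStmt, UdyStmt. MODEL: TM/Upg.lean. (Import also TN/Psl.lean: tPsl : PslStmt.)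
Proof. As TM/Upg.lean with VtrStmt in place of UtrStmt. For a dyadic block S with a nonzero coefficient: S ≤ L2 ≤ P and 1/S ≤ 2γ/L1, so ‖TfM_j‖^2 ≤ C (P H X)^ε' V P^4 (2 K^2 W H γ/L1 +
K W^3 H^2/P + K^3 W H^2 (L2/P)^(1/2)) (P^(7/2) S^(1/2) = P^4 (S/P)^(1/2)). Sum over j, divide by P^4, J^2 ≤ C P^(2ε'), P ≤ Q, ε' = ε/3. -/
def UpvStmt' : Prop := UpvStmt

end Pool.Agent.Lib.TV
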