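import Pool.Agent.Lib.TM.StmM
import Pool.Agent.Lib.TM.SpecU

/-!
MP_00e23e_nt, directory Lib/TV (THEOREM V, helper3): Theorem M with a better dependence on the number of values:
exponents 2 δ + v - g + ε and 1/2 - 7 δ - 2 v - ε, nonempty for 9 δ + 3 v - g < 1/2 (v up to 1/6). Interfaces. Directories
Lib/TN and Lib/TM are used as they are. The statements EEAt, OffAt, TAt have general exponents e1, e2, so that parts M and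
the assembly are done once.
-/

namespace Pool.Agent.Lib.TV

open Finset Pool.Agent.Lib.EH3 Pool.Agent.Lib.TB Pool.Agent.Lib.TN Pool.Agent.Lib.TM Pool.Agent.Results.MP_00e23e_nt

/-- the b ∈ B a are different from a and γ | b - a; θ a b is (b - a)/γ or (a - b)/γ -/
def IsTh (γ : ℕ) (e : ℤ) (X : ℝ) (A : Finset ℤ) (B : ℤ → Finset ℤ) (θ : ℤ → ℤ → ℤ) : Prop :=
  (e = 1 ∨ e = -1) ∧ (∀ a ∈ A, B a ⊆ A) ∧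
    ∀ a ∈ A, ∀ b ∈ B a, (γ : ℤ) * θ a b = e * (b - a) ∧ b ≠ a ∧ |((b - a : ℤ) : ℝ)| ≤ X

/-- the multilinear form for the pairs (γ m, γ n) (part T, helper3) -/
def UpvStmt : Prop := ∀ ε : ℝ, 0 < ε → ∃ C : ℝ, 0 ≤ C ∧ ∀ (Q γ H : ℕ) (L1 L2 K W X τ0 : ℝ) (e : ℤ) (A : Finset ℤ)
    (B : ℤ → Finset ℤ) (c : ℤ → ℕ → ℝ) (θ : ℤ → ℤ → ℤ) (τ : ℤ → ℝ),
  1 ≤ γ → γ ≤ Q → 1 ≤ H → 1 ≤ L1 → L1 ≤ L2 → L2 ≤ ((Q / γ : ℕ) : ℝ) → IsCf A K c →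
  (∀ a d, c a d ≠ 0 → Conv L1 L2 d) → (A.card : ℝ) ≤ W → IsTh γ e X A B θ → 1 ≤ X →
  (∀ a ∈ A, |τ a| ≤ τ0) → 0 ≤ τ0 →
  ‖∑ a ∈ A, ∑ b ∈ B a, ∑ h ∈ Icc 1 H, pg Q γ (fun m n => ((c a (γ * m) * c b (γ * n) : ℝ) : ℂ) *
      (1 / ((m : ℂ) * n)) * eB ((h : ℤ) * θ a b) ((h : ℝ) * τ a) m n)‖ ^ 2 ≤
    C * ((Q : ℝ) * H * X) ^ ε * (1 + (H : ℝ) * τ0 / ((Q / γ : ℕ) : ℝ) ^ 2) *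
      (K ^ 2 * W * ((H : ℝ) * γ / L1) + K * W ^ 3 * ((H : ℝ) ^ 2 / ((Q / γ : ℕ) : ℝ)) +
        K ^ 3 * W * ((H : ℝ) ^ 2 * (L2 / ((Q / γ : ℕ) : ℝ)) ^ ((1 : ℝ) / 2)))

/-- the sum of the error terms of the pairs (d, d') for the whole family, exponents e1, e2 -/
def EEAt (δ v g e1 e2 : ℝ) : Prop :=
  ∃ (j : ℕ) (C η κ : ℝ) (N0 : ℕ), 0 < η ∧ 0 < κ ∧ ∀ (N Q : ℕ) (L1 L2 K : ℝ) (A : Finset ℤ) (c : ℤ → ℕ → ℝ),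
    N0 ≤ N → 1 ≤ N →
    (N : ℝ) ^ ((1 : ℝ) / 2 - κ) ≤ Q → (Q : ℝ) ≤ 2 * (N : ℝ) ^ ((1 : ℝ) / 2 + δ) →
    (N : ℝ) ^ e1 ≤ L1 → L2 ≤ (N : ℝ) ^ e2 →
    IsCf A K c → (∀ a d, c a d ≠ 0 → Conv L1 L2 d) → (A.card : ℝ) ≤ K * (N : ℝ) ^ v → (N : ℝ) ^ g ≤ K →
    (∀ a ∈ A, |a| ≤ (N : ℤ)) →
    |∑ a ∈ A, ∑ b ∈ A.erase a, ∑ d ∈ Ioc Q (2 * Q), ∑ d' ∈ Ioc Q (2 * Q),
        c a d * c b d' * (SSN N j d d' a b - MM N d d' a b)| ≤ C * K ^ 2 * (N : ℝ) ^ (1 - η)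

/-- (OFF) for the whole family, exponents e1, e2 -/
def OffAt (δ v g ε e1 e2 : ℝ) : Prop :=
  ∃ (j : ℕ) (C η κ : ℝ), 0 < η ∧ 0 < κ ∧ ∀ (N Q : ℕ) (L1 L2 K : ℝ) (A : Finset ℤ) (c : ℤ → ℕ → ℝ), 1 ≤ N →
    (N : ℝ) ^ ((1 : ℝ) / 2 - κ) ≤ Q → (Q : ℝ) ≤ 2 * (N : ℝ) ^ ((1 : ℝ) / 2 + δ) →
    (N : ℝ) ^ e1 ≤ L1 → L2 ≤ (N : ℝ) ^ e2 →
    IsCf A K c → (∀ a d, c a d ≠ 0 → Conv L1 L2 d) → (A.card : ℝ) ≤ K * (N : ℝ) ^ v → (N : ℝ) ^ g ≤ K →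
    (∀ a ∈ A, |a| ≤ (N : ℤ)) →
    |∑ a ∈ A, ∑ b ∈ A.erase a, ∑ n ∈ Iw N j,
        wt N j n * (FF (RN δ ε N) Q (c a) (n - a) * FF (RN δ ε N) Q (c b) (n - b))| ≤ C * K ^ 2 * (N : ℝ) ^ (1 - η)

/-- the final statement, exponents e1, e2 -/
def TAt (δ v g e1 e2 : ℝ) : Prop := ∃ k : ℝ, ∀ U : ℝ, 0 < U → ∃ C : ℝ,
  ∀ (x : ℝ) (J : Finset ℕ) (s : ℕ → ℕ → ℤ), 3 ≤ x →
  (∀ i ∈ J, ∀ d ∈ Icc 1 ⌊x ^ ((1 : ℝ) / 2 + δ)⌋₊, |(s i d : ℝ)| ≤ x) →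
  (∀ i ∈ J, (((Icc 1 ⌊x ^ ((1 : ℝ) / 2 + δ)⌋₊).image (s i)).card : ℝ) ≤ x ^ v) →
  (∀ i ∈ J, ∀ j ∈ J, i ≠ j → ∀ d ∈ Icc 1 ⌊x ^ ((1 : ℝ) / 2 + δ)⌋₊, s i d ≠ s j d) →
  ∃ S ⊆ J, (S.card : ℝ) ≤ C * x ^ g * (Real.log x) ^ (5 * U + k) ∧ ∀ i ∈ J, i ∉ S →
    ∀ (y : ℕ → ℝ) (M : Finset ℕ), (∀ d, 2 ≤ y d ∧ y d ≤ x) →
      (∀ d ∈ M, 1 ≤ d ∧ (d : ℝ) ≤ x ^ ((1 : ℝ) / 2 + δ) ∧ Int.gcd (s i d) d = 1 ∧ Conv (x ^ e1) (x ^ e2) d) →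
      ∑ d ∈ M, |resErr (y d) d (s i d)| ≤ C * (x / (Real.log x) ^ U)

/-- part G (helper95): the exponents of Theorem V -/
def EEVStmt : Prop := ∀ δ v g ε : ℝ, 0 ≤ δ → 0 ≤ v → 0 ≤ g → g ≤ 2 * δ → 0 < ε →
  2 * δ + v - g + ε ≤ 1 / 2 - 7 * δ - 2 * v - ε → EEAt δ v g (2 * δ + v - g + ε) (1 / 2 - 7 * δ - 2 * v - ε)

/-- part M (helper19): generic -/
def OffAtStmt : Prop := ∀ δ v g ε e1 e2 : ℝ, 0 ≤ δ → 0 ≤ v → 0 ≤ g → 0 < ε → 2 * v + δ + ε < 1 / 2 →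
  EEAt δ v g e1 e2 → OffAt δ v g ε e1 e2

/-- assembly (helper64): generic -/
def TAtStmt : Prop := ∀ δ v g ε e1 e2 f1 f2 : ℝ, 0 ≤ δ → 0 ≤ v → 0 ≤ g → 0 < ε → δ + ε < 1 / 2 → e1 < f1 → f2 < e2 →
  OffAt δ v g ε e1 e2 → TAt δ v g f1 f2

/-- **THEOREM V** (final statement) -/
def TVStmt : Prop := ∀ δ v g ε : ℝ, 0 ≤ δ → 0 ≤ v → 0 ≤ g → g ≤ 2 * δ → 0 < ε →
  TAt δ v g (2 * δ + v - g + ε) (1 / 2 - 7 * δ - 2 * v - ε)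

end Pool.Agent.Lib.TV
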