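import Pool.Agent.Lib.TV.DulV
import Pool.Agent.Lib.TV.StmV
import Pool.Agent.Lib.TN.CntN

/-!
# TV: the number of bad functions of a family (duality), off-diagonal terms of the whole family
-/

namespace Pool.Agent.Lib.TV

open Finset Pool.Agent.Lib.TB Pool.Agent.Lib.TN Pool.Agent.Lib.TM Pool.Agent.Results.MP_00e23e_nt

/-- A family `T` of functions, pairwise distinct at every modulus, whose block sums are at least `V`. -/
theorem CntV_bad {C₂ E L1 L2 M : ℝ} {k : ℕ} (hWb : WbStmt)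
    (hdia : ∀ (N R Q : ℕ) (c : ℤ → ℕ → ℝ) (A : Finset ℤ) (K : ℝ),
      2 ≤ N → R ≤ N → Q ≤ N → (∀ a ∈ A, ∀ d, |c a d| ≤ 1) → (∀ d, ∑ a ∈ A, |c a d| ≤ K) →
      (∀ a ∈ A, |a| ≤ (N : ℤ)) →
      ∑ a ∈ A, ∑ n ∈ Icc (-(N : ℤ)) N, tri N n * (FF R Q (c a) (n - a)) ^ 2 ≤
        C₂ * K * (N : ℝ) * (Real.log N) ^ k)
    (hC₂ : 0 ≤ C₂) (hE : 0 ≤ E)
    {N R Q j : ℕ} (hN : 1 ≤ N) (hR : R ≤ N) (hQN : Q ≤ N)
    {G : ℝ}
    (hoff : ∀ (c : ℤ → ℕ → ℝ) (A : Finset ℤ) (K : ℝ), G ≤ K → IsCf A K c →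
      (∀ a d, c a d ≠ 0 → Conv L1 L2 d) → (A.card : ℝ) ≤ K * M → (∀ a ∈ A, |a| ≤ (N : ℤ)) →
      |∑ a ∈ A, ∑ b ∈ A.erase a, ∑ n ∈ Iw N j,
        wt N j n * (FF R Q (c a) (n - a) * FF R Q (c b) (n - b))| ≤ E * K ^ 2)
    (T : Finset ℕ) (hTG : G ≤ (T.card : ℝ)) (s : ℕ → ℕ → ℤ) (Ms : ℕ → Finset ℕ)
    (hMs : ∀ i ∈ T, ∀ d ∈ Ms i, Conv L1 L2 d)
    (hsN : ∀ i ∈ T, ∀ d ∈ Ms i, |s i d| ≤ (N : ℤ))
    (hsM : ∀ i ∈ T, (((Ms i).image (s i)).card : ℝ) ≤ M)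
    (hne : ∀ i ∈ T, ∀ i' ∈ T, i ≠ i' → ∀ d ∈ Ms i, d ∈ Ms i' → s i d ≠ s i' d)
    (P : Finset ℕ) (hP : ∀ p ∈ P, 2 * p ≤ N) {V : ℝ} (hV : 0 ≤ V)
    (h : ∀ i ∈ T, V ≤ ∑ d ∈ (Ms i).filter (fun d => d ∈ Ioc Q (2 * Q)), |gg R P (s i d) d|) :
    T.card * V ^ 2 ≤ P.card * (4 ^ (j + 1) *
      (2 * (C₂ * ((2 * ((j + 1) * N) : ℕ) : ℝ) * (Real.log ((2 * ((j + 1) * N) : ℕ) : ℝ)) ^ k) +
        T.card * E)) := by
  classical
  obtain ⟨N', hN'⟩ : ∃ N', N' = 2 * ((j + 1) * N) := ⟨_, rfl⟩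
  rw [← hN']
  have hjN : N ≤ (j + 1) * N := Nat.le_mul_of_pos_left _ (by omega)
  have hN'1 : (1 : ℝ) ≤ N' := by exact_mod_cast (by omega : 1 ≤ N')
  have hlog : 0 ≤ Real.log N' := Real.log_nonneg hN'1
  have hPc : (0 : ℝ) ≤ P.card := Nat.cast_nonneg _
  rcases Nat.eq_zero_or_pos T.card with h0 | hpos
  · rw [h0, Nat.cast_zero, zero_mul, zero_mul, add_zero]
    positivity
  have hT0 : (0 : ℝ) < T.card := by exact_mod_cast hpos
  have hM0 : 0 ≤ M := by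
    obtain ⟨i, hi⟩ := Finset.card_pos.1 hpos
    exact le_trans (Nat.cast_nonneg _) (hsM i hi)
  obtain ⟨w0, w1, -, w3⟩ := hWb N j hN
  obtain ⟨A, hA⟩ : ∃ A : Finset ℤ, A = T.biUnion fun i => (Ms i).image (s i) := ⟨_, rfl⟩
  have hsA : ∀ i ∈ T, ∀ d ∈ Ms i, s i d ∈ A := by
    intro i hi d hd
    rw [hA]
    exact Finset.mem_biUnion.2 ⟨i, hi, Finset.mem_image_of_mem _ hd⟩
  have hAN : ∀ a ∈ A, |a| ≤ (N : ℤ) := by
    intro a ha
    rw [hA] at ha
    obtain ⟨i, hi, ha'⟩ := Finset.mem_biUnion.1 ha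
    obtain ⟨d, hd, rfl⟩ := Finset.mem_image.1 ha'
    exact hsN i hi d hd
  have hAc : (A.card : ℝ) ≤ T.card * M := by
    rw [hA]
    calc ((T.biUnion fun i => (Ms i).image (s i)).card : ℝ) ≤
          ((∑ i ∈ T, ((Ms i).image (s i)).card : ℕ) : ℝ) := by
          exact_mod_cast Finset.card_biUnion_le
      _ = ∑ i ∈ T, (((Ms i).image (s i)).card : ℝ) := by push_cast; rfl
      _ ≤ ∑ i ∈ T, M := Finset.sum_le_sum hsM
      _ = _ := by rw [Finset.sum_const, nsmul_eq_mul]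
  have hmain := DulV_main T (fun _ => 1) s (fun i => (Ms i).filter (fun d => d ∈ Ioc Q (2 * Q)))
    (Ioc Q (2 * Q)) (PhiN R) (Iw N j) (wt N j) P A (fun _ d => Conv L1 L2 d)
    (ρ := (1 / 4) ^ (j + 1)) (vm := 1)
    (Dg := 2 * (C₂ * T.card * (N' : ℝ) * (Real.log N') ^ k)) (E := E * (T.card : ℝ) ^ 2)
    zero_le_one (fun _ _ => zero_le_one) (fun _ _ => le_rfl)
    (fun i _ d hd => (Finset.mem_filter.1 hd).2)
    (fun i hi d hd => hsA i hi d (Finset.mem_filter.1 hd).1)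
    (fun i hi d hd => hMs i hi d (Finset.mem_filter.1 hd).1)
    (fun i hi i' hi' hii d hd hd' => hne i hi i' hi' hii d (Finset.mem_filter.1 hd).1
      (Finset.mem_filter.1 hd').1)
    (fun n _ => w0 n)
    (by
      intro p hp
      have := hP p hp
      unfold Iw
      rw [Finset.mem_Icc]
      constructor
      · have : (0 : ℤ) ≤ (((j + 1) * N : ℕ) : ℤ) := Int.natCast_nonneg _
        omega
      · exact_mod_cast (by omega : p ≤ (j + 1) * N))
    (by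
      intro p hp
      have := hP p hp
      apply w3
      rw [Int.abs_natCast]
      exact_mod_cast this)
    (by positivity)
    (by
      intro c hc1 hcK _ _
      have h1 := CntN_dia (j := j) hWb hdia hN hR hQN c A T.card (fun a _ d => hc1 a d) (by
        intro d
        refine (hcK d).trans ?_
        rw [Finset.sum_const, nsmul_eq_mul, mul_one]) hAN
      rw [← hN'] at h1
      refine le_trans (le_of_eq ?_) h1
      apply Finset.sum_congr rfl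
      intro a _
      apply Finset.sum_congr rfl
      intro n _
      rw [CntN_FF])
    (by
      intro c hc1 hcK _ hcC
      have h1 := hoff c A T.card hTG ⟨hc1, by
        intro d
        refine (hcK d).trans ?_
        rw [Finset.sum_const, nsmul_eq_mul, mul_one]⟩ hcC hAc hAN
      refine le_trans (le_of_eq ?_) h1
      congr 1
      apply Finset.sum_congr rfl
      intro a _
      apply Finset.sum_congr rfl
      intro b _
      apply Finset.sum_congr rfl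
      intro n _
      rw [CntN_FF, CntN_FF])
  beta_reduce at hmain
  have hlow : (T.card : ℝ) * V ≤ ∑ i ∈ T, 1 * ∑ d ∈ (Ms i).filter (fun d => d ∈ Ioc Q (2 * Q)),
      |∑ p ∈ P, PhiN R d ((p : ℤ) - s i d)| := by
    calc (T.card : ℝ) * V = ∑ i ∈ T, V := by rw [Finset.sum_const, nsmul_eq_mul]
      _ ≤ _ := by
          apply Finset.sum_le_sum
          intro i hi
          rw [one_mul]
          exact h i hi
  have h4 : (1 : ℝ) / (1 / 4) ^ (j + 1) = 4 ^ (j + 1) := by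
    rw [one_div, ← inv_pow]
    norm_num
  rw [h4] at hmain
  have hfin : (T.card * V) ^ 2 ≤ P.card * (4 ^ (j + 1) *
      (2 * (C₂ * T.card * (N' : ℝ) * (Real.log N') ^ k) + E * (T.card : ℝ) ^ 2)) :=
    (pow_le_pow_left₀ (by positivity) hlow 2).trans hmain
  have e1 : (T.card * V) ^ 2 = T.card * (T.card * V ^ 2) := by ring
  have e2 : P.card * (4 ^ (j + 1) *
      (2 * (C₂ * T.card * (N' : ℝ) * (Real.log N') ^ k) + E * (T.card : ℝ) ^ 2)) =
      T.card * (P.card * (4 ^ (j + 1) * (2 * (C₂ * (N' : ℝ) * (Real.log N') ^ k) +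
        T.card * E))) := by ring
  rw [e1, e2] at hfin
  exact le_of_mul_le_mul_left hfin hT0

/-- The functions of the family with a sum over the moduli `d > Q₀` larger than `V` are in `J` sets whose
cardinalities are bounded by `CntV_bad`. -/
theorem CntV_count {C₂ E L1 L2 M : ℝ} {k : ℕ} (hWb : WbStmt)
    (hdia : ∀ (N R Q : ℕ) (c : ℤ → ℕ → ℝ) (A : Finset ℤ) (K : ℝ),
      2 ≤ N → R ≤ N → Q ≤ N → (∀ a ∈ A, ∀ d, |c a d| ≤ 1) → (∀ d, ∑ a ∈ A, |c a d| ≤ K) →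
      (∀ a ∈ A, |a| ≤ (N : ℤ)) →
      ∑ a ∈ A, ∑ n ∈ Icc (-(N : ℤ)) N, tri N n * (FF R Q (c a) (n - a)) ^ 2 ≤
        C₂ * K * (N : ℝ) * (Real.log N) ^ k)
    (hC₂ : 0 ≤ C₂) (hE : 0 ≤ E)
    {N R D Q₀ J j : ℕ} (hN : 1 ≤ N) (hR : R ≤ N) (hDN : D ≤ N) (hQ₀ : 1 ≤ Q₀)
    (hJ : D ≤ Q₀ * 2 ^ J) (hJ1 : 1 ≤ J)
    {G : ℝ}
    (hoff : ∀ Q : ℕ, Q₀ ≤ Q → Q < D → ∀ (c : ℤ → ℕ → ℝ) (A : Finset ℤ) (K : ℝ), G ≤ K → IsCf A K c →
      (∀ a d, c a d ≠ 0 → Conv L1 L2 d) → (A.card : ℝ) ≤ K * M → (∀ a ∈ A, |a| ≤ (N : ℤ)) →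
      |∑ a ∈ A, ∑ b ∈ A.erase a, ∑ n ∈ Iw N j,
        wt N j n * (FF R Q (c a) (n - a) * FF R Q (c b) (n - b))| ≤ E * K ^ 2)
    (I : Finset ℕ) (s : ℕ → ℕ → ℤ) (Ms : ℕ → Finset ℕ)
    (hMD : ∀ i ∈ I, Ms i ⊆ Icc 1 D)
    (hMs : ∀ i ∈ I, ∀ d ∈ Ms i, Conv L1 L2 d)
    (hsN : ∀ i ∈ I, ∀ d ∈ Ms i, |s i d| ≤ (N : ℤ))
    (hsM : ∀ i ∈ I, (((Ms i).image (s i)).card : ℝ) ≤ M)
    (hne : ∀ i ∈ I, ∀ i' ∈ I, i ≠ i' → ∀ d ∈ Ms i, d ∈ Ms i' → s i d ≠ s i' d)
    (P : Finset ℕ) (hP : ∀ p ∈ P, 2 * p ≤ N) {V : ℝ} (hV : 0 < V) :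
    ∃ B : ℕ → Finset ℕ, (∀ t, B t ⊆ I) ∧
      (∀ i ∈ I, (∀ t < J, i ∉ B t) →
        ∑ d ∈ (Ms i).filter (fun d => Q₀ < d), |gg R P (s i d) d| ≤ V) ∧
      ∀ t < J, G ≤ ((B t).card : ℝ) → ((B t).card : ℝ) * (V / J) ^ 2 ≤ P.card * (4 ^ (j + 1) *
        (2 * (C₂ * ((2 * ((j + 1) * N) : ℕ) : ℝ) * (Real.log ((2 * ((j + 1) * N) : ℕ) : ℝ)) ^ k) +
          (B t).card * E)) := by
  classical
  have hJ0 : (0 : ℝ) < J := by exact_mod_cast hJ1
  have hjN : N ≤ (j + 1) * N := Nat.le_mul_of_pos_left _ (by omega)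
  have hN'1 : (1 : ℝ) ≤ ((2 * ((j + 1) * N) : ℕ) : ℝ) := by
    exact_mod_cast (by omega : 1 ≤ 2 * ((j + 1) * N))
  have hlog : 0 ≤ Real.log ((2 * ((j + 1) * N) : ℕ) : ℝ) := Real.log_nonneg hN'1
  obtain ⟨g, hg⟩ : ∃ g : ℕ → ℕ → ℝ, g = fun i Q =>
      ∑ d ∈ (Ms i).filter (fun d => d ∈ Ioc Q (2 * Q)), |gg R P (s i d) d| := ⟨_, rfl⟩
  have hcover : ∀ i ∈ I, ∑ d ∈ (Ms i).filter (fun d => Q₀ < d), |gg R P (s i d) d| ≤
      ∑ t ∈ range J, g i (Q₀ * 2 ^ t) := by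
    intro i hi
    calc ∑ d ∈ (Ms i).filter (fun d => Q₀ < d), |gg R P (s i d) d|
        ≤ ∑ d ∈ (Ms i).filter (fun d => Q₀ < d), ∑ t ∈ range J,
            (if Q₀ * 2 ^ t < d ∧ d ≤ 2 * (Q₀ * 2 ^ t) then |gg R P (s i d) d| else 0) := by
          apply Finset.sum_le_sum
          intro d hd
          rw [Finset.mem_filter] at hd
          have hdD := (Finset.mem_Icc.1 (hMD i hi hd.1)).2
          obtain ⟨t, ht, h1⟩ := Cnt_exists_block hd.2 J (hdD.trans hJ)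
          refine le_trans (le_of_eq ?_) (Finset.single_le_sum (f := fun t =>
            (if Q₀ * 2 ^ t < d ∧ d ≤ 2 * (Q₀ * 2 ^ t) then |gg R P (s i d) d| else 0)) ?_
            (Finset.mem_range.2 ht))
          · rw [if_pos h1]
          · intro t _
            split_ifs
            · exact abs_nonneg _
            · exact le_rfl
      _ = ∑ t ∈ range J, ∑ d ∈ (Ms i).filter (fun d => Q₀ < d),
            (if Q₀ * 2 ^ t < d ∧ d ≤ 2 * (Q₀ * 2 ^ t) then |gg R P (s i d) d| else 0) :=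
          Finset.sum_comm
      _ ≤ _ := by
          apply Finset.sum_le_sum
          intro t _
          rw [← Finset.sum_filter, hg]
          beta_reduce
          apply Finset.sum_le_sum_of_subset_of_nonneg
          · intro d hd
            rw [Finset.mem_filter, Finset.mem_filter] at hd
            rw [Finset.mem_filter, Finset.mem_Ioc]
            exact ⟨hd.1.1, hd.2⟩
          · intro d _ _
            exact abs_nonneg _
  refine ⟨fun t => I.filter (fun i => V / J < g i (Q₀ * 2 ^ t)),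
    fun t => Finset.filter_subset _ _, ?_, ?_⟩
  · intro i hi hB
    have h1 : ∀ t ∈ range J, g i (Q₀ * 2 ^ t) ≤ V / J := by
      intro t ht
      have h2 := hB t (Finset.mem_range.1 ht)
      rw [Finset.mem_filter] at h2
      by_contra h3
      exact h2 ⟨hi, not_le.1 h3⟩
    refine (hcover i hi).trans ((Finset.sum_le_sum h1).trans ?_)
    rw [Finset.sum_const, Finset.card_range, nsmul_eq_mul]
    apply le_of_eq
    field_simp
  · intro t ht hGB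
    have hVJ : 0 ≤ V / J := by positivity
    rcases le_or_gt D (Q₀ * 2 ^ t) with hQ | hQ
    · -- empty blocks
      have h0 : (I.filter (fun i => V / J < g i (Q₀ * 2 ^ t))) = ∅ := by
        apply Finset.filter_false_of_mem
        intro i hi hs
        have h1 : g i (Q₀ * 2 ^ t) = 0 := by
          rw [hg]
          beta_reduce
          rw [Finset.filter_false_of_mem, Finset.sum_empty]
          intro d hd
          have hdD := (Finset.mem_Icc.1 (hMD i hi hd)).2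
          rw [Finset.mem_Ioc]
          omega
        rw [h1] at hs
        exact absurd hs (not_lt.2 hVJ)
      beta_reduce
      rw [h0]
      simp only [Finset.card_empty, Nat.cast_zero, zero_mul, add_zero]
      positivity
    · have hmem : ∀ i ∈ I.filter (fun i => V / J < g i (Q₀ * 2 ^ t)), i ∈ I :=
        fun i hi => (Finset.mem_filter.1 hi).1
      refine CntV_bad hWb hdia hC₂ hE hN hR (Q := Q₀ * 2 ^ t) (by omega)
        (hoff _ (Nat.le_mul_of_pos_right _ (by positivity)) hQ) _ hGB s Ms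
        (fun i hi => hMs i (hmem i hi)) (fun i hi => hsN i (hmem i hi))
        (fun i hi => hsM i (hmem i hi)) (fun i hi i' hi' => hne i (hmem i hi) i' (hmem i' hi'))
        P hP hVJ (fun i hi => ?_)
      have h1 := (Finset.mem_filter.1 hi).2.le
      rw [hg] at h1
      exact h1

end Pool.Agent.Lib.TV
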