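import Pool.Agent.Lib.TN.FinN
import Pool.Agent.Lib.TV.AsqV

/-!
# TV: the theorem with general exponents, and theorem M, from their inputs
-/

namespace Pool.Agent.Lib.TV

open Finset Filter Pool.Agent.Lib.TB Pool.Agent.Lib.TN Pool.Agent.Lib.TM Pool.Agent.Lib.EH
open Pool.Agent.Results.MP_00e23e_nt

/-- The theorem with general exponents, from (OFF) for the family. -/
theorem tTAt (hWb : WbStmt) (hDia : DiaKStmt) (hLp : LpSStmt)
    (hBV : Pool.Agent.Lib.BV.ExtStmt) {δ v g ε e1 e2 e1' e2' : ℝ} (hOff : OffAt δ v g ε e1 e2)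
    (hδ0 : 0 ≤ δ) (hε : 0 < ε) (hδε : δ + ε < 1 / 2) (hv : 0 ≤ v) (hg : 0 ≤ g) (hg1 : g ≤ 1)
    (he1 : 0 ≤ e1) (he1' : e1 ≤ 1) (he1'' : e1 < e1') (he2 : 0 ≤ e2) (he2' : e2 ≤ 1) (he2'' : e2' < e2) :
    TAt δ v g e1' e2' := by
  classical
  obtain ⟨k, hat⟩ := AsqV_at hWb hDia hLp hBV hOff hδ0 hε hδε hv hg hg1 he1 he1' he1'' he2 he2' he2''
  refine ⟨14 + k, fun U hU => ?_⟩
  obtain ⟨C, hC0, hev⟩ := hat (2 * U + 4) (U + 4) (by linarith)
  have hlog1 : ∀ᶠ x : ℝ in atTop, 2 ≤ Real.log x :=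
    Real.tendsto_log_atTop.eventually_ge_atTop 2
  have hlog2 : ∀ᶠ x : ℝ in atTop, (Real.log x) ^ (U + 3) ≤ 1 / 4 * x := by
    have h := (isLittleO_log_rpow_rpow_atTop (U + 3) (show (0 : ℝ) < 1 by norm_num)).bound
      (show (0 : ℝ) < 1 / 4 by norm_num)
    filter_upwards [h, hlog1, eventually_gt_atTop 0] with x hx h1 h0
    rw [Real.norm_of_nonneg (Real.rpow_nonneg (by linarith) _), Real.rpow_one,
      Real.norm_of_nonneg h0.le] at hx
    exact hx
  obtain ⟨x₀, hx₀⟩ := Filter.eventually_atTop.1 ((hev.and hlog1).and hlog2)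
  obtain ⟨C', hC'⟩ : ∃ C', C' = 2 * C + 12 + (2 * |x₀| + 1) := ⟨_, rfl⟩
  refine ⟨C', fun x J s hx hsx hsM hne => ?_⟩
  have hx0 : 0 < x := by linarith
  have hL1 : 1 ≤ Real.log x := by
    rw [Real.le_log_iff_exp_le hx0]
    have := Real.exp_one_lt_d9
    linarith
  have hL0 : 0 < Real.log x := by linarith
  have hk0 : (0 : ℝ) ≤ (k : ℝ) := Nat.cast_nonneg _
  have hD1 : 1 ∈ Icc 1 ⌊x ^ ((1 : ℝ) / 2 + δ)⌋₊ := by
    rw [Finset.mem_Icc]
    refine ⟨le_rfl, Nat.le_floor ?_⟩
    rw [Nat.cast_one]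
    exact Real.one_le_rpow (by linarith) (by linarith)
  rcases lt_or_ge x x₀ with hlt | hge
  · -- small `x`
    refine ⟨J, Finset.Subset.refl J, ?_, fun i hi hiS => absurd hi hiS⟩
    have h1 := FinK_card hx0.le (f := fun i => s i 1) (fun i hi j hj hij => hne i hi j hj hij 1 hD1)
      (fun i hi => hsx i hi 1 hD1)
    have h2 : (1 : ℝ) ≤ (Real.log x) ^ (5 * U + (14 + (k : ℝ))) :=
      Real.one_le_rpow hL1 (by linarith)
    have h3 : x ≤ |x₀| := hlt.le.trans (le_abs_self _)
    have h4 : 0 ≤ C' := by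
      rw [hC']
      have := abs_nonneg x₀
      linarith
    have h5 : 1 ≤ x ^ g := Real.one_le_rpow (by linarith) hg
    calc (J.card : ℝ) ≤ 2 * x + 1 := h1
      _ ≤ C' * 1 := by rw [hC']; linarith
      _ ≤ C' * x ^ g := mul_le_mul_of_nonneg_left h5 h4
      _ = C' * x ^ g * 1 := by ring
      _ ≤ _ := mul_le_mul_of_nonneg_left h2 (mul_nonneg h4 (by positivity))
  · -- large `x`
    obtain ⟨⟨hmain, hL2⟩, hxL⟩ := hx₀ x hge
    obtain ⟨G, hG⟩ : ∃ G, G = ⌈(Real.log x) ^ (U + 3)⌉₊ := ⟨_, rfl⟩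
    have hLU : 1 ≤ (Real.log x) ^ (U + 3) := Real.one_le_rpow hL1 (by linarith)
    have hG1 : (Real.log x) ^ (U + 3) ≤ G := by rw [hG]; exact Nat.le_ceil _
    have hG2 : (G : ℝ) ≤ 2 * (Real.log x) ^ (U + 3) := by
      have := (Nat.ceil_lt_add_one (show 0 ≤ (Real.log x) ^ (U + 3) by linarith)).le
      rw [← hG] at this
      linarith
    have hG1' : (1 : ℝ) ≤ G := hLU.trans hG1
    have hGnat : 1 ≤ G := by exact_mod_cast hG1'
    have hG0 : (0 : ℝ) < G := by linarith
    have hxG : 2 ≤ x / G := by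
      rw [le_div_iff₀ hG0]
      linarith
    have hxK : x / (Real.log x) ^ (U + 4) ≤ x / G := by
      apply div_le_div_of_nonneg_left hx0.le hG0
      rw [show U + 4 = (U + 3) + 1 by ring, Real.rpow_add hL0, Real.rpow_one]
      nlinarith
    have hDx : ((⌊x ^ ((1 : ℝ) / 2 + δ)⌋₊ : ℕ) : ℝ) ≤ x := by
      refine (Nat.floor_le (Real.rpow_nonneg hx0.le _)).trans ?_
      conv_rhs => rw [← Real.rpow_one x]
      exact Real.rpow_le_rpow_of_exponent_le (by linarith) (by linarith)
    obtain ⟨Ms, hMs⟩ : ∃ Ms : ℕ → Finset ℕ, Ms = fun i => (Icc 1 ⌊x ^ ((1 : ℝ) / 2 + δ)⌋₊).filter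
      (fun d : ℕ => IsCoprime (d : ℤ) (s i d) ∧ Conv (x ^ e1') (x ^ e2') d) :=
      ⟨_, rfl⟩
    have hMsub : ∀ i, Ms i ⊆ Icc 1 ⌊x ^ ((1 : ℝ) / 2 + δ)⌋₊ := by
      intro i
      rw [hMs]
      exact Finset.filter_subset _ _
    have hMprop : ∀ i ∈ J, ∀ d ∈ Ms i, 1 ≤ d ∧ (d : ℝ) ≤ x ^ ((1 : ℝ) / 2 + δ) ∧
        IsCoprime (d : ℤ) (s i d) ∧ Conv (x ^ e1') (x ^ e2') d := by
      intro i _ d hd
      have h0 := Finset.mem_Icc.1 (hMsub i hd)
      rw [hMs] at hd
      obtain ⟨-, h1, h2⟩ := Finset.mem_filter.1 hd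
      exact ⟨h0.1, (Nat.le_floor_iff (by positivity)).1 h0.2, h1, h2⟩
    -- the exceptional set at every grid point
    have hex : ∀ m : ℕ, ∃ S ⊆ J, m ∈ Icc 1 G →
        (S.card : ℝ) ≤ C * (x ^ g * (Real.log x) ^ (2 * (2 * U + 4) + 3 + (k : ℝ))) ∧ ∀ i ∈ J, i ∉ S →
          ∑ d ∈ Ms i,
            |(pcz (x / G * m) d (s i d) : ℝ) - li (x / G * m) / (d.totient : ℝ)| ≤
              C * (x / (Real.log x) ^ (2 * U + 4)) := by
      intro m
      by_cases hm : m ∈ Icc 1 G
      · rw [Finset.mem_Icc] at hm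
        have hm1 : (1 : ℝ) ≤ m := by exact_mod_cast hm.1
        have hm2 : (m : ℝ) ≤ G := by exact_mod_cast hm.2
        have hy1 : x / (Real.log x) ^ (U + 4) ≤ x / G * m := by
          refine hxK.trans ?_
          have : 0 ≤ x / G := by linarith
          nlinarith
        have hy2 : x / G * m ≤ x := by
          rw [div_mul_eq_mul_div, div_le_iff₀ hG0]
          exact mul_le_mul_of_nonneg_left hm2 hx0.le
        obtain ⟨S, hSJ, hS⟩ := hmain (x / G * m) hy1 hy2 J s Ms hMprop
          (fun i hi d hd => hsx i hi d (hMsub i hd))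
          (fun i hi => le_trans (by exact_mod_cast Finset.card_le_card (Finset.image_subset_image (hMsub i)))
            (hsM i hi))
          (fun i hi i' hi' hii d hd _ => hne i hi i' hi' hii d (hMsub i hd))
        exact ⟨S, hSJ, fun _ => hS⟩
      · exact ⟨∅, Finset.empty_subset _, fun h => absurd h hm⟩
    choose S hSJ hS using hex
    refine ⟨(Icc 1 G).biUnion S, Finset.biUnion_subset.2 fun m _ => hSJ m, ?_, ?_⟩
    · have h1 : (((Icc 1 G).biUnion S).card : ℝ) ≤
          G * (C * (x ^ g * (Real.log x) ^ (2 * (2 * U + 4) + 3 + (k : ℝ)))) := by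
        calc (((Icc 1 G).biUnion S).card : ℝ) ≤ ((∑ m ∈ Icc 1 G, (S m).card : ℕ) : ℝ) := by
              exact_mod_cast Finset.card_biUnion_le
          _ = ∑ m ∈ Icc 1 G, ((S m).card : ℝ) := by push_cast; rfl
          _ ≤ ∑ m ∈ Icc 1 G, (C * (x ^ g * (Real.log x) ^ (2 * (2 * U + 4) + 3 + (k : ℝ)))) :=
              Finset.sum_le_sum fun m hm => (hS m hm).1
          _ = _ := by rw [Finset.sum_const, Nat.card_Icc, nsmul_eq_mul]; simp
      have h2 : (Real.log x) ^ (5 * U + (14 + (k : ℝ))) =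
          (Real.log x) ^ (U + 3) * (Real.log x) ^ (2 * (2 * U + 4) + 3 + (k : ℝ)) := by
        rw [← Real.rpow_add hL0]
        congr 1
        ring
      have h3 : 0 ≤ (Real.log x) ^ (2 * (2 * U + 4) + 3 + (k : ℝ)) := Real.rpow_nonneg hL0.le _
      have h3' : 0 ≤ x ^ g := Real.rpow_nonneg hx0.le _
      have h4 : 0 ≤ C * (x ^ g * (Real.log x) ^ (2 * (2 * U + 4) + 3 + (k : ℝ))) :=
        mul_nonneg hC0 (mul_nonneg h3' h3)
      have h5 : 0 ≤ x ^ g * (Real.log x) ^ (5 * U + (14 + (k : ℝ))) :=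
        mul_nonneg h3' (Real.rpow_nonneg hL0.le _)
      calc (((Icc 1 G).biUnion S).card : ℝ) ≤
            G * (C * (x ^ g * (Real.log x) ^ (2 * (2 * U + 4) + 3 + (k : ℝ)))) := h1
        _ ≤ (2 * (Real.log x) ^ (U + 3)) *
              (C * (x ^ g * (Real.log x) ^ (2 * (2 * U + 4) + 3 + (k : ℝ)))) :=
            mul_le_mul_of_nonneg_right hG2 h4
        _ = 2 * C * (x ^ g * (Real.log x) ^ (5 * U + (14 + (k : ℝ)))) := by rw [h2]; ring
        _ ≤ C' * (x ^ g * (Real.log x) ^ (5 * U + (14 + (k : ℝ)))) := by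
            apply mul_le_mul_of_nonneg_right _ h5
            rw [hC']
            have := abs_nonneg x₀
            linarith
        _ = _ := by ring
    · intro i hi hiS y M hy hM
      have hV : ∀ m ∈ Icc 1 G, ∑ d ∈ Ms i,
            |(pcz (x / G * m) d (s i d) : ℝ) - li (x / G * m) / (d.totient : ℝ)| ≤
              C * (x / (Real.log x) ^ (2 * U + 4)) := by
        intro m hm
        exact (hS m hm).2 i hi (fun h => hiS (Finset.mem_biUnion.2 ⟨m, hm, h⟩))
      have hgrid := FinN_grid hx0 hL1 hGnat hxG hDx y (s i) hy (Ms i) (hMsub i) hV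
      have hconv : ∑ d ∈ M, |resErr (y d) d (s i d)| ≤
          ∑ d ∈ Ms i, |(pcz (y d) d (s i d) : ℝ) - li (y d) / (d.totient : ℝ)| := by
        calc ∑ d ∈ M, |resErr (y d) d (s i d)| =
              ∑ d ∈ M, |(pcz (y d) d (s i d) : ℝ) - li (y d) / (d.totient : ℝ)| := by
              apply Finset.sum_congr rfl
              intro d _
              unfold resErr
              rw [FinK_pcz]
          _ ≤ _ := by
              apply Finset.sum_le_sum_of_subset_of_nonneg
              · intro d hd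
                obtain ⟨h1, h2, h3, h4⟩ := hM d hd
                rw [hMs]
                refine Finset.mem_filter.2 ⟨Finset.mem_Icc.2 ⟨h1, Nat.le_floor h2⟩, ?_, h4⟩
                rw [Int.isCoprime_iff_gcd_eq_one, Int.gcd_comm]
                exact h3
              · intro d _ _
                exact abs_nonneg _
      refine (hconv.trans hgrid).trans ?_
      obtain ⟨P, hP⟩ : ∃ P, P = (Real.log x) ^ U := ⟨_, rfl⟩
      have hP0 : 0 < P := by rw [hP]; exact Real.rpow_pos_of_pos hL0 _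
      have e1 : (Real.log x) ^ (U + 3) = P * (Real.log x) ^ 3 := by
        rw [Real.rpow_add hL0, hP]
        norm_num
      have e2 : (Real.log x) ^ (2 * U + 4) = P * (P * (Real.log x) ^ 4) := by
        rw [show 2 * U + 4 = U + (U + 4) by ring, Real.rpow_add hL0, Real.rpow_add hL0, hP]
        congr 2
        exact_mod_cast Real.rpow_natCast (Real.log x) 4
      rw [e1] at hG1 hG2
      rw [e2]
      have hL3 : 0 < (Real.log x) ^ 3 := pow_pos hL0 3
      have hL4 : 0 < (Real.log x) ^ 4 := pow_pos hL0 4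
      have hxP : 0 ≤ x / P := by positivity
      have t1 : G * (C * (x / (P * (P * (Real.log x) ^ 4)))) ≤ 2 * C * (x / P) := by
        have h0 : 0 ≤ C * (x / (P * (P * (Real.log x) ^ 4))) := by positivity
        calc G * (C * (x / (P * (P * (Real.log x) ^ 4)))) ≤
              (2 * (P * (Real.log x) ^ 3)) * (C * (x / (P * (P * (Real.log x) ^ 4)))) :=
              mul_le_mul_of_nonneg_right hG2 h0
          _ = 2 * C * (x / P) * (1 / Real.log x) := by
              field_simp
          _ ≤ 2 * C * (x / P) * 1 := by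
              apply mul_le_mul_of_nonneg_left _ (by positivity)
              rw [div_le_one hL0]
              exact hL1
          _ = _ := by ring
      have t2 : 12 * (x / G) * (Real.log x) ^ 2 ≤ 12 * (x / P) := by
        have h0 : x / G ≤ x / (P * (Real.log x) ^ 3) :=
          div_le_div_of_nonneg_left hx0.le (by positivity) hG1
        calc 12 * (x / G) * (Real.log x) ^ 2 ≤ 12 * (x / (P * (Real.log x) ^ 3)) * (Real.log x) ^ 2 := by
              apply mul_le_mul_of_nonneg_right _ (by positivity)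
              linarith
          _ = 12 * (x / P) * (1 / Real.log x) := by field_simp
          _ ≤ 12 * (x / P) * 1 := by
              apply mul_le_mul_of_nonneg_left _ (by positivity)
              rw [div_le_one hL0]
              exact hL1
          _ = _ := by ring
      have t3 : 0 ≤ (2 * |x₀| + 1) * (x / P) := by positivity
      rw [← hP, hC']
      linarith

/-- **Theorem M** from (OFF) for families with the fixed exponents. -/
theorem tTM_of (hOff : OffMStmt) (hWb : WbStmt) (hDia : DiaKStmt) (hLp : LpSStmt)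
    (hBV : Pool.Agent.Lib.BV.ExtStmt) : TMStmt := by
  classical
  intro δ v g ε hδ0 hv hg hgδ hε
  rcases lt_or_ge (1 / 2 - 7 * δ - 4 * v - ε) (2 * δ + 2 * v - g + ε) with hlt | hδε
  · -- there are no convenient moduli
    refine ⟨0, fun U hU => ⟨1, fun x J s hx _ _ _ => ⟨∅, Finset.empty_subset _, ?_, ?_⟩⟩⟩
    · rw [Finset.card_empty, Nat.cast_zero, one_mul]
      exact mul_nonneg (Real.rpow_nonneg (by linarith) _)
        (Real.rpow_nonneg (Real.log_nonneg (by linarith)) _)
    · intro i _ _ y M _ hM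
      have hempty : M = ∅ := by
        apply Finset.eq_empty_of_forall_notMem
        intro d hd
        obtain ⟨-, -, -, -, t, -, h1, h2⟩ := hM d hd
        have h3 : x ^ (1 / 2 - 7 * δ - 4 * v - ε) < x ^ (2 * δ + 2 * v - g + ε) :=
          Real.rpow_lt_rpow_of_exponent_lt (by linarith) hlt
        linarith
      rw [hempty, Finset.sum_empty, one_mul]
      exact div_nonneg (by linarith) (Real.rpow_nonneg (Real.log_nonneg (by linarith)) _)
  have hO : OffAt δ v g (ε / 2) (2 * δ + 2 * v - g + ε / 2) (1 / 2 - 7 * δ - 4 * v - ε / 2) :=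
    hOff δ v g (ε / 2) hδ0 hv hg hgδ (by linarith) (by linarith)
  exact tTAt hWb hDia hLp hBV hO hδ0 (by linarith) (by linarith) hv hg (by linarith)
    (by linarith) (by linarith) (by linarith) (by linarith) (by linarith) (by linarith)

end Pool.Agent.Lib.TV
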