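import Pool.Agent.Lib.TV.SpecGf

/-!
MP_00e23e_nt, Lib/TV, module Hev: the exponents (model: TM/Gex).
-/

namespace Pool.Agent.Lib.TV

open Finset Pool.Agent.Lib.EH3 Pool.Agent.Lib.TB Pool.Agent.Lib.TN Pool.Agent.Lib.TM Pool.Agent.Results.MP_00e23e_nt

private lemma Hev_mono {x a b : ℝ} (hx : 1 ≤ x) (h : a ≤ b) : x ^ a ≤ x ^ b :=
  Real.rpow_le_rpow_of_exponent_le hx h

private lemma Hev_mul {x : ℝ} (hx : 0 < x) (a b : ℝ) : x ^ a * x ^ b = x ^ (a + b) :=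
  (Real.rpow_add hx a b).symm

/-- bound of the quantity G = 4 x^κ q^2/x -/
private lemma Hev_G {x δ κ q : ℝ} (hx : 1 ≤ x) (hq0 : 0 < q) (hq2 : q ≤ 2 * x ^ ((1 : ℝ) / 2 + δ)) :
    4 * x ^ κ * q ^ 2 / x ≤ 16 * x ^ (κ + 2 * δ) := by
  have hx0 : 0 < x := by linarith
  have h1 : q ^ 2 ≤ (2 * x ^ ((1 : ℝ) / 2 + δ)) ^ 2 := pow_le_pow_left₀ hq0.le hq2 2
  have h2 : (2 * x ^ ((1 : ℝ) / 2 + δ)) ^ 2 = 4 * (x * x ^ (2 * δ)) := by
    rw [mul_pow, ← Real.rpow_natCast (x ^ ((1 : ℝ) / 2 + δ)) 2, ← Real.rpow_mul hx0.le]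
    nth_rewrite 2 [← Real.rpow_one x]
    rw [Hev_mul hx0]
    norm_num
    ring_nf
  rw [div_le_iff₀ hx0, ← Hev_mul hx0]
  rw [h2] at h1
  have hK0 : 0 < x ^ κ := Real.rpow_pos_of_pos hx0 _
  calc 4 * x ^ κ * q ^ 2 ≤ 4 * x ^ κ * (4 * (x * x ^ (2 * δ))) :=
        mul_le_mul_of_nonneg_left h1 (by positivity)
    _ = 16 * (x ^ κ * x ^ (2 * δ)) * x := by ring

/-- the truncation error -/
private lemma Hev_one {x ε f q q2 h g : ℝ} {j : ℕ} (hx : 1 ≤ x) (hj : 3 ≤ ε / 200 * (2 * j + 1)) (hf : 0 < f) (hq0 : 0 < q)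
    (hq20 : 0 < q2)
    (hg0 : 0 < g) (hh0 : 0 < h) (hgh : 4 * f * x ^ (ε / 200) * q * q2 / x ≤ g * h) :
    (4 * f * q * q2 / (g * x * h)) ^ (2 * j + 1) ≤ x ^ (-(3 : ℝ)) := by
  have hx0 : 0 < x := by linarith
  have hK : 0 < x ^ (ε / 200) := Real.rpow_pos_of_pos hx0 _
  have e1 : 4 * f * q * q2 / (g * x * h) ≤ x ^ (-(ε / 200)) := by
    rw [div_le_iff₀ (by positivity), Real.rpow_neg hx0.le]
    have h2 : 4 * f * q * q2 = (x ^ (ε / 200))⁻¹ * (x * (4 * f * x ^ (ε / 200) * q * q2 / x)) := by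
      field_simp
    calc 4 * f * q * q2 = (x ^ (ε / 200))⁻¹ * (x * (4 * f * x ^ (ε / 200) * q * q2 / x)) := h2
      _ ≤ (x ^ (ε / 200))⁻¹ * (x * (g * h)) := by
        refine mul_le_mul_of_nonneg_left (mul_le_mul_of_nonneg_left hgh hx0.le) (by positivity)
      _ = (x ^ (ε / 200))⁻¹ * (g * x * h) := by ring
  refine (pow_le_pow_left₀ (by positivity) e1 _).trans ?_
  rw [← Real.rpow_natCast, ← Real.rpow_mul hx0.le]
  refine Hev_mono hx ?_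
  push_cast
  linarith

/-- the small power -/
private lemma Hev_small {x δ ε q h : ℝ} (hx : 1 ≤ x) (hε : 0 < ε) (hδ1 : δ ≤ 1 / 14)
    (hε1 : ε ≤ 1 / 4) (hq0 : 0 < q) (hh0 : 0 < h) (hq2 : q ≤ 2 * x ^ ((1 : ℝ) / 2 + δ))
    (hh : h ≤ 32 * x ^ (2 * (ε / 200) + 2 * δ)) :
    (q * h * (2 * x)) ^ (ε / 1000) ≤ 2 * x ^ (3 * ε / 1000) := by
  have hx0 : 0 < x := by linarith
  have h1 : q * h * (2 * x) ≤ 256 * x ^ (3 : ℝ) := by
    calc q * h * (2 * x) ≤ (2 * x ^ ((1 : ℝ) / 2 + δ)) * (32 * x ^ (2 * (ε / 200) + 2 * δ)) * (2 * x) := by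
          refine mul_le_mul_of_nonneg_right ?_ (by positivity)
          exact mul_le_mul hq2 hh hh0.le (by positivity)
      _ = 128 * (x ^ ((1 : ℝ) / 2 + δ) * x ^ (2 * (ε / 200) + 2 * δ) * x ^ (1 : ℝ)) := by
          rw [Real.rpow_one]
          ring
      _ = 128 * x ^ ((1 : ℝ) / 2 + δ + (2 * (ε / 200) + 2 * δ) + 1) := by
          rw [Hev_mul hx0, Hev_mul hx0]
      _ ≤ 128 * x ^ (3 : ℝ) := mul_le_mul_of_nonneg_left (Hev_mono hx (by linarith)) (by norm_num)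
      _ ≤ 256 * x ^ (3 : ℝ) := mul_le_mul_of_nonneg_right (by norm_num) (by positivity)
  calc (q * h * (2 * x)) ^ (ε / 1000) ≤ (256 * x ^ (3 : ℝ)) ^ (ε / 1000) :=
        Real.rpow_le_rpow (by positivity) h1 (by linarith)
    _ = (256 : ℝ) ^ (ε / 1000) * x ^ (3 * ε / 1000) := by
        rw [Real.mul_rpow (by norm_num) (by positivity), ← Real.rpow_mul hx0.le]
        congr 2
        ring
    _ ≤ 2 * x ^ (3 * ε / 1000) := by
        refine mul_le_mul_of_nonneg_right ?_ (by positivity)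
        calc (256 : ℝ) ^ (ε / 1000) ≤ (256 : ℝ) ^ ((1 : ℝ) / 8) :=
              Real.rpow_le_rpow_of_exponent_le (by norm_num) (by linarith)
          _ = 2 := by
              rw [show (256 : ℝ) = 2 ^ (8 : ℝ) by norm_num, ← Real.rpow_mul (by norm_num)]
              norm_num

/-- the smooth factor -/
private lemma Hev_smooth {x κ f q q2 h g p p2 : ℝ} (hx : 1 ≤ x) (hκ : 0 ≤ κ) (hf : 0 < f) (hfx : f ≤ x ^ κ)
    (hq0 : 0 < q) (hq20 : 0 < q2) (hg0 : 0 < g) (hh0 : 0 < h)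
    (hgh : g * h ≤ 2 * (4 * f * x ^ κ * q * q2 / x)) (hp : q / (2 * g) ≤ p) (hp2 : q2 / (2 * g) ≤ p2) :
    1 + h * x / (g * (p * p2)) ≤ 33 * x ^ (2 * κ) := by
  have hx0 : 0 < x := by linarith
  have hp0 : 0 < q / (2 * g) := by positivity
  have hp20 : 0 < q2 / (2 * g) := by positivity
  have hK0 : 0 < x ^ κ := Real.rpow_pos_of_pos hx0 _
  have hx2 : f * x ^ κ ≤ x ^ (2 * κ) := by
    calc f * x ^ κ ≤ x ^ κ * x ^ κ := mul_le_mul_of_nonneg_right hfx hK0.le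
      _ = x ^ (2 * κ) := by
          rw [Hev_mul hx0]
          congr 1
          ring
  have h7 : h * x / (g * (p * p2)) ≤ 32 * x ^ (2 * κ) := by
    calc h * x / (g * (p * p2)) ≤ h * x / (g * ((q / (2 * g)) * (q2 / (2 * g)))) :=
          div_le_div_of_nonneg_left (by positivity) (by positivity)
            (mul_le_mul_of_nonneg_left (mul_le_mul hp hp2 hp20.le (hp0.le.trans hp)) hg0.le)
      _ = 4 * (g * h) * (x / (q * q2)) := by
          field_simp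
          ring
      _ ≤ 4 * (2 * (4 * f * x ^ κ * q * q2 / x)) * (x / (q * q2)) := by
          refine mul_le_mul_of_nonneg_right ?_ (by positivity)
          linarith
      _ = 32 * (f * x ^ κ) := by
          field_simp
          ring
      _ ≤ 32 * x ^ (2 * κ) := by linarith
  have h8 : 1 ≤ x ^ (2 * κ) := Real.one_le_rpow hx (by linarith)
  linarith

/-- the first part of the bound -/
private lemma Hev_fir {x δ v s ε κ h g l1 G : ℝ} (hx : 1 ≤ x)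
    (hgh : g * h ≤ 2 * G) (hG : G ≤ 16 * x ^ (κ + 2 * δ)) (hl1 : x ^ (2 * δ + v - s + ε) ≤ l1) :
    h * g / l1 ≤ 32 * x ^ (κ - v + s - ε) := by
  have hx0 : 0 < x := by linarith
  have hl0 : 0 < l1 := lt_of_lt_of_le (Real.rpow_pos_of_pos hx0 _) hl1
  calc h * g / l1 ≤ (32 * x ^ (κ + 2 * δ)) / x ^ (2 * δ + v - s + ε) := by
        refine div_le_div₀ (by positivity) ?_ (by positivity) hl1
        linarith
    _ = 32 * x ^ (κ - v + s - ε) := by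
        rw [mul_div_assoc, ← Real.rpow_sub hx0]
        congr 2
        ring

/-- the second part of the bound -/
private lemma Hev_sec {x δ v ε κ q h g p l2 : ℝ} (hx : 1 ≤ x) (hq0 : 0 < q)
    (hq2 : q ≤ 2 * x ^ ((1 : ℝ) / 2 + δ)) (hh0 : 0 < h) (hg1 : 1 ≤ g)
    (hgh : g * h ≤ 2 * (4 * x ^ κ * q ^ 2 / x)) (hp : q / (2 * g) ≤ p)
    (hl2 : l2 ≤ x ^ ((1 : ℝ) / 2 - 7 * δ - 2 * v - ε)) (hl0 : 0 ≤ l2) :
    h ^ 2 * (l2 / p) ^ ((1 : ℝ) / 2) ≤ 1536 * x ^ (2 * κ - v - ε / 2) := by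
  have hx0 : 0 < x := by linarith
  have hg0 : 0 < g := by linarith
  have hp0 : 0 < q / (2 * g) := by positivity
  have hp1 : 0 < p := lt_of_lt_of_le hp0 hp
  have hK0 : 0 < x ^ κ := Real.rpow_pos_of_pos hx0 _
  set w : ℝ := (l2 / q) ^ ((1 : ℝ) / 2) with hw
  have hw0 : 0 ≤ w := Real.rpow_nonneg (by positivity) _
  have h1 : (l2 / p) ^ ((1 : ℝ) / 2) ≤ 2 * g * w := by
    calc (l2 / p) ^ ((1 : ℝ) / 2) ≤ ((2 * g) ^ 2 * (l2 / q)) ^ ((1 : ℝ) / 2) := by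
          refine Real.rpow_le_rpow (by positivity) ?_ (by norm_num)
          calc l2 / p ≤ l2 / (q / (2 * g)) := div_le_div_of_nonneg_left hl0 hp0 hp
            _ = 2 * g * (l2 / q) := by field_simp
            _ ≤ (2 * g) ^ 2 * (l2 / q) := by
                refine mul_le_mul_of_nonneg_right ?_ (by positivity)
                nlinarith
      _ = 2 * g * w := by
          rw [Real.mul_rpow (by positivity) (by positivity), ← Real.rpow_natCast (2 * g) 2,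
            ← Real.rpow_mul (by positivity), hw]
          norm_num
  have h2 : h ^ 2 * g ≤ 4 * (4 * x ^ κ * q ^ 2 / x) ^ 2 := by
    have h3 : (g * h) ^ 2 ≤ (2 * (4 * x ^ κ * q ^ 2 / x)) ^ 2 := pow_le_pow_left₀ (by positivity) hgh 2
    have h4 : h ^ 2 * g ≤ (g * h) ^ 2 := by
      have h5 : (g * h) ^ 2 = h ^ 2 * (g * g) := by ring
      rw [h5]
      exact mul_le_mul_of_nonneg_left (by nlinarith) (by positivity)
    calc h ^ 2 * g ≤ (g * h) ^ 2 := h4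
      _ ≤ (2 * (4 * x ^ κ * q ^ 2 / x)) ^ 2 := h3
      _ = 4 * (4 * x ^ κ * q ^ 2 / x) ^ 2 := by ring
  have h3 : q ^ 4 * w ≤ 12 * x ^ ((2 : ℝ) - v - ε / 2) := by
    have e1 : q ^ 4 * w = (q ^ 7 * l2) ^ ((1 : ℝ) / 2) := by
      have e2 : q ^ 4 = (q ^ 8) ^ ((1 : ℝ) / 2) := by
        rw [← Real.rpow_natCast q 8, ← Real.rpow_mul hq0.le, ← Real.rpow_natCast q 4]
        norm_num
      rw [hw, e2, ← Real.mul_rpow (by positivity) (by positivity)]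
      congr 1
      field_simp
    rw [e1]
    have e3 : q ^ 7 * l2 ≤ 144 * x ^ ((4 : ℝ) - 2 * v - ε) := by
      have e4 : q ^ 7 ≤ 128 * x ^ ((7 : ℝ) / 2 + 7 * δ) := by
        calc q ^ 7 ≤ (2 * x ^ ((1 : ℝ) / 2 + δ)) ^ 7 := pow_le_pow_left₀ hq0.le hq2 7
          _ = 128 * x ^ ((7 : ℝ) / 2 + 7 * δ) := by
              rw [mul_pow, ← Real.rpow_natCast (x ^ ((1 : ℝ) / 2 + δ)) 7, ← Real.rpow_mul hx0.le]
              norm_num
              congr 1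
              ring
      calc q ^ 7 * l2 ≤ (128 * x ^ ((7 : ℝ) / 2 + 7 * δ)) * x ^ ((1 : ℝ) / 2 - 7 * δ - 2 * v - ε) :=
            mul_le_mul e4 hl2 hl0 (by positivity)
        _ = 128 * x ^ ((4 : ℝ) - 2 * v - ε) := by
            rw [mul_assoc, Hev_mul hx0]
            congr 2
            ring
        _ ≤ 144 * x ^ ((4 : ℝ) - 2 * v - ε) := mul_le_mul_of_nonneg_right (by norm_num) (by positivity)
    calc (q ^ 7 * l2) ^ ((1 : ℝ) / 2) ≤ (144 * x ^ ((4 : ℝ) - 2 * v - ε)) ^ ((1 : ℝ) / 2) :=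
          Real.rpow_le_rpow (by positivity) e3 (by norm_num)
      _ = 12 * x ^ ((2 : ℝ) - v - ε / 2) := by
          rw [Real.mul_rpow (by norm_num) (by positivity), ← Real.rpow_mul hx0.le,
            show (144 : ℝ) = 12 ^ (2 : ℝ) by norm_num, ← Real.rpow_mul (by norm_num)]
          norm_num
          congr 1
          ring
  have h4 : (4 * x ^ κ * q ^ 2 / x) ^ 2 * w ≤ 192 * x ^ (2 * κ - v - ε / 2) := by
    have e1 : (4 * x ^ κ * q ^ 2 / x) ^ 2 * w = 16 * (x ^ κ) ^ 2 * (q ^ 4 * w) / x ^ 2 := by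
      field_simp
      ring
    rw [e1, div_le_iff₀ (by positivity)]
    calc 16 * (x ^ κ) ^ 2 * (q ^ 4 * w) ≤ 16 * (x ^ κ) ^ 2 * (12 * x ^ ((2 : ℝ) - v - ε / 2)) :=
          mul_le_mul_of_nonneg_left h3 (by positivity)
      _ = 192 * (x ^ (2 * κ) * x ^ ((2 : ℝ) - v - ε / 2)) := by
          rw [← Real.rpow_natCast (x ^ κ) 2, ← Real.rpow_mul hx0.le]
          have : κ * ((2 : ℕ) : ℝ) = 2 * κ := by push_cast; ring
          rw [this]
          ring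
      _ = 192 * (x ^ (2 * κ - v - ε / 2) * x ^ (2 : ℝ)) := by
          rw [Hev_mul hx0, Hev_mul hx0]
          congr 2
          ring
      _ = 192 * x ^ (2 * κ - v - ε / 2) * x ^ 2 := by
          rw [Real.rpow_two]
          ring
  calc h ^ 2 * (l2 / p) ^ ((1 : ℝ) / 2) ≤ h ^ 2 * (2 * g * w) :=
        mul_le_mul_of_nonneg_left h1 (by positivity)
    _ = 2 * (h ^ 2 * g) * w := by ring
    _ ≤ 2 * (4 * (4 * x ^ κ * q ^ 2 / x) ^ 2) * w := by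
        refine mul_le_mul_of_nonneg_right ?_ hw0
        linarith
    _ = 8 * ((4 * x ^ κ * q ^ 2 / x) ^ 2 * w) := by ring
    _ ≤ 8 * (192 * x ^ (2 * κ - v - ε / 2)) := mul_le_mul_of_nonneg_left h4 (by norm_num)
    _ = 1536 * x ^ (2 * κ - v - ε / 2) := by ring

/-- the third part of the bound -/
private lemma Hev_thi {x δ v ε κ f q q2 h g p : ℝ} (hx : 1 ≤ x) (hf : 0 < f) (hfx : f ≤ x ^ κ) (hq0 : 0 < q)
    (hq20 : 0 < q2) (hqq : q2 ≤ q)
    (hq2 : q ≤ 2 * x ^ ((1 : ℝ) / 2 + δ)) (hh0 : 0 < h) (hg1 : 1 ≤ g)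
    (hgh : g * h ≤ 2 * (4 * f * x ^ κ * q * q2 / x)) (hp : q2 / (2 * g) ≤ p)
    (hex : 3 * v + 3 * δ + ε / 2 ≤ 1 / 2) :
    h ^ 2 / p ≤ 1024 * x ^ (2 * (2 * κ) - 3 * v - ε / 2) := by
  have hx0 : 0 < x := by linarith
  have hg0 : 0 < g := by linarith
  have hp0 : 0 < q2 / (2 * g) := by positivity
  have hp1 : 0 < p := lt_of_lt_of_le hp0 hp
  have hK0 : 0 < x ^ κ := Real.rpow_pos_of_pos hx0 _
  have h2 : h ^ 2 * g ≤ 4 * (4 * f * x ^ κ * q * q2 / x) ^ 2 := by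
    have h3 : (g * h) ^ 2 ≤ (2 * (4 * f * x ^ κ * q * q2 / x)) ^ 2 := pow_le_pow_left₀ (by positivity) hgh 2
    have h4 : h ^ 2 * g ≤ (g * h) ^ 2 := by
      have h5 : (g * h) ^ 2 = h ^ 2 * (g * g) := by ring
      rw [h5]
      exact mul_le_mul_of_nonneg_left (by nlinarith) (by positivity)
    calc h ^ 2 * g ≤ (g * h) ^ 2 := h4
      _ ≤ (2 * (4 * f * x ^ κ * q * q2 / x)) ^ 2 := h3
      _ = 4 * (4 * f * x ^ κ * q * q2 / x) ^ 2 := by ring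
  have h3 : q ^ 3 ≤ 8 * x ^ ((3 : ℝ) / 2 + 3 * δ) := by
    calc q ^ 3 ≤ (2 * x ^ ((1 : ℝ) / 2 + δ)) ^ 3 := pow_le_pow_left₀ hq0.le hq2 3
      _ = 8 * x ^ ((3 : ℝ) / 2 + 3 * δ) := by
          rw [mul_pow, ← Real.rpow_natCast (x ^ ((1 : ℝ) / 2 + δ)) 3, ← Real.rpow_mul hx0.le]
          norm_num
          congr 1
          ring
  have h5 : f ^ 2 * (q ^ 2 * q2) ≤ (x ^ κ) ^ 2 * q ^ 3 := by
    refine mul_le_mul (pow_le_pow_left₀ hf.le hfx 2) ?_ (by positivity) (by positivity)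
    calc q ^ 2 * q2 ≤ q ^ 2 * q := mul_le_mul_of_nonneg_left hqq (by positivity)
      _ = q ^ 3 := by ring
  calc h ^ 2 / p ≤ h ^ 2 / (q2 / (2 * g)) := div_le_div_of_nonneg_left (by positivity) hp0 hp
    _ = 2 * (h ^ 2 * g) / q2 := by field_simp
    _ ≤ 2 * (4 * (4 * f * x ^ κ * q * q2 / x) ^ 2) / q2 := by
        refine div_le_div_of_nonneg_right ?_ hq20.le
        linarith
    _ = 128 * (x ^ κ) ^ 2 * (f ^ 2 * (q ^ 2 * q2)) / x ^ 2 := by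
        field_simp
        ring
    _ ≤ 128 * (x ^ κ) ^ 2 * ((x ^ κ) ^ 2 * (8 * x ^ ((3 : ℝ) / 2 + 3 * δ))) / x ^ 2 := by
        refine div_le_div_of_nonneg_right ?_ (by positivity)
        refine mul_le_mul_of_nonneg_left (h5.trans ?_) (by positivity)
        exact mul_le_mul_of_nonneg_left h3 (by positivity)
    _ = 1024 * (x ^ (2 * κ) * x ^ (2 * κ) * x ^ ((3 : ℝ) / 2 + 3 * δ) / x ^ (2 : ℝ)) := by
        rw [← Real.rpow_natCast (x ^ κ) 2, ← Real.rpow_mul hx0.le, Real.rpow_two]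
        have : κ * ((2 : ℕ) : ℝ) = 2 * κ := by push_cast; ring
        rw [this]
        ring
    _ = 1024 * x ^ (2 * κ + 2 * κ + (3 / 2 + 3 * δ) - 2) := by
        rw [Hev_mul hx0, Hev_mul hx0, ← Real.rpow_sub hx0]
    _ ≤ 1024 * x ^ (2 * (2 * κ) - 3 * v - ε / 2) :=
        mul_le_mul_of_nonneg_left (Hev_mono hx (by linarith)) (by norm_num)

/-- the last factor -/
private lemma Hev_las {x v s ε κ K A B D : ℝ} (hx : 1 ≤ x) (hκ : 0 ≤ κ) (hε : 0 < ε) (hK : x ^ s ≤ K)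
    (hA : A ≤ 32 * x ^ (κ - v + s - ε)) (hD : D ≤ 1024 * x ^ (2 * κ - 3 * v - ε / 2))
    (hB : B ≤ 1536 * x ^ (2 * κ - v - ε / 2)) :
    K ^ 2 * (K * x ^ v) * A + K * (K * x ^ v) ^ 3 * D + K ^ 3 * (K * x ^ v) * B ≤
      2592 * K ^ 4 * x ^ (2 * κ - ε / 2) := by
  have hx0 : 0 < x := by linarith
  have hK0 : 0 < K := lt_of_lt_of_le (Real.rpow_pos_of_pos hx0 _) hK
  have h1 : (x ^ v) ^ 3 = x ^ (3 * v) := by
    rw [← Real.rpow_natCast (x ^ v) 3, ← Real.rpow_mul hx0.le]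
    congr 1
    push_cast
    ring
  have h2 : x ^ v * A ≤ 32 * K * x ^ (2 * κ - ε / 2) := by
    calc x ^ v * A ≤ x ^ v * (32 * x ^ (κ - v + s - ε)) :=
          mul_le_mul_of_nonneg_left hA (by positivity)
      _ = 32 * (x ^ s * x ^ (κ - ε)) := by
          rw [mul_left_comm, Hev_mul hx0, Hev_mul hx0]
          congr 2
          ring
      _ ≤ 32 * (K * x ^ (2 * κ - ε / 2)) := by
          refine mul_le_mul_of_nonneg_left ?_ (by norm_num)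
          exact mul_le_mul hK (Hev_mono hx (by linarith)) (by positivity) hK0.le
      _ = 32 * K * x ^ (2 * κ - ε / 2) := by ring
  have h3 : x ^ v * B ≤ 1536 * x ^ (2 * κ - ε / 2) := by
    calc x ^ v * B ≤ x ^ v * (1536 * x ^ (2 * κ - v - ε / 2)) :=
          mul_le_mul_of_nonneg_left hB (by positivity)
      _ = 1536 * x ^ (2 * κ - ε / 2) := by
          rw [mul_left_comm, Hev_mul hx0]
          congr 2
          ring
  have h4 : x ^ (3 * v) * D ≤ 1024 * x ^ (2 * κ - ε / 2) := by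
    calc x ^ (3 * v) * D ≤ x ^ (3 * v) * (1024 * x ^ (2 * κ - 3 * v - ε / 2)) :=
          mul_le_mul_of_nonneg_left hD (by positivity)
      _ = 1024 * x ^ (2 * κ - ε / 2) := by
          rw [mul_left_comm, Hev_mul hx0]
          congr 2
          ring
  calc K ^ 2 * (K * x ^ v) * A + K * (K * x ^ v) ^ 3 * D + K ^ 3 * (K * x ^ v) * B =
        K ^ 3 * (x ^ v * A) + K ^ 4 * (x ^ (3 * v) * D) + K ^ 4 * (x ^ v * B) := by
        rw [mul_pow, h1]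
        ring
    _ ≤ K ^ 3 * (32 * K * x ^ (2 * κ - ε / 2)) + K ^ 4 * (1024 * x ^ (2 * κ - ε / 2)) +
          K ^ 4 * (1536 * x ^ (2 * κ - ε / 2)) :=
        add_le_add (add_le_add (mul_le_mul_of_nonneg_left h2 (by positivity))
          (mul_le_mul_of_nonneg_left h4 (by positivity))) (mul_le_mul_of_nonneg_left h3 (by positivity))
    _ = 2592 * K ^ 4 * x ^ (2 * κ - ε / 2) := by ring

/-- the root -/
private lemma Hev_root {x ε K R : ℝ} (hx : 1 ≤ x) (hε : 0 < ε) (hK : 0 < K) (hR0 : 0 ≤ R)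
    (hR : R ≤ 171072 * K ^ 4 * x ^ (3 * ε / 1000 + 2 * (ε / 200) + (2 * (2 * (ε / 200)) - ε / 2))) :
    R ^ ((1 : ℝ) / 2) ≤ 414 * K ^ 2 * x ^ (-(ε / 10) - ε / 200) := by
  have hx0 : 0 < x := by linarith
  have h1 : R ≤ (414 * K ^ 2 * x ^ (-(ε / 10) - ε / 200)) ^ 2 := by
    refine hR.trans ?_
    have h2 : (414 * K ^ 2 * x ^ (-(ε / 10) - ε / 200)) ^ 2 = 171396 * K ^ 4 * x ^ (-(ε / 5) - ε / 100) := by
      rw [mul_pow, mul_pow, ← Real.rpow_natCast (x ^ (-(ε / 10) - ε / 200)) 2, ← Real.rpow_mul hx0.le]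
      have : (-(ε / 10) - ε / 200) * ((2 : ℕ) : ℝ) = -(ε / 5) - ε / 100 := by push_cast; ring
      rw [this]
      ring
    rw [h2]
    refine mul_le_mul ?_ (Hev_mono hx (by linarith)) (by positivity) (by positivity)
    exact mul_le_mul_of_nonneg_right (by norm_num) (by positivity)
  have h3 : 0 ≤ 414 * K ^ 2 * x ^ (-(ε / 10) - ε / 200) := by positivity
  calc R ^ ((1 : ℝ) / 2) ≤ ((414 * K ^ 2 * x ^ (-(ε / 10) - ε / 200)) ^ 2) ^ ((1 : ℝ) / 2) :=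
        Real.rpow_le_rpow hR0 h1 (by norm_num)
    _ = 414 * K ^ 2 * x ^ (-(ε / 10) - ε / 200) := by
        rw [← Real.sqrt_eq_rpow, Real.sqrt_sq h3]

/-- a quotient with floor is at least half of the quotient -/
private lemma Hev_div {Q g : ℕ} (hg : 1 ≤ g) (h : g ≤ Q) : (Q : ℝ) / (2 * g) ≤ ((Q / g : ℕ) : ℝ) := by
  have hg' : (0 : ℝ) < g := by exact_mod_cast hg
  have h1 : Q < g * (Q / g) + g := by
    have := Nat.lt_mul_div_succ Q (show 0 < g by omega)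
    rw [Nat.mul_add, Nat.mul_one] at this
    exact this
  have h2 : 1 ≤ Q / g := (Nat.one_le_div_iff (by omega)).mpr h
  have h3 : (Q : ℝ) ≤ g * ((Q / g : ℕ) : ℝ) + g := by exact_mod_cast h1.le
  have h4 : (1 : ℝ) ≤ ((Q / g : ℕ) : ℝ) := by exact_mod_cast h2
  rw [div_le_iff₀ (by positivity)]
  nlinarith

theorem tHev : HevStmt := by
  intro δ v s ε C j hδ hv hs hs2 hε hde hC hj
  have hδ1 : δ ≤ 1 / 14 := by linarith
  have hε1 : ε ≤ 1 / 4 := by linarith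
  obtain ⟨N1, hN1⟩ := exists_nat_ge ((16 : ℝ) ^ (2 / ε))
  refine ⟨414 * C, max N1 5000, by positivity, ?_⟩
  intro N f Q Q2 γ L1 L2 K hN0 hN hγ hf hfx hQQ hQ2 hL1 hL12 hL2 hK hγN
  have hx : (1 : ℝ) ≤ N := by exact_mod_cast hN
  have hx0 : (0 : ℝ) < N := by linarith
  have hf1 : (1 : ℝ) ≤ f := by exact_mod_cast hf
  have hf0 : (0 : ℝ) < f := by linarith
  have hQQr : (Q2 : ℝ) ≤ Q := by exact_mod_cast hQQ
  have hx5000 : (5000 : ℝ) ≤ N := by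
    have : 5000 ≤ N := (le_max_right _ _).trans hN0
    exact_mod_cast this
  have hxε : (16 : ℝ) ≤ (N : ℝ) ^ (ε / 2) := by
    have h1 : (16 : ℝ) ^ (2 / ε) ≤ N := hN1.trans (by exact_mod_cast (le_max_left _ _).trans hN0)
    calc (16 : ℝ) = ((16 : ℝ) ^ (2 / ε)) ^ (ε / 2) := by
          rw [← Real.rpow_mul (by norm_num)]
          have : 2 / ε * (ε / 2) = 1 := by field_simp
          rw [this, Real.rpow_one]
      _ ≤ (N : ℝ) ^ (ε / 2) := Real.rpow_le_rpow (by positivity) h1 (by linarith)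
  have hx4 : (8 : ℝ) ≤ (N : ℝ) ^ ((1 : ℝ) / 4) := by
    calc (8 : ℝ) = (4096 : ℝ) ^ ((1 : ℝ) / 4) := by
          rw [show (4096 : ℝ) = 8 ^ (4 : ℝ) by norm_num, ← Real.rpow_mul (by norm_num)]
          norm_num
      _ ≤ (N : ℝ) ^ ((1 : ℝ) / 4) := Real.rpow_le_rpow (by norm_num) (by linarith) (by norm_num)
  have hg1 : (1 : ℝ) ≤ γ := by exact_mod_cast hγ
  have hg0 : (0 : ℝ) < γ := by linarith
  have hK0 : 0 < K := lt_of_lt_of_le (Real.rpow_pos_of_pos hx0 _) hK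
  have hκ0 : 0 < (N : ℝ) ^ (ε / 200) := Real.rpow_pos_of_pos hx0 _
  have hfk : (f : ℝ) * (N : ℝ) ^ (ε / 200) ≤ (N : ℝ) ^ (2 * (ε / 200)) := by
    calc (f : ℝ) * (N : ℝ) ^ (ε / 200) ≤ (N : ℝ) ^ (ε / 200) * (N : ℝ) ^ (ε / 200) :=
          mul_le_mul_of_nonneg_right hfx hκ0.le
      _ = (N : ℝ) ^ (2 * (ε / 200)) := by
          rw [Hev_mul hx0]
          congr 1
          ring
  have hQ20 : (0 : ℝ) < Q2 := by
    rcases Nat.eq_zero_or_pos Q2 with h | h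
    · rw [h] at hγN
      push_cast at hγN
      have : 0 < (γ : ℝ) * N := by positivity
      nlinarith
    · exact_mod_cast h
  have hQ0 : (0 : ℝ) < Q := by linarith
  set G : ℝ := 4 * (f : ℝ) * (N : ℝ) ^ (ε / 200) * Q * Q2 / N with hGdef
  have hG0 : 0 < G := by positivity
  have hgG : (γ : ℝ) ≤ G := by
    rw [hGdef, le_div_iff₀ hx0]
    exact hγN
  have hGQ : G ≤ 4 * (N : ℝ) ^ (2 * (ε / 200)) * (Q : ℝ) ^ 2 / N := by
    rw [hGdef]
    refine div_le_div_of_nonneg_right ?_ hx0.le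
    calc 4 * (f : ℝ) * (N : ℝ) ^ (ε / 200) * Q * Q2 = 4 * ((f : ℝ) * (N : ℝ) ^ (ε / 200)) * (Q * Q2) := by ring
      _ ≤ 4 * (N : ℝ) ^ (2 * (ε / 200)) * ((Q : ℝ) * Q) := by
          refine mul_le_mul ?_ (mul_le_mul_of_nonneg_left hQQr hQ0.le) (by positivity) (by positivity)
          linarith
      _ = 4 * (N : ℝ) ^ (2 * (ε / 200)) * (Q : ℝ) ^ 2 := by ring
  have hG16 : G ≤ 16 * (N : ℝ) ^ (2 * (ε / 200) + 2 * δ) := hGQ.trans (Hev_G hx hQ0 hQ2)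
  have hGg : 1 ≤ G / γ := by
    rw [le_div_iff₀ hg0]
    linarith
  refine ⟨⌈G / γ⌉₊, ?_, ?_⟩
  · rw [Nat.one_le_ceil_iff]
    positivity
  have hh1 : G / γ ≤ (⌈G / γ⌉₊ : ℝ) := Nat.le_ceil _
  have hh2 : (⌈G / γ⌉₊ : ℝ) ≤ 2 * (G / γ) := by
    have := (Nat.ceil_lt_add_one (show 0 ≤ G / γ by linarith)).le
    linarith
  generalize ⌈G / γ⌉₊ = H at hh1 hh2 ⊢
  have hH0 : (0 : ℝ) < H := by linarith
  have hgh1 : G ≤ γ * H := by
    rw [div_le_iff₀ hg0] at hh1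
    linarith
  have hgh2 : (γ : ℝ) * H ≤ 2 * G := by
    have h1 : 2 * (G / γ) * γ = 2 * G := by field_simp
    have h2 := mul_le_mul_of_nonneg_right hh2 hg0.le
    rw [h1] at h2
    linarith
  have hgh3 : (γ : ℝ) * H ≤ 2 * (4 * (N : ℝ) ^ (2 * (ε / 200)) * (Q : ℝ) ^ 2 / N) := by linarith
  have hH32 : (H : ℝ) ≤ 32 * (N : ℝ) ^ (2 * (ε / 200) + 2 * δ) := by
    have h1 : (H : ℝ) ≤ γ * H := by nlinarith
    linarith
  -- γ ≤ Q2
  have hgQr : (γ : ℝ) ≤ Q2 := by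
    refine hgG.trans ?_
    have h1 : 4 * (f : ℝ) * (N : ℝ) ^ (ε / 200) * Q ≤ N := by
      calc 4 * (f : ℝ) * (N : ℝ) ^ (ε / 200) * Q = 4 * ((f : ℝ) * (N : ℝ) ^ (ε / 200)) * Q := by ring
        _ ≤ 4 * (N : ℝ) ^ (2 * (ε / 200)) * (2 * (N : ℝ) ^ ((1 : ℝ) / 2 + δ)) := by
            refine mul_le_mul ?_ hQ2 hQ0.le (by positivity)
            linarith
        _ = 8 * (N : ℝ) ^ (2 * (ε / 200) + (1 / 2 + δ)) := by
            rw [← Hev_mul hx0 (2 * (ε / 200)) (1 / 2 + δ)]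
            ring
        _ ≤ (N : ℝ) ^ ((1 : ℝ) / 4) * (N : ℝ) ^ (2 * (ε / 200) + (1 / 2 + δ)) :=
            mul_le_mul_of_nonneg_right hx4 (by positivity)
        _ = (N : ℝ) ^ ((1 : ℝ) / 4 + (2 * (ε / 200) + (1 / 2 + δ))) := Hev_mul hx0 _ _
        _ ≤ (N : ℝ) ^ (1 : ℝ) := Hev_mono hx (by linarith)
        _ = N := Real.rpow_one _
    rw [hGdef, div_le_iff₀ hx0]
    calc 4 * (f : ℝ) * (N : ℝ) ^ (ε / 200) * Q * Q2 = Q2 * (4 * (f : ℝ) * (N : ℝ) ^ (ε / 200) * Q) := by ring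
      _ ≤ Q2 * N := mul_le_mul_of_nonneg_left h1 hQ20.le
  have hgQ : γ ≤ Q2 := by exact_mod_cast hgQr
  have hdiv2 := Hev_div hγ hgQ
  have hdiv := Hev_div hγ (hgQ.trans hQQ)
  have hL10 : 1 ≤ L1 := by
    refine le_trans ?_ hL1
    exact Real.one_le_rpow hx (by linarith)
  refine ⟨hgQ, ?_, hL10, ?_, ?_, ?_⟩
  · -- 2 H γ ≤ Q Q2
    have h1 : 2 * (H : ℝ) * γ ≤ (Q : ℝ) * Q2 := by
      have h2 : 4 * G ≤ (Q : ℝ) * Q2 := by
        have h3 : 16 * ((f : ℝ) * (N : ℝ) ^ (ε / 200)) ≤ N := by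
          calc 16 * ((f : ℝ) * (N : ℝ) ^ (ε / 200)) ≤ 16 * (N : ℝ) ^ (2 * (ε / 200)) := by linarith
            _ ≤ ((N : ℝ) ^ ((1 : ℝ) / 4) * (N : ℝ) ^ ((1 : ℝ) / 4)) * (N : ℝ) ^ (2 * (ε / 200)) := by
                refine mul_le_mul_of_nonneg_right ?_ (by positivity)
                nlinarith
            _ = (N : ℝ) ^ ((1 : ℝ) / 4 + 1 / 4 + 2 * (ε / 200)) := by
                rw [Hev_mul hx0, Hev_mul hx0]
            _ ≤ (N : ℝ) ^ (1 : ℝ) := Hev_mono hx (by linarith)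
            _ = N := Real.rpow_one _
        have h4 : 4 * G = 16 * ((f : ℝ) * (N : ℝ) ^ (ε / 200)) * ((Q : ℝ) * Q2) / N := by
          rw [hGdef]
          ring
        rw [h4, div_le_iff₀ hx0]
        calc 16 * ((f : ℝ) * (N : ℝ) ^ (ε / 200)) * ((Q : ℝ) * Q2) ≤ N * ((Q : ℝ) * Q2) :=
              mul_le_mul_of_nonneg_right h3 (by positivity)
          _ = (Q : ℝ) * Q2 * N := by ring
      linarith
    exact_mod_cast h1
  · -- L2 ≤ P2
    refine le_trans ?_ hdiv2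
    have h1 : (Q2 : ℝ) / (2 * G) ≤ (Q2 : ℝ) / (2 * γ) :=
      div_le_div_of_nonneg_left hQ20.le (by positivity) (by linarith)
    refine le_trans ?_ h1
    rw [le_div_iff₀ (by positivity), hGdef]
    have h2 : L2 * (2 * (4 * (f : ℝ) * (N : ℝ) ^ (ε / 200) * Q * Q2 / N)) =
        (8 * L2 * ((f : ℝ) * (N : ℝ) ^ (ε / 200)) * Q / N) * Q2 := by
      field_simp
      ring
    rw [h2]
    have h3 : 8 * L2 * ((f : ℝ) * (N : ℝ) ^ (ε / 200)) * Q / N ≤ 1 := by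
      rw [div_le_one hx0]
      have hL20 : 0 ≤ L2 := by linarith
      calc 8 * L2 * ((f : ℝ) * (N : ℝ) ^ (ε / 200)) * Q
          ≤ 8 * (N : ℝ) ^ ((1 : ℝ) / 2 - 7 * δ - 2 * v - ε) * (N : ℝ) ^ (2 * (ε / 200)) *
              (2 * (N : ℝ) ^ ((1 : ℝ) / 2 + δ)) := by
            refine mul_le_mul ?_ hQ2 hQ0.le (by positivity)
            refine mul_le_mul ?_ hfk (by positivity) (by positivity)
            linarith
        _ = 16 * ((N : ℝ) ^ ((1 : ℝ) / 2 - 7 * δ - 2 * v - ε) * (N : ℝ) ^ (2 * (ε / 200)) *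
              (N : ℝ) ^ ((1 : ℝ) / 2 + δ)) := by ring
        _ = 16 * (N : ℝ) ^ ((1 : ℝ) / 2 - 7 * δ - 2 * v - ε + 2 * (ε / 200) + (1 / 2 + δ)) := by
            rw [Hev_mul hx0, Hev_mul hx0]
        _ ≤ (N : ℝ) ^ (ε / 2) * (N : ℝ) ^ ((1 : ℝ) / 2 - 7 * δ - 2 * v - ε + 2 * (ε / 200) + (1 / 2 + δ)) :=
            mul_le_mul_of_nonneg_right hxε (by positivity)
        _ = (N : ℝ) ^ (ε / 2 + ((1 : ℝ) / 2 - 7 * δ - 2 * v - ε + 2 * (ε / 200) + (1 / 2 + δ))) := Hev_mul hx0 _ _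
        _ ≤ (N : ℝ) ^ (1 : ℝ) := Hev_mono hx (by linarith)
        _ = N := Real.rpow_one _
    calc 8 * L2 * ((f : ℝ) * (N : ℝ) ^ (ε / 200)) * Q / N * Q2 ≤ 1 * Q2 := mul_le_mul_of_nonneg_right h3 hQ20.le
      _ = Q2 := one_mul _
  · exact Hev_one hx hj hf0 hQ0 hQ20 hg0 hH0 hgh1
  · -- the main bound
    have hL20 : 0 ≤ L2 := by linarith
    have hP0 : (0 : ℝ) < ((Q / γ : ℕ) : ℝ) := lt_of_lt_of_le (by positivity) hdiv
    have hP20 : (0 : ℝ) < ((Q2 / γ : ℕ) : ℝ) := lt_of_lt_of_le (by positivity) hdiv2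
    have a1 := Hev_small hx hε hδ1 hε1 hQ0 hH0 hQ2 hH32
    have a2 := Hev_smooth hx (by linarith : (0 : ℝ) ≤ ε / 200) hf0 hfx hQ0 hQ20 hg0 hH0 hgh2 hdiv hdiv2
    have a3 := Hev_fir hx hgh2 hG16 hL1
    have a4 := Hev_sec hx hQ0 hQ2 hH0 hg1 hgh3 hdiv hL2 hL20
    have a45 := Hev_thi (v := v) (ε := ε) hx hf0 hfx hQ0 hQ20 hQQr hQ2 hH0 hg1 hgh2 hdiv2 (by linarith)
    have a5 := Hev_las hx (by linarith : (0 : ℝ) ≤ 2 * (ε / 200)) hε hK a3 a45 a4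
    have a6 : bndF (ε / 1000) N Q Q2 H γ L1 L2 K (K * (N : ℝ) ^ v) ≤
        171072 * K ^ 4 * (N : ℝ) ^ (3 * ε / 1000 + 2 * (ε / 200) + (2 * (2 * (ε / 200)) - ε / 2)) := by
      unfold bndF
      calc _ ≤ (2 * (N : ℝ) ^ (3 * ε / 1000)) * (33 * (N : ℝ) ^ (2 * (ε / 200))) *
            (2592 * K ^ 4 * (N : ℝ) ^ (2 * (2 * (ε / 200)) - ε / 2)) := by
            refine mul_le_mul (mul_le_mul a1 a2 (by positivity) (by positivity)) a5 (by positivity) (by positivity)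
        _ = 171072 * K ^ 4 * ((N : ℝ) ^ (3 * ε / 1000) * (N : ℝ) ^ (2 * (ε / 200)) *
              (N : ℝ) ^ (2 * (2 * (ε / 200)) - ε / 2)) := by ring
        _ = _ := by rw [Hev_mul hx0, Hev_mul hx0]
    have a7 : 0 ≤ bndF (ε / 1000) N Q Q2 H γ L1 L2 K (K * (N : ℝ) ^ v) := by
      unfold bndF
      positivity
    have a8 := Hev_root hx hε hK0 a7 a6
    calc C * f * ((N : ℝ) / γ) * (bndF (ε / 1000) N Q Q2 H γ L1 L2 K (K * (N : ℝ) ^ v)) ^ ((1 : ℝ) / 2)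
        ≤ C * (N : ℝ) ^ (ε / 200) * ((N : ℝ) / γ) * (414 * K ^ 2 * (N : ℝ) ^ (-(ε / 10) - ε / 200)) := by
          refine mul_le_mul ?_ a8 (by positivity) (by positivity)
          refine mul_le_mul_of_nonneg_right ?_ (by positivity)
          exact mul_le_mul_of_nonneg_left hfx hC
      _ = 414 * C * K ^ 2 * ((N : ℝ) ^ (ε / 200) * (N : ℝ) ^ (1 : ℝ) * (N : ℝ) ^ (-(ε / 10) - ε / 200)) / γ := by
          rw [Real.rpow_one]
          ring
      _ = 414 * C * K ^ 2 * (N : ℝ) ^ (1 - ε / 10) / γ := by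
          rw [Hev_mul hx0, Hev_mul hx0]
          congr 3
          ring

end Pool.Agent.Lib.TV
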