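import Pool.Agent.Lib.TV.SpecGf

/-! THEOREM V, factor f and two blocks. The result of part G: the sum of the error terms of the pairs for the whole family. -/

set_option autoImplicit false

namespace Pool.Agent.Lib.TV

open Finset Pool.Agent.Lib.EH3 Pool.Agent.Lib.TB Pool.Agent.Lib.TN Pool.Agent.Lib.TM Pool.Agent.Results.MP_00e23e_nt

private theorem Hfi_harm (Q : ℕ) : ∑ γ ∈ Icc 1 (2 * Q), (1 : ℝ) / γ ≤ 1 + Real.log (2 * Q) := by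
  have h := harmonic_le_one_add_log (2 * Q)
  rw [harmonic_eq_sum_Icc] at h
  push_cast at h
  have e : ∑ γ ∈ Icc 1 (2 * Q), (1 : ℝ) / γ = ∑ x ∈ Icc 1 (2 * Q), ((x : ℝ))⁻¹ :=
    Finset.sum_congr rfl fun γ _ => one_div _
  rw [e]
  exact h

private theorem Hfi_log (N Q : ℕ) (ε : ℝ) (hN : 1 ≤ N) (hε : 0 < ε) (hε1 : ε ≤ 1) (hQ : (1 : ℝ) ≤ Q)
    (hQN : (Q : ℝ) ≤ 2 * N) : ∑ γ ∈ Icc 1 (2 * Q), (1 : ℝ) / γ ≤ (1 + 80 / ε) * (N : ℝ) ^ (ε / 20) := by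
  have hNr : (1 : ℝ) ≤ N := by exact_mod_cast hN
  have hN0 : (0 : ℝ) < N := by linarith
  have h1 : Real.log (2 * Q) ≤ Real.log (4 * N) := Real.log_le_log (by linarith) (by linarith)
  have h2 : Real.log (4 * N) ≤ (4 * (N : ℝ)) ^ (ε / 20) / (ε / 20) :=
    Real.log_le_rpow_div (by positivity) (by positivity)
  have h3 : (4 * (N : ℝ)) ^ (ε / 20) ≤ 4 * (N : ℝ) ^ (ε / 20) := by
    rw [Real.mul_rpow (by norm_num) hN0.le]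
    apply mul_le_mul_of_nonneg_right _ (by positivity)
    calc (4 : ℝ) ^ (ε / 20) ≤ (4 : ℝ) ^ (1 : ℝ) :=
          Real.rpow_le_rpow_of_exponent_le (by norm_num) (by linarith)
      _ = 4 := by norm_num
  have h4 : (4 * (N : ℝ)) ^ (ε / 20) / (ε / 20) ≤ 80 / ε * (N : ℝ) ^ (ε / 20) := by
    rw [div_le_iff₀ (by positivity)]
    have : 80 / ε * (N : ℝ) ^ (ε / 20) * (ε / 20) = 4 * (N : ℝ) ^ (ε / 20) := by
      field_simp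
      ring
    rw [this]
    exact h3
  have h5 : (1 : ℝ) ≤ (N : ℝ) ^ (ε / 20) := Real.one_le_rpow hNr (by positivity)
  have h6 := Hfi_harm Q
  calc ∑ γ ∈ Icc 1 (2 * Q), (1 : ℝ) / γ ≤ 1 + Real.log (2 * Q) := h6
    _ ≤ (N : ℝ) ^ (ε / 20) + 80 / ε * (N : ℝ) ^ (ε / 20) := by linarith
    _ = (1 + 80 / ε) * (N : ℝ) ^ (ε / 20) := by ring

theorem tHfi (h1 : HlaStmt) (h2 : HsmStmt) (h3 : HevStmt) (h4 : HdeStmt) : HfiStmt := by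
  intro δ v g ε hδ hv hg hgδ hε hcond
  have hε4 : ε ≤ 1 / 4 := by linarith
  have hδ' : δ ≤ 1 / 14 := by linarith
  set j : ℕ := ⌈600 / ε⌉₊ with hj
  have hj1 : 600 / ε ≤ (j : ℝ) := Nat.le_ceil _
  have hj2 : 3 ≤ ε / 200 * (2 * (j : ℝ) + 1) := by
    have h5 : ε * (600 / ε) ≤ ε * j := mul_le_mul_of_nonneg_left hj1 hε.le
    have h5' : ε * (600 / ε) = 600 := by field_simp
    rw [h5'] at h5
    have h6' : ε / 200 * (2 * (j : ℝ) + 1) = (ε * j) / 100 + ε / 200 := by ring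
    rw [h6']
    linarith
  obtain ⟨C, hC0, hC⟩ := h2 (ε / 1000) j (by positivity)
  obtain ⟨C1, N0, hC10, hC1⟩ := h3 δ v g ε C j hδ hv hg hgδ hε hcond hC0 hj2
  refine ⟨j, 64 + C1 * (1 + 80 / ε), ε / 20, ε / 200, N0, by positivity, by positivity, ?_⟩
  intro N Q Q2 f L1 L2 K A c c' hN hN1 hQQ hQ1 hQ2 hf hf2 hL1 hL2 hcf hcf' hcop hconv hA hgK ha
  have hNr : (1 : ℝ) ≤ N := by exact_mod_cast hN1
  have hN0 : (0 : ℝ) < N := by linarith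
  have hf' : (1 : ℝ) ≤ f := by exact_mod_cast hf
  have hK1 : 1 ≤ K := (Real.one_le_rpow hNr hg).trans hgK
  by_cases hL : L1 ≤ L2
  swap
  · have hz : ∀ a d, c' a d = 0 := by
      intro a d
      by_contra hd
      obtain ⟨⟨-, s, -, hs1, hs2⟩, -⟩ := hconv a d hd
      exact hL (hs1.trans hs2)
    have : ∑ a ∈ A, ∑ b ∈ A.erase a, ∑ d ∈ Ioc Q (2 * Q), ∑ d' ∈ Ioc Q2 (2 * Q2),
        c a d * c' b d' * (SSG N j f d d' a b - MM N d d' a b / f) = 0 := by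
      refine Finset.sum_eq_zero fun a _ => Finset.sum_eq_zero fun b _ => Finset.sum_eq_zero fun d _ =>
        Finset.sum_eq_zero fun d' _ => ?_
      rw [hz b d', mul_zero, zero_mul]
    rw [this, abs_zero]
    positivity
  have hQQr : (Q2 : ℝ) ≤ Q := by exact_mod_cast hQQ
  have hQ20 : (0 : ℝ) < Q2 := lt_of_lt_of_le (Real.rpow_pos_of_pos hN0 _) hQ1
  have hQ0 : (0 : ℝ) < Q := by linarith
  have hQ2r : (1 : ℝ) ≤ Q2 := by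
    have : 0 < Q2 := by exact_mod_cast hQ20
    exact_mod_cast this
  have hQN : (Q : ℝ) ≤ 2 * N := by
    refine hQ2.trans ?_
    have := Real.rpow_le_rpow_of_exponent_le hNr (by linarith : (1 : ℝ) / 2 + δ ≤ 1)
    rw [Real.rpow_one] at this
    linarith
  have hNm3 : (0 : ℝ) < (N : ℝ) ^ (-3 : ℝ) := Real.rpow_pos_of_pos hN0 _
  -- every γ
  have hone : ∀ γ ∈ Icc 1 (2 * Q2), ‖famF N j f Q Q2 γ A c c'‖ ≤
      K ^ 2 * (2 * (Q : ℝ)) * (2 * (Q2 : ℝ)) * (N : ℝ) ^ (-3 : ℝ) +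
        C1 * K ^ 2 * (N : ℝ) ^ (1 - ε / 10) * (1 / (γ : ℝ)) := by
    intro γ hγ
    have hγ1 : 1 ≤ γ := (mem_Icc.1 hγ).1
    have hγr : (1 : ℝ) ≤ γ := by exact_mod_cast hγ1
    have hγ0 : (0 : ℝ) < γ := by linarith
    by_cases hsm : (γ : ℝ) * N ≤ 4 * (f : ℝ) * (N : ℝ) ^ (ε / 200) * Q * Q2
    · obtain ⟨H, hH, i1, i2, i3, i4, i5, i6⟩ := hC1 N f Q Q2 γ L1 L2 K hN hN1 hγ1 hf hf2 hQQ hQ2 hL1 hL hL2 hgK hsm
      have h7 := hC N f Q Q2 H γ L1 L2 K (K * (N : ℝ) ^ v) A c c' hN1 hH hf hγ1 i1 hQQ i2 i3 hL i4 hcf hcf' hcop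
        hconv hA ha
      refine h7.trans (add_le_add ?_ ?_)
      · exact mul_le_mul_of_nonneg_left i5 (by positivity)
      · refine i6.trans (le_of_eq ?_)
        ring
    · push Not at hsm
      have h7 := h1 N j f Q Q2 γ K A c c' hN1 hf hγ1 hcf hcf' hcop (fun a d hd => (hconv a d hd).2)
      have hb : 4 * (f : ℝ) * Q * Q2 / ((γ : ℝ) * N) ≤ (N : ℝ) ^ (-(ε / 200)) := by
        rw [div_le_iff₀ (by positivity)]
        have hk : (N : ℝ) ^ (-(ε / 200)) * (N : ℝ) ^ (ε / 200) = 1 := by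
          rw [← Real.rpow_add hN0, neg_add_cancel, Real.rpow_zero]
        have hk0 : (0 : ℝ) < (N : ℝ) ^ (-(ε / 200)) := Real.rpow_pos_of_pos hN0 _
        calc 4 * (f : ℝ) * Q * Q2 = (N : ℝ) ^ (-(ε / 200)) * (4 * (f : ℝ) * (N : ℝ) ^ (ε / 200) * Q * Q2) := by
              rw [show (N : ℝ) ^ (-(ε / 200)) * (4 * (f : ℝ) * (N : ℝ) ^ (ε / 200) * Q * Q2) =
                ((N : ℝ) ^ (-(ε / 200)) * (N : ℝ) ^ (ε / 200)) * (4 * (f : ℝ) * Q * Q2) by ring, hk, one_mul]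
          _ ≤ (N : ℝ) ^ (-(ε / 200)) * ((γ : ℝ) * N) := mul_le_mul_of_nonneg_left hsm.le hk0.le
      have hp : (4 * (f : ℝ) * Q * Q2 / ((γ : ℝ) * N)) ^ (2 * j + 1) ≤ (N : ℝ) ^ (-3 : ℝ) := by
        calc (4 * (f : ℝ) * Q * Q2 / ((γ : ℝ) * N)) ^ (2 * j + 1)
            ≤ ((N : ℝ) ^ (-(ε / 200))) ^ (2 * j + 1) :=
              pow_le_pow_left₀ (by positivity) hb _
          _ = (N : ℝ) ^ (-(ε / 200) * ((2 * j + 1 : ℕ) : ℝ)) := by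
              rw [← Real.rpow_natCast, ← Real.rpow_mul hN0.le]
          _ ≤ (N : ℝ) ^ (-3 : ℝ) := by
              apply Real.rpow_le_rpow_of_exponent_le hNr
              push_cast
              linarith
      refine h7.trans ?_
      have h8 : K ^ 2 * (2 * (Q : ℝ)) * (2 * (Q2 : ℝ)) * (4 * (f : ℝ) * Q * Q2 / ((γ : ℝ) * N)) ^ (2 * j + 1) ≤
          K ^ 2 * (2 * (Q : ℝ)) * (2 * (Q2 : ℝ)) * (N : ℝ) ^ (-3 : ℝ) :=
        mul_le_mul_of_nonneg_left hp (by positivity)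
      have h9 : 0 ≤ C1 * K ^ 2 * (N : ℝ) ^ (1 - ε / 10) * (1 / (γ : ℝ)) := by positivity
      linarith
  have hsum := h4 N j f Q Q2 A c c'
  have hs2 : ∑ γ ∈ Icc 1 (2 * Q2), ‖famF N j f Q Q2 γ A c c'‖ ≤
      (2 * (Q2 : ℝ)) * (K ^ 2 * (2 * (Q : ℝ)) * (2 * (Q2 : ℝ)) * (N : ℝ) ^ (-3 : ℝ)) +
        C1 * K ^ 2 * (N : ℝ) ^ (1 - ε / 10) * ∑ γ ∈ Icc 1 (2 * Q2), (1 : ℝ) / γ := by
    refine (Finset.sum_le_sum hone).trans (le_of_eq ?_)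
    rw [Finset.sum_add_distrib, Finset.sum_const, Nat.card_Icc, nsmul_eq_mul, ← Finset.mul_sum]
    congr 2
    push_cast
    simp
  have hlog := Hfi_log N Q2 ε hN1 hε (by linarith) hQ2r (hQQr.trans hQN)
  have hN3 : (N : ℝ) ^ 3 * (N : ℝ) ^ (-3 : ℝ) = 1 := by
    rw [← Real.rpow_natCast, ← Real.rpow_add hN0]
    norm_num
  have hE : (2 * (Q2 : ℝ)) * (K ^ 2 * (2 * (Q : ℝ)) * (2 * (Q2 : ℝ)) * (N : ℝ) ^ (-3 : ℝ)) ≤ 64 * K ^ 2 := by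
    have h10 : (Q : ℝ) * Q2 * Q2 ≤ (2 * (N : ℝ)) ^ 3 := by
      have h11 : (Q : ℝ) * Q2 * Q2 ≤ (Q : ℝ) * Q * Q := by
        have h12 : (Q : ℝ) * Q2 ≤ Q * Q := mul_le_mul_of_nonneg_left hQQr hQ0.le
        exact mul_le_mul h12 hQQr hQ20.le (by positivity)
      calc (Q : ℝ) * Q2 * Q2 ≤ (Q : ℝ) * Q * Q := h11
        _ = (Q : ℝ) ^ 3 := by ring
        _ ≤ (2 * (N : ℝ)) ^ 3 := pow_le_pow_left₀ hQ0.le hQN 3
    calc (2 * (Q2 : ℝ)) * (K ^ 2 * (2 * (Q : ℝ)) * (2 * (Q2 : ℝ)) * (N : ℝ) ^ (-3 : ℝ))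
        = 8 * K ^ 2 * (N : ℝ) ^ (-3 : ℝ) * ((Q : ℝ) * Q2 * Q2) := by ring
      _ ≤ 8 * K ^ 2 * (N : ℝ) ^ (-3 : ℝ) * (2 * (N : ℝ)) ^ 3 :=
          mul_le_mul_of_nonneg_left h10 (by positivity)
      _ = 64 * K ^ 2 * ((N : ℝ) ^ 3 * (N : ℝ) ^ (-3 : ℝ)) := by ring
      _ = 64 * K ^ 2 := by rw [hN3, mul_one]
  have hone' : (1 : ℝ) ≤ (N : ℝ) ^ (1 - ε / 20) := Real.one_le_rpow hNr (by linarith)
  have hmul : (N : ℝ) ^ (1 - ε / 10) * (N : ℝ) ^ (ε / 20) = (N : ℝ) ^ (1 - ε / 20) := by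
    rw [← Real.rpow_add hN0]
    congr 1
    ring
  calc |∑ a ∈ A, ∑ b ∈ A.erase a, ∑ d ∈ Ioc Q (2 * Q), ∑ d' ∈ Ioc Q2 (2 * Q2),
        c a d * c' b d' * (SSG N j f d d' a b - MM N d d' a b / f)|
      ≤ (2 * (Q2 : ℝ)) * (K ^ 2 * (2 * (Q : ℝ)) * (2 * (Q2 : ℝ)) * (N : ℝ) ^ (-3 : ℝ)) +
        C1 * K ^ 2 * (N : ℝ) ^ (1 - ε / 10) * ∑ γ ∈ Icc 1 (2 * Q2), (1 : ℝ) / γ := hsum.trans hs2
    _ ≤ 64 * K ^ 2 * (N : ℝ) ^ (1 - ε / 20) +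
        C1 * K ^ 2 * (N : ℝ) ^ (1 - ε / 10) * ((1 + 80 / ε) * (N : ℝ) ^ (ε / 20)) := by
        refine add_le_add ?_ ?_
        · refine hE.trans ?_
          exact le_mul_of_one_le_right (by positivity) hone'
        · exact mul_le_mul_of_nonneg_left hlog (by positivity)
    _ = 64 * K ^ 2 * (N : ℝ) ^ (1 - ε / 20) +
        C1 * K ^ 2 * (1 + 80 / ε) * ((N : ℝ) ^ (1 - ε / 10) * (N : ℝ) ^ (ε / 20)) := by ring
    _ = (64 + C1 * (1 + 80 / ε)) * K ^ 2 * (N : ℝ) ^ (1 - ε / 20) := by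
        rw [hmul]
        ring

private lemma Hsy_SSG (N j f u w : ℕ) (a b : ℤ) : SSG N j f u w a b = SSG N j f w u b a := by
  unfold SSG
  refine sum_congr rfl fun n _ => ?_
  have h : ((f : ℤ) ∣ n ∧ (u : ℤ) ∣ n - a ∧ (w : ℤ) ∣ n - b) ↔
      ((f : ℤ) ∣ n ∧ (w : ℤ) ∣ n - b ∧ (u : ℤ) ∣ n - a) :=
    and_congr_right fun _ => and_comm
  simp only [h]

private lemma Hsy_MM (N u w : ℕ) (a b : ℤ) : MM N u w a b = MM N w u b a := by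
  unfold MM
  have h : (((Nat.gcd u w : ℕ) : ℤ) ∣ a - b) ↔ (((Nat.gcd w u : ℕ) : ℤ) ∣ b - a) := by
    rw [Nat.gcd_comm, ← dvd_neg, neg_sub]
  by_cases hd : ((Nat.gcd u w : ℕ) : ℤ) ∣ a - b
  · rw [if_pos hd, if_pos (h.1 hd), Nat.gcd_comm, mul_comm (u : ℝ)]
  · rw [if_neg hd, if_neg (fun h' => hd (h.2 h'))]

private lemma Hsy_erase (A : Finset ℤ) (F : ℤ → ℤ → ℝ) :
    ∑ a ∈ A, ∑ b ∈ A.erase a, F a b = ∑ b ∈ A, ∑ a ∈ A.erase b, F a b := by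
  refine Finset.sum_comm' ?_
  intro a b
  rw [mem_erase, mem_erase]
  constructor
  · rintro ⟨h1, h2, h3⟩
    exact ⟨⟨Ne.symm h2, h1⟩, h3⟩
  · rintro ⟨⟨h1, h2⟩, h3⟩
    exact ⟨h2, Ne.symm h1, h3⟩

theorem tHsy (h : HfiStmt) : HsyStmt := by
  intro δ v g ε hδ hv hg hgδ hε hcond
  obtain ⟨j, C, η, κ, N0, hη, hκ, hB⟩ := h δ v g ε hδ hv hg hgδ hε hcond
  refine ⟨j, C, η, κ, N0, hη, hκ, ?_⟩
  intro N Q Q2 f L1 L2 K A c c' hN0 hN hQ1 hQ2 hQ21 hQ22 hf hf2 hL1 hL2 hc hc' hcc hcc' hA hgK ha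
  rcases le_total Q2 Q with hle | hle
  · exact hB N Q Q2 f L1 L2 K A c c' hN0 hN hle hQ21 hQ2 hf hf2 hL1 hL2 hc hc'
      (fun a d hd => (hcc a d hd).2) hcc' hA hgK ha
  · have h1 := hB N Q2 Q f L1 L2 K A c' c hN0 hN hle hQ1 hQ22 hf hf2 hL1 hL2 hc' hc
      (fun a d hd => (hcc' a d hd).2) hcc hA hgK ha
    refine le_trans (le_of_eq ?_) h1
    congr 1
    rw [Hsy_erase]
    refine sum_congr rfl fun b _ => sum_congr rfl fun a _ => ?_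
    rw [Finset.sum_comm]
    refine sum_congr rfl fun d _ => sum_congr rfl fun d' _ => ?_
    rw [Hsy_SSG N j f d' d a b, Hsy_MM N d' d a b]
    ring

end Pool.Agent.Lib.TV
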