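import Pool.Agent.Lib.TV.SpecGf
import Pool.Agent.Lib.TB.Basic
set_option autoImplicit false

/-!
MP_00e23e_nt, directory Lib/TV (THEOREM V), module Hma: the main part for the family, factor f and two blocks.
-/

namespace Pool.Agent.Lib.TV

open Finset Pool.Agent.Lib.EH3 Pool.Agent.Lib.TB Pool.Agent.Lib.TN Pool.Agent.Lib.TM Pool.Agent.Results.MP_00e23e_nt

/-- the coefficients of a class -/
private noncomputable def Hma_c (f g : ℕ) (c : ℤ → ℕ → ℝ) (u : ℕ) (a : ℤ) (d : ℕ) : ℝ :=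
  if (d / g) % f = u then c a d else 0

private lemma Hma_c_le (f g : ℕ) (c : ℤ → ℕ → ℝ) (u : ℕ) (a : ℤ) (d : ℕ) :
    |Hma_c f g c u a d| ≤ |c a d| := by
  unfold Hma_c
  split_ifs
  · exact le_refl _
  · simp

private lemma Hma_cf {f g : ℕ} {c : ℤ → ℕ → ℝ} {A : Finset ℤ} {K : ℝ} (h : IsCf A K c) (u : ℕ) :
    IsCf A K (Hma_c f g c u) :=
  ⟨fun a d => (Hma_c_le f g c u a d).trans (h.1 a d),
    fun d => (sum_le_sum fun a _ => Hma_c_le f g c u a d).trans (h.2 d)⟩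

private lemma Hma_c_ne {f g : ℕ} {c : ℤ → ℕ → ℝ} {u : ℕ} {a : ℤ} {d : ℕ} (h : Hma_c f g c u a d ≠ 0) : c a d ≠ 0 := by
  unfold Hma_c at h
  split_ifs at h
  · exact h
  · exact absurd rfl h

private lemma Hma_c_mul {f g : ℕ} (hg : 1 ≤ g) (c : ℤ → ℕ → ℝ) (u : ℕ) (a : ℤ) (m : ℕ) :
    Hma_c f g c u a (g * m) = if m % f = u then c a (g * m) else 0 := by
  unfold Hma_c
  rw [Nat.mul_div_cancel_left m (by omega)]

private lemma Hma_iv {f g m n : ℕ} :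
    iv (g * m * n) f = iv ((g * (m % f) * (n % f)) % f) f := by
  apply iv_congr
  have h1 : g * m * n ≡ g * (m % f) * (n % f) [MOD f] :=
    Nat.ModEq.mul (Nat.ModEq.mul_left g (Nat.mod_modEq m f).symm) (Nat.mod_modEq n f).symm
  exact h1.trans (Nat.mod_modEq _ _).symm

/-- a double sum over pairs splits by the classes -/
private lemma Hma_split {f g : ℕ} (hf : 1 ≤ f) (hg : 1 ≤ g) (Q Q2 : ℕ) (c c' : ℤ → ℕ → ℝ) (a b : ℤ)
    (φ : ℕ → ℂ) (F : ℕ → ℕ → ℂ) :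
    pg2 Q Q2 g (fun m n => ((c a (g * m) * c' b (g * n) : ℝ) : ℂ) * (1 / ((m : ℂ) * n)) *
      (φ (iv (g * m * n) f) * F m n)) =
    ∑ u ∈ range f, ∑ v ∈ range f, φ (iv ((g * u * v) % f) f) *
      pg2 Q Q2 g (fun m n => ((Hma_c f g c u a (g * m) * Hma_c f g c' v b (g * n) : ℝ) : ℂ) *
        (1 / ((m : ℂ) * n)) * F m n) := by
  have h1 : ∀ m n : ℕ, ((c a (g * m) * c' b (g * n) : ℝ) : ℂ) * (1 / ((m : ℂ) * n)) *
      (φ (iv (g * m * n) f) * F m n) =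
      ∑ u ∈ range f, ∑ v ∈ range f, φ (iv ((g * u * v) % f) f) *
        (((Hma_c f g c u a (g * m) * Hma_c f g c' v b (g * n) : ℝ) : ℂ) *
        (1 / ((m : ℂ) * n)) * F m n) := by
    intro m n
    rw [Finset.sum_eq_single (m % f)]
    · rw [Finset.sum_eq_single (n % f)]
      · rw [Hma_c_mul hg, Hma_c_mul hg, if_pos rfl, if_pos rfl, ← Hma_iv]
        ring
      · intro v _ hv
        rw [Hma_c_mul hg c' v b n, if_neg (Ne.symm hv)]
        simp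
      · intro h
        exact absurd (mem_range.2 (Nat.mod_lt _ (by omega))) h
    · intro u _ hu
      refine Finset.sum_eq_zero fun v _ => ?_
      rw [Hma_c_mul hg c u a m, if_neg (Ne.symm hu)]
      simp
    · intro h
      exact absurd (mem_range.2 (Nat.mod_lt _ (by omega))) h
  unfold pg2
  simp only [h1]
  simp only [Finset.mul_sum]
  calc _ = ∑ m ∈ Ioc (Q / g) (2 * Q / g), ∑ u ∈ range f, ∑ v ∈ range f,
      ∑ n ∈ (Ioc (Q2 / g) (2 * Q2 / g)).filter (fun n => m.Coprime n), φ (iv ((g * u * v) % f) f) *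
        (((Hma_c f g c u a (g * m) * Hma_c f g c' v b (g * n) : ℝ) : ℂ) *
        (1 / ((m : ℂ) * n)) * F m n) := by
        refine Finset.sum_congr rfl fun m _ => ?_
        rw [Finset.sum_comm]
        refine Finset.sum_congr rfl fun u _ => ?_
        rw [Finset.sum_comm]
    _ = _ := by
        rw [Finset.sum_comm]
        refine Finset.sum_congr rfl fun u _ => ?_
        rw [Finset.sum_comm]

/-- the summands of the forms -/
private noncomputable def Hma_v (f g : ℕ) (c c' : ℕ → ℝ) (z : ℕ → ℂ) (th : ℤ) (vt : ℝ) (m n : ℕ) : ℂ :=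
  ((c (g * m) * c' (g * n) : ℝ) : ℂ) * (1 / ((m : ℂ) * n)) * (z (iv (g * m * n) f) * eF f th vt m n)

private lemma Hma_pg_add (Q Q2 g : ℕ) (f f' : ℕ → ℕ → ℂ) :
    pg2 Q Q2 g (fun m n => f m n + f' m n) = pg2 Q Q2 g f + pg2 Q Q2 g f' := by
  unfold pg2
  rw [← sum_add_distrib]
  apply sum_congr rfl
  intro m _
  rw [← sum_add_distrib]

private lemma Hma_pg_mul (Q Q2 g : ℕ) (z : ℂ) (f : ℕ → ℕ → ℂ) :
    pg2 Q Q2 g (fun m n => z * f m n) = z * pg2 Q Q2 g f := by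
  unfold pg2
  rw [mul_sum]
  apply sum_congr rfl
  intro m _
  rw [mul_sum]

private lemma Hma_pg_sum {ι : Type} (s : Finset ι) (Q Q2 g : ℕ) (f : ι → ℕ → ℕ → ℂ) :
    pg2 Q Q2 g (fun m n => ∑ i ∈ s, f i m n) = ∑ i ∈ s, pg2 Q Q2 g (f i) := by
  classical
  induction s using Finset.induction_on with
  | empty =>
    simp only [sum_empty]
    unfold pg2
    simp
  | insert i s hi ih =>
    simp only [sum_insert hi]
    rw [Hma_pg_add, ih]

private lemma Hma_pair (N j H f Q Q2 g : ℕ) (c c' : ℕ → ℝ) (a b : ℤ) :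
    pg2 Q Q2 g (fun m n => ((c (g * m) * c' (g * n) : ℝ) : ℂ) * mainF N j H f g a b m n) =
    ∑ t ∈ Iw N j, (((wt N j t : ℝ) : ℂ) * (1 / ((f : ℂ) * g))) *
      ((∑ h ∈ Icc 1 H, pg2 Q Q2 g (Hma_v f g c c' (fun w => ee ((h : ℝ) * ((a : ℝ) * (w : ℝ) / f)))
          ((h : ℤ) * (-((b - a) / g))) ((h : ℝ) * (((t : ℝ) - a) / ((f : ℝ) * g))))) +
        ∑ h ∈ Icc 1 H, pg2 Q Q2 g (Hma_v f g c c' (fun w => ee (-((h : ℝ) * ((a : ℝ) * (w : ℝ) / f))))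
          ((h : ℤ) * ((b - a) / g)) ((h : ℝ) * (-(((t : ℝ) - a) / ((f : ℝ) * g)))))) := by
  have s1 : (fun m n : ℕ => ((c (g * m) * c' (g * n) : ℝ) : ℂ) * mainF N j H f g a b m n) =
      fun m n : ℕ => ∑ t ∈ Iw N j, ∑ h ∈ Icc 1 H,
        (((wt N j t : ℝ) : ℂ) * (1 / ((f : ℂ) * g))) *
        (Hma_v f g c c' (fun w => ee ((h : ℝ) * ((a : ℝ) * (w : ℝ) / f)))
          ((h : ℤ) * (-((b - a) / g))) ((h : ℝ) * (((t : ℝ) - a) / ((f : ℝ) * g))) m n +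
          Hma_v f g c c' (fun w => ee (-((h : ℝ) * ((a : ℝ) * (w : ℝ) / f))))
          ((h : ℤ) * ((b - a) / g)) ((h : ℝ) * (-(((t : ℝ) - a) / ((f : ℝ) * g)))) m n) := by
    funext m n
    have hinv : (1 / ((f : ℂ) * (g * m * n))) = (1 / ((f : ℂ) * g)) * (1 / ((m : ℂ) * n)) := by
      rw [one_div_mul_one_div]
      congr 1
      ring
    unfold mainF Hma_v
    rw [hinv, mul_sum, mul_sum, sum_comm]
    apply sum_congr rfl
    intro h _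
    rw [mul_sum, mul_sum]
    apply sum_congr rfl
    intro t _
    ring
  rw [s1, Hma_pg_sum]
  apply sum_congr rfl
  intro t _
  rw [Hma_pg_sum, ← sum_add_distrib, mul_sum]
  apply sum_congr rfl
  intro h _
  rw [Hma_pg_mul, Hma_pg_add]

theorem tHma (h1 : WbStmt) (h2 : UpfStmt) : HmaStmt := by
  intro ε j hε
  obtain ⟨C, hC, hC5⟩ := h2 ε hε
  refine ⟨6 * ((j : ℝ) + 1) * (C * ((j : ℝ) + 2)) ^ ((1 : ℝ) / 2), by positivity, ?_⟩
  intro N f Q Q2 H g L1 L2 K W A c c' hN hH hf hg hgQ hQQ hL1 hL12 hL2 hc hc' hconv hW ha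
  have hN' : (1 : ℝ) ≤ N := by exact_mod_cast hN
  have hH' : (1 : ℝ) ≤ H := by exact_mod_cast hH
  have hf' : (1 : ℝ) ≤ f := by exact_mod_cast hf
  have hfpos : (0 : ℝ) < f := by linarith
  have hg' : (1 : ℝ) ≤ g := by exact_mod_cast hg
  have hgpos : (0 : ℝ) < g := by linarith
  have hP21 : 1 ≤ Q2 / g := (Nat.one_le_div_iff (by omega)).mpr hgQ
  have hP1 : 1 ≤ Q / g := (Nat.one_le_div_iff (by omega)).mpr (hgQ.trans hQQ)
  have hP : (1 : ℝ) ≤ ((Q / g : ℕ) : ℝ) := by exact_mod_cast hP1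
  have hP2 : (1 : ℝ) ≤ ((Q2 / g : ℕ) : ℝ) := by exact_mod_cast hP21
  have hP0 : (0 : ℝ) < ((Q / g : ℕ) : ℝ) := by linarith
  have hP20 : (0 : ℝ) < ((Q2 / g : ℕ) : ℝ) := by linarith
  have hK0 : 0 ≤ K := (sum_nonneg (fun a _ => abs_nonneg (c a 0))).trans (hc.2 0)
  have hj0 : (0 : ℝ) ≤ j := Nat.cast_nonneg j
  have hL1p : 0 < L1 := by linarith
  have hL2p : 0 < L2 := by linarith
  have hgz : (g : ℤ) ≠ 0 := by positivity
  set P : ℝ := ((Q / g : ℕ) : ℝ) with hPdef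
  set P2 : ℝ := ((Q2 / g : ℕ) : ℝ) with hP2def
  have hW0 : 0 ≤ W := le_trans (Nat.cast_nonneg _) hW
  set R : ℝ := K ^ 2 * W * ((H : ℝ) * g / L1) + K * W ^ 3 * ((H : ℝ) ^ 2 / P2) +
    K ^ 3 * W * ((H : ℝ) ^ 2 * (L2 / P) ^ ((1 : ℝ) / 2)) with hRdef
  have hR0 : 0 ≤ R := by
    rw [hRdef]
    positivity
  set Y : ℝ := ((Q : ℝ) * H * (2 * N)) ^ ε with hYdef
  have hY0 : 0 ≤ Y := by positivity
  set Z : ℝ := 1 + (H : ℝ) * N / ((g : ℝ) * (P * P2)) with hZdef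
  have hZ0 : 0 ≤ Z := by positivity
  have hbnd : bndF ε N Q Q2 H g L1 L2 K W = Y * Z * R := by
    unfold bndF
    rw [← hPdef, ← hP2def]
  have hbnd0 : 0 ≤ bndF ε N Q Q2 H g L1 L2 K W := by
    rw [hbnd]
    positivity
  set D : ℝ := (C * ((j : ℝ) + 2)) ^ ((1 : ℝ) / 2) *
    (bndF ε N Q Q2 H g L1 L2 K W) ^ ((1 : ℝ) / 2) with hDdef
  have hD0 : 0 ≤ D := by positivity
  -- the trilinear forms with coefficients lam
  have e3 : ∀ (e : ℤ) (θ : ℤ → ℤ → ℤ) (τ : ℤ → ℝ) (lam : ℤ → ℕ → ℂ) (u v : ℕ), IsTh g e (2 * N) A (Bg A g) θ →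
      (∀ a ∈ A, |τ a| ≤ ((j : ℝ) + 2) * N / g) → (∀ a h, ‖lam a h‖ ≤ 1) →
      ‖∑ a ∈ A, ∑ b ∈ Bg A g a, ∑ h ∈ Icc 1 H, lam a h *
        pg2 Q Q2 g (fun m n => ((Hma_c f g c u a (g * m) * Hma_c f g c' v b (g * n) : ℝ) : ℂ) *
          (1 / ((m : ℂ) * n)) * eF f ((h : ℤ) * θ a b) ((h : ℝ) * τ a) m n)‖ ≤ D := by
    intro e θ τ lam u v t1 t3 hlam
    have key := hC5 Q Q2 g H f L1 L2 K W (2 * N) (((j : ℝ) + 2) * N / g) e A (Bg A g) (Hma_c f g c u)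
      (Hma_c f g c' v) lam θ τ hg hgQ hQQ hH hf hL1
      hL12 hL2 (Hma_cf hc u) (Hma_cf hc' v) (fun a d hd => hconv a d (Hma_c_ne hd)) hlam hW t1
      (by linarith) t3 (by positivity)
    have b2 : 1 + (H : ℝ) * (((j : ℝ) + 2) * N / g) / (P * P2) ≤ ((j : ℝ) + 2) * Z := by
      have b3 : (H : ℝ) * (((j : ℝ) + 2) * N / g) / (P * P2) =
          ((j : ℝ) + 2) * ((H : ℝ) * N / ((g : ℝ) * (P * P2))) := by
        field_simp
      rw [b3, hZdef]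
      linarith
    have hsq : ‖∑ a ∈ A, ∑ b ∈ Bg A g a, ∑ h ∈ Icc 1 H, lam a h *
        pg2 Q Q2 g (fun m n => ((Hma_c f g c u a (g * m) * Hma_c f g c' v b (g * n) : ℝ) : ℂ) *
          (1 / ((m : ℂ) * n)) * eF f ((h : ℤ) * θ a b) ((h : ℝ) * τ a) m n)‖ ^ 2 ≤
        (C * ((j : ℝ) + 2)) * bndF ε N Q Q2 H g L1 L2 K W := by
      refine le_trans key ?_
      rw [hbnd]
      calc C * ((Q : ℝ) * H * (2 * N)) ^ ε * (1 + (H : ℝ) * (((j : ℝ) + 2) * N / g) / (P * P2)) * R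
          ≤ C * Y * (((j : ℝ) + 2) * Z) * R := by
            apply mul_le_mul_of_nonneg_right _ hR0
            exact mul_le_mul_of_nonneg_left b2 (by positivity)
        _ = (C * ((j : ℝ) + 2)) * (Y * Z * R) := by ring
    have h0 : 0 ≤ (C * ((j : ℝ) + 2)) * bndF ε N Q Q2 H g L1 L2 K W := by positivity
    have h5 := Real.rpow_le_rpow (by positivity) hsq (by norm_num : (0 : ℝ) ≤ 1 / 2)
    rw [← Real.rpow_natCast, ← Real.rpow_mul (norm_nonneg _)] at h5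
    norm_num at h5
    rw [hDdef, ← Real.mul_rpow (by positivity) hbnd0]
    norm_num
    exact h5
  -- the forms with the factor e(h a iv/f): split into classes
  have e3' : ∀ (e : ℤ) (θ : ℤ → ℤ → ℤ) (τ : ℤ → ℝ) (ψ : ℤ → ℕ → ℕ → ℂ), IsTh g e (2 * N) A (Bg A g) θ →
      (∀ a ∈ A, |τ a| ≤ ((j : ℝ) + 2) * N / g) → (∀ a h w, ‖ψ a h w‖ ≤ 1) →
      ‖∑ a ∈ A, ∑ b ∈ Bg A g a, ∑ h ∈ Icc 1 H,
        pg2 Q Q2 g (Hma_v f g (c a) (c' b) (ψ a h) ((h : ℤ) * θ a b) ((h : ℝ) * τ a))‖ ≤ (f : ℝ) ^ 2 * D := by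
    intro e θ τ ψ t1 t3 hψ
    have s1 : ∑ a ∈ A, ∑ b ∈ Bg A g a, ∑ h ∈ Icc 1 H,
        pg2 Q Q2 g (Hma_v f g (c a) (c' b) (ψ a h) ((h : ℤ) * θ a b) ((h : ℝ) * τ a)) =
        ∑ u ∈ range f, ∑ v ∈ range f, ∑ a ∈ A, ∑ b ∈ Bg A g a, ∑ h ∈ Icc 1 H, ψ a h (iv ((g * u * v) % f) f) *
        pg2 Q Q2 g (fun m n => ((Hma_c f g c u a (g * m) * Hma_c f g c' v b (g * n) : ℝ) : ℂ) *
          (1 / ((m : ℂ) * n)) * eF f ((h : ℤ) * θ a b) ((h : ℝ) * τ a) m n) := by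
      have s2 : ∀ a b : ℤ, ∀ h : ℕ,
          pg2 Q Q2 g (Hma_v f g (c a) (c' b) (ψ a h) ((h : ℤ) * θ a b) ((h : ℝ) * τ a)) =
          ∑ u ∈ range f, ∑ v ∈ range f, ψ a h (iv ((g * u * v) % f) f) *
          pg2 Q Q2 g (fun m n => ((Hma_c f g c u a (g * m) * Hma_c f g c' v b (g * n) : ℝ) : ℂ) *
            (1 / ((m : ℂ) * n)) * eF f ((h : ℤ) * θ a b) ((h : ℝ) * τ a) m n) := fun a b h =>
        Hma_split hf hg Q Q2 c c' a b (ψ a h) (fun m n => eF f ((h : ℤ) * θ a b) ((h : ℝ) * τ a) m n)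
      simp only [s2]
      have s3 : ∀ a b : ℤ, ∑ h ∈ Icc 1 H, ∑ u ∈ range f, ∑ v ∈ range f, ψ a h (iv ((g * u * v) % f) f) *
          pg2 Q Q2 g (fun m n => ((Hma_c f g c u a (g * m) * Hma_c f g c' v b (g * n) : ℝ) : ℂ) *
            (1 / ((m : ℂ) * n)) * eF f ((h : ℤ) * θ a b) ((h : ℝ) * τ a) m n) =
          ∑ u ∈ range f, ∑ v ∈ range f, ∑ h ∈ Icc 1 H, ψ a h (iv ((g * u * v) % f) f) *
          pg2 Q Q2 g (fun m n => ((Hma_c f g c u a (g * m) * Hma_c f g c' v b (g * n) : ℝ) : ℂ) *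
            (1 / ((m : ℂ) * n)) * eF f ((h : ℤ) * θ a b) ((h : ℝ) * τ a) m n) := by
        intro a b
        rw [Finset.sum_comm]
        refine Finset.sum_congr rfl fun u _ => ?_
        rw [Finset.sum_comm]
      simp only [s3]
      have s4 : ∀ a : ℤ, ∑ b ∈ Bg A g a, ∑ u ∈ range f, ∑ v ∈ range f, ∑ h ∈ Icc 1 H,
          ψ a h (iv ((g * u * v) % f) f) *
          pg2 Q Q2 g (fun m n => ((Hma_c f g c u a (g * m) * Hma_c f g c' v b (g * n) : ℝ) : ℂ) *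
            (1 / ((m : ℂ) * n)) * eF f ((h : ℤ) * θ a b) ((h : ℝ) * τ a) m n) =
          ∑ u ∈ range f, ∑ v ∈ range f, ∑ b ∈ Bg A g a, ∑ h ∈ Icc 1 H, ψ a h (iv ((g * u * v) % f) f) *
          pg2 Q Q2 g (fun m n => ((Hma_c f g c u a (g * m) * Hma_c f g c' v b (g * n) : ℝ) : ℂ) *
            (1 / ((m : ℂ) * n)) * eF f ((h : ℤ) * θ a b) ((h : ℝ) * τ a) m n) := by
        intro a
        rw [Finset.sum_comm]
        refine Finset.sum_congr rfl fun u _ => ?_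
        rw [Finset.sum_comm]
      simp only [s4]
      rw [Finset.sum_comm]
      refine Finset.sum_congr rfl fun u _ => ?_
      rw [Finset.sum_comm]
    rw [s1]
    refine (norm_sum_le _ _).trans ?_
    have s5 : ∀ u ∈ range f, ‖∑ v ∈ range f, ∑ a ∈ A, ∑ b ∈ Bg A g a, ∑ h ∈ Icc 1 H,
        ψ a h (iv ((g * u * v) % f) f) *
        pg2 Q Q2 g (fun m n => ((Hma_c f g c u a (g * m) * Hma_c f g c' v b (g * n) : ℝ) : ℂ) *
          (1 / ((m : ℂ) * n)) * eF f ((h : ℤ) * θ a b) ((h : ℝ) * τ a) m n)‖ ≤ f * D := by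
      intro u _
      refine (norm_sum_le _ _).trans ?_
      refine (Finset.sum_le_card_nsmul _ _ _ (fun v _ =>
        e3 e θ τ (fun a h => ψ a h (iv ((g * u * v) % f) f)) u v t1 t3 (fun a h => hψ a h _))).trans ?_
      rw [nsmul_eq_mul, card_range]
    refine (Finset.sum_le_card_nsmul _ _ _ s5).trans ?_
    rw [nsmul_eq_mul, card_range]
    apply le_of_eq
    ring
  -- exchange
  have e2 : ∑ a ∈ A, ∑ b ∈ Bg A g a, pg2 Q Q2 g (fun m n =>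
      ((c a (g * m) * c' b (g * n) : ℝ) : ℂ) * mainF N j H f g a b m n) =
      ∑ t ∈ Iw N j, (((wt N j t : ℝ) : ℂ) * (1 / ((f : ℂ) * g))) *
      ((∑ a ∈ A, ∑ b ∈ Bg A g a, ∑ h ∈ Icc 1 H, pg2 Q Q2 g (Hma_v f g (c a) (c' b)
          (fun w => ee ((h : ℝ) * ((a : ℝ) * (w : ℝ) / f)))
          ((h : ℤ) * (-((b - a) / g))) ((h : ℝ) * (((t : ℝ) - a) / ((f : ℝ) * g))))) +
        ∑ a ∈ A, ∑ b ∈ Bg A g a, ∑ h ∈ Icc 1 H, pg2 Q Q2 g (Hma_v f g (c a) (c' b)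
          (fun w => ee (-((h : ℝ) * ((a : ℝ) * (w : ℝ) / f))))
          ((h : ℤ) * ((b - a) / g)) ((h : ℝ) * (-(((t : ℝ) - a) / ((f : ℝ) * g)))))) := by
    rw [sum_congr rfl (fun a _ => sum_congr rfl (fun b _ => Hma_pair N j H f Q Q2 g (c a) (c' b) a b))]
    rw [sum_congr rfl (fun a _ => sum_comm), sum_comm]
    apply sum_congr rfl
    intro t _
    rw [← sum_add_distrib, mul_sum]
    apply sum_congr rfl
    intro a _
    rw [← sum_add_distrib, mul_sum]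
  have hBg : ∀ a ∈ A, ∀ b ∈ Bg A g a, b ∈ A ∧ b ≠ a ∧ (b - a) / (g : ℤ) * g = b - a := by
    intro a _ b hb
    unfold Bg at hb
    rw [mem_filter] at hb
    exact ⟨hb.1, hb.2.1, Int.ediv_mul_cancel hb.2.2⟩
  have hbd : ∀ a ∈ A, ∀ b ∈ Bg A g a, |((b - a : ℤ) : ℝ)| ≤ 2 * N := by
    intro a ha' b hb
    obtain ⟨k0, k1, k2⟩ := hBg a ha' b hb
    have h4 : |b - a| ≤ 2 * (N : ℤ) := by
      have h5 := abs_sub b a
      have h6 := ha a ha'
      have h7 := ha b k0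
      linarith
    exact_mod_cast h4
  have e4 : ∀ t ∈ Iw N j, ‖(((wt N j t : ℝ) : ℂ) * (1 / ((f : ℂ) * g))) *
      ((∑ a ∈ A, ∑ b ∈ Bg A g a, ∑ h ∈ Icc 1 H, pg2 Q Q2 g (Hma_v f g (c a) (c' b)
          (fun w => ee ((h : ℝ) * ((a : ℝ) * (w : ℝ) / f)))
          ((h : ℤ) * (-((b - a) / g))) ((h : ℝ) * (((t : ℝ) - a) / ((f : ℝ) * g))))) +
        ∑ a ∈ A, ∑ b ∈ Bg A g a, ∑ h ∈ Icc 1 H, pg2 Q Q2 g (Hma_v f g (c a) (c' b)
          (fun w => ee (-((h : ℝ) * ((a : ℝ) * (w : ℝ) / f))))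
          ((h : ℤ) * ((b - a) / g)) ((h : ℝ) * (-(((t : ℝ) - a) / ((f : ℝ) * g))))))‖ ≤
        (1 / ((f : ℝ) * g)) * (2 * ((f : ℝ) ^ 2 * D)) := by
    intro t ht
    unfold Iw at ht
    rw [mem_Icc] at ht
    have htR : |(t : ℝ)| ≤ ((j : ℝ) + 1) * N := by
      have : |t| ≤ (((j + 1) * N : ℕ) : ℤ) := abs_le.mpr ht
      have h2 : |(t : ℝ)| ≤ (((j + 1) * N : ℕ) : ℝ) := by exact_mod_cast this
      push_cast at h2
      exact h2
    have hv : ∀ a ∈ A, |((t : ℝ) - a) / ((f : ℝ) * g)| ≤ ((j : ℝ) + 2) * N / g := by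
      intro a ha'
      rw [abs_div, abs_of_nonneg (by positivity : (0 : ℝ) ≤ (f : ℝ) * g)]
      have haR : |(a : ℝ)| ≤ N := by exact_mod_cast ha a ha'
      have := abs_sub (t : ℝ) (a : ℝ)
      have h3 : |(t : ℝ) - a| ≤ ((j : ℝ) + 2) * N := by linarith
      calc |(t : ℝ) - a| / ((f : ℝ) * g) ≤ |(t : ℝ) - a| / g :=
            div_le_div_of_nonneg_left (abs_nonneg _) hgpos (le_mul_of_one_le_left hgpos.le hf')
        _ ≤ ((j : ℝ) + 2) * N / g := div_le_div_of_nonneg_right h3 hgpos.le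
    have p1 := e3' (-1) (fun a b => -((b - a) / (g : ℤ))) (fun a => ((t : ℝ) - a) / ((f : ℝ) * g))
      (fun a h w => ee ((h : ℝ) * ((a : ℝ) * (w : ℝ) / f)))
      ⟨Or.inr rfl, fun a _ => filter_subset _ _, fun a ha' b hb => by
        obtain ⟨k0, k1, k2⟩ := hBg a ha' b hb
        refine ⟨?_, k1, hbd a ha' b hb⟩
        linear_combination -k2⟩ hv (fun a h w => (norm_ee _).le)
    have p2 := e3' 1 (fun a b => (b - a) / (g : ℤ)) (fun a => -(((t : ℝ) - a) / ((f : ℝ) * g)))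
      (fun a h w => ee (-((h : ℝ) * ((a : ℝ) * (w : ℝ) / f))))
      ⟨Or.inl rfl, fun a _ => filter_subset _ _, fun a ha' b hb => by
        obtain ⟨k0, k1, k2⟩ := hBg a ha' b hb
        refine ⟨?_, k1, hbd a ha' b hb⟩
        linear_combination k2⟩
      (fun a ha' => by
        rw [abs_neg]
        exact hv a ha') (fun a h w => (norm_ee _).le)
    have q1 : ‖((wt N j t : ℝ) : ℂ) * (1 / ((f : ℂ) * g))‖ ≤ 1 / ((f : ℝ) * g) := by
      rw [norm_mul, Complex.norm_real, Real.norm_eq_abs, norm_div, norm_one, norm_mul, Complex.norm_natCast,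
        Complex.norm_natCast]
      obtain ⟨w1, w2, -, -⟩ := h1 N j hN
      have r1 : |wt N j t| ≤ 1 := by
        rw [abs_of_nonneg (w1 t)]
        exact w2 t
      have := mul_le_mul_of_nonneg_right r1 (by positivity : (0 : ℝ) ≤ 1 / ((f : ℝ) * g))
      linarith
    rw [norm_mul]
    apply mul_le_mul q1 _ (norm_nonneg _) (by positivity)
    refine (norm_add_le _ _).trans ?_
    have := add_le_add p1 p2
    linarith
  rw [e2]
  calc _ ≤ ∑ t ∈ Iw N j, ‖(((wt N j t : ℝ) : ℂ) * (1 / ((f : ℂ) * g))) *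
      ((∑ a ∈ A, ∑ b ∈ Bg A g a, ∑ h ∈ Icc 1 H, pg2 Q Q2 g (Hma_v f g (c a) (c' b)
          (fun w => ee ((h : ℝ) * ((a : ℝ) * (w : ℝ) / f)))
          ((h : ℤ) * (-((b - a) / g))) ((h : ℝ) * (((t : ℝ) - a) / ((f : ℝ) * g))))) +
        ∑ a ∈ A, ∑ b ∈ Bg A g a, ∑ h ∈ Icc 1 H, pg2 Q Q2 g (Hma_v f g (c a) (c' b)
          (fun w => ee (-((h : ℝ) * ((a : ℝ) * (w : ℝ) / f))))
          ((h : ℤ) * ((b - a) / g)) ((h : ℝ) * (-(((t : ℝ) - a) / ((f : ℝ) * g))))))‖ := norm_sum_le _ _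
    _ ≤ ∑ _t ∈ Iw N j, (1 / ((f : ℝ) * g)) * (2 * ((f : ℝ) ^ 2 * D)) := sum_le_sum e4
    _ = ((Iw N j).card : ℝ) * ((1 / ((f : ℝ) * g)) * (2 * ((f : ℝ) ^ 2 * D))) := by
        rw [sum_const, nsmul_eq_mul]
    _ ≤ (3 * ((j : ℝ) + 1) * N) * ((1 / ((f : ℝ) * g)) * (2 * ((f : ℝ) ^ 2 * D))) := by
        apply mul_le_mul_of_nonneg_right _ (by positivity)
        unfold Iw
        rw [Int.card_Icc]
        have h0 : ((((j + 1) * N : ℕ) : ℤ) + 1 - -(((j + 1) * N : ℕ) : ℤ)).toNat =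
            2 * ((j + 1) * N) + 1 := by omega
        rw [h0]
        push_cast
        have : (1 : ℝ) ≤ ((j : ℝ) + 1) * N := by
          have := mul_le_mul (by linarith : (1 : ℝ) ≤ (j : ℝ) + 1) hN' zero_le_one
            (by linarith)
          linarith
        linarith
    _ = _ := by
        rw [hDdef]
        field_simp
        ring

end Pool.Agent.Lib.TV
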