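import Pool.Agent.Lib.TV.SpecGf
set_option autoImplicit false

/-!
MP_00e23e_nt, directory Lib/TV (THEOREM V), modules Hsm (the bound of famF for small γ) and Hde (the decomposition).
-/

namespace Pool.Agent.Lib.TV

open Finset Pool.Agent.Lib.EH3 Pool.Agent.Lib.TB Pool.Agent.Lib.TN Pool.Agent.Lib.TM Pool.Agent.Results.MP_00e23e_nt

private lemma Hsm_pg_add (Q Q2 g : ℕ) (f f' : ℕ → ℕ → ℂ) :
    pg2 Q Q2 g (fun m n => f m n + f' m n) = pg2 Q Q2 g f + pg2 Q Q2 g f' := by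
  unfold pg2
  rw [← sum_add_distrib]
  apply sum_congr rfl
  intro m _
  rw [← sum_add_distrib]

theorem tHsm (h1 : SF4) (h2 : HpnStmt) (h3 : HmaStmt) : HsmStmt := by
  intro ε j hε
  obtain ⟨C, hC, hC3⟩ := h3 ε j hε
  refine ⟨C, hC, ?_⟩
  intro N f Q Q2 H γ L1 L2 K W A c c' hN hH hf hγ hγQ hQQ hHγ hL1 hL12 hL2 hc hc' hcf hconv hW ha
  have hN' : (1 : ℝ) ≤ N := by exact_mod_cast hN
  have hH' : (1 : ℝ) ≤ H := by exact_mod_cast hH
  have hγ' : (1 : ℝ) ≤ γ := by exact_mod_cast hγ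
  have hf' : (1 : ℝ) ≤ f := by exact_mod_cast hf
  have hD : (0 : ℝ) ≤ (4 * (f : ℝ) * Q * Q2 / ((γ : ℝ) * N * H)) ^ (2 * j + 1) := by positivity
  have key := h2 Q Q2 γ K ((4 * (f : ℝ) * Q * Q2 / ((γ : ℝ) * N * H)) ^ (2 * j + 1)) A (Bg A γ) c c'
    (fun a b m n => ((SSG N j f (γ * m) (γ * n) a b - MM N (γ * m) (γ * n) a b / f : ℝ) : ℂ) -
      mainF N j H f γ a b m n) hγ hD hc hc'
    (fun a _ => filter_subset _ _) (by
      intro a _ b hb m n hm hn m2 n2 m3 n3 hmn hu hw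
      have hdvd : (γ : ℤ) ∣ b - a := by
        unfold Bg at hb
        exact (mem_filter.1 hb).2.2
      have hgmn : (γ * m) * (γ * n) = γ * (γ * m * n) := by ring
      have hlow0 : 2 * H < γ * m * n := by
        have h1 : Q * Q2 < (γ * m) * (γ * n) := Nat.mul_lt_mul'' m2 n2
        rw [hgmn] at h1
        by_contra hcon
        push Not at hcon
        have h2 : γ * (γ * m * n) ≤ γ * (2 * H) := Nat.mul_le_mul_left γ hcon
        have h3 : Q * Q2 < γ * (2 * H) := lt_of_lt_of_le h1 h2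
        have h4 : 2 * H * γ = γ * (2 * H) := by ring
        rw [h4] at hHγ
        omega
      have hlow : 2 * H < f * (γ * m * n) := lt_of_lt_of_le hlow0 (Nat.le_mul_of_pos_left _ hf)
      have h4' := h1 N j H f γ m n a b hN hH hf hγ hm hn hmn (hcf a _ hu) (hconv b _ hw).2 hdvd hlow
      have hup : (γ : ℝ) * ((f : ℝ) * ((γ : ℝ) * m * n)) ≤ 4 * (f : ℝ) * Q * Q2 := by
        have e2 : (γ * m) * (γ * n) ≤ (2 * Q) * (2 * Q2) := Nat.mul_le_mul m3 n3
        have e3 : γ * (f * (γ * m * n)) ≤ 4 * f * Q * Q2 := by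
          calc γ * (f * (γ * m * n)) = f * ((γ * m) * (γ * n)) := by ring
            _ ≤ f * ((2 * Q) * (2 * Q2)) := Nat.mul_le_mul_left f e2
            _ = 4 * f * Q * Q2 := by ring
        exact_mod_cast e3
      refine h4'.trans ?_
      apply pow_le_pow_left₀ (by positivity)
      rw [div_le_div_iff₀ (by positivity) (by positivity)]
      calc ((f : ℝ) * ((γ : ℝ) * m * n)) * ((γ : ℝ) * N * H) =
            ((γ : ℝ) * ((f : ℝ) * ((γ : ℝ) * m * n))) * ((N : ℝ) * H) := by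
            ring
        _ ≤ (4 * (f : ℝ) * Q * Q2) * ((N : ℝ) * H) := mul_le_mul_of_nonneg_right hup (by positivity))
  have hmain := hC3 N f Q Q2 H γ L1 L2 K W A c c' hN hH hf hγ hγQ hQQ hL1 hL12 hL2 hc hc' hconv hW ha
  have e : famF N j f Q Q2 γ A c c' = (∑ a ∈ A, ∑ b ∈ Bg A γ a, pg2 Q Q2 γ (fun m n =>
      ((c a (γ * m) * c' b (γ * n) : ℝ) : ℂ) *
        (((SSG N j f (γ * m) (γ * n) a b - MM N (γ * m) (γ * n) a b / f : ℝ) : ℂ) -
          mainF N j H f γ a b m n))) +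
      ∑ a ∈ A, ∑ b ∈ Bg A γ a, pg2 Q Q2 γ (fun m n =>
        ((c a (γ * m) * c' b (γ * n) : ℝ) : ℂ) * mainF N j H f γ a b m n) := by
    unfold famF
    rw [← sum_add_distrib]
    apply sum_congr rfl
    intro a _
    rw [← sum_add_distrib]
    apply sum_congr rfl
    intro b _
    rw [← Hsm_pg_add]
    congr 1
    funext m n
    unfold fEG
    push_cast
    ring
  rw [e]
  exact (norm_add_le _ _).trans (add_le_add key hmain)

private theorem Hde_pair (h1 : SF1) (N j f Q Q2 : ℕ) (c c' : ℕ → ℝ) (a b : ℤ) :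
    ((∑ d ∈ Ioc Q (2 * Q), ∑ d' ∈ Ioc Q2 (2 * Q2),
      c d * c' d' * (SSG N j f d d' a b - MM N d d' a b / f) : ℝ) : ℂ) =
      ∑ γ ∈ Icc 1 (2 * Q2), pg2 Q Q2 γ (fEG N j f γ c c' a b) := by
  push_cast
  have := h1 Q Q2 (fun d d' => (((c d * c' d' * (SSG N j f d d' a b - MM N d d' a b / f) : ℝ)) : ℂ))
  push_cast at this
  rw [this]
  refine Finset.sum_congr rfl fun g _ => ?_
  unfold pg2 fEG
  push_cast
  rfl

private theorem Hde_Bg (A : Finset ℤ) (γ : ℕ) (a : ℤ) :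
    Bg A γ a = (A.erase a).filter (fun b => (γ : ℤ) ∣ b - a) := by
  ext b
  unfold Bg
  rw [mem_filter, mem_filter, mem_erase]
  tauto

theorem tHde (h1 : SF1) (h2 : SF3) : HdeStmt := by
  intro N j f Q Q2 A c c'
  have e1 : ((∑ a ∈ A, ∑ b ∈ A.erase a, ∑ d ∈ Ioc Q (2 * Q), ∑ d' ∈ Ioc Q2 (2 * Q2),
      c a d * c' b d' * (SSG N j f d d' a b - MM N d d' a b / f) : ℝ) : ℂ) =
      ∑ γ ∈ Icc 1 (2 * Q2), famF N j f Q Q2 γ A c c' := by
    rw [Complex.ofReal_sum]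
    have e2 : ∀ a ∈ A, ((∑ b ∈ A.erase a, ∑ d ∈ Ioc Q (2 * Q), ∑ d' ∈ Ioc Q2 (2 * Q2),
        c a d * c' b d' * (SSG N j f d d' a b - MM N d d' a b / f) : ℝ) : ℂ) =
        ∑ γ ∈ Icc 1 (2 * Q2), ∑ b ∈ Bg A γ a, pg2 Q Q2 γ (fEG N j f γ (c a) (c' b) a b) := by
      intro a _
      rw [Complex.ofReal_sum, Finset.sum_congr rfl (fun b _ => Hde_pair h1 N j f Q Q2 (c a) (c' b) a b),
        Finset.sum_comm]
      refine Finset.sum_congr rfl fun γ _ => ?_
      rw [Hde_Bg, Finset.sum_filter]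
      refine Finset.sum_congr rfl fun b _ => ?_
      split_ifs with h
      · rfl
      · exact h2 N j Q Q2 f γ (c a) (c' b) a b h
    rw [Finset.sum_congr rfl e2, Finset.sum_comm]
    rfl
  rw [← Real.norm_eq_abs, ← Complex.norm_real, e1]
  exact norm_sum_le _ _

end Pool.Agent.Lib.TV
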