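import Pool.Agent.Lib.TV.SpecGf

/-! The bound of the error term of three congruences (weight wt N j), with the factor f. -/

namespace Pool.Agent.Lib.TV

open Finset Pool.Agent.Lib.EH3 Pool.Agent.Lib.TB Pool.Agent.Lib.TN Pool.Agent.Lib.TM Pool.Agent.Results.MP_00e23e_nt

theorem tHvf (h1 : SsclGStmt) (h2 : SszeGStmt) (h3 : Gv0Stmt) : HvfStmt := by
  intro N j f u w a b hN hf hu hw hfu hfw
  have hN0 : (0 : ℝ) < N := by exact_mod_cast hN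
  have hl : 1 ≤ Nat.lcm u w := Nat.lcm_pos hu hw
  have hfl : 1 ≤ f * Nat.lcm u w := Nat.mul_pos hf hl
  have hcl : f.Coprime (Nat.lcm u w) :=
    Nat.Coprime.of_dvd_right (Nat.lcm_dvd_mul u w) (Nat.Coprime.mul_right hfu hfw)
  by_cases hg : ((Nat.gcd u w : ℕ) : ℤ) ∣ a - b
  · have hg' : ((Int.gcd (u : ℤ) (w : ℤ) : ℕ) : ℤ) ∣ a - b := by
      rwa [Int.gcd_natCast_natCast]
    obtain ⟨x, y, hxy⟩ : ∃ x y : ℤ, a - b = (u : ℤ) * x + (w : ℤ) * y := by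
      obtain ⟨k, hk⟩ := hg'
      refine ⟨Int.gcdA u w * k, Int.gcdB u w * k, ?_⟩
      rw [hk, Int.gcd_eq_gcd_ab]
      ring
    -- a common solution ν with f ∣ ν
    have hcI : IsCoprime (f : ℤ) ((Nat.lcm u w : ℕ) : ℤ) := Nat.isCoprime_iff_coprime.2 hcl
    obtain ⟨s, t, hst⟩ := hcI
    have hul : (u : ℤ) ∣ ((Nat.lcm u w : ℕ) : ℤ) := by exact_mod_cast Nat.dvd_lcm_left u w
    have hwl : (w : ℤ) ∣ ((Nat.lcm u w : ℕ) : ℤ) := by exact_mod_cast Nat.dvd_lcm_right u w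
    set ν0 : ℤ := a - u * x with hν0
    set ν : ℤ := s * f * ν0 with hν
    have e0 : ν - ν0 = ((Nat.lcm u w : ℕ) : ℤ) * (-(t * ν0)) := by
      rw [hν]
      linear_combination ν0 * hst
    have d1 : (u : ℤ) ∣ ν - a := by
      have : ν - a = (ν - ν0) + (u : ℤ) * (-x) := by
        rw [hν0]
        ring
      rw [this, e0]
      exact dvd_add (Dvd.dvd.mul_right hul _) (Dvd.intro _ rfl)
    have d2 : (w : ℤ) ∣ ν - b := by
      have : ν - b = (ν - ν0) + (w : ℤ) * y := by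
        rw [hν0]
        linear_combination hxy
      rw [this, e0]
      exact dvd_add (Dvd.dvd.mul_right hwl _) (Dvd.intro _ rfl)
    have d0 : (f : ℤ) ∣ ν := ⟨s * ν0, by rw [hν]; ring⟩
    obtain ⟨hS, hM⟩ := h1 N j f u w a b ν hf hu hw hfu hfw d0 d1 d2
    rw [hS, hM]
    exact h3 N j _ _ hN hfl
  · obtain ⟨hS, hM⟩ := h2 N j f u w a b hg
    rw [hS, hM, zero_div, sub_zero, abs_zero]
    positivity

private lemma Hpn_mem (Q γ m : ℕ) (hγ : 1 ≤ γ) (hm : m ∈ Ioc (Q / γ) (2 * Q / γ)) :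
    1 ≤ m ∧ Q < γ * m ∧ γ * m ≤ 2 * Q := by
  rw [mem_Ioc] at hm
  refine ⟨Nat.one_le_iff_ne_zero.mpr (by rintro rfl; exact absurd hm.1 (Nat.not_lt_zero _)), ?_, ?_⟩
  · have := (Nat.div_lt_iff_lt_mul (by omega : 0 < γ)).mp hm.1
    rw [mul_comm]
    exact this
  · have := (Nat.le_div_iff_mul_le (by omega : 0 < γ)).mp hm.2
    rw [mul_comm]
    exact this

private lemma Hpn_one (Q Q2 γ : ℕ) (D : ℝ) (u w : ℕ → ℝ) (e : ℕ → ℕ → ℂ) (hγ : 1 ≤ γ) (hD : 0 ≤ D)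
    (h : ∀ m n : ℕ, 1 ≤ m → 1 ≤ n → Q < γ * m → Q2 < γ * n → γ * m ≤ 2 * Q → γ * n ≤ 2 * Q2 →
      m.Coprime n → u (γ * m) ≠ 0 → w (γ * n) ≠ 0 → ‖e m n‖ ≤ D) :
    ‖pg2 Q Q2 γ (fun m n => ((u (γ * m) * w (γ * n) : ℝ) : ℂ) * e m n)‖ ≤
      ∑ m ∈ Ioc (Q / γ) (2 * Q / γ), ∑ n ∈ Ioc (Q2 / γ) (2 * Q2 / γ),
        |u (γ * m)| * |w (γ * n)| * D := by
  unfold pg2
  refine (norm_sum_le _ _).trans (sum_le_sum ?_)
  intro m hm
  refine (norm_sum_le _ _).trans ?_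
  refine le_trans (sum_le_sum (g := fun n => |u (γ * m)| * |w (γ * n)| * D) ?_) ?_
  · intro n hn
    rw [mem_filter] at hn
    obtain ⟨m1, m2, m3⟩ := Hpn_mem Q γ m hγ hm
    obtain ⟨n1, n2, n3⟩ := Hpn_mem Q2 γ n hγ hn.1
    by_cases hu : u (γ * m) = 0
    · simp [hu]
    by_cases hw : w (γ * n) = 0
    · simp [hw]
    have h1 := h m n m1 n1 m2 n2 m3 n3 hn.2 hu hw
    rw [norm_mul, Complex.norm_real, Real.norm_eq_abs, abs_mul]
    exact mul_le_mul_of_nonneg_left h1 (by positivity)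
  · refine sum_le_sum_of_subset_of_nonneg (filter_subset _ _) ?_
    intro n _ _
    positivity

theorem tHpn : HpnStmt := by
  intro Q Q2 γ K D A B c c' e hγ hD hc hc' hB he
  set I := Ioc (Q / γ) (2 * Q / γ) with hI
  set I2 := Ioc (Q2 / γ) (2 * Q2 / γ) with hI2
  have hK : 0 ≤ K := le_trans (sum_nonneg (fun a _ => abs_nonneg (c a 0))) (hc.2 0)
  have hcard : (I.card : ℝ) ≤ 2 * (Q : ℝ) := by
    rw [hI, Nat.card_Ioc]
    have : 2 * Q / γ - Q / γ ≤ 2 * Q := (Nat.sub_le _ _).trans (Nat.div_le_self _ _)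
    exact_mod_cast this
  have hcard2 : (I2.card : ℝ) ≤ 2 * (Q2 : ℝ) := by
    rw [hI2, Nat.card_Ioc]
    have : 2 * Q2 / γ - Q2 / γ ≤ 2 * Q2 := (Nat.sub_le _ _).trans (Nat.div_le_self _ _)
    exact_mod_cast this
  have hS : ∑ m ∈ I, ∑ a ∈ A, |c a (γ * m)| ≤ 2 * (Q : ℝ) * K := by
    calc ∑ m ∈ I, ∑ a ∈ A, |c a (γ * m)| ≤ ∑ _m ∈ I, K := sum_le_sum (fun m _ => hc.2 _)
      _ = (I.card : ℝ) * K := by rw [sum_const, nsmul_eq_mul]
      _ ≤ 2 * (Q : ℝ) * K := mul_le_mul_of_nonneg_right hcard hK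
  have hS2 : ∑ m ∈ I2, ∑ a ∈ A, |c' a (γ * m)| ≤ 2 * (Q2 : ℝ) * K := by
    calc ∑ m ∈ I2, ∑ a ∈ A, |c' a (γ * m)| ≤ ∑ _m ∈ I2, K := sum_le_sum (fun m _ => hc'.2 _)
      _ = (I2.card : ℝ) * K := by rw [sum_const, nsmul_eq_mul]
      _ ≤ 2 * (Q2 : ℝ) * K := mul_le_mul_of_nonneg_right hcard2 hK
  have hS0 : 0 ≤ ∑ m ∈ I2, ∑ a ∈ A, |c' a (γ * m)| :=
    sum_nonneg (fun m _ => sum_nonneg (fun a _ => abs_nonneg _))
  have h1 : ‖∑ a ∈ A, ∑ b ∈ B a,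
      pg2 Q Q2 γ (fun m n => ((c a (γ * m) * c' b (γ * n) : ℝ) : ℂ) * e a b m n)‖ ≤
      ∑ a ∈ A, ∑ b ∈ A, ∑ m ∈ I, ∑ n ∈ I2, |c a (γ * m)| * |c' b (γ * n)| * D := by
    refine (norm_sum_le _ _).trans (sum_le_sum ?_)
    intro a ha
    refine (norm_sum_le _ _).trans ?_
    refine le_trans (sum_le_sum (g := fun b => ∑ m ∈ I, ∑ n ∈ I2,
      |c a (γ * m)| * |c' b (γ * n)| * D) ?_) ?_
    · intro b hb
      exact Hpn_one Q Q2 γ D (c a) (c' b) (e a b) hγ hD (he a ha b hb)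
    · refine sum_le_sum_of_subset_of_nonneg (hB a ha) ?_
      intro b _ _
      exact sum_nonneg (fun m _ => sum_nonneg (fun n _ => by positivity))
  have h2 : ∑ a ∈ A, ∑ b ∈ A, ∑ m ∈ I, ∑ n ∈ I2, |c a (γ * m)| * |c' b (γ * n)| * D =
      (∑ m ∈ I, ∑ a ∈ A, |c a (γ * m)|) * (∑ n ∈ I2, ∑ b ∈ A, |c' b (γ * n)|) * D := by
    have e1 : ∑ m ∈ I, ∑ a ∈ A, |c a (γ * m)| = ∑ a ∈ A, ∑ m ∈ I, |c a (γ * m)| := sum_comm
    have e2 : ∑ m ∈ I2, ∑ a ∈ A, |c' a (γ * m)| = ∑ a ∈ A, ∑ m ∈ I2, |c' a (γ * m)| := sum_comm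
    rw [e1, e2, sum_mul_sum, sum_mul]
    refine sum_congr rfl (fun a _ => ?_)
    rw [sum_mul]
    refine sum_congr rfl (fun b _ => ?_)
    rw [sum_mul_sum, sum_mul]
    refine sum_congr rfl (fun m _ => ?_)
    rw [sum_mul]
  rw [h2] at h1
  refine h1.trans ?_
  calc (∑ m ∈ I, ∑ a ∈ A, |c a (γ * m)|) * (∑ n ∈ I2, ∑ b ∈ A, |c' b (γ * n)|) * D
      ≤ (2 * (Q : ℝ) * K) * (2 * (Q2 : ℝ) * K) * D := by
        refine mul_le_mul_of_nonneg_right ?_ hD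
        exact mul_le_mul hS hS2 hS0 (by positivity)
    _ = K ^ 2 * (2 * (Q : ℝ)) * (2 * (Q2 : ℝ)) * D := by ring

theorem tHla (h1 : HvfStmt) (h2 : HpnStmt) : HlaStmt := by
  intro N j f Q Q2 γ K A c c' hN hf hγ hc hc' hcf hcf'
  have hN' : (1 : ℝ) ≤ N := by exact_mod_cast hN
  have hf' : (1 : ℝ) ≤ f := by exact_mod_cast hf
  have hγ' : (1 : ℝ) ≤ γ := by exact_mod_cast hγ
  have hD : (0 : ℝ) ≤ (4 * (f : ℝ) * Q * Q2 / ((γ : ℝ) * N)) ^ (2 * j + 1) := by positivity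
  have key := h2 Q Q2 γ K ((4 * (f : ℝ) * Q * Q2 / ((γ : ℝ) * N)) ^ (2 * j + 1)) A (Bg A γ) c c'
    (fun a b m n => ((SSG N j f (γ * m) (γ * n) a b - MM N (γ * m) (γ * n) a b / f : ℝ) : ℂ)) hγ hD hc hc'
    (fun a _ => filter_subset _ _) (by
      intro a _ b _ m n hm hn m2 n2 m3 n3 hmn hu hw
      rw [Complex.norm_real, Real.norm_eq_abs]
      refine (h1 N j f (γ * m) (γ * n) a b hN hf (Nat.mul_pos hγ hm) (Nat.mul_pos hγ hn)
        (hcf a _ hu) (hcf' b _ hw)).trans ?_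
      have hq : Nat.lcm (γ * m) (γ * n) = γ * m * n := by
        rw [Nat.lcm_mul_left, hmn.lcm_eq_mul, mul_assoc]
      rw [hq]
      apply pow_le_pow_left₀ (by positivity)
      have hup : (γ : ℝ) * ((f * (γ * m * n) : ℕ) : ℝ) ≤ 4 * (f : ℝ) * Q * Q2 := by
        have e1 : γ * (f * (γ * m * n)) = f * ((γ * m) * (γ * n)) := by ring
        have e2 : (γ * m) * (γ * n) ≤ (2 * Q) * (2 * Q2) := Nat.mul_le_mul m3 n3
        have e3 : γ * (f * (γ * m * n)) ≤ 4 * f * Q * Q2 := by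
          calc γ * (f * (γ * m * n)) = f * ((γ * m) * (γ * n)) := e1
            _ ≤ f * ((2 * Q) * (2 * Q2)) := Nat.mul_le_mul_left f e2
            _ = 4 * f * Q * Q2 := by ring
        exact_mod_cast e3
      rw [div_le_div_iff₀ (by linarith) (by positivity)]
      calc ((f * (γ * m * n) : ℕ) : ℝ) * ((γ : ℝ) * N) = ((γ : ℝ) * ((f * (γ * m * n) : ℕ) : ℝ)) * N := by ring
        _ ≤ (4 * (f : ℝ) * Q * Q2) * N := mul_le_mul_of_nonneg_right hup (by linarith))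
  have e : famF N j f Q Q2 γ A c c' = ∑ a ∈ A, ∑ b ∈ Bg A γ a, pg2 Q Q2 γ (fun m n =>
      ((c a (γ * m) * c' b (γ * n) : ℝ) : ℂ) *
        ((SSG N j f (γ * m) (γ * n) a b - MM N (γ * m) (γ * n) a b / f : ℝ) : ℂ)) := by
    unfold famF
    apply sum_congr rfl
    intro a _
    apply sum_congr rfl
    intro b _
    congr 1
    funext m n
    unfold fEG
    push_cast
    ring
  rw [e]
  exact key

end Pool.Agent.Lib.TV
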