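import Pool.Agent.Lib.TV.AllG
import Pool.Agent.Lib.TN.AllGf
import Pool.Agent.Lib.TN.Msf
import Pool.Agent.Lib.TV.Hvf
import Pool.Agent.Lib.TV.Hma
import Pool.Agent.Lib.TV.Hsm
import Pool.Agent.Lib.TV.Hev
import Pool.Agent.Lib.TV.Hfi

/-!
MP_00e23e_nt, directory Lib/TV (THEOREM V), factor f and two blocks: glue of part G: the sum of the error terms for the
whole family, from the trilinear form for the family.
-/

namespace Pool.Agent.Lib.TV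

open Pool.Agent.Lib.TB Pool.Agent.Lib.TN Pool.Agent.Lib.TM

theorem tEEG_of (h : UpfStmt) (δ v g ε : ℝ) (hδ : 0 ≤ δ) (hv : 0 ≤ v) (hg : 0 ≤ g) (hgd : g ≤ 2 * δ) (hε : 0 < ε)
    (hc : 2 * δ + v - g + ε ≤ 1 / 2 - 7 * δ - 2 * v - ε) :
    EEGAt δ v g (2 * δ + v - g + ε) (1 / 2 - 7 * δ - 2 * v - ε) :=
  tHsy (tHfi (tHla (tHvf tSsclG tSszeG (tGv0 (tWx (tWf tWb)))) tHpn)
    (tHsm (tF4 (tWtr (tWf tWb) (tWx (tWf tWb))) tSsclG) tHpn (tHma tWb h)) tHev (tHde tF1 (tF3 tSszeG)))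
    δ v g ε hδ hv hg hgd hε hc

end Pool.Agent.Lib.TV
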