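import Pool.Agent.Lib.TV.Vog
import Pool.Agent.Lib.TN.Mof2

/-!
MP_00e23e_nt, directory Lib/TV, module Vpn: part M with the congruence f | n and two blocks, without hypotheses except
WbStmt and WxStmt.
-/

namespace Pool.Agent.Lib.TV

open Finset Pool.Agent.Lib.EH3 Pool.Agent.Lib.TB Pool.Agent.Lib.TN Pool.Agent.Lib.TM

/-- **part Mf, generic exponents**: (OFF) for the whole family, congruence f | n and blocks Q, Q2 -/
theorem tOffGAt (h0 : WbStmt) (h1 : WxStmt) {δ v g ε e1 e2 : ℝ} (hδ : 0 ≤ δ) (hv : 0 ≤ v) (hg : 0 ≤ g)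
    (hε : 0 < ε) (hgap : 2 * v + δ + ε < 1 / 2) (hEE : EEGAt δ v g e1 e2) : OffGAt δ v g ε e1 e2 :=
  tVog h0 (tMab tMdy)
    (tVpf tMta (tMmi tMrs tMka) (tMmbG tMdy)
      (tMcrG tMka (tSsbdG tSsclG tSszeG (tMcbN h1))) (tMfuG tMka) (tMxcG h0 (tMab tMdy)))
    hδ hv hg hε hgap hEE

end Pool.Agent.Lib.TV
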