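import Pool.Agent.Lib.TV.SpecV
import Pool.Agent.Lib.TB.Tauk

/-!
MP_00e23e_nt, Lib/TV, part T, module Vdg: the weighted diagonal (b1 - a) h1 s2 = (b2 - a) h2 s1.
-/

set_option autoImplicit false

namespace Pool.Agent.Lib.TV

open Finset Pool.Agent.Lib.EH3 Pool.Agent.Lib.TB Pool.Agent.Lib.TN Pool.Agent.Lib.TM Pool.Agent.Results.MP_00e23e_nt

private lemma Vdg_kk {θ1 θ2 : ℤ} {h1 h2 s1 s2 : ℕ} (h : kM θ1 θ2 h1 h2 s1 s2 = 0) :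
    θ1 * h1 * s2 = θ2 * h2 * s1 := by
  unfold kM at h
  have e1 : ((s1 / Nat.gcd s1 s2 : ℕ) : ℤ) * (Nat.gcd s1 s2 : ℤ) = s1 := by
    exact_mod_cast Nat.div_mul_cancel (Nat.gcd_dvd_left _ _)
  have e2 : ((s2 / Nat.gcd s1 s2 : ℕ) : ℤ) * (Nat.gcd s1 s2 : ℤ) = s2 := by
    exact_mod_cast Nat.div_mul_cancel (Nat.gcd_dvd_right _ _)
  have h' : θ1 * h1 * ((s2 / Nat.gcd s1 s2 : ℕ) : ℤ) = θ2 * h2 * ((s1 / Nat.gcd s1 s2 : ℕ) : ℤ) := by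
    linarith
  calc θ1 * h1 * s2 = θ1 * h1 * (((s2 / Nat.gcd s1 s2 : ℕ) : ℤ) * (Nat.gcd s1 s2 : ℤ)) := by
        rw [e2]
    _ = θ1 * h1 * ((s2 / Nat.gcd s1 s2 : ℕ) : ℤ) * (Nat.gcd s1 s2 : ℤ) := by ring
    _ = θ2 * h2 * ((s1 / Nat.gcd s1 s2 : ℕ) : ℤ) * (Nat.gcd s1 s2 : ℤ) := by rw [h']
    _ = θ2 * h2 * (((s1 / Nat.gcd s1 s2 : ℕ) : ℤ) * (Nat.gcd s1 s2 : ℤ)) := by ring
    _ = θ2 * h2 * s1 := by rw [e1]

/-- the indicator of the diagonal -/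
private noncomputable def Vdg_J (B : ℤ → Finset ℤ) (a b b' : ℤ) (s s' h h' : ℕ) : ℝ :=
  if b ∈ B a ∧ b' ∈ B a ∧ (b - a) * h * s' = (b' - a) * h' * s then 1 else 0

private lemma Vdg_J_nonneg (B : ℤ → Finset ℤ) (a b b' : ℤ) (s s' h h' : ℕ) :
    0 ≤ Vdg_J B a b b' s s' h h' := by
  unfold Vdg_J
  split_ifs <;> norm_num

private lemma Vdg_J_symm (B : ℤ → Finset ℤ) (a b b' : ℤ) (s s' h h' : ℕ) :
    Vdg_J B a b b' s s' h h' = Vdg_J B a b' b s' s h' h := by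
  unfold Vdg_J
  have : (b ∈ B a ∧ b' ∈ B a ∧ (b - a) * h * s' = (b' - a) * h' * s) ↔
      (b' ∈ B a ∧ b ∈ B a ∧ (b' - a) * h' * s = (b - a) * h * s') := by
    constructor
    · rintro ⟨h1, h2, h3⟩
      exact ⟨h2, h1, h3.symm⟩
    · rintro ⟨h1, h2, h3⟩
      exact ⟨h2, h1, h3.symm⟩
  simp only [this]

/-- the number of the (s', h) for fixed a, b, b', h', s -/
private lemma Vdg_in (S H : ℕ) (X D : ℝ) (B : ℤ → Finset ℤ) (a b b' : ℤ) (s h' : ℕ) (hX : 1 ≤ X)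
    (hS : 1 ≤ S) (hD0 : 0 ≤ D)
    (hD : ∀ n : ℕ, 1 ≤ n → (n : ℝ) ≤ 4 * (X * H * S) → (n.divisors.card : ℝ) ≤ D) (hba : b ≠ a) :
    ∑ s' ∈ Ico S (2 * S), ∑ h ∈ Icc 1 H, Vdg_J B a b b' s s' h h' ≤ D := by
  classical
  set T : Finset (ℕ × ℕ) := (Ico S (2 * S) ×ˢ Icc 1 H).filter
    (fun x => b ∈ B a ∧ b' ∈ B a ∧ (b - a) * x.2 * x.1 = (b' - a) * h' * s) with hT
  have e : ∑ s' ∈ Ico S (2 * S), ∑ h ∈ Icc 1 H, Vdg_J B a b b' s s' h h' = (T.card : ℝ) := by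
    rw [hT, card_filter, Nat.cast_sum, sum_product]
    refine sum_congr rfl fun s' _ => sum_congr rfl fun h _ => ?_
    unfold Vdg_J
    push_cast
    rfl
  rw [e]
  rcases T.eq_empty_or_nonempty with h0 | ⟨⟨s0, h0⟩, hm0⟩
  · rw [h0, card_empty, Nat.cast_zero]
    exact hD0
  · have hm0' := mem_filter.1 hm0
    have k1 := mem_product.1 hm0'.1
    have k2 := mem_Ico.1 k1.1
    have k3 := mem_Icc.1 k1.2
    simp only at k2 k3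
    have k4 := hm0'.2.2.2
    simp only at k4
    have hn1 : 1 ≤ h0 * s0 := Nat.mul_pos (by omega) (by omega)
    have hle : T.card ≤ (h0 * s0).divisors.card := by
      refine card_le_card_of_injOn (fun x => x.2) ?_ ?_
      · intro x hx
        have hx' := mem_filter.1 (mem_coe.1 hx)
        have k5 := hx'.2.2.2
        have k6 : (b - a) * ((x.2 : ℤ) * x.1) = (b - a) * ((h0 : ℤ) * s0) := by
          rw [← mul_assoc, ← mul_assoc, k5, k4]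
        have k7 : (x.2 : ℤ) * x.1 = (h0 : ℤ) * s0 := mul_left_cancel₀ (sub_ne_zero.2 hba) k6
        have k8 : x.2 * x.1 = h0 * s0 := by exact_mod_cast k7
        refine mem_coe.2 (Nat.mem_divisors.2 ⟨⟨x.1, k8.symm⟩, by omega⟩)
      · intro x hx y hy hxy
        have hx' := mem_filter.1 (mem_coe.1 hx)
        have hy' := mem_filter.1 (mem_coe.1 hy)
        have hxy' : x.2 = y.2 := hxy
        have k5 := hx'.2.2.2
        have k5' := hy'.2.2.2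
        have k6 : (b - a) * ((x.2 : ℤ) * x.1) = (b - a) * ((y.2 : ℤ) * y.1) := by
          rw [← mul_assoc, ← mul_assoc, k5, k5']
        have k7 : (x.2 : ℤ) * x.1 = (y.2 : ℤ) * y.1 := mul_left_cancel₀ (sub_ne_zero.2 hba) k6
        have k8 : x.2 * x.1 = y.2 * y.1 := by exact_mod_cast k7
        have k9 := mem_Icc.1 (mem_product.1 hy'.1).2
        rw [hxy'] at k8
        have k10 : x.1 = y.1 := Nat.eq_of_mul_eq_mul_left (by omega) k8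
        exact Prod.ext k10 hxy'
    refine le_trans ?_ (hD (h0 * s0) hn1 ?_)
    · exact_mod_cast hle
    · push_cast
      have k5 : (h0 : ℝ) ≤ H := by exact_mod_cast k3.2
      have k6 : (s0 : ℝ) ≤ 2 * S := by exact_mod_cast k2.2.le
      have k7 : (0 : ℝ) ≤ (H : ℝ) * S := by positivity
      calc (h0 : ℝ) * s0 ≤ H * (2 * S) := by gcongr
        _ = 2 * (1 * (H * S)) := by ring
        _ ≤ 2 * (X * (H * S)) := by gcongr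
        _ ≤ 4 * (X * H * S) := by nlinarith

/-- the number of the possible a for fixed b ≠ b', h', s -/
private lemma Vdg_a (S H : ℕ) (X D : ℝ) (A : Finset ℤ) (B : ℤ → Finset ℤ) (b b' : ℤ) (s h' : ℕ)
    (hs : s ∈ Ico S (2 * S)) (hs0 : s ≠ 0) (hh' : h' ∈ Icc 1 H)
    (hBX : ∀ a ∈ A, ∀ b ∈ B a, b ≠ a ∧ |((b - a : ℤ) : ℝ)| ≤ X) (hD0 : 0 ≤ D)
    (hD : ∀ n : ℕ, 1 ≤ n → (n : ℝ) ≤ 4 * (X * H * S) → (n.divisors.card : ℝ) ≤ D) (hbb : b' ≠ b)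
    (A' : Finset ℤ) (hA' : ∀ a ∈ A', a ∈ A ∧ b ∈ B a ∧ b' ∈ B a ∧ ∃ h s' : ℕ,
      (b - a) * h * s' = (b' - a) * h' * s) : (A'.card : ℝ) ≤ 2 * D := by
  classical
  rcases A'.eq_empty_or_nonempty with h0 | ⟨a0, ha0⟩
  · rw [h0, card_empty, Nat.cast_zero]
    positivity
  · set n0 : ℤ := (b - b') * h' * s with hn0
    have k1 := mem_Ico.1 hs
    have k2 := mem_Icc.1 hh'
    have hn0' : n0 ≠ 0 := by
      refine mul_ne_zero (mul_ne_zero (sub_ne_zero.2 hbb.symm) ?_) ?_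
      · exact_mod_cast (by omega : h' ≠ 0)
      · exact_mod_cast hs0
    have hcard : A'.card ≤ n0.natAbs.divisors.card * 2 := by
      have : (n0.natAbs.divisors ×ˢ (univ : Finset Bool)).card = n0.natAbs.divisors.card * 2 := by
        rw [card_product]
        simp
      rw [← this]
      refine card_le_card_of_injOn (fun a => ((b - a).natAbs, decide (0 < b - a))) ?_ ?_
      · intro a ha
        obtain ⟨_, _, _, h, s', he⟩ := hA' a (mem_coe.1 ha)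
        refine mem_coe.2 (mem_product.2 ⟨Nat.mem_divisors.2 ⟨?_, Int.natAbs_ne_zero.2 hn0'⟩, mem_univ _⟩)
        rw [Int.natAbs_dvd_natAbs]
        refine ⟨h' * s - h * s', ?_⟩
        rw [hn0]
        linear_combination he
      · intro a ha a' ha' haa
        simp only [Prod.mk.injEq, decide_eq_decide] at haa
        obtain ⟨h1, h2⟩ := haa
        rcases Int.natAbs_eq_natAbs_iff.1 h1 with h3 | h3
        · linarith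
        · exfalso
          have k3 := (hBX a (hA' a (mem_coe.1 ha)).1 b (hA' a (mem_coe.1 ha)).2.1).1
          have k4 : b - a ≠ 0 := sub_ne_zero.2 k3
          rcases lt_or_gt_of_ne k4 with h5 | h5
          · have : 0 < b - a' := by linarith
            have := h2.2 this
            linarith
          · have := h2.1 h5
            linarith
    have hn1 : 1 ≤ n0.natAbs := Nat.one_le_iff_ne_zero.2 (Int.natAbs_ne_zero.2 hn0')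
    have hnX : (n0.natAbs : ℝ) ≤ 4 * (X * H * S) := by
      obtain ⟨g1, g2, g3, _⟩ := hA' a0 ha0
      have k3 := (hBX a0 g1 b g2).2
      have k4 := (hBX a0 g1 b' g3).2
      have hX0 : 0 ≤ X := (abs_nonneg _).trans k3
      have a0' : (n0.natAbs : ℝ) = |((b - b' : ℤ) : ℝ)| * h' * s := by
        rw [Nat.cast_natAbs, hn0]
        push_cast
        rw [abs_mul, abs_mul, Nat.abs_cast, Nat.abs_cast]
      have k5 : |((b - b' : ℤ) : ℝ)| ≤ 2 * X := by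
        have : ((b - b' : ℤ) : ℝ) = ((b - a0 : ℤ) : ℝ) - ((b' - a0 : ℤ) : ℝ) := by
          push_cast
          ring
        rw [this]
        refine (abs_sub _ _).trans ?_
        linarith
      have a1 : (s : ℝ) ≤ 2 * S := by exact_mod_cast k1.2.le
      have a2 : (h' : ℝ) ≤ H := by exact_mod_cast k2.2
      rw [a0']
      calc |((b - b' : ℤ) : ℝ)| * h' * s ≤ (2 * X) * H * (2 * S) := by
            gcongr
        _ = 4 * (X * H * S) := by ring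
    have hf := hD n0.natAbs hn1 hnX
    calc (A'.card : ℝ) ≤ (n0.natAbs.divisors.card : ℝ) * 2 := by exact_mod_cast hcard
      _ ≤ D * 2 := by gcongr
      _ = 2 * D := by ring

/-- the count for fixed b, s -/
private lemma Vdg_count (S H : ℕ) (X D : ℝ) (A : Finset ℤ) (B : ℤ → Finset ℤ) (b : ℤ) (s : ℕ)
    (hX : 1 ≤ X) (hS : 1 ≤ S) (hs : s ∈ Ico S (2 * S))
    (hBX : ∀ a ∈ A, ∀ b ∈ B a, b ≠ a ∧ |((b - a : ℤ) : ℝ)| ≤ X) (hD1 : 1 ≤ D)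
    (hD : ∀ n : ℕ, 1 ≤ n → (n : ℝ) ≤ 4 * (X * H * S) → (n.divisors.card : ℝ) ≤ D) :
    ∑ a ∈ A, ∑ b' ∈ A, ∑ s' ∈ Ico S (2 * S), ∑ h ∈ Icc 1 H, ∑ h' ∈ Icc 1 H,
      Vdg_J B a b b' s s' h h' ≤ 3 * D ^ 2 * ((A.card : ℝ) * H) := by
  classical
  have hD0 : 0 ≤ D := by linarith
  -- exchange the sums
  have e : ∑ a ∈ A, ∑ b' ∈ A, ∑ s' ∈ Ico S (2 * S), ∑ h ∈ Icc 1 H, ∑ h' ∈ Icc 1 H,
      Vdg_J B a b b' s s' h h' = ∑ b' ∈ A, ∑ h' ∈ Icc 1 H, ∑ a ∈ A, ∑ s' ∈ Ico S (2 * S),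
        ∑ h ∈ Icc 1 H, Vdg_J B a b b' s s' h h' := by
    have e1 : ∀ a b' : ℤ, ∑ s' ∈ Ico S (2 * S), ∑ h ∈ Icc 1 H, ∑ h' ∈ Icc 1 H,
        Vdg_J B a b b' s s' h h' = ∑ h' ∈ Icc 1 H, ∑ s' ∈ Ico S (2 * S), ∑ h ∈ Icc 1 H,
          Vdg_J B a b b' s s' h h' := by
      intro a b'
      calc ∑ s' ∈ Ico S (2 * S), ∑ h ∈ Icc 1 H, ∑ h' ∈ Icc 1 H, Vdg_J B a b b' s s' h h'
          = ∑ s' ∈ Ico S (2 * S), ∑ h' ∈ Icc 1 H, ∑ h ∈ Icc 1 H, Vdg_J B a b b' s s' h h' :=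
            sum_congr rfl fun s' _ => sum_comm
        _ = _ := sum_comm
    rw [sum_comm]
    refine sum_congr rfl fun b' _ => ?_
    calc ∑ a ∈ A, ∑ s' ∈ Ico S (2 * S), ∑ h ∈ Icc 1 H, ∑ h' ∈ Icc 1 H, Vdg_J B a b b' s s' h h'
        = ∑ a ∈ A, ∑ h' ∈ Icc 1 H, ∑ s' ∈ Ico S (2 * S), ∑ h ∈ Icc 1 H,
            Vdg_J B a b b' s s' h h' := sum_congr rfl fun a _ => e1 a b'
      _ = _ := sum_comm
  rw [e]
  have h1 : ∀ b' ∈ A, ∀ h' ∈ Icc 1 H, ∑ a ∈ A, ∑ s' ∈ Ico S (2 * S), ∑ h ∈ Icc 1 H,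
      Vdg_J B a b b' s s' h h' ≤ ((if b' = b then (A.card : ℝ) else 0) + 2 * D) * D := by
    intro b' _ h' hh'
    set A' : Finset ℤ := A.filter (fun a => b ∈ B a ∧ b' ∈ B a ∧ ∃ h s' : ℕ,
      (b - a) * h * s' = (b' - a) * h' * s) with hA'
    have k1 : ∑ a ∈ A, ∑ s' ∈ Ico S (2 * S), ∑ h ∈ Icc 1 H, Vdg_J B a b b' s s' h h' =
        ∑ a ∈ A', ∑ s' ∈ Ico S (2 * S), ∑ h ∈ Icc 1 H, Vdg_J B a b b' s s' h h' := by
      symm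
      refine sum_subset (filter_subset _ _) ?_
      intro a ha hna
      refine sum_eq_zero fun s' _ => sum_eq_zero fun h _ => ?_
      unfold Vdg_J
      rw [if_neg]
      rintro ⟨g1, g2, g3⟩
      exact hna (mem_filter.2 ⟨ha, g1, g2, h, s', g3⟩)
    rw [k1]
    have k2 : ∑ a ∈ A', ∑ s' ∈ Ico S (2 * S), ∑ h ∈ Icc 1 H, Vdg_J B a b b' s s' h h' ≤
        (A'.card : ℝ) * D := by
      refine (sum_le_card_nsmul A' _ D ?_).trans (le_of_eq (nsmul_eq_mul _ _))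
      intro a ha
      have ha' := mem_filter.1 ha
      exact Vdg_in S H X D B a b b' s h' hX hS hD0 hD (hBX a ha'.1 b ha'.2.1).1
    refine k2.trans (mul_le_mul_of_nonneg_right ?_ hD0)
    by_cases hbb : b' = b
    · rw [if_pos hbb]
      have : (A'.card : ℝ) ≤ A.card := by exact_mod_cast card_le_card (filter_subset _ _)
      linarith
    · rw [if_neg hbb, zero_add]
      have hs0 : s ≠ 0 := by
        have := mem_Ico.1 hs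
        omega
      refine Vdg_a S H X D A B b b' s h' hs hs0 hh' hBX hD0 hD hbb A' ?_
      intro a ha
      have ha' := mem_filter.1 ha
      exact ⟨ha'.1, ha'.2⟩
  have h2 : ∑ b' ∈ A, (if b' = b then (A.card : ℝ) else 0) ≤ A.card := by
    rw [sum_ite_eq']
    split_ifs
    · exact le_rfl
    · exact Nat.cast_nonneg _
  calc ∑ b' ∈ A, ∑ h' ∈ Icc 1 H, ∑ a ∈ A, ∑ s' ∈ Ico S (2 * S), ∑ h ∈ Icc 1 H,
        Vdg_J B a b b' s s' h h'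
      ≤ ∑ b' ∈ A, ∑ _h' ∈ Icc 1 H, ((if b' = b then (A.card : ℝ) else 0) + 2 * D) * D :=
        sum_le_sum fun b' hb' => sum_le_sum fun h' hh' => h1 b' hb' h' hh'
    _ = (H : ℝ) * ((∑ b' ∈ A, (if b' = b then (A.card : ℝ) else 0)) + A.card * (2 * D)) * D := by
        simp only [sum_const, Nat.card_Icc, Nat.add_sub_cancel, nsmul_eq_mul]
        rw [← mul_sum, ← sum_mul, sum_add_distrib, sum_const, nsmul_eq_mul]
        ring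
    _ ≤ (H : ℝ) * ((A.card : ℝ) + A.card * (2 * D)) * D := by gcongr
    _ ≤ 3 * D ^ 2 * ((A.card : ℝ) * H) := by
        have k3 : 0 ≤ (H : ℝ) * A.card := by positivity
        have k4 : (H : ℝ) * A.card * D ≤ (H : ℝ) * A.card * D * D := by
          calc (H : ℝ) * A.card * D = (H : ℝ) * A.card * D * 1 := by ring
            _ ≤ (H : ℝ) * A.card * D * D := by gcongr
        nlinarith

/-- reordering -/
private lemma Vdg_order (S H : ℕ) (A : Finset ℤ) (g : ℤ → ℕ → ℝ)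
    (J : ℤ → ℤ → ℤ → ℕ → ℕ → ℕ → ℕ → ℝ) :
    ∑ a ∈ A, ∑ b1 ∈ A, ∑ b2 ∈ A, ∑ s1 ∈ Ico S (2 * S), ∑ s2 ∈ Ico S (2 * S), ∑ h1 ∈ Icc 1 H,
      ∑ h2 ∈ Icc 1 H, g b1 s1 * J a b1 b2 s1 s2 h1 h2 =
    ∑ b1 ∈ A, ∑ s1 ∈ Ico S (2 * S), g b1 s1 * ∑ a ∈ A, ∑ b2 ∈ A, ∑ s2 ∈ Ico S (2 * S),
      ∑ h1 ∈ Icc 1 H, ∑ h2 ∈ Icc 1 H, J a b1 b2 s1 s2 h1 h2 := by
  rw [sum_comm]
  refine sum_congr rfl fun b1 _ => ?_
  calc ∑ a ∈ A, ∑ b2 ∈ A, ∑ s1 ∈ Ico S (2 * S), ∑ s2 ∈ Ico S (2 * S), ∑ h1 ∈ Icc 1 H,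
      ∑ h2 ∈ Icc 1 H, g b1 s1 * J a b1 b2 s1 s2 h1 h2
      = ∑ a ∈ A, ∑ s1 ∈ Ico S (2 * S), ∑ b2 ∈ A, ∑ s2 ∈ Ico S (2 * S), ∑ h1 ∈ Icc 1 H,
      ∑ h2 ∈ Icc 1 H, g b1 s1 * J a b1 b2 s1 s2 h1 h2 := by
        refine sum_congr rfl fun a _ => ?_
        exact sum_comm
    _ = ∑ s1 ∈ Ico S (2 * S), ∑ a ∈ A, ∑ b2 ∈ A, ∑ s2 ∈ Ico S (2 * S), ∑ h1 ∈ Icc 1 H,
      ∑ h2 ∈ Icc 1 H, g b1 s1 * J a b1 b2 s1 s2 h1 h2 := sum_comm
    _ = _ := by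
        refine sum_congr rfl fun s1 _ => ?_
        simp only [mul_sum]

private lemma Vdg_swap (S H : ℕ) (A : Finset ℤ) (g : ℤ → ℕ → ℝ)
    (J : ℤ → ℤ → ℤ → ℕ → ℕ → ℕ → ℕ → ℝ)
    (hJ : ∀ a b b' s s' h h', J a b b' s s' h h' = J a b' b s' s h' h) :
    ∑ a ∈ A, ∑ b1 ∈ A, ∑ b2 ∈ A, ∑ s1 ∈ Ico S (2 * S), ∑ s2 ∈ Ico S (2 * S), ∑ h1 ∈ Icc 1 H,
      ∑ h2 ∈ Icc 1 H, g b2 s2 * J a b1 b2 s1 s2 h1 h2 =
    ∑ a ∈ A, ∑ b1 ∈ A, ∑ b2 ∈ A, ∑ s1 ∈ Ico S (2 * S), ∑ s2 ∈ Ico S (2 * S), ∑ h1 ∈ Icc 1 H,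
      ∑ h2 ∈ Icc 1 H, g b1 s1 * J a b1 b2 s1 s2 h1 h2 := by
  refine sum_congr rfl fun a _ => ?_
  rw [sum_comm]
  refine sum_congr rfl fun b1 _ => sum_congr rfl fun b2 _ => ?_
  rw [sum_comm]
  refine sum_congr rfl fun s1 _ => sum_congr rfl fun s2 _ => ?_
  rw [sum_comm]
  refine sum_congr rfl fun h1 _ => sum_congr rfl fun h2 _ => ?_
  rw [hJ]

theorem tVdg : VdgStmt := by
  intro ε hε
  obtain ⟨C, hC, hC2⟩ := tTauk (ε / 2) (by positivity)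
  refine ⟨3 * (C ^ 2 * 4 ^ ε), by positivity, ?_⟩
  intro S H γ X e A B θ w hS hH hγ hX hTh hw
  obtain ⟨he, hBA, hθ⟩ := hTh
  have hS' : (1 : ℝ) ≤ S := by exact_mod_cast hS
  have hH' : (1 : ℝ) ≤ H := by exact_mod_cast hH
  have hXHS : 1 ≤ X * H * S := by
    have : 1 ≤ X * H := by nlinarith
    nlinarith
  set D : ℝ := C * (4 * (X * H * S)) ^ (ε / 2) with hDd
  have hD1 : 1 ≤ D := by
    have : (1 : ℝ) ≤ (4 * (X * H * S)) ^ (ε / 2) :=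
      Real.one_le_rpow (by linarith) (by linarith)
    rw [hDd]
    nlinarith
  have hD : ∀ n : ℕ, 1 ≤ n → (n : ℝ) ≤ 4 * (X * H * S) → (n.divisors.card : ℝ) ≤ D := by
    intro n hn hnX
    refine (hC2 n hn).trans ?_
    rw [hDd]
    refine mul_le_mul_of_nonneg_left ?_ (by linarith)
    exact Real.rpow_le_rpow (Nat.cast_nonneg _) hnX (by linarith)
  have hDD : D ^ 2 = C ^ 2 * 4 ^ ε * (X * H * S) ^ ε := by
    rw [hDd, mul_pow, ← Real.rpow_natCast ((4 * (X * H * S)) ^ (ε / 2)) 2,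
      ← Real.rpow_mul (by positivity), mul_assoc (C ^ 2), ← Real.mul_rpow (by norm_num) (by positivity)]
    congr 2
    push_cast
    ring
  have hBX : ∀ a ∈ A, ∀ b ∈ B a, b ≠ a ∧ |((b - a : ℤ) : ℝ)| ≤ X := fun a ha b hb => (hθ a ha b hb).2
  -- the pointwise bound
  have h1 : ∀ a ∈ A, ∀ b1 ∈ B a, ∀ b2 ∈ B a, ∀ s1 s2 h1 h2 : ℕ,
      w b1 s1 * w b2 s2 * (if kM (θ a b1) (θ a b2) h1 h2 s1 s2 = 0 then (1 : ℝ) else 0) ≤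
      w b1 s1 ^ 2 / 2 * Vdg_J B a b1 b2 s1 s2 h1 h2 + w b2 s2 ^ 2 / 2 * Vdg_J B a b1 b2 s1 s2 h1 h2 := by
    intro a ha b1 hb1 b2 hb2 s1 s2 h1 h2
    by_cases hk : kM (θ a b1) (θ a b2) h1 h2 s1 s2 = 0
    · have hJ : Vdg_J B a b1 b2 s1 s2 h1 h2 = 1 := by
        unfold Vdg_J
        rw [if_pos]
        refine ⟨hb1, hb2, ?_⟩
        have k1 := Vdg_kk hk
        have k2 := (hθ a ha b1 hb1).1
        have k3 := (hθ a ha b2 hb2).1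
        have k4 : e * ((b1 - a) * h1 * s2) = e * ((b2 - a) * h2 * s1) := by
          calc e * ((b1 - a) * h1 * s2) = (e * (b1 - a)) * h1 * s2 := by ring
            _ = (γ : ℤ) * (θ a b1 * h1 * s2) := by rw [← k2]; ring
            _ = (γ : ℤ) * (θ a b2 * h2 * s1) := by rw [k1]
            _ = (e * (b2 - a)) * h2 * s1 := by rw [← k3]; ring
            _ = e * ((b2 - a) * h2 * s1) := by ring
        have he0 : e ≠ 0 := by rcases he with h | h <;> rw [h] <;> norm_num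
        exact mul_left_cancel₀ he0 k4
      rw [if_pos hk, hJ]
      nlinarith [sq_nonneg (w b1 s1 - w b2 s2)]
    · rw [if_neg hk, mul_zero]
      have := Vdg_J_nonneg B a b1 b2 s1 s2 h1 h2
      positivity
  -- the first sum
  have h2 : ∑ a ∈ A, ∑ b1 ∈ B a, ∑ b2 ∈ B a, ∑ s1 ∈ Ico S (2 * S), ∑ s2 ∈ Ico S (2 * S),
      ∑ h1 ∈ Icc 1 H, ∑ h2 ∈ Icc 1 H,
      w b1 s1 * w b2 s2 * (if kM (θ a b1) (θ a b2) h1 h2 s1 s2 = 0 then (1 : ℝ) else 0) ≤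
      ∑ a ∈ A, ∑ b1 ∈ A, ∑ b2 ∈ A, ∑ s1 ∈ Ico S (2 * S), ∑ s2 ∈ Ico S (2 * S),
      ∑ h1 ∈ Icc 1 H, ∑ h2 ∈ Icc 1 H,
      (w b1 s1 ^ 2 / 2 * Vdg_J B a b1 b2 s1 s2 h1 h2 + w b2 s2 ^ 2 / 2 * Vdg_J B a b1 b2 s1 s2 h1 h2) := by
    have hpos : ∀ (a b1 b2 : ℤ) (s1 s2 h1 h2 : ℕ), 0 ≤
        w b1 s1 ^ 2 / 2 * Vdg_J B a b1 b2 s1 s2 h1 h2 + w b2 s2 ^ 2 / 2 * Vdg_J B a b1 b2 s1 s2 h1 h2 := by
      intro a b1 b2 s1 s2 h1 h2
      have := Vdg_J_nonneg B a b1 b2 s1 s2 h1 h2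
      positivity
    refine sum_le_sum fun a ha => ?_
    calc ∑ b1 ∈ B a, ∑ b2 ∈ B a, ∑ s1 ∈ Ico S (2 * S), ∑ s2 ∈ Ico S (2 * S),
        ∑ h1 ∈ Icc 1 H, ∑ h2 ∈ Icc 1 H,
        w b1 s1 * w b2 s2 * (if kM (θ a b1) (θ a b2) h1 h2 s1 s2 = 0 then (1 : ℝ) else 0)
        ≤ ∑ b1 ∈ B a, ∑ b2 ∈ B a, ∑ s1 ∈ Ico S (2 * S), ∑ s2 ∈ Ico S (2 * S),
        ∑ h1 ∈ Icc 1 H, ∑ h2 ∈ Icc 1 H,
        (w b1 s1 ^ 2 / 2 * Vdg_J B a b1 b2 s1 s2 h1 h2 + w b2 s2 ^ 2 / 2 * Vdg_J B a b1 b2 s1 s2 h1 h2) :=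
          sum_le_sum fun b1 hb1 => sum_le_sum fun b2 hb2 => sum_le_sum fun s1 _ => sum_le_sum fun s2 _ =>
            sum_le_sum fun g1 _ => sum_le_sum fun g2 _ => h1 a ha b1 hb1 b2 hb2 s1 s2 g1 g2
      _ ≤ ∑ b1 ∈ B a, ∑ b2 ∈ A, ∑ s1 ∈ Ico S (2 * S), ∑ s2 ∈ Ico S (2 * S),
        ∑ h1 ∈ Icc 1 H, ∑ h2 ∈ Icc 1 H,
        (w b1 s1 ^ 2 / 2 * Vdg_J B a b1 b2 s1 s2 h1 h2 + w b2 s2 ^ 2 / 2 * Vdg_J B a b1 b2 s1 s2 h1 h2) :=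
          sum_le_sum fun b1 _ => sum_le_sum_of_subset_of_nonneg (hBA a ha) fun b2 _ _ =>
            sum_nonneg fun s1 _ => sum_nonneg fun s2 _ => sum_nonneg fun g1 _ => sum_nonneg fun g2 _ =>
              hpos a b1 b2 s1 s2 g1 g2
      _ ≤ _ :=
          sum_le_sum_of_subset_of_nonneg (hBA a ha) fun b1 _ _ => sum_nonneg fun b2 _ =>
            sum_nonneg fun s1 _ => sum_nonneg fun s2 _ => sum_nonneg fun g1 _ => sum_nonneg fun g2 _ =>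
              hpos a b1 b2 s1 s2 g1 g2
  refine h2.trans ?_
  have h3 : ∑ a ∈ A, ∑ b1 ∈ A, ∑ b2 ∈ A, ∑ s1 ∈ Ico S (2 * S), ∑ s2 ∈ Ico S (2 * S),
      ∑ h1 ∈ Icc 1 H, ∑ h2 ∈ Icc 1 H,
      (w b1 s1 ^ 2 / 2 * Vdg_J B a b1 b2 s1 s2 h1 h2 + w b2 s2 ^ 2 / 2 * Vdg_J B a b1 b2 s1 s2 h1 h2) =
      ∑ b1 ∈ A, ∑ s1 ∈ Ico S (2 * S), w b1 s1 ^ 2 / 2 * (∑ a ∈ A, ∑ b2 ∈ A, ∑ s2 ∈ Ico S (2 * S),
        ∑ h1 ∈ Icc 1 H, ∑ h2 ∈ Icc 1 H, Vdg_J B a b1 b2 s1 s2 h1 h2) +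
      ∑ b1 ∈ A, ∑ s1 ∈ Ico S (2 * S), w b1 s1 ^ 2 / 2 * (∑ a ∈ A, ∑ b2 ∈ A, ∑ s2 ∈ Ico S (2 * S),
        ∑ h1 ∈ Icc 1 H, ∑ h2 ∈ Icc 1 H, Vdg_J B a b1 b2 s1 s2 h1 h2) := by
    have k1 := Vdg_order S H A (fun b s => w b s ^ 2 / 2) (Vdg_J B)
    have k2 := Vdg_swap S H A (fun b s => w b s ^ 2 / 2) (Vdg_J B) (Vdg_J_symm B)
    rw [← k1]
    nth_rw 2 [← k2]
    simp only [sum_add_distrib]
  rw [h3]
  have h4 : ∑ b1 ∈ A, ∑ s1 ∈ Ico S (2 * S), w b1 s1 ^ 2 / 2 * (∑ a ∈ A, ∑ b2 ∈ A,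
      ∑ s2 ∈ Ico S (2 * S), ∑ h1 ∈ Icc 1 H, ∑ h2 ∈ Icc 1 H, Vdg_J B a b1 b2 s1 s2 h1 h2) ≤
      ∑ b1 ∈ A, ∑ s1 ∈ Ico S (2 * S), w b1 s1 ^ 2 / 2 * (3 * D ^ 2 * ((A.card : ℝ) * H)) := by
    refine sum_le_sum fun b1 _ => sum_le_sum fun s1 hs1 => ?_
    refine mul_le_mul_of_nonneg_left ?_ (by positivity)
    exact Vdg_count S H X D A B b1 s1 hX hS hs1 hBX hD1 hD
  refine (add_le_add h4 h4).trans (le_of_eq ?_)
  rw [hDD]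
  simp only [← sum_mul, div_eq_mul_inv]
  ring

end Pool.Agent.Lib.TV
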