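import Pool.Agent.Lib.TV.StmV
import Pool.Agent.Lib.TN.Stm5

/-!
MP_00e23e_nt, directory Lib/TV (THEOREM V): the family statements with the congruence f | n and two blocks Q and Q2,
generic exponents e1, e2 (for Theorem P/K with x^v values; helper19).
-/

namespace Pool.Agent.Lib.TV

open Finset Pool.Agent.Lib.EH3 Pool.Agent.Lib.TB Pool.Agent.Lib.TN Pool.Agent.Lib.TM

/-- the sum of the error terms of the pairs (d, d') for the whole family, congruence f | n, blocks Q and Q2 -/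
def EEGAt (δ v g e1 e2 : ℝ) : Prop :=
  ∃ (j : ℕ) (C η κ : ℝ) (N0 : ℕ), 0 < η ∧ 0 < κ ∧ ∀ (N Q Q2 f : ℕ) (L1 L2 K : ℝ) (A : Finset ℤ) (c c' : ℤ → ℕ → ℝ),
    N0 ≤ N → 1 ≤ N →
    (N : ℝ) ^ ((1 : ℝ) / 2 - κ) ≤ Q → (Q : ℝ) ≤ 2 * (N : ℝ) ^ ((1 : ℝ) / 2 + δ) →
    (N : ℝ) ^ ((1 : ℝ) / 2 - κ) ≤ Q2 → (Q2 : ℝ) ≤ 2 * (N : ℝ) ^ ((1 : ℝ) / 2 + δ) →
    1 ≤ f → (f : ℝ) ≤ (N : ℝ) ^ κ →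
    (N : ℝ) ^ e1 ≤ L1 → L2 ≤ (N : ℝ) ^ e2 →
    IsCf A K c → IsCf A K c' → (∀ a d, c a d ≠ 0 → Conv L1 L2 d ∧ f.Coprime d) →
    (∀ a d, c' a d ≠ 0 → Conv L1 L2 d ∧ f.Coprime d) → (A.card : ℝ) ≤ K * (N : ℝ) ^ v → (N : ℝ) ^ g ≤ K →
    (∀ a ∈ A, |a| ≤ (N : ℤ)) →
    |∑ a ∈ A, ∑ b ∈ A.erase a, ∑ d ∈ Ioc Q (2 * Q), ∑ d' ∈ Ioc Q2 (2 * Q2),
        c a d * c' b d' * (SSG N j f d d' a b - MM N d d' a b / f)| ≤ C * K ^ 2 * (N : ℝ) ^ (1 - η)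

/-- (OFF) for the whole family, congruence f | n, blocks Q and Q2 -/
def OffGAt (δ v g ε e1 e2 : ℝ) : Prop :=
  ∃ (j : ℕ) (C η κ : ℝ), 0 < η ∧ 0 < κ ∧ ∀ (N Q Q2 f : ℕ) (L1 L2 K : ℝ) (A : Finset ℤ) (c c' : ℤ → ℕ → ℝ), 1 ≤ N →
    (N : ℝ) ^ ((1 : ℝ) / 2 - κ) ≤ Q → (Q : ℝ) ≤ 2 * (N : ℝ) ^ ((1 : ℝ) / 2 + δ) →
    (N : ℝ) ^ ((1 : ℝ) / 2 - κ) ≤ Q2 → (Q2 : ℝ) ≤ 2 * (N : ℝ) ^ ((1 : ℝ) / 2 + δ) →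
    1 ≤ f → (f : ℝ) ≤ (N : ℝ) ^ κ →
    (N : ℝ) ^ e1 ≤ L1 → L2 ≤ (N : ℝ) ^ e2 →
    IsCf A K c → IsCf A K c' → (∀ a d, c a d ≠ 0 → Conv L1 L2 d ∧ f.Coprime d) →
    (∀ a d, c' a d ≠ 0 → Conv L1 L2 d ∧ f.Coprime d) → (A.card : ℝ) ≤ K * (N : ℝ) ^ v → (N : ℝ) ^ g ≤ K →
    (∀ a ∈ A, |a| ≤ (N : ℤ)) →
    |∑ a ∈ A, ∑ b ∈ A.erase a, ∑ n ∈ Iw N j, wt N j n * (if (f : ℤ) ∣ n then 1 else 0) *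
        (FF (RN δ ε N) Q (c a) (n - a) * FF (RN δ ε N) Q2 (c' b) (n - b))| ≤ C * K ^ 2 * (N : ℝ) ^ (1 - η)

/-- Module Vpf: the off-diagonal sum of a pair (a, b) is the sum of the error terms of the pairs (d, d') up to a small
error, in which the coefficients appear linearly (congruence f | n, two blocks). -/
def VpfStmt : Prop := ∀ δ ε e : ℝ, 0 ≤ δ → 0 < ε → δ + ε ≤ 1 / 2 → 0 < e → e ≤ ε / 8 → ∃ C : ℝ, 0 ≤ C ∧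
  ∀ (N j Q Q2 f : ℕ) (c c' : ℕ → ℝ) (a b : ℤ), 1 ≤ N → RN δ ε N ≤ Q → (Q : ℝ) ≤ 2 * (N : ℝ) ^ ((1 : ℝ) / 2 + δ) →
    RN δ ε N ≤ Q2 → (Q2 : ℝ) ≤ 2 * (N : ℝ) ^ ((1 : ℝ) / 2 + δ) → 1 ≤ f → (f : ℝ) ≤ (N : ℝ) ^ (ε / 2) →
    (∀ d, |c d| ≤ 1) → (∀ d, |c' d| ≤ 1) → (∀ d, c d ≠ 0 → f.Coprime d) → (∀ d, c' d ≠ 0 → f.Coprime d) →
    a ≠ b → |a| ≤ (N : ℤ) → |b| ≤ (N : ℤ) →
    |∑ n ∈ Iw N j, wt N j n * (if (f : ℤ) ∣ n then 1 else 0) *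
        (FF (RN δ ε N) Q c (n - a) * FF (RN δ ε N) Q2 c' (n - b)) -
        ∑ d ∈ Ioc Q (2 * Q), ∑ d' ∈ Ioc Q2 (2 * Q2), c d * c' d' * (SSG N j f d d' a b - MM N d d' a b / f)| ≤
      C * (N : ℝ) ^ (1 / 2 + δ + ε + e) +
        ∑ d ∈ Ioc Q (2 * Q), ∑ d' ∈ Ioc Q2 (2 * Q2), |c d| * |c' d'| *
          (C * (N : ℝ) ^ (-(2 * δ) - ε) * (2 * (Q : ℝ) / Q2 + 2 * (Q2 : ℝ) / Q + 1))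

end Pool.Agent.Lib.TV
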