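import Pool.Agent.Lib.TV.SpecG
set_option autoImplicit false

/-!
MP_00e23e_nt, directory Lib/TV (THEOREM V), module Gmv: the main part for the family.
-/

namespace Pool.Agent.Lib.TV

open Finset Pool.Agent.Lib.EH3 Pool.Agent.Lib.TB Pool.Agent.Lib.TN Pool.Agent.Lib.TM Pool.Agent.Results.MP_00e23e_nt

/-- the summands of the bilinear forms -/
private noncomputable def Gmv_v (g : ℕ) (c c' : ℕ → ℝ) (th : ℤ) (vt : ℝ) (m n : ℕ) : ℂ :=
  ((c (g * m) * c' (g * n) : ℝ) : ℂ) * (1 / ((m : ℂ) * n)) * eB th vt m n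

private lemma Gmv_pg_add (Q g : ℕ) (f f' : ℕ → ℕ → ℂ) :
    pg Q g (fun m n => f m n + f' m n) = pg Q g f + pg Q g f' := by
  unfold pg
  rw [← sum_add_distrib]
  apply sum_congr rfl
  intro m _
  rw [← sum_add_distrib]

private lemma Gmv_pg_mul (Q g : ℕ) (z : ℂ) (f : ℕ → ℕ → ℂ) :
    pg Q g (fun m n => z * f m n) = z * pg Q g f := by
  unfold pg
  rw [mul_sum]
  apply sum_congr rfl
  intro m _
  rw [mul_sum]

private lemma Gmv_pg_sum {ι : Type} (s : Finset ι) (Q g : ℕ) (f : ι → ℕ → ℕ → ℂ) :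
    pg Q g (fun m n => ∑ i ∈ s, f i m n) = ∑ i ∈ s, pg Q g (f i) := by
  classical
  induction s using Finset.induction_on with
  | empty =>
    simp only [sum_empty]
    unfold pg
    simp
  | insert i s hi ih =>
    simp only [sum_insert hi]
    rw [Gmv_pg_add, ih]

private lemma Gmv_pair (N j H Q g : ℕ) (c c' : ℕ → ℝ) (a b : ℤ) :
    pg Q g (fun m n => ((c (g * m) * c' (g * n) : ℝ) : ℂ) * mainG N j H g a b m n) =
    ∑ t ∈ Iw N j, (((wt N j t : ℝ) : ℂ) * (1 / (g : ℂ))) *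
      ((∑ h ∈ Icc 1 H, pg Q g (Gmv_v g c c' ((h : ℤ) * (-((b - a) / g)))
          ((h : ℝ) * (((t : ℝ) - a) / g)))) +
        ∑ h ∈ Icc 1 H, pg Q g (Gmv_v g c c' ((h : ℤ) * ((b - a) / g))
          ((h : ℝ) * (-(((t : ℝ) - a) / g))))) := by
  have s1 : (fun m n : ℕ => ((c (g * m) * c' (g * n) : ℝ) : ℂ) * mainG N j H g a b m n) =
      fun m n : ℕ => ∑ t ∈ Iw N j, ∑ h ∈ Icc 1 H,
        (((wt N j t : ℝ) : ℂ) * (1 / (g : ℂ))) *
        (Gmv_v g c c' ((h : ℤ) * (-((b - a) / g))) ((h : ℝ) * (((t : ℝ) - a) / g)) m n +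
          Gmv_v g c c' ((h : ℤ) * ((b - a) / g)) ((h : ℝ) * (-(((t : ℝ) - a) / g))) m n) := by
    funext m n
    have hinv : (1 / ((g : ℂ) * m * n)) = (1 / (g : ℂ)) * (1 / ((m : ℂ) * n)) := by
      rw [mul_assoc, one_div_mul_one_div]
    unfold mainG Gmv_v
    rw [hinv, mul_sum, mul_sum, sum_comm]
    apply sum_congr rfl
    intro h _
    rw [mul_sum, mul_sum]
    apply sum_congr rfl
    intro t _
    ring
  rw [s1, Gmv_pg_sum]
  apply sum_congr rfl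
  intro t _
  rw [Gmv_pg_sum, ← sum_add_distrib, mul_sum]
  apply sum_congr rfl
  intro h _
  rw [Gmv_pg_mul, Gmv_pg_add]

theorem tGmv (h1 : WbStmt) (h2 : UpvStmt) : GmvStmt := by
  intro ε j hε
  obtain ⟨C, hC, hC5⟩ := h2 ε hε
  refine ⟨6 * ((j : ℝ) + 1) * (C * ((j : ℝ) + 2)) ^ ((1 : ℝ) / 2), by positivity, ?_⟩
  intro N Q H g L1 L2 K W A c hN hH hg hgQ hL1 hL12 hL2 hc hconv hW ha
  have hN' : (1 : ℝ) ≤ N := by exact_mod_cast hN
  have hH' : (1 : ℝ) ≤ H := by exact_mod_cast hH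
  have hg' : (1 : ℝ) ≤ g := by exact_mod_cast hg
  have hgpos : (0 : ℝ) < g := by linarith
  have hP1 : 1 ≤ Q / g := (Nat.one_le_div_iff (by omega)).mpr hgQ
  have hP : (1 : ℝ) ≤ ((Q / g : ℕ) : ℝ) := by exact_mod_cast hP1
  have hP0 : (0 : ℝ) < ((Q / g : ℕ) : ℝ) := by linarith
  have hK0 : 0 ≤ K := (sum_nonneg (fun a _ => abs_nonneg (c a 0))).trans (hc.2 0)
  have hj0 : (0 : ℝ) ≤ j := Nat.cast_nonneg j
  have hL1p : 0 < L1 := by linarith
  have hL2p : 0 < L2 := by linarith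
  have hgz : (g : ℤ) ≠ 0 := by positivity
  set P : ℝ := ((Q / g : ℕ) : ℝ) with hPdef
  have hW0 : 0 ≤ W := le_trans (Nat.cast_nonneg _) hW
  set R : ℝ := K ^ 2 * W * ((H : ℝ) * g / L1) + K * W ^ 3 * ((H : ℝ) ^ 2 / P) +
    K ^ 3 * W * ((H : ℝ) ^ 2 * (L2 / P) ^ ((1 : ℝ) / 2)) with hRdef
  have hR0 : 0 ≤ R := by
    rw [hRdef]
    positivity
  set Y : ℝ := ((Q : ℝ) * H * (2 * N)) ^ ε with hYdef
  have hY0 : 0 ≤ Y := by positivity
  set Z : ℝ := 1 + (H : ℝ) * N / ((g : ℝ) * P ^ 2) with hZdef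
  have hZ0 : 0 ≤ Z := by positivity
  have hbnd : bndV ε N Q H g L1 L2 K W = Y * Z * R := by
    unfold bndV
    rw [← hPdef]
  have hbnd0 : 0 ≤ bndV ε N Q H g L1 L2 K W := by
    rw [hbnd]
    positivity
  set D : ℝ := (C * ((j : ℝ) + 2)) ^ ((1 : ℝ) / 2) *
    (bndV ε N Q H g L1 L2 K W) ^ ((1 : ℝ) / 2) with hDdef
  have hD0 : 0 ≤ D := by positivity
  -- the trilinear forms
  have e3 : ∀ (e : ℤ) (θ : ℤ → ℤ → ℤ) (τ : ℤ → ℝ), IsTh g e (2 * N) A (Bg A g) θ →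
      (∀ a ∈ A, |τ a| ≤ ((j : ℝ) + 2) * N / g) →
      ‖∑ a ∈ A, ∑ b ∈ Bg A g a, ∑ h ∈ Icc 1 H,
        pg Q g (Gmv_v g (c a) (c b) ((h : ℤ) * θ a b) ((h : ℝ) * τ a))‖ ≤ D := by
    intro e θ τ t1 t3
    have key := hC5 Q g H L1 L2 K W (2 * N) (((j : ℝ) + 2) * N / g) e A (Bg A g) c θ τ hg hgQ hH hL1
      hL12 hL2 hc hconv hW t1 (by linarith) t3 (by positivity)
    have b2 : 1 + (H : ℝ) * (((j : ℝ) + 2) * N / g) / P ^ 2 ≤ ((j : ℝ) + 2) * Z := by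
      have b3 : (H : ℝ) * (((j : ℝ) + 2) * N / g) / P ^ 2 =
          ((j : ℝ) + 2) * ((H : ℝ) * N / ((g : ℝ) * P ^ 2)) := by
        field_simp
      rw [b3, hZdef]
      linarith
    have hsq : ‖∑ a ∈ A, ∑ b ∈ Bg A g a, ∑ h ∈ Icc 1 H,
        pg Q g (Gmv_v g (c a) (c b) ((h : ℤ) * θ a b) ((h : ℝ) * τ a))‖ ^ 2 ≤
        (C * ((j : ℝ) + 2)) * bndV ε N Q H g L1 L2 K W := by
      refine le_trans key ?_
      rw [hbnd]
      calc C * ((Q : ℝ) * H * (2 * N)) ^ ε * (1 + (H : ℝ) * (((j : ℝ) + 2) * N / g) / P ^ 2) * R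
          ≤ C * Y * (((j : ℝ) + 2) * Z) * R := by
            apply mul_le_mul_of_nonneg_right _ hR0
            exact mul_le_mul_of_nonneg_left b2 (by positivity)
        _ = (C * ((j : ℝ) + 2)) * (Y * Z * R) := by ring
    have h0 : 0 ≤ (C * ((j : ℝ) + 2)) * bndV ε N Q H g L1 L2 K W := by positivity
    have h5 := Real.rpow_le_rpow (by positivity) hsq (by norm_num : (0 : ℝ) ≤ 1 / 2)
    rw [← Real.rpow_natCast, ← Real.rpow_mul (norm_nonneg _)] at h5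
    norm_num at h5
    rw [hDdef, ← Real.mul_rpow (by positivity) hbnd0]
    norm_num
    exact h5
  -- exchange
  have e2 : ∑ a ∈ A, ∑ b ∈ Bg A g a, pg Q g (fun m n =>
      ((c a (g * m) * c b (g * n) : ℝ) : ℂ) * mainG N j H g a b m n) =
      ∑ t ∈ Iw N j, (((wt N j t : ℝ) : ℂ) * (1 / (g : ℂ))) *
      ((∑ a ∈ A, ∑ b ∈ Bg A g a, ∑ h ∈ Icc 1 H, pg Q g (Gmv_v g (c a) (c b)
          ((h : ℤ) * (-((b - a) / g))) ((h : ℝ) * (((t : ℝ) - a) / g)))) +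
        ∑ a ∈ A, ∑ b ∈ Bg A g a, ∑ h ∈ Icc 1 H, pg Q g (Gmv_v g (c a) (c b)
          ((h : ℤ) * ((b - a) / g)) ((h : ℝ) * (-(((t : ℝ) - a) / g))))) := by
    have s1 : ∀ a ∈ A, ∀ b ∈ Bg A g a, pg Q g (fun m n =>
      ((c a (g * m) * c b (g * n) : ℝ) : ℂ) * mainG N j H g a b m n) = _ :=
      fun a _ b _ => Gmv_pair N j H Q g (c a) (c b) a b
    rw [sum_congr rfl (fun a ha' => sum_congr rfl (fun b hb' => s1 a ha' b hb'))]
    rw [sum_congr rfl (fun a _ => sum_comm), sum_comm]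
    apply sum_congr rfl
    intro t _
    rw [← sum_add_distrib, mul_sum]
    apply sum_congr rfl
    intro a _
    rw [← sum_add_distrib, mul_sum]
  have hBg : ∀ a ∈ A, ∀ b ∈ Bg A g a, b ∈ A ∧ b ≠ a ∧ (b - a) / (g : ℤ) * g = b - a := by
    intro a _ b hb
    unfold Bg at hb
    rw [mem_filter] at hb
    exact ⟨hb.1, hb.2.1, Int.ediv_mul_cancel hb.2.2⟩
  have hbd : ∀ a ∈ A, ∀ b ∈ Bg A g a, |((b - a : ℤ) : ℝ)| ≤ 2 * N := by
    intro a ha' b hb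
    obtain ⟨k0, k1, k2⟩ := hBg a ha' b hb
    have h4 : |b - a| ≤ 2 * (N : ℤ) := by
      have h5 := abs_sub b a
      have h6 := ha a ha'
      have h7 := ha b k0
      linarith
    exact_mod_cast h4
  have e4 : ∀ t ∈ Iw N j, ‖(((wt N j t : ℝ) : ℂ) * (1 / (g : ℂ))) *
      ((∑ a ∈ A, ∑ b ∈ Bg A g a, ∑ h ∈ Icc 1 H, pg Q g (Gmv_v g (c a) (c b)
          ((h : ℤ) * (-((b - a) / g))) ((h : ℝ) * (((t : ℝ) - a) / g)))) +
        ∑ a ∈ A, ∑ b ∈ Bg A g a, ∑ h ∈ Icc 1 H, pg Q g (Gmv_v g (c a) (c b)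
          ((h : ℤ) * ((b - a) / g)) ((h : ℝ) * (-(((t : ℝ) - a) / g)))))‖ ≤ (1 / (g : ℝ)) * (2 * D) := by
    intro t ht
    unfold Iw at ht
    rw [mem_Icc] at ht
    have htR : |(t : ℝ)| ≤ ((j : ℝ) + 1) * N := by
      have : |t| ≤ (((j + 1) * N : ℕ) : ℤ) := abs_le.mpr ht
      have h2 : |(t : ℝ)| ≤ (((j + 1) * N : ℕ) : ℝ) := by exact_mod_cast this
      push_cast at h2
      exact h2
    have hv : ∀ a ∈ A, |((t : ℝ) - a) / g| ≤ ((j : ℝ) + 2) * N / g := by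
      intro a ha'
      rw [abs_div, abs_of_nonneg hgpos.le]
      apply div_le_div_of_nonneg_right _ hgpos.le
      have haR : |(a : ℝ)| ≤ N := by exact_mod_cast ha a ha'
      have := abs_sub (t : ℝ) (a : ℝ)
      linarith
    have p1 := e3 (-1) (fun a b => -((b - a) / (g : ℤ))) (fun a => ((t : ℝ) - a) / g)
      ⟨Or.inr rfl, fun a _ => filter_subset _ _, fun a ha' b hb => by
        obtain ⟨k0, k1, k2⟩ := hBg a ha' b hb
        refine ⟨?_, k1, hbd a ha' b hb⟩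
        linear_combination -k2⟩ hv
    have p2 := e3 1 (fun a b => (b - a) / (g : ℤ)) (fun a => -(((t : ℝ) - a) / g))
      ⟨Or.inl rfl, fun a _ => filter_subset _ _, fun a ha' b hb => by
        obtain ⟨k0, k1, k2⟩ := hBg a ha' b hb
        refine ⟨?_, k1, hbd a ha' b hb⟩
        linear_combination k2⟩
      (fun a ha' => by
        rw [abs_neg]
        exact hv a ha')
    have q1 : ‖((wt N j t : ℝ) : ℂ) * (1 / (g : ℂ))‖ ≤ 1 / (g : ℝ) := by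
      rw [norm_mul, Complex.norm_real, Real.norm_eq_abs, norm_div, norm_one, Complex.norm_natCast]
      obtain ⟨w1, w2, -, -⟩ := h1 N j hN
      have r1 : |wt N j t| ≤ 1 := by
        rw [abs_of_nonneg (w1 t)]
        exact w2 t
      have := mul_le_mul_of_nonneg_right r1 (by positivity : (0 : ℝ) ≤ 1 / g)
      linarith
    rw [norm_mul]
    apply mul_le_mul q1 _ (norm_nonneg _) (by positivity)
    refine (norm_add_le _ _).trans ?_
    have := add_le_add p1 p2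
    linarith
  rw [e2]
  calc _ ≤ ∑ t ∈ Iw N j, ‖(((wt N j t : ℝ) : ℂ) * (1 / (g : ℂ))) *
      ((∑ a ∈ A, ∑ b ∈ Bg A g a, ∑ h ∈ Icc 1 H, pg Q g (Gmv_v g (c a) (c b)
          ((h : ℤ) * (-((b - a) / g))) ((h : ℝ) * (((t : ℝ) - a) / g)))) +
        ∑ a ∈ A, ∑ b ∈ Bg A g a, ∑ h ∈ Icc 1 H, pg Q g (Gmv_v g (c a) (c b)
          ((h : ℤ) * ((b - a) / g)) ((h : ℝ) * (-(((t : ℝ) - a) / g)))))‖ := norm_sum_le _ _
    _ ≤ ∑ _t ∈ Iw N j, (1 / (g : ℝ)) * (2 * D) := sum_le_sum e4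
    _ = ((Iw N j).card : ℝ) * ((1 / (g : ℝ)) * (2 * D)) := by
        rw [sum_const, nsmul_eq_mul]
    _ ≤ (3 * ((j : ℝ) + 1) * N) * ((1 / (g : ℝ)) * (2 * D)) := by
        apply mul_le_mul_of_nonneg_right _ (by positivity)
        unfold Iw
        rw [Int.card_Icc]
        have h0 : ((((j + 1) * N : ℕ) : ℤ) + 1 - -(((j + 1) * N : ℕ) : ℤ)).toNat =
            2 * ((j + 1) * N) + 1 := by omega
        rw [h0]
        push_cast
        have : (1 : ℝ) ≤ ((j : ℝ) + 1) * N := by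
          have := mul_le_mul (by linarith : (1 : ℝ) ≤ (j : ℝ) + 1) hN' zero_le_one
            (by linarith)
          linarith
        linarith
    _ = _ := by
        rw [hDdef]
        ring

end Pool.Agent.Lib.TV
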