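import Pool.Agent.Lib.TV.SpecG
set_option autoImplicit false

/-!
MP_00e23e_nt, directory Lib/TV (THEOREM V), module Gsv: the bound of famG for small γ.
-/

namespace Pool.Agent.Lib.TV

open Finset Pool.Agent.Lib.EH3 Pool.Agent.Lib.TB Pool.Agent.Lib.TN Pool.Agent.Lib.TM Pool.Agent.Results.MP_00e23e_nt

private lemma Gsv_pg_add (Q g : ℕ) (f f' : ℕ → ℕ → ℂ) :
    pg Q g (fun m n => f m n + f' m n) = pg Q g f + pg Q g f' := by
  unfold pg
  rw [← sum_add_distrib]
  apply sum_congr rfl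
  intro m _
  rw [← sum_add_distrib]

theorem tGsv (h1 : SN4) (h2 : GpnStmt) (h3 : GmvStmt) : GsvStmt := by
  intro ε j hε
  obtain ⟨C, hC, hC3⟩ := h3 ε j hε
  refine ⟨C, hC, ?_⟩
  intro N Q H γ L1 L2 K W A c hN hH hγ hγQ hHγ hL1 hL12 hL2 hc hconv hW ha
  have hN' : (1 : ℝ) ≤ N := by exact_mod_cast hN
  have hH' : (1 : ℝ) ≤ H := by exact_mod_cast hH
  have hγ' : (1 : ℝ) ≤ γ := by exact_mod_cast hγ
  have hD : (0 : ℝ) ≤ (4 * (Q : ℝ) ^ 2 / ((γ : ℝ) * N * H)) ^ (2 * j + 1) := by positivity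
  have key := h2 Q γ K ((4 * (Q : ℝ) ^ 2 / ((γ : ℝ) * N * H)) ^ (2 * j + 1)) A (Bg A γ) c
    (fun a b m n => ((SSN N j (γ * m) (γ * n) a b - MM N (γ * m) (γ * n) a b : ℝ) : ℂ) -
      mainG N j H γ a b m n) hγ hD hc
    (fun a _ => filter_subset _ _) (by
      intro a _ b hb m n hm hn m2 n2 m3 n3 hmn
      have hdvd : (γ : ℤ) ∣ b - a := by
        unfold Bg at hb
        exact (mem_filter.1 hb).2.2
      have hgmn : (γ * m) * (γ * n) = γ * (γ * m * n) := by ring
      have hlow : 2 * H < γ * m * n := by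
        have h1 : Q * Q < (γ * m) * (γ * n) := Nat.mul_lt_mul'' m2 n2
        rw [hgmn] at h1
        by_contra hcon
        push Not at hcon
        have h2 : γ * (γ * m * n) ≤ γ * (2 * H) := Nat.mul_le_mul_left γ hcon
        have h3 : Q * Q < γ * (2 * H) := lt_of_lt_of_le h1 h2
        have h4 : 2 * H * γ = γ * (2 * H) := by ring
        rw [pow_two, h4] at hHγ
        omega
      have h4' := h1 N j H γ m n a b hN hH hγ hm hn hmn hdvd hlow
      have hup : (γ : ℝ) * ((γ : ℝ) * m * n) ≤ 4 * (Q : ℝ) ^ 2 := by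
        have e2 : (γ * m) * (γ * n) ≤ (2 * Q) * (2 * Q) := Nat.mul_le_mul m3 n3
        have e3 : γ * (γ * m * n) ≤ 4 * Q ^ 2 := by
          calc γ * (γ * m * n) = (γ * m) * (γ * n) := hgmn.symm
            _ ≤ (2 * Q) * (2 * Q) := e2
            _ = 4 * Q ^ 2 := by ring
        exact_mod_cast e3
      refine h4'.trans ?_
      apply pow_le_pow_left₀ (by positivity)
      rw [div_le_div_iff₀ (by positivity) (by positivity)]
      calc ((γ : ℝ) * m * n) * ((γ : ℝ) * N * H) = ((γ : ℝ) * ((γ : ℝ) * m * n)) * ((N : ℝ) * H) := by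
            ring
        _ ≤ (4 * (Q : ℝ) ^ 2) * ((N : ℝ) * H) := mul_le_mul_of_nonneg_right hup (by positivity))
  have hmain := hC3 N Q H γ L1 L2 K W A c hN hH hγ hγQ hL1 hL12 hL2 hc hconv hW ha
  have e : famG N j Q γ A c = (∑ a ∈ A, ∑ b ∈ Bg A γ a, pg Q γ (fun m n =>
      ((c a (γ * m) * c b (γ * n) : ℝ) : ℂ) *
        (((SSN N j (γ * m) (γ * n) a b - MM N (γ * m) (γ * n) a b : ℝ) : ℂ) -
          mainG N j H γ a b m n))) +
      ∑ a ∈ A, ∑ b ∈ Bg A γ a, pg Q γ (fun m n =>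
        ((c a (γ * m) * c b (γ * n) : ℝ) : ℂ) * mainG N j H γ a b m n) := by
    unfold famG
    rw [← sum_add_distrib]
    apply sum_congr rfl
    intro a _
    rw [← sum_add_distrib]
    apply sum_congr rfl
    intro b _
    rw [← Gsv_pg_add]
    congr 1
    funext m n
    unfold fEN
    push_cast
    ring
  rw [e]
  exact (norm_add_le _ _).trans (add_le_add key hmain)

end Pool.Agent.Lib.TV
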