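import Pool.Agent.Lib.TM.AllG
import Pool.Agent.Lib.TV.Gmv
import Pool.Agent.Lib.TV.Gsv
import Pool.Agent.Lib.TV.Gev
import Pool.Agent.Lib.TV.Gfv

/-!
MP_00e23e_nt, directory Lib/TV (THEOREM V): glue of part G: the sum of the error terms for the whole family, from the
trilinear form for the family.
-/

namespace Pool.Agent.Lib.TV

open Pool.Agent.Lib.TB Pool.Agent.Lib.TN Pool.Agent.Lib.TM

theorem tEEV_of (h : UpvStmt) : EEVStmt :=
  tGfv (tGla (tGv1 tSsclN tSszeN (tGv0 (tWx (tWf tWb)))) tGpn)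
    (tGsv (tN4 (tWtr (tWf tWb) (tWx (tWf tWb))) tSsclN) tGpn (tGmv tWb h)) tGev (tGde tG1 (tN3 tSszeN))

end Pool.Agent.Lib.TV
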