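import Pool.Agent.Lib.TV.SpecV
import Pool.Agent.Lib.TB.Psm

/-! MP_00e23e_nt, Lib/TV: module Vim (the inner sum). -/

namespace Pool.Agent.Lib.TV

open Finset Pool.Agent.Lib.EH3 Pool.Agent.Lib.TB Pool.Agent.Lib.TN Pool.Agent.Lib.TM Pool.Agent.Results.MP_00e23e_nt

private lemma Vim_ee (x y : ℝ) : ‖ee x - ee y‖ ≤ 7 * |x - y| := by
  have h1 : ee x - ee y = ee y * (ee (x - y) - 1) := by
    rw [mul_sub, ← ee_add, mul_one]
    congr 2
    ring
  rw [h1, norm_mul, norm_ee, one_mul]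
  have h2 : ‖ee (x - y) - 1‖ ≤ ‖2 * Real.pi * (x - y)‖ := by
    unfold ee
    exact Real.norm_exp_I_mul_ofReal_sub_one_le
  refine h2.trans ?_
  rw [Real.norm_eq_abs, abs_mul, abs_of_pos Real.two_pi_pos]
  refine mul_le_mul_of_nonneg_right ?_ (abs_nonneg _)
  have := Real.pi_lt_d2
  linarith

private lemma Vim_sq (a b : ℕ) (ha : Squarefree a) (hb : Squarefree b) : Squarefree (Nat.lcm a b) := by
  have ha0 : a ≠ 0 := ha.ne_zero
  have hb0 : b ≠ 0 := hb.ne_zero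
  rw [Nat.squarefree_iff_factorization_le_one (Nat.lcm_ne_zero ha0 hb0)]
  intro p
  rw [Nat.factorization_lcm ha0 hb0]
  have h1 := (Nat.squarefree_iff_factorization_le_one ha0).1 ha p
  have h2 := (Nat.squarefree_iff_factorization_le_one hb0).1 hb p
  rw [Finsupp.sup_apply]
  exact sup_le h1 h2

private lemma Vim_tel (K : ℝ) (a b : ℕ) (h : a ≤ b) :
    ∑ t ∈ Ico a b, K * (1 / (t : ℝ) - 1 / ((t : ℝ) + 1)) = K * (1 / (a : ℝ) - 1 / (b : ℝ)) := by
  induction b, h using Nat.le_induction with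
  | base => simp
  | succ b hb ih =>
    rw [Finset.sum_Ico_succ_top hb, ih]
    push_cast
    ring

/-- Module Vim: the inner sum. -/
theorem tVim (h1 : VsqStmt) (h2 : UphStmt) : VimStmt := by
  intro P H θ1 θ2 τ r s1 s2 a1 a2 hP ha1 ha2 hr1 hr2 hs1 hs2
  have hPr : (1 : ℝ) ≤ P := by exact_mod_cast hP
  have hr : 1 ≤ r := by
    rcases Nat.eq_zero_or_pos r with h | h
    · rw [h, zero_mul] at hr1
      omega
    · exact h
  have hs1' : 1 ≤ s1 := by
    rcases Nat.eq_zero_or_pos s1 with h | h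
    · rw [h, mul_zero] at hr1
      omega
    · exact h
  have hs2' : 1 ≤ s2 := by
    rcases Nat.eq_zero_or_pos s2 with h | h
    · rw [h, mul_zero] at hr2
      omega
    · exact h
  have hq0 : q0 r s1 s2 = Nat.lcm (r * s1) (r * s2) := by
    unfold q0
    rw [Nat.lcm_mul_left]
  have hqsq : Squarefree (q0 r s1 s2) := by
    rw [hq0]
    exact Vim_sq _ _ hs1 hs2
  have hqpos : 1 ≤ q0 r s1 s2 := Nat.one_le_iff_ne_zero.2 hqsq.ne_zero
  have hd1 : r * s1 ∣ q0 r s1 s2 := by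
    rw [hq0]
    exact Nat.dvd_lcm_left _ _
  have hd2 : r * s2 ∣ q0 r s1 s2 := by
    rw [hq0]
    exact Nat.dvd_lcm_right _ _
  have hd3 : q0 r s1 s2 ∣ (r * s1) * (r * s2) := by
    rw [hq0]
    exact Nat.lcm_dvd (Dvd.intro _ rfl) (Dvd.intro_left _ rfl)
  have hqP : P < q0 r s1 s2 := lt_of_lt_of_le hr1 (Nat.le_of_dvd hqpos hd1)
  have hcop : ∀ m : ℕ, (m.Coprime (r * s1) ∧ m.Coprime (r * s2)) ↔ m.Coprime (q0 r s1 s2) := by
    intro m
    constructor
    · rintro ⟨h3, h4⟩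
      exact Nat.Coprime.of_dvd_right hd3 (Nat.Coprime.mul_right h3 h4)
    · intro h3
      exact ⟨Nat.Coprime.of_dvd_right hd1 h3, Nat.Coprime.of_dvd_right hd2 h3⟩
  set q := q0 r s1 s2 with hq
  set c : ℤ := kM θ1 θ2 a1 a2 s1 s2 with hc
  set w : ℝ := (a1 : ℝ) / ((r : ℝ) * s1) - (a2 : ℝ) / ((r : ℝ) * s2) with hw
  set f : ℕ → ℂ := fun m => if m.Coprime q then ee ((c : ℝ) * (iv m q : ℝ) / q) else 0 with hf
  set g : ℕ → ℂ := fun m => ee (τ * w / m) with hg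
  have hIm : ImM P θ1 θ2 τ r s1 s2 a1 a2 = ∑ m ∈ Ico (P + 1) (3 * P + 1), f m * g m := by
    unfold ImM
    have e1 : Ioc P (3 * P) = Ico (P + 1) (3 * P + 1) := by
      ext m
      rw [Finset.mem_Ioc, Finset.mem_Ico]
      omega
    rw [e1, Finset.sum_filter]
    apply Finset.sum_congr rfl
    intro m hm
    rw [Finset.mem_Ico] at hm
    by_cases h : m.Coprime q
    · have h3 := (hcop m).2 h
      rw [if_pos h3]
      simp only [hf, hg, if_pos h]
      exact h2 θ1 θ2 τ r s1 s2 a1 a2 m hr hs1' hs2' (by omega) h3.1 h3.2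
    · rw [if_neg (fun h3 => h ((hcop m).1 h3))]
      simp only [hf, if_neg h, zero_mul]
  set B : ℝ := (q.divisors.card : ℝ) * (2 * (Int.gcd c q : ℝ) + (q : ℝ) ^ ((1 : ℝ) / 2) *
    (3 + Real.log q)) with hB
  have hqr : (1 : ℝ) ≤ q := by exact_mod_cast hqpos
  have hlog : 0 ≤ Real.log q := Real.log_nonneg hqr
  have hB0 : 0 ≤ B := by positivity
  have hpart : ∀ T, P + 1 ≤ T → T ≤ 3 * P + 1 → ‖∑ t ∈ Ico (P + 1) T, f t‖ ≤ B := by
    intro T hT1 hT2
    have h3 := h1 q (P + 1) T c hqpos hqsq hT1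
    have h4 : ∑ t ∈ Ico (P + 1) T, f t =
        ∑ m ∈ (Ico (P + 1) T).filter (fun m => m.Coprime q), ee ((c : ℝ) * (iv m q : ℝ) / q) := by
      rw [Finset.sum_filter]
    rw [h4]
    refine h3.trans ?_
    rw [hB]
    apply mul_le_mul_of_nonneg_left _ (by positivity)
    have hg1 : (1 : ℝ) ≤ (Int.gcd c q : ℝ) := by
      have h8 : 0 < Int.gcd c q := Int.gcd_pos_of_ne_zero_right _ (by exact_mod_cast hqsq.ne_zero)
      exact_mod_cast h8
    have h5 : ((T : ℝ) - ((P + 1 : ℕ) : ℝ)) * (Int.gcd c q : ℝ) / q ≤ 2 * (Int.gcd c q : ℝ) := by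
      rw [div_le_iff₀ (by linarith)]
      have h6 : (T : ℝ) ≤ 3 * P + 1 := by exact_mod_cast hT2
      have h7 : (P : ℝ) ≤ q := by exact_mod_cast hqP.le
      have h9 : (T : ℝ) - ((P + 1 : ℕ) : ℝ) ≤ 2 * q := by
        push_cast
        linarith
      nlinarith [mul_le_mul_of_nonneg_right h9 (by linarith : (0 : ℝ) ≤ (Int.gcd c q : ℝ))]
    have h10 : ((q : ℝ) / (Int.gcd c q : ℝ)) ^ ((1 : ℝ) / 2) ≤ (q : ℝ) ^ ((1 : ℝ) / 2) := by
      apply Real.rpow_le_rpow (by positivity) _ (by norm_num)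
      exact div_le_self (by linarith) hg1
    have h11 : ((q : ℝ) / (Int.gcd c q : ℝ)) ^ ((1 : ℝ) / 2) * (3 + Real.log q) ≤
        (q : ℝ) ^ ((1 : ℝ) / 2) * (3 + Real.log q) :=
      mul_le_mul_of_nonneg_right h10 (by linarith)
    linarith
  have hPsm := tPsm f g (P + 1) (3 * P + 1) B (by omega) hpart (fun t => (norm_ee _).le)
  rw [hIm]
  refine hPsm.trans ?_
  -- the variation of g
  have hw' : |w| ≤ H / P := by
    have h3 : ∀ a s : ℕ, a ≤ H → P < r * s → 0 ≤ (a : ℝ) / ((r : ℝ) * s) ∧ (a : ℝ) / ((r : ℝ) * s) ≤ H / P := by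
      intro a s ha hs
      refine ⟨by positivity, ?_⟩
      have h4 : (P : ℝ) ≤ (r : ℝ) * s := by exact_mod_cast hs.le
      have h5 : (a : ℝ) ≤ H := by exact_mod_cast ha
      exact div_le_div₀ (by positivity) h5 (by linarith) h4
    have h4 := h3 a1 s1 ha1 hr1
    have h5 := h3 a2 s2 ha2 hr2
    rw [abs_le]
    constructor <;> rw [hw] <;> linarith [h4.1, h4.2, h5.1, h5.2]
  have hvar : ∑ t ∈ Ico (P + 1) (3 * P + 1 - 1), ‖g (t + 1) - g t‖ ≤ 7 * ((H : ℝ) * |τ| / (P : ℝ) ^ 2) := by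
    rw [Nat.add_sub_cancel]
    have h3 : ∀ t ∈ Ico (P + 1) (3 * P), ‖g (t + 1) - g t‖ ≤
        (7 * |τ * w|) * (1 / (t : ℝ) - 1 / ((t : ℝ) + 1)) := by
      intro t ht
      rw [Finset.mem_Ico] at ht
      have ht0 : (0 : ℝ) < t := by
        have : 0 < t := by omega
        exact_mod_cast this
      have h4 := Vim_ee (τ * w / ((t + 1 : ℕ) : ℝ)) (τ * w / t)
      refine h4.trans (le_of_eq ?_)
      have h5 : τ * w / ((t + 1 : ℕ) : ℝ) - τ * w / t = -((τ * w) * (1 / (t : ℝ) - 1 / ((t : ℝ) + 1))) := by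
        push_cast
        ring
      have h6 : 0 ≤ 1 / (t : ℝ) - 1 / ((t : ℝ) + 1) := by
        rw [sub_nonneg]
        apply one_div_le_one_div_of_le ht0
        linarith
      rw [h5, abs_neg, abs_mul, abs_of_nonneg h6]
      ring
    refine (Finset.sum_le_sum h3).trans ?_
    rcases Nat.lt_or_ge (3 * P) (P + 1) with h | h
    · omega
    rw [Vim_tel _ _ _ h]
    have h7 : 1 / ((P + 1 : ℕ) : ℝ) - 1 / ((3 * P : ℕ) : ℝ) ≤ 1 / P := by
      have h8 : 1 / ((P + 1 : ℕ) : ℝ) ≤ 1 / P := by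
        apply one_div_le_one_div_of_le (by linarith)
        push_cast
        linarith
      have h9 : 0 ≤ 1 / ((3 * P : ℕ) : ℝ) := by positivity
      linarith
    calc 7 * |τ * w| * (1 / ((P + 1 : ℕ) : ℝ) - 1 / ((3 * P : ℕ) : ℝ)) ≤ 7 * |τ * w| * (1 / P) :=
          mul_le_mul_of_nonneg_left h7 (by positivity)
      _ ≤ 7 * (|τ| * (H / P)) * (1 / P) := by
          apply mul_le_mul_of_nonneg_right _ (by positivity)
          rw [abs_mul]
          apply mul_le_mul_of_nonneg_left _ (by norm_num)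
          exact mul_le_mul_of_nonneg_left hw' (abs_nonneg _)
      _ = 7 * ((H : ℝ) * |τ| / (P : ℝ) ^ 2) := by
          field_simp
  have hV : 0 ≤ (H : ℝ) * |τ| / (P : ℝ) ^ 2 := by positivity
  calc B * (1 + ∑ t ∈ Ico (P + 1) (3 * P + 1 - 1), ‖g (t + 1) - g t‖)
      ≤ B * (7 * (1 + (H : ℝ) * |τ| / (P : ℝ) ^ 2)) := by
        apply mul_le_mul_of_nonneg_left _ hB0
        linarith
    _ = 7 * (1 + (H : ℝ) * |τ| / (P : ℝ) ^ 2) * B := by ring

end Pool.Agent.Lib.TV
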