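import Pool.Agent.Lib.TV.SpecV
import Pool.Agent.Lib.TN.Psl

/-!
MP_00e23e_nt, directory Lib/TV, module Vpg: the form for the pairs (γ m, γ n) of the whole family.
-/

namespace Pool.Agent.Lib.TV

open Finset Pool.Agent.Lib.EH3 Pool.Agent.Lib.TB Pool.Agent.Lib.TN Pool.Agent.Lib.TM Pool.Agent.Results.MP_00e23e_nt

/-- the number of dyadic blocks -/
private lemma Vpg_J (e : ℝ) (he : 0 < e) (P : ℕ) (hP : 1 ≤ P) :
    ((Nat.clog 2 (3 * P) : ℕ) : ℝ) ≤ (4 + 2 / e) * (P : ℝ) ^ e := by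
  have hPr : (1 : ℝ) ≤ P := by exact_mod_cast hP
  have hP0 : (0 : ℝ) < P := by linarith
  set J := Nat.clog 2 (3 * P) with hJ
  have h1 : 2 ^ (J - 1) < 3 * P := by
    have := Nat.pow_pred_clog_lt_self (b := 2) (by norm_num) (x := 3 * P) (by omega)
    exact this
  have h2 : ((2 : ℝ)) ^ (J - 1) < 3 * P := by exact_mod_cast h1
  have h3 : ((J - 1 : ℕ) : ℝ) * Real.log 2 < Real.log (3 * P) := by
    rw [← Real.log_pow]
    exact Real.log_lt_log (by positivity) h2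
  have h4 : Real.log (3 * P) = Real.log 3 + Real.log P := Real.log_mul (by norm_num) hP0.ne'
  have h5 : Real.log 3 ≤ 2 * Real.log 2 := by
    rw [← Real.log_rpow (by norm_num)]
    apply Real.log_le_log (by norm_num)
    norm_num
  have h6 : (1 : ℝ) / 2 < Real.log 2 := by
    have := Real.log_two_gt_d9
    linarith
  have h7 : Real.log P ≤ (P : ℝ) ^ e / e := Real.log_le_rpow_div hP0.le he
  have h8 : (1 : ℝ) ≤ (P : ℝ) ^ e := Real.one_le_rpow hPr he.le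
  have hlogP : 0 ≤ Real.log P := Real.log_nonneg hPr
  have h9 : ((J - 1 : ℕ) : ℝ) ≤ 2 + 2 * Real.log P := by
    by_contra hcon
    push Not at hcon
    have : (2 + 2 * Real.log P) * Real.log 2 ≤ ((J - 1 : ℕ) : ℝ) * Real.log 2 :=
      mul_le_mul_of_nonneg_right hcon.le (by linarith)
    have h10 : 2 * Real.log P * (1 / 2) ≤ 2 * Real.log P * Real.log 2 :=
      mul_le_mul_of_nonneg_left h6.le (by linarith)
    nlinarith
  have h11 : (J : ℝ) ≤ ((J - 1 : ℕ) : ℝ) + 1 := by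
    have : J ≤ (J - 1) + 1 := by omega
    exact_mod_cast this
  have h12 : (4 + 2 / e) * (P : ℝ) ^ e = 4 * (P : ℝ) ^ e + 2 * ((P : ℝ) ^ e / e) := by ring
  rw [h12]
  linarith

private lemma Vpg_div (Q g : ℕ) (hg : 1 ≤ g) (hgQ : g ≤ Q) : 2 * Q / g ≤ 3 * (Q / g) := by
  have hP1 : 1 ≤ Q / g := (Nat.one_le_div_iff (by omega)).mpr hgQ
  have h1 : 2 * Q < g * (2 * (Q / g) + 2) := by
    have := Nat.div_add_mod Q g
    have h2 := Nat.mod_lt Q (by omega : g > 0)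
    have h3 : g * (2 * (Q / g) + 2) = 2 * (g * (Q / g)) + 2 * g := by ring
    omega
  have h4 : 2 * Q / g < 2 * (Q / g) + 2 := by
    rw [Nat.div_lt_iff_lt_mul (by omega)]
    have h5 : (2 * (Q / g) + 2) * g = g * (2 * (Q / g) + 2) := mul_comm _ _
    rw [h5]
    exact h1
  omega

private lemma Vpg_al (Q g : ℕ) (c : ℕ → ℝ) (m : ℕ) : ‖al Q g c m‖ ≤ |c (g * m)| := by
  unfold al
  split_ifs with h
  · rw [Complex.norm_real, Real.norm_eq_abs, abs_div, abs_mul]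
    have hm : (0 : ℝ) < m := by
      have : 0 < m := lt_of_le_of_lt (Nat.zero_le _) h.1
      exact_mod_cast this
    have h1 : (((Q / g : ℕ) : ℝ)) ≤ m := by exact_mod_cast h.1.le
    rw [Nat.abs_cast, Nat.abs_cast, div_le_iff₀ hm]
    exact mul_le_mul_of_nonneg_left h1 (abs_nonneg _)
  · rw [norm_zero]
    exact abs_nonneg _

private lemma Vpg_be (Q g : ℕ) (c' : ℕ → ℝ) (σ : ℕ → ℕ) (r s : ℕ) :
    ‖be Q g c' σ r s‖ ≤ |c' (g * (r * s))| := by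
  unfold be
  split_ifs with h
  · rw [Complex.norm_real, Real.norm_eq_abs, abs_div, abs_mul]
    have hm : (0 : ℝ) < (r : ℝ) * s := by
      have : 0 < r * s := lt_of_le_of_lt (Nat.zero_le _) h.1
      exact_mod_cast this
    have h1 : (((Q / g : ℕ) : ℝ)) ≤ (r : ℝ) * s := by exact_mod_cast h.1.le
    rw [Nat.abs_cast, abs_of_pos hm, div_le_iff₀ hm]
    exact mul_le_mul_of_nonneg_left h1 (abs_nonneg _)
  · rw [norm_zero]
    exact abs_nonneg _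

/-- the exponents for one dyadic block -/
private lemma Vpg_exp (P S H g L1 L2 K W : ℝ) (hP : 1 ≤ P) (hS : 1 ≤ S) (hH : 1 ≤ H) (hg : 1 ≤ g)
    (hL1 : 0 < L1) (hK : 0 ≤ K) (hW : 0 ≤ W) (hS1 : L1 / (2 * g) ≤ S) (hS2 : S ≤ L2) :
    K ^ 2 * W * (P ^ 4 * H / S) + K * W ^ 3 * (P ^ 3 * H ^ 2) +
        K ^ 3 * W * (H ^ 2 * (P ^ ((7 : ℝ) / 2) * S ^ ((1 : ℝ) / 2))) ≤
      P ^ 4 * (2 * (K ^ 2 * W * (H * g / L1) + K * W ^ 3 * (H ^ 2 / P) +
        K ^ 3 * W * (H ^ 2 * (L2 / P) ^ ((1 : ℝ) / 2)))) := by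
  have hP0 : 0 < P := by linarith
  have hS0 : 0 < S := by linarith
  have hL2 : 0 < L2 := by linarith
  have hg0 : 0 < g := by linarith
  have h1 : K ^ 2 * W * (P ^ 4 * H / S) ≤ K ^ 2 * W * (P ^ 4 * (2 * (H * g / L1))) := by
    have h2 : 1 / S ≤ 2 * g / L1 := by
      rw [div_le_div_iff₀ hS0 hL1]
      rw [div_le_iff₀ (by positivity)] at hS1
      linarith
    have h3 : P ^ 4 * H / S = P ^ 4 * H * (1 / S) := by ring
    have h4 : P ^ 4 * (2 * (H * g / L1)) = P ^ 4 * H * (2 * g / L1) := by ring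
    rw [h3, h4]
    exact mul_le_mul_of_nonneg_left (mul_le_mul_of_nonneg_left h2 (by positivity)) (by positivity)
  have h3 : P ^ ((7 : ℝ) / 2) * S ^ ((1 : ℝ) / 2) ≤ P ^ 4 * (L2 / P) ^ ((1 : ℝ) / 2) := by
    have e2 : P ^ 4 * (L2 / P) ^ ((1 : ℝ) / 2) = P ^ ((7 : ℝ) / 2) * L2 ^ ((1 : ℝ) / 2) := by
      rw [Real.div_rpow hL2.le hP0.le, ← Real.rpow_natCast P 4]
      have : P ^ ((4 : ℕ) : ℝ) = P ^ ((7 : ℝ) / 2) * P ^ ((1 : ℝ) / 2) := by
        rw [← Real.rpow_add hP0]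
        norm_num
      rw [this]
      have : P ^ ((1 : ℝ) / 2) ≠ 0 := (Real.rpow_pos_of_pos hP0 _).ne'
      field_simp
    rw [e2]
    apply mul_le_mul_of_nonneg_left _ (by positivity)
    exact Real.rpow_le_rpow hS0.le hS2 (by norm_num)
  have h4 : K ^ 3 * W * (H ^ 2 * (P ^ ((7 : ℝ) / 2) * S ^ ((1 : ℝ) / 2))) ≤
      K ^ 3 * W * (H ^ 2 * (P ^ 4 * (L2 / P) ^ ((1 : ℝ) / 2))) :=
    mul_le_mul_of_nonneg_left (mul_le_mul_of_nonneg_left h3 (by positivity)) (by positivity)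
  have h5 : 0 ≤ K ^ 3 * W * (H ^ 2 * (P ^ 4 * (L2 / P) ^ ((1 : ℝ) / 2))) := by positivity
  have h7 : 0 ≤ K * W ^ 3 * (P ^ 3 * H ^ 2) := by positivity
  have h8 : P ^ 4 * (K * W ^ 3 * (H ^ 2 / P)) = K * W ^ 3 * (P ^ 3 * H ^ 2) := by
    field_simp
  have h6 : P ^ 4 * (2 * (K ^ 2 * W * (H * g / L1) + K * W ^ 3 * (H ^ 2 / P) +
        K ^ 3 * W * (H ^ 2 * (L2 / P) ^ ((1 : ℝ) / 2)))) =
      K ^ 2 * W * (P ^ 4 * (2 * (H * g / L1))) + 2 * (P ^ 4 * (K * W ^ 3 * (H ^ 2 / P))) +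
        2 * (K ^ 3 * W * (H ^ 2 * (P ^ 4 * (L2 / P) ^ ((1 : ℝ) / 2)))) := by
    ring
  rw [h6, h8]
  linarith

theorem tVpg (h1 : VtrStmt) (h2 : UdyStmt) : UpvStmt := by
  intro ε hε
  obtain ⟨C0, hC0, hC⟩ := h1 (ε / 3) (by positivity)
  refine ⟨(5 + 2 / (ε / 3)) ^ 2 * (2 * C0), by positivity, ?_⟩
  intro Q g H L1 L2 K W X τ0 e A B c θ τ hg hgQ hH hL1 hL12 hL2 hcf hconv hW hth hX hτ hτ0
  have hP1 : 1 ≤ Q / g := (Nat.one_le_div_iff (by omega)).mpr hgQ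
  have hPr : (1 : ℝ) ≤ ((Q / g : ℕ) : ℝ) := by exact_mod_cast hP1
  have hHr : (1 : ℝ) ≤ H := by exact_mod_cast hH
  have hgr : (1 : ℝ) ≤ g := by exact_mod_cast hg
  have hL1p : 0 < L1 := by linarith
  have hL2p : 0 < L2 := by linarith
  have hK : 0 ≤ K := le_trans (Finset.sum_nonneg fun _ _ => abs_nonneg _) (hcf.2 0)
  have hW0 : 0 ≤ W := le_trans (Nat.cast_nonneg _) hW
  obtain ⟨σ, hσ0⟩ := tPsl g L1 L2 (fun d => by classical exact if Conv L1 L2 d then 1 else 0) hg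
    (by
      intro d hd
      by_contra hcon
      exact hd (if_neg hcon))
  have hσ : ∀ n, 1 ≤ n → Conv L1 L2 (g * n) → σ n ∣ n ∧ L1 / g ≤ (σ n : ℝ) ∧ (σ n : ℝ) ≤ L2 := by
    intro n hn hcn
    refine hσ0 n hn ?_
    rw [if_pos hcn]
    exact one_ne_zero
  have hσ1 : ∀ n, 1 ≤ n → Conv L1 L2 (g * n) → σ n ∣ n ∧ 1 ≤ σ n := by
    intro n hn hcn
    obtain ⟨s1, s2, -⟩ := hσ n hn hcn
    refine ⟨s1, ?_⟩
    have h3 : (0 : ℝ) < L1 / g := div_pos hL1p (by linarith)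
    have h4 : (0 : ℝ) < (σ n : ℝ) := lt_of_lt_of_le h3 s2
    exact_mod_cast h4
  set J := Nat.clog 2 (3 * (Q / g)) + 1 with hJ
  have hJ1 : 3 * (Q / g) < 2 ^ J := by
    have h3 : 3 * (Q / g) ≤ 2 ^ Nat.clog 2 (3 * (Q / g)) := Nat.le_pow_clog (by norm_num) _
    refine lt_of_le_of_lt h3 ?_
    rw [hJ]
    exact Nat.pow_lt_pow_right (by norm_num) (Nat.lt_succ_self _)
  set V : ℝ := 1 + (H : ℝ) * τ0 / ((Q / g : ℕ) : ℝ) ^ 2 with hV
  have hV0 : 0 ≤ V := by positivity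
  set Z : ℝ := K ^ 2 * W * ((H : ℝ) * g / L1) + K * W ^ 3 * ((H : ℝ) ^ 2 / ((Q / g : ℕ) : ℝ)) +
    K ^ 3 * W * ((H : ℝ) ^ 2 * (L2 / ((Q / g : ℕ) : ℝ)) ^ ((1 : ℝ) / 2)) with hZ
  have hZ0 : 0 ≤ Z := by positivity
  set Y : ℝ := (((Q / g : ℕ) : ℝ) * H * X) ^ (ε / 3) with hY
  have hY0 : 0 ≤ Y := by positivity
  have hterm : ∀ j ∈ range J,
      ‖TfM (Q / g) (2 ^ j) H A B (fun a => al Q g (c a)) (fun b => be Q g (c b) σ) θ τ‖ ^ 2 ≤
      C0 * Y * V * (((Q / g : ℕ) : ℝ) ^ 4 * (2 * Z)) := by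
    intro j _
    by_cases hz : ∀ b r s, s ∈ Ico (2 ^ j) (2 * 2 ^ j) → be Q g (c b) σ r s = 0
    · have : TfM (Q / g) (2 ^ j) H A B (fun a => al Q g (c a)) (fun b => be Q g (c b) σ) θ τ = 0 := by
        unfold TfM
        apply Finset.sum_eq_zero
        intro a _
        apply Finset.sum_eq_zero
        intro b _
        unfold TfI
        apply Finset.sum_eq_zero
        intro h _
        apply Finset.sum_eq_zero
        intro m _
        apply Finset.sum_eq_zero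
        intro r _
        apply Finset.sum_eq_zero
        intro s hs
        rw [mem_filter] at hs
        have h0 : be Q g (c b) σ r s = 0 := hz b r s hs.1
        change al Q g (c a) m * be Q g (c b) σ r s * _ = 0
        rw [h0, mul_zero, zero_mul]
      rw [this, norm_zero, zero_pow two_ne_zero]
      positivity
    · push Not at hz
      obtain ⟨b, r, s, hs, hrs⟩ := hz
      rw [mem_Ico] at hs
      have hcond : Q / g < r * s ∧ r * s ≤ 2 * Q / g ∧ σ (r * s) = s ∧ c b (g * (r * s)) ≠ 0 := by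
        by_contra hcon
        exact hrs (by unfold be; rw [if_neg hcon])
      obtain ⟨k1, k2, k3, k4⟩ := hcond
      obtain ⟨-, s1, s2⟩ := hσ (r * s) (by omega) (hconv b _ k4)
      rw [k3] at s1 s2
      have hSs : ((2 ^ j : ℕ) : ℝ) ≤ s := by exact_mod_cast hs.1
      have hsS : (s : ℝ) ≤ 2 * ((2 ^ j : ℕ) : ℝ) := by exact_mod_cast hs.2.le
      have hSL2 : ((2 ^ j : ℕ) : ℝ) ≤ L2 := hSs.trans s2
      have hSP : 2 ^ j ≤ Q / g := by
        have : ((2 ^ j : ℕ) : ℝ) ≤ ((Q / g : ℕ) : ℝ) := hSL2.trans hL2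
        exact_mod_cast this
      have hS1 : 1 ≤ 2 ^ j := Nat.one_le_two_pow
      have hS1r : (1 : ℝ) ≤ ((2 ^ j : ℕ) : ℝ) := by exact_mod_cast hS1
      have hSL1 : L1 / (2 * (g : ℝ)) ≤ ((2 ^ j : ℕ) : ℝ) := by
        have h5 : L1 / g ≤ 2 * ((2 ^ j : ℕ) : ℝ) := s1.trans hsS
        rw [div_le_iff₀ (by linarith)] at h5
        rw [div_le_iff₀ (by linarith)]
        linarith
      have hb : ∀ (b : ℤ) (r s : ℕ), be Q g (c b) σ r s ≠ 0 → Q / g < r * s ∧ r * s ≤ 3 * (Q / g) ∧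
          Squarefree (r * s) := by
        intro b r s hrs
        have hcond : Q / g < r * s ∧ r * s ≤ 2 * Q / g ∧ σ (r * s) = s ∧
            c b (g * (r * s)) ≠ 0 := by
          by_contra hcon
          exact hrs (by unfold be; rw [if_neg hcon])
        obtain ⟨k1, k2, k3, k4⟩ := hcond
        refine ⟨k1, k2.trans (Vpg_div Q g hg hgQ), ?_⟩
        exact (hconv b _ k4).1.of_mul_right
      have hT := hC (Q / g) (2 ^ j) H g K W X τ0 e A B (fun a => al Q g (c a)) (fun b => be Q g (c b) σ) θ τ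
        hP1 hS1 hH hg hSP
        (fun a m => (Vpg_al Q g (c a) m).trans (hcf.1 _ _))
        (fun m => (Finset.sum_le_sum fun a _ => Vpg_al Q g (c a) m).trans (hcf.2 _))
        (fun b r s => (Vpg_be Q g (c b) σ r s).trans (hcf.1 _ _))
        (fun r s => (Finset.sum_le_sum fun b _ => Vpg_be Q g (c b) σ r s).trans (hcf.2 _))
        hb hW hth hX hτ hτ0
      have hE := Vpg_exp ((Q / g : ℕ) : ℝ) ((2 ^ j : ℕ) : ℝ) H g L1 L2 K W hPr hS1r hHr hgr hL1p hK hW0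
        hSL1 hSL2
      refine (le_trans hT ?_)
      exact mul_le_mul_of_nonneg_left hE (by positivity)
  set F : ℂ := ∑ a ∈ A, ∑ b ∈ B a, Pf Q g H (c a) (c b) (θ a b) (τ a) with hF
  have hdy : (((Q / g : ℕ) : ℂ)) ^ 2 * F = ∑ j ∈ range J,
      TfM (Q / g) (2 ^ j) H A B (fun a => al Q g (c a)) (fun b => be Q g (c b) σ) θ τ := by
    calc (((Q / g : ℕ) : ℂ)) ^ 2 * F
        = ∑ a ∈ A, ∑ b ∈ B a, (((Q / g : ℕ) : ℂ)) ^ 2 * Pf Q g H (c a) (c b) (θ a b) (τ a) := by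
          rw [hF, Finset.mul_sum]
          refine Finset.sum_congr rfl fun a _ => ?_
          rw [Finset.mul_sum]
      _ = ∑ a ∈ A, ∑ b ∈ B a, ∑ j ∈ range J,
            TfI (Q / g) (2 ^ j) H (al Q g (c a)) (be Q g (c b) σ) (θ a b) (τ a) := by
          refine Finset.sum_congr rfl fun a _ => Finset.sum_congr rfl fun b _ => ?_
          exact h2 Q g H J (c a) (c b) σ (θ a b) (τ a) hg hgQ hJ1
            (fun n hn hcn => hσ1 n hn (hconv b _ hcn))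
      _ = ∑ a ∈ A, ∑ j ∈ range J, ∑ b ∈ B a,
            TfI (Q / g) (2 ^ j) H (al Q g (c a)) (be Q g (c b) σ) (θ a b) (τ a) := by
          refine Finset.sum_congr rfl fun a _ => ?_
          exact Finset.sum_comm
      _ = ∑ j ∈ range J, ∑ a ∈ A, ∑ b ∈ B a,
            TfI (Q / g) (2 ^ j) H (al Q g (c a)) (be Q g (c b) σ) (θ a b) (τ a) := Finset.sum_comm
  have hsum : ((Q / g : ℕ) : ℝ) ^ 4 * ‖F‖ ^ 2 ≤
      (J : ℝ) * ((J : ℝ) * (C0 * Y * V * (((Q / g : ℕ) : ℝ) ^ 4 * (2 * Z)))) := by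
    have e1 : ((Q / g : ℕ) : ℝ) ^ 4 * ‖F‖ ^ 2 = ‖(((Q / g : ℕ) : ℂ)) ^ 2 * F‖ ^ 2 := by
      rw [norm_mul, norm_pow, Complex.norm_natCast]
      ring
    rw [e1, hdy]
    calc ‖∑ j ∈ range J,
          TfM (Q / g) (2 ^ j) H A B (fun a => al Q g (c a)) (fun b => be Q g (c b) σ) θ τ‖ ^ 2
        ≤ (∑ j ∈ range J,
          ‖TfM (Q / g) (2 ^ j) H A B (fun a => al Q g (c a)) (fun b => be Q g (c b) σ) θ τ‖) ^ 2 :=
          pow_le_pow_left₀ (norm_nonneg _) (norm_sum_le _ _) 2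
      _ ≤ ((range J).card : ℝ) * ∑ j ∈ range J,
          ‖TfM (Q / g) (2 ^ j) H A B (fun a => al Q g (c a)) (fun b => be Q g (c b) σ) θ τ‖ ^ 2 :=
          sq_sum_le_card_mul_sum_sq
      _ ≤ (J : ℝ) * ((J : ℝ) * (C0 * Y * V * (((Q / g : ℕ) : ℝ) ^ 4 * (2 * Z)))) := by
          rw [card_range]
          refine mul_le_mul_of_nonneg_left ?_ (Nat.cast_nonneg _)
          refine (Finset.sum_le_sum hterm).trans ?_
          rw [sum_const, nsmul_eq_mul, card_range]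
  have hP4 : (0 : ℝ) < ((Q / g : ℕ) : ℝ) ^ 4 := by positivity
  have hmain : ‖F‖ ^ 2 ≤ (J : ℝ) ^ 2 * (C0 * Y * V * (2 * Z)) := by
    have e2 : (J : ℝ) * ((J : ℝ) * (C0 * Y * V * (((Q / g : ℕ) : ℝ) ^ 4 * (2 * Z)))) =
        ((Q / g : ℕ) : ℝ) ^ 4 * ((J : ℝ) ^ 2 * (C0 * Y * V * (2 * Z))) := by ring
    rw [e2] at hsum
    exact le_of_mul_le_mul_left hsum hP4
  have hJ2 : (J : ℝ) ≤ (5 + 2 / (ε / 3)) * Y := by
    have hPY : ((Q / g : ℕ) : ℝ) ^ (ε / 3) ≤ Y := by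
      apply Real.rpow_le_rpow (by positivity) _ (by positivity)
      have h5 : (1 : ℝ) ≤ (H : ℝ) * X := by
        calc (1 : ℝ) = 1 * 1 := (one_mul _).symm
          _ ≤ (H : ℝ) * X := mul_le_mul hHr hX zero_le_one (by linarith)
      calc ((Q / g : ℕ) : ℝ) = ((Q / g : ℕ) : ℝ) * 1 := (mul_one _).symm
        _ ≤ ((Q / g : ℕ) : ℝ) * ((H : ℝ) * X) := mul_le_mul_of_nonneg_left h5 (by linarith)
        _ = ((Q / g : ℕ) : ℝ) * H * X := by ring
    have h5 : (1 : ℝ) ≤ ((Q / g : ℕ) : ℝ) ^ (ε / 3) := Real.one_le_rpow hPr (by positivity)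
    have h6 := Vpg_J (ε / 3) (by positivity) (Q / g) hP1
    have h7 : (J : ℝ) ≤ (5 + 2 / (ε / 3)) * ((Q / g : ℕ) : ℝ) ^ (ε / 3) := by
      rw [hJ]
      push_cast
      have h8 : (5 + 2 / (ε / 3)) * ((Q / g : ℕ) : ℝ) ^ (ε / 3) =
          (4 + 2 / (ε / 3)) * ((Q / g : ℕ) : ℝ) ^ (ε / 3) + ((Q / g : ℕ) : ℝ) ^ (ε / 3) := by ring
      rw [h8]
      linarith
    exact h7.trans (mul_le_mul_of_nonneg_left hPY (by positivity))
  have hYY : Y ^ 3 ≤ ((Q : ℝ) * H * X) ^ ε := by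
    have e3 : Y ^ 3 = (((Q / g : ℕ) : ℝ) * H * X) ^ ε := by
      rw [hY, ← Real.rpow_natCast, ← Real.rpow_mul (by positivity)]
      congr 1
      push_cast
      ring
    rw [e3]
    apply Real.rpow_le_rpow (by positivity) _ hε.le
    have h6 : ((Q / g : ℕ) : ℝ) ≤ Q := by exact_mod_cast Nat.div_le_self Q g
    apply mul_le_mul_of_nonneg_right _ (by linarith)
    exact mul_le_mul_of_nonneg_right h6 (by linarith)
  have hJ3 : (J : ℝ) ^ 2 ≤ ((5 + 2 / (ε / 3)) * Y) ^ 2 := pow_le_pow_left₀ (Nat.cast_nonneg _) hJ2 2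
  change ‖F‖ ^ 2 ≤ _
  calc ‖F‖ ^ 2 ≤ (J : ℝ) ^ 2 * (C0 * Y * V * (2 * Z)) := hmain
    _ ≤ ((5 + 2 / (ε / 3)) * Y) ^ 2 * (C0 * Y * V * (2 * Z)) :=
        mul_le_mul_of_nonneg_right hJ3 (by positivity)
    _ = ((5 + 2 / (ε / 3)) ^ 2 * (2 * C0)) * Y ^ 3 * (V * Z) := by ring
    _ ≤ ((5 + 2 / (ε / 3)) ^ 2 * (2 * C0)) * (((Q : ℝ) * H * X) ^ ε) * (V * Z) := by
        apply mul_le_mul_of_nonneg_right _ (by positivity)
        exact mul_le_mul_of_nonneg_left hYY (by positivity)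
    _ = _ := by ring

end Pool.Agent.Lib.TV
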