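import Pool.Agent.Lib.TV.Vof
import Pool.Agent.Lib.TN.Nof

/-!
MP_00e23e_nt, directory Lib/TV, module Vpm: part M without hypotheses except WbStmt and WxStmt (tWb, tWx of Lib/TN).
-/

namespace Pool.Agent.Lib.TV

open Finset Pool.Agent.Lib.EH3 Pool.Agent.Lib.TB Pool.Agent.Lib.TN Pool.Agent.Lib.TM

/-- **part M, generic exponents**: (OFF) for the whole family from the results of part G -/
theorem tOffAt (h0 : WbStmt) (h1 : WxStmt) {δ v g ε e1 e2 : ℝ} (hδ : 0 ≤ δ) (hv : 0 ≤ v) (hg : 0 ≤ g)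
    (hε : 0 < ε) (hgap : 2 * v + δ + ε < 1 / 2) (hEE : EEAt δ v g e1 e2) : OffAt δ v g ε e1 e2 :=
  tVof h0 (tMab tMdy)
    (tVpr tMta (tMmi tMrs tMka) (tMmb tMdy)
      (tMcrN tMka (tSsbdN tSsclN tSszeN (tMcbN h1))) (tMfuN tMka) (tMxcN h0 (tMab tMdy)))
    hδ hv hg hε hgap hEE

/-- **part M of Theorem M** -/
theorem tOffM (h0 : WbStmt) (h1 : WxStmt) (h2 : EEMStmt) : OffMStmt := by
  intro δ v g ε hδ hv hg hgδ hε hex
  exact tOffAt h0 h1 hδ hv hg hε (by linarith) (h2 δ v g ε hδ hv hg hgδ hε hex)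


/-- **part M** in the form of StmV -/
theorem tOffAtStmt (h0 : WbStmt) (h1 : WxStmt) : OffAtStmt := by
  intro δ v g ε e1 e2 hδ hv hg hε hgap hEE
  exact tOffAt h0 h1 hδ hv hg hε hgap hEE

end Pool.Agent.Lib.TV
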