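import Pool.Agent.Lib.TV.SpecV
import Pool.Agent.Lib.TB.Tauk

/-!
MP_00e23e_nt, Lib/TV, module Vtr: the trilinear form of the family with the better bound (after TM/Utr.lean).
-/

namespace Pool.Agent.Lib.TV

open Finset Pool.Agent.Lib.EH3 Pool.Agent.Lib.TB Pool.Agent.Lib.TN Pool.Agent.Lib.TM Pool.Agent.Results.MP_00e23e_nt

private lemma Vtr_norm_Im (P : ℕ) (θ1 θ2 : ℤ) (τ : ℝ) (r s1 s2 h1 h2 : ℕ) :
    ‖ImM P θ1 θ2 τ r s1 s2 h1 h2‖ ≤ 2 * (P : ℝ) := by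
  unfold ImM
  refine (norm_sum_le _ _).trans ?_
  have h : ∀ m ∈ (Ioc P (3 * P)).filter (fun m => m.Coprime (r * s1) ∧ m.Coprime (r * s2)),
      ‖eB ((h1 : ℤ) * θ1) ((h1 : ℝ) * τ) m (r * s1) *
        (starRingEnd ℂ) (eB ((h2 : ℤ) * θ2) ((h2 : ℝ) * τ) m (r * s2))‖ ≤ 1 := by
    intro m _
    rw [norm_mul, RCLike.norm_conj]
    unfold eB
    rw [norm_ee, norm_ee, one_mul]
  refine (Finset.sum_le_card_nsmul _ _ _ h).trans ?_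
  rw [nsmul_eq_mul, mul_one]
  have h2 : ((Ioc P (3 * P)).filter (fun m => m.Coprime (r * s1) ∧ m.Coprime (r * s2))).card ≤ 2 * P := by
    refine (Finset.card_filter_le _ _).trans ?_
    rw [Nat.card_Ioc]
    omega
  exact_mod_cast h2

/-- the arithmetic factor -/
private lemma Vtr_tau (ε : ℝ) (hε : 0 < ε) : ∃ C : ℝ, 0 ≤ C ∧ ∀ (P q : ℕ), 1 ≤ P → 1 ≤ q → q ≤ 6 * P ^ 2 →
    (q.divisors.card : ℝ) * (3 + Real.log q) ≤ C * (P : ℝ) ^ ε := by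
  obtain ⟨Ct, hCt, ht⟩ := tTauk (ε / 4) (by linarith)
  refine ⟨Ct * (3 + 4 / ε) * (6 : ℝ) ^ (ε / 2), by positivity, ?_⟩
  intro P q hP hq hqP
  have hq1 : (1 : ℝ) ≤ q := by exact_mod_cast hq
  have hP1 : (1 : ℝ) ≤ P := by exact_mod_cast hP
  have h1 := ht q hq
  have h2 : Real.log q ≤ (q : ℝ) ^ (ε / 4) / (ε / 4) := Real.log_le_rpow_div (by linarith) (by linarith)
  have h3 : (1 : ℝ) ≤ (q : ℝ) ^ (ε / 4) := Real.one_le_rpow hq1 (by linarith)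
  have h4 : 3 + Real.log q ≤ (3 + 4 / ε) * (q : ℝ) ^ (ε / 4) := by
    have : (q : ℝ) ^ (ε / 4) / (ε / 4) = 4 / ε * (q : ℝ) ^ (ε / 4) := by
      field_simp
    rw [this] at h2
    nlinarith
  have hlog : 0 ≤ Real.log q := Real.log_nonneg hq1
  calc (q.divisors.card : ℝ) * (3 + Real.log q) ≤ (Ct * (q : ℝ) ^ (ε / 4)) * ((3 + 4 / ε) * (q : ℝ) ^ (ε / 4)) :=
        mul_le_mul h1 h4 (by linarith) (by positivity)
    _ = Ct * (3 + 4 / ε) * ((q : ℝ) ^ (ε / 4) * (q : ℝ) ^ (ε / 4)) := by ring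
    _ = Ct * (3 + 4 / ε) * (q : ℝ) ^ (ε / 2) := by
        rw [← Real.rpow_add (by linarith)]
        congr 2
        ring
    _ ≤ Ct * (3 + 4 / ε) * ((6 * (P : ℝ) ^ 2) ^ (ε / 2)) := by
        refine mul_le_mul_of_nonneg_left ?_ (by positivity)
        refine Real.rpow_le_rpow (by linarith) ?_ (by linarith)
        exact_mod_cast hqP
    _ = Ct * (3 + 4 / ε) * (6 : ℝ) ^ (ε / 2) * (P : ℝ) ^ ε := by
        rw [Real.mul_rpow (by norm_num) (by positivity), ← Real.rpow_natCast, ← Real.rpow_mul (by linarith)]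
        have : ((2 : ℕ) : ℝ) * (ε / 2) = ε := by push_cast; ring
        rw [this]
        ring

/-- one term -/
private lemma Vtr_term (h2 : VimStmt) (ε : ℝ) {C1 : ℝ}
    (hC1 : ∀ (P q : ℕ), 1 ≤ P → 1 ≤ q → q ≤ 6 * P ^ 2 → (q.divisors.card : ℝ) * (3 + Real.log q) ≤ C1 * (P : ℝ) ^ ε)
    (P S H : ℕ) (θ1 θ2 : ℤ) (τ τ0 : ℝ) (u1 u2 : ℂ) (hP : 1 ≤ P) (hSP : S ≤ P) (hτ : |τ| ≤ τ0)
    (r s1 s2 g1 g2 : ℕ) (hu1 : ‖u1‖ ≤ 1) (hu2 : ‖u2‖ ≤ 1)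
    (hβ1 : u1 ≠ 0 → P < r * s1 ∧ r * s1 ≤ 3 * P ∧ Squarefree (r * s1))
    (hβ2 : u2 ≠ 0 → P < r * s2 ∧ r * s2 ≤ 3 * P ∧ Squarefree (r * s2))
    (hs2 : s2 ≤ 2 * S) (hg1 : g1 ≤ H) (hg2 : g2 ≤ H) :
    ‖u1‖ * ‖u2‖ * ‖ImM P θ1 θ2 τ r s1 s2 g1 g2‖ ≤
      2 * (P : ℝ) * (‖u1‖ * ‖u2‖ * (if kM θ1 θ2 g1 g2 s1 s2 = 0 then (1 : ℝ) else 0)) +
      14 * (1 + (H : ℝ) * τ0 / (P : ℝ) ^ 2) * (C1 * (P : ℝ) ^ ε) *
        (if kM θ1 θ2 g1 g2 s1 s2 ≠ 0 then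
          (Int.gcd (kM θ1 θ2 g1 g2 s1 s2) (q0 r s1 s2) : ℝ) else 0) +
      7 * (1 + (H : ℝ) * τ0 / (P : ℝ) ^ 2) * (C1 * (P : ℝ) ^ ε) * (6 * (P : ℝ) * S) ^ ((1 : ℝ) / 2) *
        (‖u1‖ * ‖u2‖) := by
  have hτ0 : 0 ≤ τ0 := (abs_nonneg τ).trans hτ
  have hC1' : 0 ≤ C1 * (P : ℝ) ^ ε := by
    refine le_trans ?_ (hC1 P 1 hP le_rfl (by nlinarith))
    have : (0 : ℝ) ≤ Real.log (1 : ℕ) := by simp
    positivity
  have hV : (0 : ℝ) ≤ 1 + (H : ℝ) * τ0 / (P : ℝ) ^ 2 := by positivity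
  have e1 : (0 : ℝ) ≤ (if kM θ1 θ2 g1 g2 s1 s2 = 0 then (1 : ℝ) else 0) := by split_ifs <;> norm_num
  have e2 : (0 : ℝ) ≤ (if kM θ1 θ2 g1 g2 s1 s2 ≠ 0 then
      (Int.gcd (kM θ1 θ2 g1 g2 s1 s2) (q0 r s1 s2) : ℝ) else 0) := by
    split_ifs
    · positivity
    · exact le_rfl
  by_cases hc1 : u1 = 0
  · rw [hc1, norm_zero, zero_mul, zero_mul, zero_mul, mul_zero, mul_zero, add_zero, zero_add]
    positivity
  by_cases hc2 : u2 = 0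
  · rw [hc2, norm_zero, mul_zero, zero_mul, zero_mul, mul_zero, mul_zero, add_zero, zero_add]
    positivity
  obtain ⟨a1, a2, a3⟩ := hβ1 hc1
  obtain ⟨b1, b2, b3⟩ := hβ2 hc2
  have hu : ‖u1‖ * ‖u2‖ ≤ 1 := by
    calc ‖u1‖ * ‖u2‖ ≤ 1 * 1 := mul_le_mul hu1 hu2 (norm_nonneg _) zero_le_one
      _ = 1 := one_mul 1
  by_cases hk : kM θ1 θ2 g1 g2 s1 s2 = 0
  · rw [if_pos hk, if_neg (by simpa using hk), mul_one, mul_zero, add_zero]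
    have h3 : ‖u1‖ * ‖u2‖ * ‖ImM P θ1 θ2 τ r s1 s2 g1 g2‖ ≤ ‖u1‖ * ‖u2‖ * (2 * (P : ℝ)) :=
      mul_le_mul_of_nonneg_left (Vtr_norm_Im P θ1 θ2 τ r s1 s2 g1 g2) (by positivity)
    have h4 : 0 ≤ 7 * (1 + (H : ℝ) * τ0 / (P : ℝ) ^ 2) * (C1 * (P : ℝ) ^ ε) *
        (6 * (P : ℝ) * S) ^ ((1 : ℝ) / 2) * (‖u1‖ * ‖u2‖) := by positivity
    linarith
  · rw [if_neg hk, if_pos hk, mul_zero, mul_zero, zero_add]
    have hr : 1 ≤ r := by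
      rcases Nat.eq_zero_or_pos r with h | h
      · subst h; simp at a1
      · exact h
    have hs1' : 1 ≤ s1 := by
      rcases Nat.eq_zero_or_pos s1 with h | h
      · subst h; simp at a1
      · exact h
    have hs2' : 1 ≤ s2 := by
      rcases Nat.eq_zero_or_pos s2 with h | h
      · subst h; simp at b1
      · exact h
    have hq1 : 1 ≤ q0 r s1 s2 := Nat.mul_pos hr (Nat.lcm_pos hs1' hs2')
    have hq6 : q0 r s1 s2 ≤ 6 * P * S := by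
      unfold q0
      have e1 : Nat.lcm s1 s2 ≤ s1 * s2 := Nat.div_le_self _ _
      calc r * Nat.lcm s1 s2 ≤ r * (s1 * s2) := Nat.mul_le_mul_left _ e1
        _ = (r * s1) * s2 := by ring
        _ ≤ (3 * P) * (2 * S) := Nat.mul_le_mul a2 hs2
        _ = 6 * P * S := by ring
    have hq6' : q0 r s1 s2 ≤ 6 * P ^ 2 := by
      refine hq6.trans ?_
      have : P * S ≤ P * P := Nat.mul_le_mul_left _ hSP
      nlinarith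
    have hm := h2 P H θ1 θ2 τ r s1 s2 g1 g2 hP hg1 hg2 a1 b1 a3 b3
    have ht := hC1 P (q0 r s1 s2) hP hq1 hq6'
    set G : ℕ := Int.gcd (kM θ1 θ2 g1 g2 s1 s2) (q0 r s1 s2) with hG
    have hqr : ((q0 r s1 s2 : ℕ) : ℝ) ^ ((1 : ℝ) / 2) ≤ (6 * (P : ℝ) * S) ^ ((1 : ℝ) / 2) := by
      refine Real.rpow_le_rpow (Nat.cast_nonneg _) ?_ (by norm_num)
      exact_mod_cast hq6
    have hlog : 0 ≤ Real.log (q0 r s1 s2 : ℕ) := Real.log_nonneg (by exact_mod_cast hq1)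
    have hG0 : (0 : ℝ) ≤ (G : ℝ) := Nat.cast_nonneg _
    have hdc : (0 : ℝ) ≤ ((q0 r s1 s2).divisors.card : ℝ) := Nat.cast_nonneg _
    have ht1 : ((q0 r s1 s2).divisors.card : ℝ) ≤ C1 * (P : ℝ) ^ ε := by
      refine le_trans ?_ ht
      calc ((q0 r s1 s2).divisors.card : ℝ) = ((q0 r s1 s2).divisors.card : ℝ) * 1 := by ring
        _ ≤ ((q0 r s1 s2).divisors.card : ℝ) * (3 + Real.log (q0 r s1 s2 : ℕ)) :=
            mul_le_mul_of_nonneg_left (by linarith) hdc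
    have key : ((q0 r s1 s2).divisors.card : ℝ) * (2 * (G : ℝ) +
        ((q0 r s1 s2 : ℕ) : ℝ) ^ ((1 : ℝ) / 2) * (3 + Real.log (q0 r s1 s2 : ℕ))) ≤
        (C1 * (P : ℝ) ^ ε) * (2 * (G : ℝ) + (6 * (P : ℝ) * S) ^ ((1 : ℝ) / 2)) := by
      calc ((q0 r s1 s2).divisors.card : ℝ) * (2 * (G : ℝ) +
        ((q0 r s1 s2 : ℕ) : ℝ) ^ ((1 : ℝ) / 2) * (3 + Real.log (q0 r s1 s2 : ℕ)))
          = ((q0 r s1 s2).divisors.card : ℝ) * (2 * (G : ℝ)) +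
            (((q0 r s1 s2).divisors.card : ℝ) * (3 + Real.log (q0 r s1 s2 : ℕ))) *
            ((q0 r s1 s2 : ℕ) : ℝ) ^ ((1 : ℝ) / 2) := by ring
        _ ≤ (C1 * (P : ℝ) ^ ε) * (2 * (G : ℝ)) + (C1 * (P : ℝ) ^ ε) * (6 * (P : ℝ) * S) ^ ((1 : ℝ) / 2) := by
            refine add_le_add (mul_le_mul_of_nonneg_right ht1 (by positivity)) ?_
            exact mul_le_mul ht hqr (by positivity) hC1'
        _ = _ := by ring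
    have hVV : 1 + (H : ℝ) * |τ| / (P : ℝ) ^ 2 ≤ 1 + (H : ℝ) * τ0 / (P : ℝ) ^ 2 := by
      have h5 : (H : ℝ) * |τ| ≤ (H : ℝ) * τ0 := mul_le_mul_of_nonneg_left hτ (Nat.cast_nonneg _)
      have h6 : (H : ℝ) * |τ| / (P : ℝ) ^ 2 ≤ (H : ℝ) * τ0 / (P : ℝ) ^ 2 :=
        div_le_div_of_nonneg_right h5 (by positivity)
      linarith
    have hmain : ‖ImM P θ1 θ2 τ r s1 s2 g1 g2‖ ≤ 7 * (1 + (H : ℝ) * τ0 / (P : ℝ) ^ 2) *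
        ((C1 * (P : ℝ) ^ ε) * (2 * (G : ℝ) + (6 * (P : ℝ) * S) ^ ((1 : ℝ) / 2))) := by
      refine hm.trans ?_
      refine mul_le_mul (by linarith) key ?_ (by linarith)
      have h9 : 0 ≤ ((q0 r s1 s2 : ℕ) : ℝ) ^ ((1 : ℝ) / 2) := Real.rpow_nonneg (Nat.cast_nonneg _) _
      exact mul_nonneg hdc (add_nonneg (mul_nonneg zero_le_two hG0) (mul_nonneg h9 (by linarith)))
    have h7 : 0 ≤ 14 * (1 + (H : ℝ) * τ0 / (P : ℝ) ^ 2) * (C1 * (P : ℝ) ^ ε) * (G : ℝ) := by positivity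
    have h8 : ‖u1‖ * ‖u2‖ * (14 * (1 + (H : ℝ) * τ0 / (P : ℝ) ^ 2) * (C1 * (P : ℝ) ^ ε) * (G : ℝ)) ≤
        1 * (14 * (1 + (H : ℝ) * τ0 / (P : ℝ) ^ 2) * (C1 * (P : ℝ) ^ ε) * (G : ℝ)) :=
      mul_le_mul_of_nonneg_right hu h7
    calc ‖u1‖ * ‖u2‖ * ‖ImM P θ1 θ2 τ r s1 s2 g1 g2‖
        ≤ ‖u1‖ * ‖u2‖ * (7 * (1 + (H : ℝ) * τ0 / (P : ℝ) ^ 2) *
        ((C1 * (P : ℝ) ^ ε) * (2 * (G : ℝ) + (6 * (P : ℝ) * S) ^ ((1 : ℝ) / 2)))) :=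
          mul_le_mul_of_nonneg_left hmain (by positivity)
      _ = ‖u1‖ * ‖u2‖ * (14 * (1 + (H : ℝ) * τ0 / (P : ℝ) ^ 2) * (C1 * (P : ℝ) ^ ε) * (G : ℝ)) +
          7 * (1 + (H : ℝ) * τ0 / (P : ℝ) ^ 2) * (C1 * (P : ℝ) ^ ε) * (6 * (P : ℝ) * S) ^ ((1 : ℝ) / 2) *
            (‖u1‖ * ‖u2‖) := by ring
      _ ≤ _ := by
          rw [one_mul] at h8
          linarith

private lemma Vtr_b1 {P R C2 S H E F K W V : ℝ} (hP : 1 ≤ P) (hS : 1 ≤ S) (hH : 1 ≤ H) (hC2 : 0 ≤ C2)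
    (hR0 : 0 ≤ R) (hR : R ≤ 3 * P / S) (hF : 0 ≤ F) (hFE : F ≤ E) (hE : 1 ≤ E) (hW : 0 ≤ W) (hV : 1 ≤ V) :
    K * (2 * P * R) * (2 * P * (R * (C2 * F * (W * H * (S * K))))) ≤
      36 * C2 * E ^ 2 * V * (K ^ 2 * W * (P ^ 4 * H / S)) := by
  have hR2 : R ^ 2 ≤ (3 * P / S) ^ 2 := pow_le_pow_left₀ hR0 hR 2
  have hS0 : S ≠ 0 := by linarith
  have hE2 : E ≤ E ^ 2 * V := by
    have : E ≤ E ^ 2 := by nlinarith
    nlinarith [sq_nonneg E]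
  calc K * (2 * P * R) * (2 * P * (R * (C2 * F * (W * H * (S * K)))))
      = (4 * P ^ 2 * C2 * (S * H) * (K ^ 2 * W)) * (R ^ 2 * F) := by ring
    _ ≤ (4 * P ^ 2 * C2 * (S * H) * (K ^ 2 * W)) * ((3 * P / S) ^ 2 * (E ^ 2 * V)) := by
        refine mul_le_mul_of_nonneg_left ?_ (by positivity)
        exact mul_le_mul hR2 (hFE.trans hE2) hF (by positivity)
    _ = _ := by
        field_simp
        ring

private lemma Vtr_b2 {P R C1 C3 S H E F G V K W : ℝ} (hP : 1 ≤ P) (hS : 1 ≤ S) (hH : 1 ≤ H)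
    (hC1 : 0 ≤ C1) (hC3 : 0 ≤ C3) (hR0 : 0 ≤ R) (hV : 0 ≤ V) (hK : 0 ≤ K) (hW : 0 ≤ W)
    (hR : R ≤ 3 * P / S) (hF : 0 ≤ F) (hFE : F ≤ E) (hG : 0 ≤ G) (hGE : G ≤ E) :
    K * (2 * P * R) * (14 * V * (C1 * F) * (W ^ 3 * (C3 * G * (R * S ^ 2 * H ^ 2)))) ≤
      252 * C1 * C3 * E ^ 2 * V * (K * W ^ 3 * (P ^ 3 * H ^ 2)) := by
  have hR2 : R ^ 2 ≤ (3 * P / S) ^ 2 := pow_le_pow_left₀ hR0 hR 2
  have hS0 : S ≠ 0 := by linarith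
  have hE : 0 ≤ E := hF.trans hFE
  calc K * (2 * P * R) * (14 * V * (C1 * F) * (W ^ 3 * (C3 * G * (R * S ^ 2 * H ^ 2))))
      = (28 * P * V * C1 * C3 * S ^ 2 * H ^ 2 * (K * W ^ 3)) * (R ^ 2 * (F * G)) := by ring
    _ ≤ (28 * P * V * C1 * C3 * S ^ 2 * H ^ 2 * (K * W ^ 3)) * ((3 * P / S) ^ 2 * (E * E)) := by
        refine mul_le_mul_of_nonneg_left ?_ (by positivity)
        refine mul_le_mul hR2 ?_ (by positivity) (by positivity)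
        exact mul_le_mul hFE hGE hG hE
    _ = _ := by
        field_simp
        ring

private lemma Vtr_b3 {P R C1 S H E F V K W p s q Y : ℝ} (hP : 1 ≤ P) (hS : 1 ≤ S) (hH : 1 ≤ H)
    (hC1 : 0 ≤ C1) (hR0 : 0 ≤ R) (hV : 0 ≤ V) (hq : 0 ≤ q) (hK : 0 ≤ K) (hW : 0 ≤ W)
    (hR : R ≤ 3 * P / S) (hF : 0 ≤ F) (hFE : F ≤ E) (hE1 : 1 ≤ E) (hp : 0 ≤ p) (hs : 0 ≤ s)
    (hY : P ^ 3 * p * s = Y) :
    K * (2 * P * R) * (7 * V * (C1 * F) * (q * (p * s)) * (W * (R * (H ^ 2 * (S * K) ^ 2)))) ≤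
      126 * q * C1 * E ^ 2 * V * (K ^ 3 * W * (H ^ 2 * Y)) := by
  have hR2 : R ^ 2 ≤ (3 * P / S) ^ 2 := pow_le_pow_left₀ hR0 hR 2
  have hS0 : S ≠ 0 := by linarith
  have hFE2 : F ≤ E ^ 2 := by nlinarith
  calc K * (2 * P * R) * (7 * V * (C1 * F) * (q * (p * s)) * (W * (R * (H ^ 2 * (S * K) ^ 2))))
      = (14 * P * V * C1 * (q * (p * s)) * S ^ 2 * H ^ 2 * (K ^ 3 * W)) * (R ^ 2 * F) := by ring
    _ ≤ (14 * P * V * C1 * (q * (p * s)) * S ^ 2 * H ^ 2 * (K ^ 3 * W)) * ((3 * P / S) ^ 2 * E ^ 2) := by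
        refine mul_le_mul_of_nonneg_left ?_ (by positivity)
        exact mul_le_mul hR2 hFE2 hF (by positivity)
    _ = 126 * q * C1 * E ^ 2 * V * (K ^ 3 * W * (H ^ 2 * (P ^ 3 * p * s))) := by
        field_simp
        ring
    _ = _ := by rw [hY]

/-- the values θ a b -/
private lemma Vtr_th {γ : ℕ} {e : ℤ} {X : ℝ} {A : Finset ℤ} {B : ℤ → Finset ℤ} {θ : ℤ → ℤ → ℤ} (hγ : 1 ≤ γ)
    (h : IsTh γ e X A B θ) {a b : ℤ} (ha : a ∈ A) (hb : b ∈ B a) : θ a b ≠ 0 ∧ |(θ a b : ℝ)| ≤ X := by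
  obtain ⟨he, _, hθ⟩ := h
  obtain ⟨h1, h2, h3⟩ := hθ a ha b hb
  have he0 : e ≠ 0 := by rcases he with h | h <;> rw [h] <;> norm_num
  have heabs : |(e : ℝ)| = 1 := by rcases he with h | h <;> rw [h] <;> norm_num
  constructor
  · intro h0
    rw [h0, mul_zero] at h1
    have := mul_eq_zero.1 h1.symm
    rcases this with h | h
    · exact he0 h
    · exact h2 (by linarith)
  · have h4 : (γ : ℝ) * |(θ a b : ℝ)| = |((b - a : ℤ) : ℝ)| := by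
      have h5 : (γ : ℝ) * (θ a b : ℝ) = (e : ℝ) * ((b - a : ℤ) : ℝ) := by exact_mod_cast h1
      calc (γ : ℝ) * |(θ a b : ℝ)| = |(γ : ℝ) * (θ a b : ℝ)| := by rw [abs_mul, Nat.abs_cast]
        _ = |(e : ℝ)| * |((b - a : ℤ) : ℝ)| := by rw [h5, abs_mul]
        _ = |((b - a : ℤ) : ℝ)| := by rw [heabs, one_mul]
    have h6 : (1 : ℝ) ≤ γ := by exact_mod_cast hγ
    have h7 : 0 ≤ |(θ a b : ℝ)| := abs_nonneg _
    nlinarith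

theorem tVtr (h1 : UcsStmt) (h2 : VimStmt) (h3 : VdgStmt) (h4 : UgfStmt) : VtrStmt := by
  intro ε hε
  have hε2 : 0 < ε / 2 := by linarith
  obtain ⟨C1, hC10, hC1⟩ := Vtr_tau (ε / 2) hε2
  obtain ⟨C2, hC20, hC2⟩ := h3 (ε / 2) hε2
  obtain ⟨C3, hC30, hC3⟩ := h4 (ε / 2) hε2
  refine ⟨36 * C2 + 252 * C1 * C3 + 126 * (6 : ℝ) ^ ((1 : ℝ) / 2) * C1, by positivity, ?_⟩
  intro P S H γ K W X τ0 e A B α β θ τ hP hS hH hγ hSP hα hαK hβ1 hβK hβ hA hTh hX hτ hτ0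
  have hP1 : (1 : ℝ) ≤ P := by exact_mod_cast hP
  have hS1 : (1 : ℝ) ≤ S := by exact_mod_cast hS
  have hH1 : (1 : ℝ) ≤ H := by exact_mod_cast hH
  have hSPr : (S : ℝ) ≤ P := by exact_mod_cast hSP
  have hK0 : 0 ≤ K := (Finset.sum_nonneg fun a _ => norm_nonneg _).trans (hαK 0)
  have hW0 : 0 ≤ W := (Nat.cast_nonneg _).trans hA
  have hBA := hTh.2.1
  set V : ℝ := 1 + (H : ℝ) * τ0 / (P : ℝ) ^ 2 with hV
  have hV1 : 1 ≤ V := by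
    rw [hV]
    have : 0 ≤ (H : ℝ) * τ0 / (P : ℝ) ^ 2 := by positivity
    linarith
  set N0 : ℝ := (P : ℝ) * H * X with hN0
  have hPH : (1 : ℝ) ≤ (P : ℝ) * H := by nlinarith
  have hN1 : 1 ≤ N0 := by
    rw [hN0]
    nlinarith
  set R : ℕ := 3 * P / S with hR
  have hRr : (R : ℝ) ≤ 3 * P / S := by
    rw [hR]
    have := @Nat.cast_div_le ℝ _ _ _ (3 * P) S
    refine this.trans (le_of_eq ?_)
    push_cast
    rfl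
  have hPe : (P : ℝ) ^ (ε / 2) ≤ N0 ^ (ε / 2) := by
    refine Real.rpow_le_rpow (by linarith) ?_ hε2.le
    rw [hN0]
    have : (1 : ℝ) ≤ (H : ℝ) * X := by nlinarith
    calc (P : ℝ) = P * 1 := (mul_one _).symm
      _ ≤ P * (H * X) := mul_le_mul_of_nonneg_left this (by linarith)
      _ = (P : ℝ) * H * X := by ring
  have hTHe : (X * H * S) ^ (ε / 2) ≤ N0 ^ (ε / 2) := by
    refine Real.rpow_le_rpow (by positivity) ?_ hε2.le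
    rw [hN0]
    have : X * H * S ≤ X * H * P := mul_le_mul_of_nonneg_left hSPr (by positivity)
    calc X * H * S ≤ X * H * P := this
      _ = _ := by ring
  have hNe1 : 1 ≤ N0 ^ (ε / 2) := Real.one_le_rpow hN1 hε2.le
  have hE2 : (N0 ^ (ε / 2)) ^ 2 = N0 ^ ε := by
    rw [← Real.rpow_natCast, ← Real.rpow_mul (by linarith)]
    congr 1
    push_cast
    ring
  set D1 : ℝ := 14 * V * (C1 * (P : ℝ) ^ (ε / 2)) with hD1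
  set D2 : ℝ := 7 * V * (C1 * (P : ℝ) ^ (ε / 2)) * (6 * (P : ℝ) * S) ^ ((1 : ℝ) / 2) with hD2
  have hD10 : 0 ≤ D1 := by positivity
  have hD20 : 0 ≤ D2 := by positivity
  have hR0 : (0 : ℝ) ≤ R := Nat.cast_nonneg _
  have hcs := h1 P S H K A B α β θ τ hα hαK
  set F : ℝ := (X * H * S) ^ (ε / 2) with hFd
  have hF0 : 0 ≤ F := by positivity
  have hcS : ((Ico S (2 * S)).card : ℝ) = S := by
    rw [Nat.card_Ico, Nat.two_mul, Nat.add_sub_cancel]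
  -- the three parts
  have hx : ∑ a ∈ A, ∑ r ∈ Icc 1 R, ∑ b1 ∈ B a, ∑ b2 ∈ B a, ∑ s1 ∈ Ico S (2 * S), ∑ s2 ∈ Ico S (2 * S),
      ∑ h1 ∈ Icc 1 H, ∑ h2 ∈ Icc 1 H,
        (‖β b1 r s1‖ * ‖β b2 r s2‖ * (if kM (θ a b1) (θ a b2) h1 h2 s1 s2 = 0 then (1 : ℝ) else 0)) ≤
      R * (C2 * F * (W * H * (S * K))) := by
    rw [sum_comm]
    refine (Finset.sum_le_card_nsmul _ _ (C2 * F * (W * H * (S * K))) ?_).trans (le_of_eq ?_)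
    · intro r _
      refine (hC2 S H γ X e A B θ (fun b s => ‖β b r s‖) hS hH hγ hX hTh (fun _ _ => norm_nonneg _)).trans ?_
      have k1 : ∑ b ∈ A, ∑ s ∈ Ico S (2 * S), ‖β b r s‖ ^ 2 ≤ S * K := by
        rw [sum_comm]
        refine (Finset.sum_le_card_nsmul _ _ K ?_).trans (le_of_eq ?_)
        · intro s _
          refine le_trans (sum_le_sum fun b _ => ?_) (hβK r s)
          have k2 := hβ1 b r s
          have k3 := norm_nonneg (β b r s)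
          nlinarith
        · rw [nsmul_eq_mul, hcS]
      have k4 : (A.card : ℝ) * H * ∑ b ∈ A, ∑ s ∈ Ico S (2 * S), ‖β b r s‖ ^ 2 ≤ W * H * (S * K) := by
        refine mul_le_mul ?_ k1 (sum_nonneg fun b _ => sum_nonneg fun s _ => by positivity) (by positivity)
        exact mul_le_mul_of_nonneg_right hA (by linarith)
      exact mul_le_mul_of_nonneg_left k4 (by positivity)
    · rw [nsmul_eq_mul, Nat.card_Icc, Nat.add_sub_cancel]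
  have hy : ∑ a ∈ A, ∑ r ∈ Icc 1 R, ∑ b1 ∈ B a, ∑ b2 ∈ B a, ∑ s1 ∈ Ico S (2 * S), ∑ s2 ∈ Ico S (2 * S),
      ∑ h1 ∈ Icc 1 H, ∑ h2 ∈ Icc 1 H,
        (if kM (θ a b1) (θ a b2) h1 h2 s1 s2 ≠ 0 then
          (Int.gcd (kM (θ a b1) (θ a b2) h1 h2 s1 s2) (q0 r s1 s2) : ℝ) else 0) ≤
      W ^ 3 * (C3 * F * ((R : ℝ) * S ^ 2 * H ^ 2)) := by
    have hY0 : 0 ≤ C3 * F * ((R : ℝ) * S ^ 2 * H ^ 2) := by positivity
    have k0 : ∀ a ∈ A, ∑ r ∈ Icc 1 R, ∑ b1 ∈ B a, ∑ b2 ∈ B a, ∑ s1 ∈ Ico S (2 * S), ∑ s2 ∈ Ico S (2 * S),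
      ∑ h1 ∈ Icc 1 H, ∑ h2 ∈ Icc 1 H,
        (if kM (θ a b1) (θ a b2) h1 h2 s1 s2 ≠ 0 then
          (Int.gcd (kM (θ a b1) (θ a b2) h1 h2 s1 s2) (q0 r s1 s2) : ℝ) else 0) ≤
        W * (W * (C3 * F * ((R : ℝ) * S ^ 2 * H ^ 2))) := by
      intro a ha
      have hcard : ((B a).card : ℝ) ≤ W := by
        refine le_trans ?_ hA
        exact_mod_cast Finset.card_le_card (hBA a ha)
      rw [sum_comm]
      refine (Finset.sum_le_card_nsmul _ _ (W * (C3 * F * ((R : ℝ) * S ^ 2 * H ^ 2))) ?_).trans ?_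
      · intro b1 hb1
        rw [sum_comm]
        refine (Finset.sum_le_card_nsmul _ _ (C3 * F * ((R : ℝ) * S ^ 2 * H ^ 2)) ?_).trans ?_
        · intro b2 hb2
          have t1 := Vtr_th hγ hTh ha hb1
          have t2 := Vtr_th hγ hTh ha hb2
          exact hC3 R S H X (θ a b1) (θ a b2) hS hH hX t1.1 t2.1 t1.2 t2.2
        · rw [nsmul_eq_mul]
          exact mul_le_mul_of_nonneg_right hcard hY0
      · rw [nsmul_eq_mul]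
        exact mul_le_mul_of_nonneg_right hcard (by positivity)
    refine (Finset.sum_le_card_nsmul _ _ _ k0).trans ?_
    rw [nsmul_eq_mul]
    calc (A.card : ℝ) * (W * (W * (C3 * F * ((R : ℝ) * S ^ 2 * H ^ 2))))
        ≤ W * (W * (W * (C3 * F * ((R : ℝ) * S ^ 2 * H ^ 2)))) :=
          mul_le_mul_of_nonneg_right hA (by positivity)
      _ = _ := by ring
  have hz : ∑ a ∈ A, ∑ r ∈ Icc 1 R, ∑ b1 ∈ B a, ∑ b2 ∈ B a, ∑ s1 ∈ Ico S (2 * S), ∑ s2 ∈ Ico S (2 * S),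
      ∑ _h1 ∈ Icc 1 H, ∑ _h2 ∈ Icc 1 H, (‖β b1 r s1‖ * ‖β b2 r s2‖) ≤
      W * (R * ((H : ℝ) ^ 2 * (S * K) ^ 2)) := by
    have k0 : ∀ a ∈ A, ∑ r ∈ Icc 1 R, ∑ b1 ∈ B a, ∑ b2 ∈ B a, ∑ s1 ∈ Ico S (2 * S), ∑ s2 ∈ Ico S (2 * S),
      ∑ _h1 ∈ Icc 1 H, ∑ _h2 ∈ Icc 1 H, (‖β b1 r s1‖ * ‖β b2 r s2‖) ≤
        R * ((H : ℝ) ^ 2 * (S * K) ^ 2) := by
      intro a ha
      refine (Finset.sum_le_card_nsmul _ _ ((H : ℝ) ^ 2 * (S * K) ^ 2) ?_).trans (le_of_eq ?_)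
      · intro r _
        have k1 : ∑ b1 ∈ B a, ∑ b2 ∈ B a, ∑ s1 ∈ Ico S (2 * S), ∑ s2 ∈ Ico S (2 * S),
            ∑ _h1 ∈ Icc 1 H, ∑ _h2 ∈ Icc 1 H, (‖β b1 r s1‖ * ‖β b2 r s2‖) =
            (H : ℝ) ^ 2 * ((∑ b ∈ B a, ∑ s ∈ Ico S (2 * S), ‖β b r s‖) *
              (∑ b ∈ B a, ∑ s ∈ Ico S (2 * S), ‖β b r s‖)) := by
          rw [sum_mul_sum, mul_sum]
          refine sum_congr rfl fun b1 _ => ?_
          rw [mul_sum]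
          refine sum_congr rfl fun b2 _ => ?_
          rw [sum_mul_sum, mul_sum]
          refine sum_congr rfl fun s1 _ => ?_
          rw [mul_sum]
          refine sum_congr rfl fun s2 _ => ?_
          rw [sum_const, sum_const, Nat.card_Icc, Nat.add_sub_cancel, nsmul_eq_mul, nsmul_eq_mul]
          ring
        have k2 : ∑ b ∈ B a, ∑ s ∈ Ico S (2 * S), ‖β b r s‖ ≤ S * K := by
          rw [sum_comm]
          refine (Finset.sum_le_card_nsmul _ _ K ?_).trans (le_of_eq ?_)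
          · intro s _
            exact (Finset.sum_le_sum_of_subset_of_nonneg (hBA a ha)
              (fun _ _ _ => norm_nonneg _)).trans (hβK r s)
          · rw [nsmul_eq_mul, hcS]
        have k3 : 0 ≤ ∑ b ∈ B a, ∑ s ∈ Ico S (2 * S), ‖β b r s‖ :=
          sum_nonneg fun b _ => sum_nonneg fun s _ => norm_nonneg _
        rw [k1, ← pow_two]
        exact mul_le_mul_of_nonneg_left (pow_le_pow_left₀ k3 k2 2) (by positivity)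
      · rw [nsmul_eq_mul, Nat.card_Icc, Nat.add_sub_cancel]
    refine (Finset.sum_le_card_nsmul _ _ _ k0).trans ?_
    rw [nsmul_eq_mul]
    exact mul_le_mul_of_nonneg_right hA (by positivity)
  have hsum : ∑ a ∈ A, ∑ r ∈ Icc 1 R, ∑ b1 ∈ B a, ∑ b2 ∈ B a, ∑ s1 ∈ Ico S (2 * S), ∑ s2 ∈ Ico S (2 * S),
      ∑ h1 ∈ Icc 1 H, ∑ h2 ∈ Icc 1 H,
        ‖β b1 r s1‖ * ‖β b2 r s2‖ * ‖ImM P (θ a b1) (θ a b2) (τ a) r s1 s2 h1 h2‖ ≤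
      2 * (P : ℝ) * (R * (C2 * F * (W * H * (S * K)))) + D1 * (W ^ 3 * (C3 * F * ((R : ℝ) * S ^ 2 * H ^ 2))) +
        D2 * (W * (R * ((H : ℝ) ^ 2 * (S * K) ^ 2))) := by
    have e1 : ∑ a ∈ A, ∑ r ∈ Icc 1 R, ∑ b1 ∈ B a, ∑ b2 ∈ B a, ∑ s1 ∈ Ico S (2 * S), ∑ s2 ∈ Ico S (2 * S),
      ∑ h1 ∈ Icc 1 H, ∑ h2 ∈ Icc 1 H,
        ‖β b1 r s1‖ * ‖β b2 r s2‖ * ‖ImM P (θ a b1) (θ a b2) (τ a) r s1 s2 h1 h2‖ ≤
      ∑ a ∈ A, ∑ r ∈ Icc 1 R, ∑ b1 ∈ B a, ∑ b2 ∈ B a, ∑ s1 ∈ Ico S (2 * S), ∑ s2 ∈ Ico S (2 * S),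
      ∑ h1 ∈ Icc 1 H, ∑ h2 ∈ Icc 1 H,
        (2 * (P : ℝ) * (‖β b1 r s1‖ * ‖β b2 r s2‖ *
          (if kM (θ a b1) (θ a b2) h1 h2 s1 s2 = 0 then (1 : ℝ) else 0)) +
        D1 * (if kM (θ a b1) (θ a b2) h1 h2 s1 s2 ≠ 0 then
          (Int.gcd (kM (θ a b1) (θ a b2) h1 h2 s1 s2) (q0 r s1 s2) : ℝ) else 0) +
        D2 * (‖β b1 r s1‖ * ‖β b2 r s2‖)) := by
      refine sum_le_sum fun a ha => sum_le_sum fun r _ => sum_le_sum fun b1 _ => sum_le_sum fun b2 _ =>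
        sum_le_sum fun s1 _ => sum_le_sum fun s2 hs2 => sum_le_sum fun g1 hg1 => sum_le_sum fun g2 hg2 => ?_
      exact Vtr_term h2 (ε / 2) hC1 P S H (θ a b1) (θ a b2) (τ a) τ0 (β b1 r s1) (β b2 r s2) hP hSP (hτ a ha)
        r s1 s2 g1 g2 (hβ1 _ _ _) (hβ1 _ _ _) (hβ b1 r s1) (hβ b2 r s2) (mem_Ico.1 hs2).2.le (mem_Icc.1 hg1).2
        (mem_Icc.1 hg2).2
    have e9 : ∑ a ∈ A, ∑ r ∈ Icc 1 R, ∑ b1 ∈ B a, ∑ b2 ∈ B a, ∑ s1 ∈ Ico S (2 * S), ∑ s2 ∈ Ico S (2 * S),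
      ∑ h1 ∈ Icc 1 H, ∑ h2 ∈ Icc 1 H,
        (2 * (P : ℝ) * (‖β b1 r s1‖ * ‖β b2 r s2‖ *
          (if kM (θ a b1) (θ a b2) h1 h2 s1 s2 = 0 then (1 : ℝ) else 0)) +
        D1 * (if kM (θ a b1) (θ a b2) h1 h2 s1 s2 ≠ 0 then
          (Int.gcd (kM (θ a b1) (θ a b2) h1 h2 s1 s2) (q0 r s1 s2) : ℝ) else 0) +
        D2 * (‖β b1 r s1‖ * ‖β b2 r s2‖)) =
      2 * (P : ℝ) * (∑ a ∈ A, ∑ r ∈ Icc 1 R, ∑ b1 ∈ B a, ∑ b2 ∈ B a, ∑ s1 ∈ Ico S (2 * S),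
        ∑ s2 ∈ Ico S (2 * S), ∑ h1 ∈ Icc 1 H, ∑ h2 ∈ Icc 1 H,
        (‖β b1 r s1‖ * ‖β b2 r s2‖ * (if kM (θ a b1) (θ a b2) h1 h2 s1 s2 = 0 then (1 : ℝ) else 0))) +
      D1 * (∑ a ∈ A, ∑ r ∈ Icc 1 R, ∑ b1 ∈ B a, ∑ b2 ∈ B a, ∑ s1 ∈ Ico S (2 * S),
        ∑ s2 ∈ Ico S (2 * S), ∑ h1 ∈ Icc 1 H, ∑ h2 ∈ Icc 1 H,
        (if kM (θ a b1) (θ a b2) h1 h2 s1 s2 ≠ 0 then
          (Int.gcd (kM (θ a b1) (θ a b2) h1 h2 s1 s2) (q0 r s1 s2) : ℝ) else 0)) +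
      D2 * (∑ a ∈ A, ∑ r ∈ Icc 1 R, ∑ b1 ∈ B a, ∑ b2 ∈ B a, ∑ s1 ∈ Ico S (2 * S),
        ∑ s2 ∈ Ico S (2 * S), ∑ _h1 ∈ Icc 1 H, ∑ _h2 ∈ Icc 1 H, (‖β b1 r s1‖ * ‖β b2 r s2‖)) := by
      simp only [mul_sum, sum_add_distrib]
    refine e1.trans ?_
    rw [e9]
    refine add_le_add (add_le_add ?_ ?_) ?_
    · exact mul_le_mul_of_nonneg_left hx (by positivity)
    · exact mul_le_mul_of_nonneg_left hy hD10
    · exact mul_le_mul_of_nonneg_left hz hD20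
  have hsq : (6 * (P : ℝ) * S) ^ ((1 : ℝ) / 2) = (6 : ℝ) ^ ((1 : ℝ) / 2) * ((P : ℝ) ^ ((1 : ℝ) / 2) *
      (S : ℝ) ^ ((1 : ℝ) / 2)) := by
    rw [Real.mul_rpow (by positivity) (by positivity), Real.mul_rpow (by positivity) (by positivity), mul_assoc]
  have hP72 : (P : ℝ) ^ 3 * (P : ℝ) ^ ((1 : ℝ) / 2) * (S : ℝ) ^ ((1 : ℝ) / 2) =
      (P : ℝ) ^ ((7 : ℝ) / 2) * (S : ℝ) ^ ((1 : ℝ) / 2) := by
    rw [← Real.rpow_natCast, ← Real.rpow_add (by linarith)]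
    norm_num
  have b1 := Vtr_b1 (K := K) (W := W) (C2 := C2) hP1 hS1 hH1 hC20 hR0 hRr hF0 hTHe hNe1 hW0 hV1
  have b2 := Vtr_b2 (V := V) (K := K) (W := W) hP1 hS1 hH1 hC10 hC30 hR0 (by linarith : (0 : ℝ) ≤ V) hK0 hW0
    hRr (by positivity : (0 : ℝ) ≤ (P : ℝ) ^ (ε / 2)) hPe hF0 hTHe
  have b3 := Vtr_b3 (V := V) (K := K) (W := W) hP1 hS1 hH1 hC10 hR0 (by linarith : (0 : ℝ) ≤ V)
    (by positivity : (0 : ℝ) ≤ (6 : ℝ) ^ ((1 : ℝ) / 2)) hK0 hW0 hRr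
    (by positivity : (0 : ℝ) ≤ (P : ℝ) ^ (ε / 2)) hPe hNe1
    (by positivity : (0 : ℝ) ≤ (P : ℝ) ^ ((1 : ℝ) / 2)) (by positivity : (0 : ℝ) ≤ (S : ℝ) ^ ((1 : ℝ) / 2)) hP72
  rw [← hsq] at b3
  set T1 : ℝ := K ^ 2 * W * ((P : ℝ) ^ 4 * H / S) with hT1
  set T2 : ℝ := K * W ^ 3 * ((P : ℝ) ^ 3 * (H : ℝ) ^ 2) with hT2
  set T3 : ℝ := K ^ 3 * W * ((H : ℝ) ^ 2 * ((P : ℝ) ^ ((7 : ℝ) / 2) * (S : ℝ) ^ ((1 : ℝ) / 2))) with hT3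
  have hT10 : 0 ≤ T1 := by positivity
  have hT20 : 0 ≤ T2 := by positivity
  have hT30 : 0 ≤ T3 := by positivity
  calc ‖TfM P S H A B α β θ τ‖ ^ 2
      ≤ K * (2 * (P : ℝ) * (R : ℝ)) * (2 * (P : ℝ) * (R * (C2 * F * (W * H * (S * K)))) +
        D1 * (W ^ 3 * (C3 * F * ((R : ℝ) * S ^ 2 * H ^ 2))) +
        D2 * (W * (R * ((H : ℝ) ^ 2 * (S * K) ^ 2)))) :=
        hcs.trans (mul_le_mul_of_nonneg_left hsum (by positivity))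
    _ = K * (2 * (P : ℝ) * (R : ℝ)) * (2 * (P : ℝ) * (R * (C2 * F * (W * H * (S * K))))) +
        K * (2 * (P : ℝ) * (R : ℝ)) * (D1 * (W ^ 3 * (C3 * F * ((R : ℝ) * S ^ 2 * H ^ 2)))) +
        K * (2 * (P : ℝ) * (R : ℝ)) * (D2 * (W * (R * ((H : ℝ) ^ 2 * (S * K) ^ 2)))) := by ring
    _ ≤ 36 * C2 * (N0 ^ (ε / 2)) ^ 2 * V * T1 + 252 * C1 * C3 * (N0 ^ (ε / 2)) ^ 2 * V * T2 +
        126 * (6 : ℝ) ^ ((1 : ℝ) / 2) * C1 * (N0 ^ (ε / 2)) ^ 2 * V * T3 :=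
        add_le_add (add_le_add b1 b2) b3
    _ ≤ _ := by
        rw [hE2]
        have hNV : 0 ≤ N0 ^ ε * V := by positivity
        set c1 : ℝ := 36 * C2 with hc1
        set c2 : ℝ := 252 * C1 * C3 with hc2
        set c3 : ℝ := 126 * (6 : ℝ) ^ ((1 : ℝ) / 2) * C1 with hc3
        have hc10 : 0 ≤ c1 := by positivity
        have hc20 : 0 ≤ c2 := by positivity
        have hc30 : 0 ≤ c3 := by positivity
        have f1 : 0 ≤ c1 * (N0 ^ ε * V) * (T2 + T3) := by positivity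
        have f2 : 0 ≤ c2 * (N0 ^ ε * V) * (T1 + T3) := by positivity
        have f3 : 0 ≤ c3 * (N0 ^ ε * V) * (T1 + T2) := by positivity
        calc c1 * N0 ^ ε * V * T1 + c2 * N0 ^ ε * V * T2 + c3 * N0 ^ ε * V * T3
            ≤ c1 * N0 ^ ε * V * T1 + c2 * N0 ^ ε * V * T2 + c3 * N0 ^ ε * V * T3 +
              (c1 * (N0 ^ ε * V) * (T2 + T3) + c2 * (N0 ^ ε * V) * (T1 + T3) +
                c3 * (N0 ^ ε * V) * (T1 + T2)) := by linarith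
          _ = (c1 + c2 + c3) * N0 ^ ε * V * (T1 + T2 + T3) := by ring

end Pool.Agent.Lib.TV
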