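import Pool.Agent.Lib.TN.AllA
import Pool.Agent.Lib.TN.AllW
import Pool.Agent.Lib.TV.AllG
import Pool.Agent.Lib.TV.Vpm
import Pool.Agent.Lib.TV.FinV
import Pool.Agent.Lib.TV.Vrm
import Pool.Agent.Lib.TV.Vsr
import Pool.Agent.Lib.TV.Vsq
import Pool.Agent.Lib.TV.Vim
import Pool.Agent.Lib.TV.Vdg
import Pool.Agent.Lib.TV.Vtr
import Pool.Agent.Lib.TV.Vpg
import Pool.Agent.Lib.TM.Ucs
import Pool.Agent.Lib.TM.Uph
import Pool.Agent.Lib.TM.Udy
import Pool.Agent.Lib.TM.Ugc
import Pool.Agent.Lib.TM.Ugd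
import Pool.Agent.Lib.TM.Uge
import Pool.Agent.Lib.TM.Ugf

/-!
MP_00e23e_nt, directory Lib/TV (THEOREM V): the final statement without hypotheses.
-/

namespace Pool.Agent.Lib.TV

open Pool.Agent.Lib.TB Pool.Agent.Lib.TN Pool.Agent.Lib.TM

/-- If there are no convenient moduli there is nothing to prove. -/
theorem tTAt_empty {δ v g e1 e2 : ℝ} (h : e2 < e1) : TAt δ v g e1 e2 := by
  classical
  refine ⟨0, fun U hU => ⟨1, fun x J s hx _ _ _ => ⟨∅, Finset.empty_subset _, ?_, ?_⟩⟩⟩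
  · rw [Finset.card_empty, Nat.cast_zero, one_mul]
    exact mul_nonneg (Real.rpow_nonneg (by linarith) _)
      (Real.rpow_nonneg (Real.log_nonneg (by linarith)) _)
  · intro i _ _ y M _ hM
    have hempty : M = ∅ := by
      apply Finset.eq_empty_of_forall_notMem
      intro d hd
      obtain ⟨-, -, -, -, t, -, h1, h2⟩ := hM d hd
      have h3 : x ^ e2 < x ^ e1 := Real.rpow_lt_rpow_of_exponent_lt (by linarith) h
      linarith
    rw [hempty, Finset.sum_empty, one_mul]
    exact div_nonneg (by linarith) (Real.rpow_nonneg (Real.log_nonneg (by linarith)) _)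

/-- Theorem V from the sum of the error terms of the family. -/
theorem tTV_of (h : EEVStmt) : TVStmt := by
  intro δ v g ε hδ0 hv hg hgδ hε
  rcases lt_or_ge (1 / 2 - 7 * δ - 2 * v - ε) (2 * δ + v - g + ε) with hlt | hδε
  · exact tTAt_empty hlt
  have hE : EEAt δ v g (2 * δ + v - g + ε / 2) (1 / 2 - 7 * δ - 2 * v - ε / 2) :=
    h δ v g (ε / 2) hδ0 hv hg hgδ (by linarith) (by linarith)
  have hO : OffAt δ v g (ε / 2) (2 * δ + v - g + ε / 2) (1 / 2 - 7 * δ - 2 * v - ε / 2) :=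
    tOffAt tWb (tWx (tWf tWb)) hδ0 hv hg (by linarith) (by linarith) hE
  exact tTAt tWb tDiaK tLpS Pool.Agent.Lib.BV.aExt hO hδ0 (by linarith) (by linarith) hv hg (by linarith)
    (by linarith) (by linarith) (by linarith) (by linarith) (by linarith) (by linarith)

/-- the multilinear form of the family -/
theorem tUpv_all : UpvStmt :=
  tVpg (tVtr tUcs (tVim (tVsq (tVsr (tKsq tWeil) tVrm)) tUph) tVdg (tUgf (tUgd tUgc) tUge)) tUdy

/-- **Theorem V** -/
theorem tTVw : TVStmt := tTV_of (tEEV_of tUpv_all)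

end Pool.Agent.Lib.TV
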