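import Pool.Agent.Lib.TV.StmV
import Pool.Agent.Lib.TM.SpecG

/-!
MP_00e23e_nt, directory Lib/TV (THEOREM V), part G (helper95): the sum of the error terms of the pairs for the whole
family with the better exponents, from the trilinear form of TV. Rules as in TM/SpecG.lean (directory Lib/TV, namespace
Pool.Agent.Lib.TV, open also Pool.Agent.Lib.TM). famG, mainG, GpnStmt, GlaStmt, GdeStmt are those of TM/SpecG.lean.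
-/

namespace Pool.Agent.Lib.TV

open Finset Pool.Agent.Lib.EH3 Pool.Agent.Lib.TB Pool.Agent.Lib.TN Pool.Agent.Lib.TM Pool.Agent.Results.MP_00e23e_nt

/-- the bound of the main part: P = Q / γ (floor) -/
noncomputable def bndV (ε : ℝ) (N Q H γ : ℕ) (L1 L2 K W : ℝ) : ℝ :=
  ((Q : ℝ) * H * (2 * N)) ^ ε * (1 + (H : ℝ) * N / ((γ : ℝ) * ((Q / γ : ℕ) : ℝ) ^ 2)) *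
    (K ^ 2 * W * ((H : ℝ) * γ / L1) + K * W ^ 3 * ((H : ℝ) ^ 2 / ((Q / γ : ℕ) : ℝ)) +
      K ^ 3 * W * ((H : ℝ) ^ 2 * (L2 / ((Q / γ : ℕ) : ℝ)) ^ ((1 : ℝ) / 2)))

/-- Module Gev (200 lines; theorem tGev : GevStmt; uses nothing). The exponents. MODEL: TM/Gex.lean.
Proof. κ = ε/200. 9δ + 3v + 2ε ≤ 1/2 + g ≤ 1/2 + 2δ, so 7δ + 3v + 2ε ≤ 1/2. (a) - (f), (j) as in GexStmt (L2 ≤ N^(1/2-7δ-2v-ε)).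
(g) H γ/L1 ≤ 2G/L1 ≤ 32 N^(κ-v+g-ε). (h) H^2 (L2/P)^(1/2) ≤ 8 G^2 (L2/Q)^(1/2) ≤ 1536 N^(2κ-v-ε/2).
(h') H^2/P ≤ (2G/γ)^2 (2γ/Q) ≤ 8 G^2/Q = 128 N^(2κ-2) Q^3 ≤ 1024 N^(2κ-1/2+3δ) ≤ 1024 N^(2κ-3v-ε/2) (3v + 3δ + ε/2 ≤ 1/2).
(i) With W = K N^v: the last factor is ≤ K^3 N^v 32 N^(κ-v+g-ε) + K^4 N^(3v) 1024 N^(2κ-3v-ε/2) + K^4 N^v 1536 N^(2κ-v-ε/2) ≤ 2592 K^4 N^(2κ-ε/2).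
(k) bndV ≤ 2 N^(3ε/1000) 33 N^κ 2592 K^4 N^(2κ-ε/2) = 171072 K^4 N^(-482 ε/1000) ≤ (414 K^2 N^(-ε/10))^2. C1 = 414 C. -/
def GevStmt : Prop := ∀ (δ v g ε C : ℝ) (j : ℕ), 0 ≤ δ → 0 ≤ v → 0 ≤ g → g ≤ 2 * δ → 0 < ε →
  2 * δ + v - g + ε ≤ 1 / 2 - 7 * δ - 2 * v - ε → 0 ≤ C → 3 ≤ ε / 200 * (2 * j + 1) →
  ∃ C1 : ℝ, ∃ N0 : ℕ, 0 ≤ C1 ∧ ∀ (N Q γ : ℕ) (L1 L2 K : ℝ), N0 ≤ N → 1 ≤ N → 1 ≤ γ →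
    (Q : ℝ) ≤ 2 * (N : ℝ) ^ ((1 : ℝ) / 2 + δ) → (N : ℝ) ^ (2 * δ + v - g + ε) ≤ L1 → L1 ≤ L2 →
    L2 ≤ (N : ℝ) ^ ((1 : ℝ) / 2 - 7 * δ - 2 * v - ε) → (N : ℝ) ^ g ≤ K →
    (γ : ℝ) * N ≤ 4 * (N : ℝ) ^ (ε / 200) * (Q : ℝ) ^ 2 →
    ∃ H : ℕ, 1 ≤ H ∧ γ ≤ Q ∧ 2 * H * γ ≤ Q ^ 2 ∧ 1 ≤ L1 ∧ L2 ≤ ((Q / γ : ℕ) : ℝ) ∧
      (4 * (Q : ℝ) ^ 2 / ((γ : ℝ) * N * H)) ^ (2 * j + 1) ≤ (N : ℝ) ^ (-3 : ℝ) ∧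
      C * ((N : ℝ) / γ) * (bndV (ε / 1000) N Q H γ L1 L2 K (K * (N : ℝ) ^ v)) ^ ((1 : ℝ) / 2) ≤
        C1 * K ^ 2 * (N : ℝ) ^ (1 - ε / 10) / γ

/-- Module Gmv (theorem tGmv (h1 : WbStmt) (h2 : UpvStmt) : GmvStmt). The main part. MODEL: TM/Gma.lean (UpvStmt instead of UpgStmt). -/
def GmvStmt : Prop := ∀ (ε : ℝ) (j : ℕ), 0 < ε → ∃ C : ℝ, 0 ≤ C ∧ ∀ (N Q H γ : ℕ) (L1 L2 K W : ℝ) (A : Finset ℤ)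
    (c : ℤ → ℕ → ℝ),
  1 ≤ N → 1 ≤ H → 1 ≤ γ → γ ≤ Q → 1 ≤ L1 → L1 ≤ L2 → L2 ≤ ((Q / γ : ℕ) : ℝ) → IsCf A K c →
  (∀ a d, c a d ≠ 0 → Conv L1 L2 d) → (A.card : ℝ) ≤ W → (∀ a ∈ A, |a| ≤ (N : ℤ)) →
  ‖∑ a ∈ A, ∑ b ∈ Bg A γ a, pg Q γ (fun m n => ((c a (γ * m) * c b (γ * n) : ℝ) : ℂ) * mainG N j H γ a b m n)‖ ≤
    C * ((N : ℝ) / γ) * (bndV ε N Q H γ L1 L2 K W) ^ ((1 : ℝ) / 2)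

/-- Module Gsv (theorem tGsv (h1 : SN4) (h2 : GpnStmt) (h3 : GmvStmt) : GsvStmt). The bound for small γ. MODEL: TM/Gsm.lean. -/
def GsvStmt : Prop := ∀ (ε : ℝ) (j : ℕ), 0 < ε → ∃ C : ℝ, 0 ≤ C ∧ ∀ (N Q H γ : ℕ) (L1 L2 K W : ℝ) (A : Finset ℤ)
    (c : ℤ → ℕ → ℝ),
  1 ≤ N → 1 ≤ H → 1 ≤ γ → γ ≤ Q → 2 * H * γ ≤ Q ^ 2 → 1 ≤ L1 → L1 ≤ L2 → L2 ≤ ((Q / γ : ℕ) : ℝ) → IsCf A K c →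
  (∀ a d, c a d ≠ 0 → Conv L1 L2 d) → (A.card : ℝ) ≤ W → (∀ a ∈ A, |a| ≤ (N : ℤ)) →
  ‖famG N j Q γ A c‖ ≤ K ^ 2 * (2 * (Q : ℝ)) ^ 2 * (4 * (Q : ℝ) ^ 2 / ((γ : ℝ) * N * H)) ^ (2 * j + 1) +
    C * ((N : ℝ) / γ) * (bndV ε N Q H γ L1 L2 K W) ^ ((1 : ℝ) / 2)

/-- Module Gfv (theorem tGfv (h1 : GlaStmt) (h2 : GsvStmt) (h3 : GevStmt) (h4 : GdeStmt) : EEVStmt). The result. MODEL: TM/Gfi.lean. -/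
def GfvStmt : Prop := EEVStmt

end Pool.Agent.Lib.TV
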