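import Pool.Agent.Lib.TV.StmV
import Pool.Agent.Lib.TN.StmF

/-!
MP_00e23e_nt, directory Lib/TV (THEOREM V), version with the factor f and two blocks Q2 ≤ Q: the interface between
part T (proof of UpfStmt) and part G (use of UpfStmt). Proposal of helper95.
-/

namespace Pool.Agent.Lib.TV

open Finset Pool.Agent.Lib.EH3 Pool.Agent.Lib.TB Pool.Agent.Lib.TN Pool.Agent.Lib.TM Pool.Agent.Results.MP_00e23e_nt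

/-- the multilinear form for the pairs (γ m, γ n), m in the block of Q, n in the block of Q2 ≤ Q, with the factor f
(f coprime to n) and coefficients lam a h of the frequencies. (The proof: UpvStmt with two blocks and f; Cauchy's inequality
over (a, m, r) as before; lam a h is a part of the inner coefficient; q0 > P2 = Q2/γ, q0 ≤ 6 P2 S, so with g = gcd(kM, q0) the inner
sum is ≤ τ(q0) (2 P g/q0 + (q0/g)^(1/2) (3 + log q0)) ≤ τ(q0) (2 (P/P2) g + (6 P2 S)^(1/2) (3 + log q0)); the result of the trilinear form is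
C V (K^2 W P^2 P2^2 H/S + K W^3 P^2 P2 H^2 + K^3 W H^2 P P2^(5/2) S^(1/2)), V = 1 + H τ0/(P P2); divided by (P P2)^2, with S ≤ L2, 1/S ≤ 2γ/L1 and
(P2 L2)^(1/2)/P ≤ (L2/P)^(1/2).) -/
def UpfStmt : Prop := ∀ ε : ℝ, 0 < ε → ∃ C : ℝ, 0 ≤ C ∧ ∀ (Q Q2 γ H f : ℕ) (L1 L2 K W X τ0 : ℝ) (e : ℤ)
    (A : Finset ℤ) (B : ℤ → Finset ℤ) (c c' : ℤ → ℕ → ℝ) (lam : ℤ → ℕ → ℂ) (θ : ℤ → ℤ → ℤ) (τ : ℤ → ℝ),
  1 ≤ γ → γ ≤ Q2 → Q2 ≤ Q → 1 ≤ H → 1 ≤ f → 1 ≤ L1 → L1 ≤ L2 → L2 ≤ ((Q2 / γ : ℕ) : ℝ) → IsCf A K c →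
  IsCf A K c' → (∀ a d, c' a d ≠ 0 → Conv L1 L2 d ∧ f.Coprime d) → (∀ a h, ‖lam a h‖ ≤ 1) → (A.card : ℝ) ≤ W →
  IsTh γ e X A B θ → 1 ≤ X → (∀ a ∈ A, |τ a| ≤ τ0) → 0 ≤ τ0 →
  ‖∑ a ∈ A, ∑ b ∈ B a, ∑ h ∈ Icc 1 H, lam a h * pg2 Q Q2 γ (fun m n => ((c a (γ * m) * c' b (γ * n) : ℝ) : ℂ) *
      (1 / ((m : ℂ) * n)) * eF f ((h : ℤ) * θ a b) ((h : ℝ) * τ a) m n)‖ ^ 2 ≤
    C * ((Q : ℝ) * H * X) ^ ε * (1 + (H : ℝ) * τ0 / (((Q / γ : ℕ) : ℝ) * ((Q2 / γ : ℕ) : ℝ))) *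
      (K ^ 2 * W * ((H : ℝ) * γ / L1) + K * W ^ 3 * ((H : ℝ) ^ 2 / ((Q2 / γ : ℕ) : ℝ)) +
        K ^ 3 * W * ((H : ℝ) ^ 2 * (L2 / ((Q / γ : ℕ) : ℝ)) ^ ((1 : ℝ) / 2)))

end Pool.Agent.Lib.TV
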