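import Pool.Agent.Lib.TV.StmVf
import Pool.Agent.Lib.TV.StmUf
import Pool.Agent.Lib.TV.SpecG
import Pool.Agent.Lib.TN.SpecGf

/-!
MP_00e23e_nt, directory Lib/TV (THEOREM V), part G with the factor f and two blocks (helper95): the sum of the error terms
of the pairs for the whole family (EEGAt of StmVf.lean) from the trilinear form (UpfStmt of StmUf.lean). Rules as in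
TM/SpecG.lean (directory Lib/TV, namespace Pool.Agent.Lib.TV).
-/

namespace Pool.Agent.Lib.TV

open Finset Pool.Agent.Lib.EH3 Pool.Agent.Lib.TB Pool.Agent.Lib.TN Pool.Agent.Lib.TM Pool.Agent.Results.MP_00e23e_nt

/-- the sum of the error terms of the pairs (γ m, γ n) for the whole family -/
noncomputable def famF (N j f Q Q2 γ : ℕ) (A : Finset ℤ) (c c' : ℤ → ℕ → ℝ) : ℂ :=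
  ∑ a ∈ A, ∑ b ∈ Bg A γ a, pg2 Q Q2 γ (fEG N j f γ (c a) (c' b) a b)

/-- the main part of the error term of the pair (γ m, γ n) (as in SF4) -/
noncomputable def mainF (N j H f γ : ℕ) (a b : ℤ) (m n : ℕ) : ℂ :=
  (1 / ((f : ℂ) * (γ * m * n))) * ∑ h ∈ Icc 1 H, ∑ t ∈ Iw N j, ((wt N j t : ℝ) : ℂ) *
    (ee ((h : ℝ) * ((a : ℝ) * (iv (γ * m * n) f : ℝ) / f)) *
        eF f ((h : ℤ) * (-((b - a) / γ))) ((h : ℝ) * (((t : ℝ) - a) / ((f : ℝ) * γ))) m n +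
      ee (-((h : ℝ) * ((a : ℝ) * (iv (γ * m * n) f : ℝ) / f))) *
        eF f ((h : ℤ) * ((b - a) / γ)) ((h : ℝ) * (-(((t : ℝ) - a) / ((f : ℝ) * γ)))) m n)

/-- the bound of the main part: P = Q / γ, P2 = Q2 / γ (floor) -/
noncomputable def bndF (ε : ℝ) (N Q Q2 H γ : ℕ) (L1 L2 K W : ℝ) : ℝ :=
  ((Q : ℝ) * H * (2 * N)) ^ ε *
    (1 + (H : ℝ) * N / ((γ : ℝ) * (((Q / γ : ℕ) : ℝ) * ((Q2 / γ : ℕ) : ℝ)))) *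
    (K ^ 2 * W * ((H : ℝ) * γ / L1) + K * W ^ 3 * ((H : ℝ) ^ 2 / ((Q2 / γ : ℕ) : ℝ)) +
      K ^ 3 * W * ((H : ℝ) ^ 2 * (L2 / ((Q / γ : ℕ) : ℝ)) ^ ((1 : ℝ) / 2)))

/-- Module Hvf (theorem tHvf (h1 : SsclGStmt) (h2 : SszeGStmt) (h3 : Gv0Stmt) : HvfStmt). MODEL: TM/Gv1.lean. -/
def HvfStmt : Prop := ∀ (N j f u w : ℕ) (a b : ℤ), 1 ≤ N → 1 ≤ f → 1 ≤ u → 1 ≤ w → f.Coprime u → f.Coprime w →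
  |SSG N j f u w a b - MM N u w a b / f| ≤ ((f * Nat.lcm u w : ℕ) / (N : ℝ)) ^ (2 * j + 1)

/-- Module Hpn (theorem tHpn : HpnStmt; uses nothing). MODEL: TM/Gpn.lean. -/
def HpnStmt : Prop := ∀ (Q Q2 γ : ℕ) (K D : ℝ) (A : Finset ℤ) (B : ℤ → Finset ℤ) (c c' : ℤ → ℕ → ℝ)
    (e : ℤ → ℤ → ℕ → ℕ → ℂ),
  1 ≤ γ → 0 ≤ D → IsCf A K c → IsCf A K c' → (∀ a ∈ A, B a ⊆ A) →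
  (∀ a ∈ A, ∀ b ∈ B a, ∀ m n : ℕ, 1 ≤ m → 1 ≤ n → Q < γ * m → Q2 < γ * n → γ * m ≤ 2 * Q → γ * n ≤ 2 * Q2 →
    m.Coprime n → c a (γ * m) ≠ 0 → c' b (γ * n) ≠ 0 → ‖e a b m n‖ ≤ D) →
  ‖∑ a ∈ A, ∑ b ∈ B a, pg2 Q Q2 γ (fun m n => ((c a (γ * m) * c' b (γ * n) : ℝ) : ℂ) * e a b m n)‖ ≤
    K ^ 2 * (2 * (Q : ℝ)) * (2 * (Q2 : ℝ)) * D

/-- Module Hla (theorem tHla (h1 : HvfStmt) (h2 : HpnStmt) : HlaStmt). MODEL: TM/Gla.lean. -/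
def HlaStmt : Prop := ∀ (N j f Q Q2 γ : ℕ) (K : ℝ) (A : Finset ℤ) (c c' : ℤ → ℕ → ℝ), 1 ≤ N → 1 ≤ f → 1 ≤ γ →
  IsCf A K c → IsCf A K c' → (∀ a d, c a d ≠ 0 → f.Coprime d) → (∀ a d, c' a d ≠ 0 → f.Coprime d) →
  ‖famF N j f Q Q2 γ A c c'‖ ≤
    K ^ 2 * (2 * (Q : ℝ)) * (2 * (Q2 : ℝ)) * (4 * (f : ℝ) * Q * Q2 / ((γ : ℝ) * N)) ^ (2 * j + 1)

/-- Module Hma (theorem tHma (h1 : WbStmt) (h2 : UpfStmt) : HmaStmt). The main part. MODEL: TV/Gmv.lean and TN/F5.lean. -/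
def HmaStmt : Prop := ∀ (ε : ℝ) (j : ℕ), 0 < ε → ∃ C : ℝ, 0 ≤ C ∧ ∀ (N f Q Q2 H γ : ℕ) (L1 L2 K W : ℝ)
    (A : Finset ℤ) (c c' : ℤ → ℕ → ℝ),
  1 ≤ N → 1 ≤ H → 1 ≤ f → 1 ≤ γ → γ ≤ Q2 → Q2 ≤ Q → 1 ≤ L1 → L1 ≤ L2 → L2 ≤ ((Q2 / γ : ℕ) : ℝ) →
  IsCf A K c → IsCf A K c' → (∀ a d, c' a d ≠ 0 → Conv L1 L2 d ∧ f.Coprime d) → (A.card : ℝ) ≤ W →
  (∀ a ∈ A, |a| ≤ (N : ℤ)) →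
  ‖∑ a ∈ A, ∑ b ∈ Bg A γ a, pg2 Q Q2 γ (fun m n =>
      ((c a (γ * m) * c' b (γ * n) : ℝ) : ℂ) * mainF N j H f γ a b m n)‖ ≤
    C * f * ((N : ℝ) / γ) * (bndF ε N Q Q2 H γ L1 L2 K W) ^ ((1 : ℝ) / 2)

/-- Module Hsm (theorem tHsm (h1 : SF4) (h2 : HpnStmt) (h3 : HmaStmt) : HsmStmt). The bound for small γ. MODEL: TV/Gsv.lean. -/
def HsmStmt : Prop := ∀ (ε : ℝ) (j : ℕ), 0 < ε → ∃ C : ℝ, 0 ≤ C ∧ ∀ (N f Q Q2 H γ : ℕ) (L1 L2 K W : ℝ)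
    (A : Finset ℤ) (c c' : ℤ → ℕ → ℝ),
  1 ≤ N → 1 ≤ H → 1 ≤ f → 1 ≤ γ → γ ≤ Q2 → Q2 ≤ Q → 2 * H * γ ≤ Q * Q2 → 1 ≤ L1 → L1 ≤ L2 →
  L2 ≤ ((Q2 / γ : ℕ) : ℝ) →
  IsCf A K c → IsCf A K c' → (∀ a d, c a d ≠ 0 → f.Coprime d) →
  (∀ a d, c' a d ≠ 0 → Conv L1 L2 d ∧ f.Coprime d) → (A.card : ℝ) ≤ W →
  (∀ a ∈ A, |a| ≤ (N : ℤ)) →
  ‖famF N j f Q Q2 γ A c c'‖ ≤
    K ^ 2 * (2 * (Q : ℝ)) * (2 * (Q2 : ℝ)) * (4 * (f : ℝ) * Q * Q2 / ((γ : ℝ) * N * H)) ^ (2 * j + 1) +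
      C * f * ((N : ℝ) / γ) * (bndF ε N Q Q2 H γ L1 L2 K W) ^ ((1 : ℝ) / 2)

/-- Module Hev (theorem tHev : HevStmt; uses nothing). The exponents. MODEL: TV/Gev.lean.
Proof. κ = ε/200, x = N. G = 4 f x^κ Q Q2/x ≤ 4 x^(2κ) Q^2/x ≤ 16 x^(2κ+2δ); H = ⌈G/γ⌉, G ≤ γ H ≤ 2G. (a) 4 f Q Q2/(γ x H) ≤ x^(-κ).
(b) γ ≤ G = Q2 (4 f x^κ Q/x) ≤ Q2. (c) 2 H γ ≤ 4 G ≤ Q Q2. (e) P2 ≥ Q2/(2γ) ≥ Q2/(2G) = x/(8 f x^κ Q) ≥ L2.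
(f) H x/(γ P P2) ≤ 4 H γ x/(Q Q2) ≤ 32 f x^κ ≤ 32 x^(2κ). (g) H γ/L1 ≤ 32 x^(2κ-v+g-ε). (h) H^2 (L2/P)^(1/2) ≤ 1536 x^(4κ-v-ε/2).
(h') H^2/P2 ≤ 8 G^2/Q2 ≤ 128 x^(4κ-2) Q^3 ≤ 1024 x^(4κ-3v-ε/2). (k) bndF ≤ 171072 K^4 x^(3ε/1000 + 6κ - ε/2). -/
def HevStmt : Prop := ∀ (δ v g ε C : ℝ) (j : ℕ), 0 ≤ δ → 0 ≤ v → 0 ≤ g → g ≤ 2 * δ → 0 < ε →
  2 * δ + v - g + ε ≤ 1 / 2 - 7 * δ - 2 * v - ε → 0 ≤ C → 3 ≤ ε / 200 * (2 * j + 1) →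
  ∃ C1 : ℝ, ∃ N0 : ℕ, 0 ≤ C1 ∧ ∀ (N f Q Q2 γ : ℕ) (L1 L2 K : ℝ), N0 ≤ N → 1 ≤ N → 1 ≤ γ → 1 ≤ f →
    (f : ℝ) ≤ (N : ℝ) ^ (ε / 200) → Q2 ≤ Q →
    (Q : ℝ) ≤ 2 * (N : ℝ) ^ ((1 : ℝ) / 2 + δ) → (N : ℝ) ^ (2 * δ + v - g + ε) ≤ L1 → L1 ≤ L2 →
    L2 ≤ (N : ℝ) ^ ((1 : ℝ) / 2 - 7 * δ - 2 * v - ε) → (N : ℝ) ^ g ≤ K →
    (γ : ℝ) * N ≤ 4 * (f : ℝ) * (N : ℝ) ^ (ε / 200) * Q * Q2 →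
    ∃ H : ℕ, 1 ≤ H ∧ γ ≤ Q2 ∧ 2 * H * γ ≤ Q * Q2 ∧ 1 ≤ L1 ∧ L2 ≤ ((Q2 / γ : ℕ) : ℝ) ∧
      (4 * (f : ℝ) * Q * Q2 / ((γ : ℝ) * N * H)) ^ (2 * j + 1) ≤ (N : ℝ) ^ (-3 : ℝ) ∧
      C * f * ((N : ℝ) / γ) * (bndF (ε / 1000) N Q Q2 H γ L1 L2 K (K * (N : ℝ) ^ v)) ^ ((1 : ℝ) / 2) ≤
        C1 * K ^ 2 * (N : ℝ) ^ (1 - ε / 10) / γ

/-- Module Hde (theorem tHde (h1 : SF1) (h2 : SF3) : HdeStmt). The decomposition. MODEL: TM/Gde.lean. -/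
def HdeStmt : Prop := ∀ (N j f Q Q2 : ℕ) (A : Finset ℤ) (c c' : ℤ → ℕ → ℝ),
  |∑ a ∈ A, ∑ b ∈ A.erase a, ∑ d ∈ Ioc Q (2 * Q), ∑ d' ∈ Ioc Q2 (2 * Q2),
      c a d * c' b d' * (SSG N j f d d' a b - MM N d d' a b / f)| ≤ ∑ γ ∈ Icc 1 (2 * Q2), ‖famF N j f Q Q2 γ A c c'‖

/-- Module Hfi (theorem tHfi (h1 : HlaStmt) (h2 : HsmStmt) (h3 : HevStmt) (h4 : HdeStmt) : HfiStmt). The result for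
Q2 ≤ Q. MODEL: TV/Gfv.lean. -/
def HfiStmt : Prop := ∀ δ v g ε : ℝ, 0 ≤ δ → 0 ≤ v → 0 ≤ g → g ≤ 2 * δ → 0 < ε →
  2 * δ + v - g + ε ≤ 1 / 2 - 7 * δ - 2 * v - ε →
  ∃ (j : ℕ) (C η κ : ℝ) (N0 : ℕ), 0 < η ∧ 0 < κ ∧ ∀ (N Q Q2 f : ℕ) (L1 L2 K : ℝ) (A : Finset ℤ) (c c' : ℤ → ℕ → ℝ),
    N0 ≤ N → 1 ≤ N → Q2 ≤ Q →
    (N : ℝ) ^ ((1 : ℝ) / 2 - κ) ≤ Q2 → (Q : ℝ) ≤ 2 * (N : ℝ) ^ ((1 : ℝ) / 2 + δ) →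
    1 ≤ f → (f : ℝ) ≤ (N : ℝ) ^ κ →
    (N : ℝ) ^ (2 * δ + v - g + ε) ≤ L1 → L2 ≤ (N : ℝ) ^ ((1 : ℝ) / 2 - 7 * δ - 2 * v - ε) →
    IsCf A K c → IsCf A K c' → (∀ a d, c a d ≠ 0 → f.Coprime d) →
    (∀ a d, c' a d ≠ 0 → Conv L1 L2 d ∧ f.Coprime d) → (A.card : ℝ) ≤ K * (N : ℝ) ^ v → (N : ℝ) ^ g ≤ K →
    (∀ a ∈ A, |a| ≤ (N : ℤ)) →
    |∑ a ∈ A, ∑ b ∈ A.erase a, ∑ d ∈ Ioc Q (2 * Q), ∑ d' ∈ Ioc Q2 (2 * Q2),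
        c a d * c' b d' * (SSG N j f d d' a b - MM N d d' a b / f)| ≤ C * K ^ 2 * (N : ℝ) ^ (1 - η)

/-- Module Hsy (theorem tHsy (h : HfiStmt) : HsyStmt). Symmetry. MODEL: TN/F9.lean. -/
def HsyStmt : Prop := ∀ δ v g ε : ℝ, 0 ≤ δ → 0 ≤ v → 0 ≤ g → g ≤ 2 * δ → 0 < ε →
  2 * δ + v - g + ε ≤ 1 / 2 - 7 * δ - 2 * v - ε →
  EEGAt δ v g (2 * δ + v - g + ε) (1 / 2 - 7 * δ - 2 * v - ε)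

end Pool.Agent.Lib.TV
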