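import Pool.Agent.Lib.TV.StmVf

/-!
MP_00e23e_nt, directory Lib/TV, module Vpf: the decomposition of the off-diagonal sum of a pair (congruence f | n,
two blocks).
-/

namespace Pool.Agent.Lib.TV

open Finset Pool.Agent.Lib.EH3 Pool.Agent.Lib.TB Pool.Agent.Lib.TN Pool.Agent.Lib.TM

private lemma Vpf_pow {x p q : ℝ} (hx : 1 ≤ x) (h : p ≤ q) : x ^ p ≤ x ^ q :=
  Real.rpow_le_rpow_of_exponent_le hx h

/-- facts on RN -/
private lemma Vpf_RR {N : ℕ} {δ ε : ℝ} (hN : 1 ≤ N) (hr : 0 ≤ 1 / 2 - δ - ε) : 1 ≤ RN δ ε N ∧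
    (RN δ ε N : ℝ) ≤ (N : ℝ) ^ (1 / 2 - δ - ε : ℝ) ∧ (N : ℝ) ^ (1 / 2 - δ - ε : ℝ) ≤ 2 * (RN δ ε N : ℝ) := by
  have hx : (1 : ℝ) ≤ N := by exact_mod_cast hN
  have h1 : (1 : ℝ) ≤ (N : ℝ) ^ (1 / 2 - δ - ε : ℝ) := Real.one_le_rpow hx hr
  unfold RN
  have h2 : 1 ≤ ⌊(N : ℝ) ^ (1 / 2 - δ - ε : ℝ)⌋₊ := by
    rw [Nat.le_floor_iff (by linarith)]
    exact_mod_cast h1
  have h3 := Nat.floor_le (show (0 : ℝ) ≤ (N : ℝ) ^ (1 / 2 - δ - ε : ℝ) by linarith)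
  have h4 := Nat.lt_floor_add_one ((N : ℝ) ^ (1 / 2 - δ - ε : ℝ))
  have h5 : (1 : ℝ) ≤ (⌊(N : ℝ) ^ (1 / 2 - δ - ε : ℝ)⌋₊ : ℝ) := by exact_mod_cast h2
  exact ⟨h2, h3, by linarith⟩

theorem tVpf (h2 : TauMStmt) (h3 : MmiStmt) (h4 : MmbGStmt) (h5 : McrGStmt)
    (h6 : MfuGStmt) (h7 : MxcGStmt) : VpfStmt := by
  intro δ ε e hδ hε hδε he0 heε
  have he1 : e ≤ 1 := by linarith
  obtain ⟨Ce, hCe0, hCe⟩ := h2 e he0
  obtain ⟨K, hK⟩ : ∃ K : ℝ, K = 4 + 3 * (1 / e) := ⟨_, rfl⟩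
  have hK0 : 0 < K := by
    rw [hK]
    positivity
  refine ⟨8 * Ce * K + 72 * Ce + 256 * Ce ^ 4, by positivity, ?_⟩
  intro N j Q Q2 f c c' a b hN hRQ hQx' hRQ2 hQ2x' hf1 hfε hc hc' hcv hcv' hab ha hb
  have hr0 : 0 ≤ 1 / 2 - δ - ε := by linarith
  obtain ⟨hR1, hR2, hR3⟩ := Vpf_RR hN hr0
  obtain ⟨R, hR⟩ : ∃ R, R = RN δ ε N := ⟨_, rfl⟩
  rw [← hR] at hR1 hR2 hR3 hRQ hRQ2 ⊢
  have hN1' : (1 : ℝ) ≤ N := by exact_mod_cast hN
  have hf0 : (1 : ℝ) ≤ f := by exact_mod_cast hf1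
  obtain ⟨x, hxN⟩ : ∃ x : ℝ, x = (N : ℝ) := ⟨_, rfl⟩
  have hx : (1 : ℝ) ≤ x := by
    rw [hxN]
    exact_mod_cast hN
  have hx0 : (0 : ℝ) < x := by linarith
  have hfx : (f : ℝ) ≤ x ^ (ε / 2) := by
    rw [hxN]
    exact hfε
  have hQx : (Q : ℝ) ≤ 2 * x ^ (1 / 2 + δ : ℝ) := by
    rw [hxN]
    exact hQx'
  have hQ2x : (Q2 : ℝ) ≤ 2 * x ^ (1 / 2 + δ : ℝ) := by
    rw [hxN]
    exact hQ2x'
  have hR2' : (R : ℝ) ≤ x ^ (1 / 2 - δ - ε : ℝ) := by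
    rw [hxN]
    exact hR2
  have hR3' : x ^ (1 / 2 - δ - ε : ℝ) ≤ 2 * (R : ℝ) := by
    rw [hxN]
    exact hR3
  have hR0 : (1 : ℝ) ≤ R := by exact_mod_cast hR1
  have hQ0 : (0 : ℝ) < Q := by
    have g : (R : ℝ) ≤ Q := by exact_mod_cast hRQ
    linarith
  have hQ20 : (0 : ℝ) < Q2 := by
    have g : (R : ℝ) ≤ Q2 := by exact_mod_cast hRQ2
    linarith
  -- divisor bounds
  have hxe1 : (1 : ℝ) ≤ x ^ e := Real.one_le_rpow hx he0.le
  have htau : ∀ n : ℕ, 1 ≤ n → (n : ℝ) ≤ 2 * x → (n.divisors.card : ℝ) ≤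
      2 * Ce * x ^ e := by
    intro n hn hnx
    have g1 := hCe n hn
    have g2 : (n : ℝ) ^ e ≤ (2 * x) ^ e :=
      Real.rpow_le_rpow (by positivity) hnx he0.le
    have g3 : (2 * x) ^ e ≤ 2 * x ^ e := by
      rw [Real.mul_rpow (by norm_num) hx0.le]
      have g4 : (2 : ℝ) ^ e ≤ (2 : ℝ) ^ (1 : ℝ) := Vpf_pow (by norm_num) he1
      rw [Real.rpow_one] at g4
      exact mul_le_mul_of_nonneg_right g4 (by linarith)
    calc (n.divisors.card : ℝ) ≤ Ce * (n : ℝ) ^ e := g1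
      _ ≤ Ce * (2 * x ^ e) := mul_le_mul_of_nonneg_left (g2.trans g3) hCe0.le
      _ = 2 * Ce * x ^ e := by ring
  have htau4 : ∀ Q : ℕ, (Q : ℝ) ≤ 2 * x ^ (1 / 2 + δ : ℝ) → ∀ n ∈ Ioc Q (2 * Q),
      (n.divisors.card : ℝ) ≤ 4 * Ce * x ^ e := by
    intro Q hQx n hn
    rw [mem_Ioc] at hn
    have g0 : (n : ℝ) ≤ 4 * x := by
      have g1 : (n : ℝ) ≤ 2 * Q := by exact_mod_cast hn.2
      have g2 : x ^ (1 / 2 + δ : ℝ) ≤ x ^ (1 : ℝ) := Vpf_pow hx (by linarith)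
      rw [Real.rpow_one] at g2
      linarith
    have g1 := hCe n (by omega)
    have g2 : (n : ℝ) ^ e ≤ (4 * x) ^ e :=
      Real.rpow_le_rpow (by positivity) g0 he0.le
    have g3 : (4 * x) ^ e ≤ 4 * x ^ e := by
      rw [Real.mul_rpow (by norm_num) hx0.le]
      have g4 : (4 : ℝ) ^ e ≤ (4 : ℝ) ^ (1 : ℝ) := Vpf_pow (by norm_num) he1
      rw [Real.rpow_one] at g4
      exact mul_le_mul_of_nonneg_right g4 (by linarith)
    calc (n.divisors.card : ℝ) ≤ Ce * (n : ℝ) ^ e := g1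
      _ ≤ Ce * (4 * x ^ e) := mul_le_mul_of_nonneg_left (g2.trans g3) hCe0.le
      _ = 4 * Ce * x ^ e := by ring
  obtain ⟨m, hm⟩ : ∃ m : ℤ, m = a - b := ⟨_, rfl⟩
  have hm0 : m ≠ 0 := by
    rw [hm]
    exact sub_ne_zero.2 hab
  have htm : (m.natAbs.divisors.card : ℝ) ≤ 2 * Ce * x ^ e := by
    apply htau _ (Int.natAbs_pos.2 hm0)
    have g1 : m.natAbs ≤ 2 * N := by
      rw [hm]
      rw [abs_le] at ha hb
      omega
    rw [hxN]
    exact_mod_cast g1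
  -- the exchange
  have hX := h7 N j f R Q Q2 c c' a b hN hR1 hc hc' hab
  rw [← hm] at hX
  have hXb : ((Q : ℝ) + Q2) * ((m.natAbs.divisors.card : ℝ) * (4 + 3 * Real.log R)) ≤
      8 * Ce * K * x ^ (1 / 2 + δ + ε + e : ℝ) := by
    have g1 : Real.log R ≤ 1 / e * x ^ e := by
      have g2 : Real.log R ≤ Real.log x := by
        apply Real.log_le_log (by linarith)
        have g3 : x ^ (1 / 2 - δ - ε : ℝ) ≤ x ^ (1 : ℝ) := Vpf_pow hx (by linarith)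
        rw [Real.rpow_one] at g3
        linarith
      have g4 := Real.log_le_rpow_div hx0.le he0
      have g5 : x ^ e / e = 1 / e * x ^ e := by ring
      rw [g5] at g4
      linarith
    have g6 : 4 + 3 * Real.log R ≤ K * x ^ e := by
      rw [hK]
      nlinarith
    have g7 : 0 ≤ Real.log R := Real.log_nonneg hR0
    have g8 : (m.natAbs.divisors.card : ℝ) * (4 + 3 * Real.log R) ≤
        (2 * Ce * x ^ e) * (K * x ^ e) :=
      mul_le_mul htm g6 (by linarith) (by positivity)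
    have g9 : ((Q : ℝ) + Q2) * ((m.natAbs.divisors.card : ℝ) * (4 + 3 * Real.log R)) ≤
        (2 * (2 * x ^ (1 / 2 + δ : ℝ))) *
          ((2 * Ce * x ^ e) * (K * x ^ e)) :=
      mul_le_mul (by linarith) g8 (by positivity) (by positivity)
    have g10 : (2 * (2 * x ^ (1 / 2 + δ : ℝ))) *
          ((2 * Ce * x ^ e) * (K * x ^ e)) =
        8 * Ce * K * x ^ ((1 / 2 + δ) + e + e : ℝ) := by
      rw [Real.rpow_add hx0 ((1 / 2 + δ) + e), Real.rpow_add hx0 (1 / 2 + δ)]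
      ring
    rw [g10] at g9
    refine g9.trans (mul_le_mul_of_nonneg_left (Vpf_pow hx ?_) (by positivity))
    linarith
  -- the expansion
  have hpos : ∀ Q : ℕ, ∀ d ∈ Ioc Q (2 * Q), 1 ≤ d := fun Q d hd => by
    rw [mem_Ioc] at hd
    omega
  have hexp : ∑ n ∈ Iw N j, wt N j n * (if (f : ℤ) ∣ n then 1 else 0) *
      ((∑ d ∈ Ioc Q (2 * Q), c d * dd R d (n - a)) *
      (∑ d' ∈ Ioc Q2 (2 * Q2), c' d' * dd R d' (n - b))) =
      ∑ d ∈ Ioc Q (2 * Q), ∑ d' ∈ Ioc Q2 (2 * Q2), c d * c' d' *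
        (((N : ℝ) / ((d : ℝ) * d')) *
          (∑ s ∈ (Nat.gcd d d').divisors.filter (fun s => R < s), rs s m) / f) +
      ∑ d ∈ Ioc Q (2 * Q), ∑ d' ∈ Ioc Q2 (2 * Q2),
        c d * c' d' * (SSG N j f d d' a b - MM N d d' a b / f) +
      ∑ d ∈ Ioc Q (2 * Q), ∑ d' ∈ Ioc Q2 (2 * Q2), c d * c' d' *
        (∑ u ∈ d.divisors, ∑ w ∈ d'.divisors, kap R d u * kap R d' w *
          (SSG N j f u w a b - MM N u w a b / f) - (SSG N j f d d' a b - MM N d d' a b / f)) := by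
    rw [h6, ← Finset.sum_add_distrib, ← Finset.sum_add_distrib]
    refine Finset.sum_congr rfl fun d hd => ?_
    rw [← Finset.sum_add_distrib, ← Finset.sum_add_distrib]
    refine Finset.sum_congr rfl fun d' hd' => ?_
    rw [hm, ← h3 N R d d' a b (hpos Q d hd) (hpos Q2 d' hd')]
    have g1 : ∑ u ∈ d.divisors, ∑ w ∈ d'.divisors, kap R d u * kap R d' w * SSG N j f u w a b =
        (∑ u ∈ d.divisors, ∑ w ∈ d'.divisors, kap R d u * kap R d' w * MM N u w a b) / f +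
        ∑ u ∈ d.divisors, ∑ w ∈ d'.divisors, kap R d u * kap R d' w *
          (SSG N j f u w a b - MM N u w a b / f) := by
      rw [Finset.sum_div, ← Finset.sum_add_distrib]
      refine Finset.sum_congr rfl fun u _ => ?_
      rw [Finset.sum_div, ← Finset.sum_add_distrib]
      refine Finset.sum_congr rfl fun w _ => ?_
      ring
    rw [g1]
    ring
  have hcc : ∀ (d d' : ℕ) (z : ℝ), |c d * c' d' * z| ≤ |z| := by
    intro d d' z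
    rw [abs_mul, abs_mul]
    have g1 : |c d| * |c' d'| ≤ 1 := mul_le_one₀ (hc d) (abs_nonneg _) (hc' d')
    calc |c d| * |c' d'| * |z| ≤ 1 * |z| := mul_le_mul_of_nonneg_right g1 (abs_nonneg _)
      _ = |z| := one_mul _
  -- main terms
  have hA : |∑ d ∈ Ioc Q (2 * Q), ∑ d' ∈ Ioc Q2 (2 * Q2), c d * c' d' *
        (((N : ℝ) / ((d : ℝ) * d')) *
          (∑ s ∈ (Nat.gcd d d').divisors.filter (fun s => R < s), rs s m) / f)| ≤
      72 * Ce * x ^ (1 / 2 + δ + ε + e : ℝ) := by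
    have g1 : |∑ d ∈ Ioc Q (2 * Q), ∑ d' ∈ Ioc Q2 (2 * Q2), c d * c' d' *
        (((N : ℝ) / ((d : ℝ) * d')) *
          (∑ s ∈ (Nat.gcd d d').divisors.filter (fun s => R < s), rs s m) / f)| ≤
        18 * (N : ℝ) * (m.natAbs.divisors.card : ℝ) / R := by
      refine le_trans ?_ (h4 N R Q Q2 m hR1 hm0)
      refine (Finset.abs_sum_le_sum_abs _ _).trans (Finset.sum_le_sum fun d _ => ?_)
      refine (Finset.abs_sum_le_sum_abs _ _).trans (Finset.sum_le_sum fun d' _ => ?_)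
      refine (hcc d d' _).trans ?_
      rw [abs_div, abs_of_nonneg (show (0 : ℝ) ≤ (f : ℝ) by linarith)]
      exact div_le_self (abs_nonneg _) hf0
    refine g1.trans ?_
    rw [← hxN, div_le_iff₀ (by linarith)]
    have g2 : 18 * x * (m.natAbs.divisors.card : ℝ) ≤ 18 * x * (2 * Ce * x ^ e) :=
      mul_le_mul_of_nonneg_left htm (by positivity)
    have g3 : 72 * Ce * x ^ (1 / 2 + δ + ε + e : ℝ) * (x ^ (1 / 2 - δ - ε : ℝ) / 2) ≤
        72 * Ce * x ^ (1 / 2 + δ + ε + e : ℝ) * R :=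
      mul_le_mul_of_nonneg_left (by linarith) (by positivity)
    have g4 : 72 * Ce * x ^ (1 / 2 + δ + ε + e : ℝ) * (x ^ (1 / 2 - δ - ε : ℝ) / 2) =
        36 * Ce * x ^ ((1 / 2 + δ + ε + e) + (1 / 2 - δ - ε) : ℝ) := by
      rw [Real.rpow_add hx0 (1 / 2 + δ + ε + e)]
      ring
    have g5 : 18 * x * (2 * Ce * x ^ e) = 36 * Ce * x ^ (1 + e : ℝ) := by
      rw [Real.rpow_add hx0, Real.rpow_one]
      ring
    have g6 : 36 * Ce * x ^ (1 + e : ℝ) ≤ 36 * Ce * x ^ ((1 / 2 + δ + ε + e) + (1 / 2 - δ - ε) : ℝ) :=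
      mul_le_mul_of_nonneg_left (Vpf_pow hx (by linarith)) (by positivity)
    linarith
  -- cross terms
  obtain ⟨q, hq⟩ : ∃ q : ℝ, q = 2 * (Q : ℝ) / Q2 + 2 * (Q2 : ℝ) / Q + 1 := ⟨_, rfl⟩
  have hq0 : 0 ≤ q := by
    rw [hq]
    positivity
  have hE : |∑ d ∈ Ioc Q (2 * Q), ∑ d' ∈ Ioc Q2 (2 * Q2), c d * c' d' *
        (∑ u ∈ d.divisors, ∑ w ∈ d'.divisors, kap R d u * kap R d' w *
          (SSG N j f u w a b - MM N u w a b / f) - (SSG N j f d d' a b - MM N d d' a b / f))| ≤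
      ∑ d ∈ Ioc Q (2 * Q), ∑ d' ∈ Ioc Q2 (2 * Q2),
        |c d| * |c' d'| * (256 * Ce ^ 4 * x ^ (-(2 * δ) - ε : ℝ) * q) := by
    obtain ⟨T, hT⟩ : ∃ T : ℝ, T = 4 * Ce * x ^ e := ⟨_, rfl⟩
    have hT0 : 0 ≤ T := by
      rw [hT]
      positivity
    have g0 : ∀ Q : ℕ, (Q : ℝ) ≤ 2 * x ^ (1 / 2 + δ : ℝ) → ∀ d ∈ Ioc Q (2 * Q),
        (d.divisors.card : ℝ) ^ 2 ≤ T ^ 2 := by
      intro Q hQ d hd
      rw [hT]
      exact pow_le_pow_left₀ (by positivity) (htau4 Q hQ d hd) 2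
    have g3 : (f : ℝ) * (R : ℝ) ^ 2 / N * q * (T ^ 2 * T ^ 2) ≤ 256 * Ce ^ 4 * x ^ (-(2 * δ) - ε : ℝ) * q := by
      obtain ⟨r, hr⟩ : ∃ r : ℝ, r = 1 / 2 - δ - ε := ⟨_, rfl⟩
      rw [← hr] at hR2'
      have g4 : (R : ℝ) * R ≤ x ^ r * x ^ r := mul_le_mul hR2' hR2' (by positivity) (by positivity)
      have g2 : (f : ℝ) * (R : ℝ) ^ 2 / N * q * (T ^ 2 * T ^ 2) =
          ((f : ℝ) * ((R : ℝ) * R)) * ((T ^ 2 * T ^ 2) / x) * q := by
        rw [hxN]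
        ring
      rw [g2]
      refine mul_le_mul_of_nonneg_right ?_ hq0
      have g6 : ((f : ℝ) * ((R : ℝ) * R)) * ((T ^ 2 * T ^ 2) / x) ≤
          (x ^ (ε / 2) * (x ^ r * x ^ r)) * ((T ^ 2 * T ^ 2) / x) :=
        mul_le_mul_of_nonneg_right (mul_le_mul hfx g4 (by positivity) (by positivity)) (by positivity)
      refine g6.trans ?_
      obtain ⟨p, hp⟩ : ∃ p : ℝ, p = ε / 2 := ⟨_, rfl⟩
      rw [← hp]
      have g7 : (x ^ p * (x ^ r * x ^ r)) * ((T ^ 2 * T ^ 2) / x) =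
          256 * Ce ^ 4 * x ^ (p + r + r + e + e + e + e - 1 : ℝ) := by
        rw [hT, Real.rpow_sub hx0, Real.rpow_one, Real.rpow_add hx0, Real.rpow_add hx0,
          Real.rpow_add hx0, Real.rpow_add hx0, Real.rpow_add hx0, Real.rpow_add hx0]
        ring
      rw [g7]
      exact mul_le_mul_of_nonneg_left (Vpf_pow hx (by rw [hr, hp]; linarith)) (by positivity)
    refine (Finset.abs_sum_le_sum_abs _ _).trans (Finset.sum_le_sum fun d hd => ?_)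
    refine (Finset.abs_sum_le_sum_abs _ _).trans (Finset.sum_le_sum fun d' hd' => ?_)
    by_cases hcd : c d = 0
    · rw [hcd, zero_mul, zero_mul, abs_zero, zero_mul, zero_mul]
    by_cases hcd' : c' d' = 0
    · rw [hcd', mul_zero, zero_mul, abs_zero, mul_zero, zero_mul]
    rw [abs_mul, abs_mul]
    refine mul_le_mul_of_nonneg_left ?_ (mul_nonneg (abs_nonneg _) (abs_nonneg _))
    have g8 := h5 N j f R Q Q2 d d' a b hN hf1 hR1 hRQ hRQ2 hd hd' (hcv d hcd) (hcv' d' hcd')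
    rw [← hq] at g8
    refine (g8.trans ?_).trans g3
    exact mul_le_mul_of_nonneg_left
      (mul_le_mul (g0 Q hQx d hd) (g0 Q2 hQ2x d' hd') (by positivity) (by positivity)) (by positivity)
  obtain ⟨C, hC⟩ : ∃ C : ℝ, C = 8 * Ce * K + 72 * Ce + 256 * Ce ^ 4 := ⟨_, rfl⟩
  rw [← hxN, ← hC, ← hq]
  have k0 : 0 ≤ x ^ (-(2 * δ) - ε : ℝ) := by positivity
  have k0' : 0 ≤ x ^ (1 / 2 + δ + ε + e : ℝ) := by positivity
  have k1 : ∑ d ∈ Ioc Q (2 * Q), ∑ d' ∈ Ioc Q2 (2 * Q2),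
        |c d| * |c' d'| * (256 * Ce ^ 4 * x ^ (-(2 * δ) - ε : ℝ) * q) ≤
      ∑ d ∈ Ioc Q (2 * Q), ∑ d' ∈ Ioc Q2 (2 * Q2), |c d| * |c' d'| * (C * x ^ (-(2 * δ) - ε : ℝ) * q) := by
    refine Finset.sum_le_sum fun d _ => Finset.sum_le_sum fun d' _ => ?_
    refine mul_le_mul_of_nonneg_left ?_ (mul_nonneg (abs_nonneg _) (abs_nonneg _))
    refine mul_le_mul_of_nonneg_right (mul_le_mul_of_nonneg_right ?_ k0) hq0
    rw [hC]
    have : 0 ≤ 8 * Ce * K + 72 * Ce := by positivity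
    linarith
  have k2 : 8 * Ce * K * x ^ (1 / 2 + δ + ε + e : ℝ) + 72 * Ce * x ^ (1 / 2 + δ + ε + e : ℝ) ≤
      C * x ^ (1 / 2 + δ + ε + e : ℝ) := by
    rw [← add_mul]
    refine mul_le_mul_of_nonneg_right ?_ k0'
    rw [hC]
    have : 0 ≤ 256 * Ce ^ 4 := by positivity
    linarith
  rw [hexp] at hX
  have hX' := hX.trans hXb
  have hE' := hE.trans k1
  rw [abs_le] at hX' hA hE' ⊢
  constructor
  · linarith [hX'.1, hA.1, hE'.1]
  · linarith [hX'.2, hA.2, hE'.2]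

end Pool.Agent.Lib.TV
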