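import Pool.Agent.Lib.TV.StmVf
import Pool.Agent.Lib.TV.Vpr
import Pool.Agent.Lib.TV.Vpf

/-!
MP_00e23e_nt, directory Lib/TV, module Vog: the sum over the pairs (a, b) of the family; part Mf with generic exponents
(congruence f | n, blocks Q and Q2).
-/

namespace Pool.Agent.Lib.TV

open Finset Pool.Agent.Lib.EH3 Pool.Agent.Lib.TB Pool.Agent.Lib.TN Pool.Agent.Lib.TM

private lemma Vog_RR_le {δ ε : ℝ} (N : ℕ) (hN : 1 ≤ N) (hr : 1 / 2 - δ - ε ≤ 1) : (RN δ ε N : ℝ) ≤ N := by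
  unfold RN
  have h1 : (1 : ℝ) ≤ N := by exact_mod_cast hN
  refine (Nat.floor_le (Real.rpow_nonneg (by linarith) _)).trans ?_
  calc (N : ℝ) ^ (1 / 2 - δ - ε : ℝ) ≤ (N : ℝ) ^ (1 : ℝ) :=
        Real.rpow_le_rpow_of_exponent_le h1 hr
    _ = N := Real.rpow_one _

private lemma Vog_FF (h1 : MabStmt) {δ ε : ℝ} (N Q k : ℕ) (c : ℕ → ℝ) (m : ℤ) (hN : 1 ≤ N)
    (hr : 0 ≤ 1 / 2 - δ - ε) (hr' : 1 / 2 - δ - ε ≤ 1)
    (hc : ∀ d, |c d| ≤ 1) (hm : |m| ≤ (((k * N : ℕ)) : ℤ)) :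
    |FF (RN δ ε N) Q c m| ≤ (k : ℝ) * (N : ℝ) * (4 + 3 * N) := by
  have hN1 : (1 : ℝ) ≤ N := by exact_mod_cast hN
  unfold FF
  by_cases h0 : m = 0
  · rw [if_pos h0, abs_zero]
    positivity
  · rw [if_neg h0]
    have hR := (Vpr_RR hN hr).1
    have hR1 : (1 : ℝ) ≤ RN δ ε N := by exact_mod_cast hR
    have h2 : |∑ d ∈ Ioc Q (2 * Q), c d * dd (RN δ ε N) d m| ≤
        ∑ d ∈ Ioc Q (2 * Q), |dd (RN δ ε N) d m| := by
      refine (Finset.abs_sum_le_sum_abs _ _).trans (Finset.sum_le_sum fun d _ => ?_)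
      rw [abs_mul]
      calc |c d| * |dd (RN δ ε N) d m| ≤ 1 * |dd (RN δ ε N) d m| :=
            mul_le_mul_of_nonneg_right (hc d) (abs_nonneg _)
        _ = |dd (RN δ ε N) d m| := one_mul _
    have h3 := h1.1 (RN δ ε N) Q m hR h0
    have h4 : (m.natAbs.divisors.card : ℝ) ≤ (k : ℝ) * N := by
      have h5 : m.natAbs.divisors.card ≤ m.natAbs := Nat.card_divisors_le_self _
      have h6 : m.natAbs ≤ k * N := by
        have : (m.natAbs : ℤ) ≤ ((k * N : ℕ) : ℤ) := by rw [Int.natCast_natAbs]; exact hm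
        exact_mod_cast this
      exact_mod_cast h5.trans h6
    have h7 : Real.log (RN δ ε N) ≤ N := by
      have h8 := Real.log_le_sub_one_of_pos (show (0 : ℝ) < RN δ ε N by linarith)
      have h9 := Vog_RR_le (δ := δ) (ε := ε) N hN hr'
      linarith
    have h10 : 0 ≤ Real.log (RN δ ε N) := Real.log_nonneg hR1
    refine (h2.trans h3).trans ?_
    exact mul_le_mul h4 (by linarith) (by linarith) (by positivity)

/-- the trivial bound for a pair (a, b), for N ≤ N0 -/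
private lemma Vog_small (h0 : WbStmt) (h1 : MabStmt) {δ ε : ℝ} (N0 N j Q Q2 f : ℕ) (c c' : ℕ → ℝ) (a b : ℤ)
    (hN : 1 ≤ N) (hNN : N ≤ N0) (hr : 0 ≤ 1 / 2 - δ - ε) (hr' : 1 / 2 - δ - ε ≤ 1)
    (hc : ∀ d, |c d| ≤ 1) (hc' : ∀ d, |c' d| ≤ 1) (ha : |a| ≤ (N : ℤ)) (hb : |b| ≤ (N : ℤ)) :
    |∑ n ∈ Iw N j, wt N j n * (if (f : ℤ) ∣ n then 1 else 0) *
        (FF (RN δ ε N) Q c (n - a) * FF (RN δ ε N) Q2 c' (n - b))| ≤
      (2 * ((j : ℝ) + 1) * (N0 : ℝ) + 1) *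
        ((((j : ℝ) + 2) * (N0 : ℝ) * (4 + 3 * N0)) * (((j : ℝ) + 2) * (N0 : ℝ) * (4 + 3 * N0))) := by
  have hN1 : (1 : ℝ) ≤ N := by exact_mod_cast hN
  obtain ⟨B, hBdef⟩ : ∃ B : ℝ, B = ((j : ℝ) + 2) * (N0 : ℝ) * (4 + 3 * N0) := ⟨_, rfl⟩
  rw [← hBdef]
  have hNN0 : (N : ℝ) ≤ N0 := by exact_mod_cast hNN
  have hN00 : (0 : ℝ) ≤ N0 := Nat.cast_nonneg _
  have hj0 : (0 : ℝ) ≤ j := Nat.cast_nonneg _
  have hFB : ∀ (Q : ℕ) (c : ℕ → ℝ) (m : ℤ), (∀ d, |c d| ≤ 1) → |m| ≤ ((((j + 2) * N : ℕ)) : ℤ) →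
      |FF (RN δ ε N) Q c m| ≤ B := by
    intro Q c m hc hm
    refine (Vog_FF h1 N Q (j + 2) c m hN hr hr' hc hm).trans ?_
    rw [hBdef]
    push_cast
    have g1 : ((j : ℝ) + 2) * (N : ℝ) ≤ ((j : ℝ) + 2) * (N0 : ℝ) :=
      mul_le_mul_of_nonneg_left hNN0 (by linarith)
    exact mul_le_mul g1 (by linarith) (by linarith) (by positivity)
  have hB0 : 0 ≤ B := by rw [hBdef]; positivity
  have hw := h0 N j hN
  have hsum : |∑ n ∈ Iw N j, wt N j n * (if (f : ℤ) ∣ n then 1 else 0) * (FF (RN δ ε N) Q c (n - a) *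
      FF (RN δ ε N) Q2 c' (n - b))| ≤ ∑ n ∈ Iw N j, B * B := by
    refine (Finset.abs_sum_le_sum_abs _ _).trans (Finset.sum_le_sum fun n hn => ?_)
    obtain ⟨hn1, hn2⟩ := Finset.mem_Icc.1 hn
    rw [abs_mul, abs_mul (FF (RN δ ε N) Q c (n - a))]
    have hn3 : |n| ≤ (((j + 1) * N : ℕ) : ℤ) := abs_le.2 ⟨hn1, hn2⟩
    have e1 : (((j + 2) * N : ℕ) : ℤ) = (((j + 1) * N : ℕ) : ℤ) + N := by
      push_cast
      ring
    have h6 : |FF (RN δ ε N) Q c (n - a)| ≤ B := by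
      apply hFB Q c _ hc
      have := abs_sub n a
      rw [e1]
      linarith
    have h7 : |FF (RN δ ε N) Q2 c' (n - b)| ≤ B := by
      apply hFB Q2 c' _ hc'
      have := abs_sub n b
      rw [e1]
      linarith
    have h8 : |wt N j n * (if (f : ℤ) ∣ n then (1 : ℝ) else 0)| ≤ 1 := by
      have g1 := hw.1 n
      have g2 := hw.2.1 n
      rw [abs_le]
      split_ifs <;> constructor <;> linarith
    calc |wt N j n * (if (f : ℤ) ∣ n then (1 : ℝ) else 0)| *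
        (|FF (RN δ ε N) Q c (n - a)| * |FF (RN δ ε N) Q2 c' (n - b)|) ≤ 1 * (B * B) :=
          mul_le_mul h8 (mul_le_mul h6 h7 (abs_nonneg _) hB0)
            (mul_nonneg (abs_nonneg _) (abs_nonneg _)) zero_le_one
      _ = B * B := one_mul _
  have hcard : ∑ n ∈ Iw N j, B * B = (2 * ((j : ℝ) + 1) * (N : ℝ) + 1) * (B * B) := by
    unfold Iw
    rw [Finset.sum_const, Int.card_Icc, nsmul_eq_mul]
    congr 1
    have : ((((j + 1) * N : ℕ) : ℤ) + 1 - -(((j + 1) * N : ℕ) : ℤ)).toNat = 2 * ((j + 1) * N) + 1 := by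
      omega
    rw [this]
    push_cast
    ring
  rw [hcard] at hsum
  refine hsum.trans (mul_le_mul_of_nonneg_right ?_ (mul_nonneg hB0 hB0))
  have g1 : (2 * ((j : ℝ) + 1)) * (N : ℝ) ≤ (2 * ((j : ℝ) + 1)) * (N0 : ℝ) :=
    mul_le_mul_of_nonneg_left hNN0 (by linarith)
  linarith

/-- a double sum over the pairs a ≠ b of A -/
private lemma Vog_card (A : Finset ℤ) {B : ℝ} (hB : 0 ≤ B) :
    ∑ a ∈ A, ∑ _b ∈ A.erase a, B ≤ (A.card : ℝ) * A.card * B := by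
  have h1 : ∀ a ∈ A, ∑ _b ∈ A.erase a, B ≤ (A.card : ℝ) * B := by
    intro a _
    rw [Finset.sum_const, nsmul_eq_mul]
    refine mul_le_mul_of_nonneg_right ?_ hB
    exact_mod_cast Finset.card_erase_le
  refine (Finset.sum_le_sum h1).trans ?_
  rw [Finset.sum_const, nsmul_eq_mul, mul_assoc]

/-- the weighted double sum over the pairs -/
private lemma Vog_wsum (A : Finset ℤ) (Q Q2 : ℕ) (K B : ℝ) (c c' : ℤ → ℕ → ℝ) (hB : 0 ≤ B) (hK : 0 ≤ K)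
    (hc : ∀ d, ∑ a ∈ A, |c a d| ≤ K) (hc' : ∀ d, ∑ a ∈ A, |c' a d| ≤ K) :
    ∑ a ∈ A, ∑ b ∈ A.erase a, ∑ d ∈ Ioc Q (2 * Q), ∑ d' ∈ Ioc Q2 (2 * Q2), |c a d| * |c' b d'| * B ≤
      K ^ 2 * ((Q : ℝ) * Q2) * B := by
  have h1 : ∑ a ∈ A, ∑ b ∈ A.erase a, ∑ d ∈ Ioc Q (2 * Q), ∑ d' ∈ Ioc Q2 (2 * Q2), |c a d| * |c' b d'| * B ≤
      ∑ a ∈ A, ∑ b ∈ A, ∑ d ∈ Ioc Q (2 * Q), ∑ d' ∈ Ioc Q2 (2 * Q2), |c a d| * |c' b d'| * B := by
    refine Finset.sum_le_sum fun a _ => ?_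
    refine Finset.sum_le_sum_of_subset_of_nonneg (Finset.erase_subset _ _) fun b _ _ => ?_
    exact Finset.sum_nonneg fun d _ => Finset.sum_nonneg fun d' _ =>
      mul_nonneg (mul_nonneg (abs_nonneg _) (abs_nonneg _)) hB
  refine h1.trans ?_
  have h2 : ∑ a ∈ A, ∑ b ∈ A, ∑ d ∈ Ioc Q (2 * Q), ∑ d' ∈ Ioc Q2 (2 * Q2), |c a d| * |c' b d'| * B =
      ∑ d ∈ Ioc Q (2 * Q), ∑ d' ∈ Ioc Q2 (2 * Q2), (∑ a ∈ A, |c a d|) * (∑ b ∈ A, |c' b d'|) * B := by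
    have e1 : ∀ a ∈ A, ∑ b ∈ A, ∑ d ∈ Ioc Q (2 * Q), ∑ d' ∈ Ioc Q2 (2 * Q2), |c a d| * |c' b d'| * B =
        ∑ d ∈ Ioc Q (2 * Q), ∑ d' ∈ Ioc Q2 (2 * Q2), ∑ b ∈ A, |c a d| * |c' b d'| * B := by
      intro a _
      rw [Finset.sum_comm]
      refine Finset.sum_congr rfl fun d _ => ?_
      rw [Finset.sum_comm]
    rw [Finset.sum_congr rfl e1, Finset.sum_comm]
    refine Finset.sum_congr rfl fun d _ => ?_
    rw [Finset.sum_comm]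
    refine Finset.sum_congr rfl fun d' _ => ?_
    rw [Finset.sum_mul_sum, Finset.sum_mul]
    refine Finset.sum_congr rfl fun a _ => ?_
    rw [Finset.sum_mul]
  rw [h2]
  have h3 : ∀ d ∈ Ioc Q (2 * Q), ∀ d' ∈ Ioc Q2 (2 * Q2),
      (∑ a ∈ A, |c a d|) * (∑ b ∈ A, |c' b d'|) * B ≤ K * K * B := by
    intro d _ d' _
    refine mul_le_mul_of_nonneg_right ?_ hB
    exact mul_le_mul (hc d) (hc' d') (Finset.sum_nonneg fun _ _ => abs_nonneg _) hK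
  refine (Finset.sum_le_sum fun d hd => Finset.sum_le_sum fun d' hd' => h3 d hd d' hd').trans ?_
  rw [Finset.sum_const, Finset.sum_const, Nat.card_Ioc, Nat.card_Ioc, nsmul_eq_mul, nsmul_eq_mul]
  have e0 : 2 * Q - Q = Q := by omega
  have e0' : 2 * Q2 - Q2 = Q2 := by omega
  rw [e0, e0']
  exact le_of_eq (by ring)

/-- **part Mf, generic exponents**: (OFF) for the whole family from the sum of the error terms of the pairs (d, d') -/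
theorem tVog (h0 : WbStmt) (h1 : MabStmt) (hp : VpfStmt) {δ v g ε e1 e2 : ℝ} (hδ : 0 ≤ δ) (hv : 0 ≤ v) (hg : 0 ≤ g)
    (hε : 0 < ε) (hgap : 2 * v + δ + ε < 1 / 2) (hEE : EEGAt δ v g e1 e2) : OffGAt δ v g ε e1 e2 := by
  obtain ⟨j, C1, η1, κ1, N0, hη1, hκ1, hEE⟩ := hEE
  obtain ⟨gap, hgp⟩ : ∃ gap : ℝ, gap = 1 / 2 - 2 * v - δ - ε := ⟨_, rfl⟩
  have hgp0 : 0 < gap := by rw [hgp]; linarith
  obtain ⟨e, he⟩ : ∃ e : ℝ, e = min (ε / 8) (gap / 2) := ⟨_, rfl⟩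
  have he0 : 0 < e := by rw [he]; exact lt_min (by linarith) (by linarith)
  have heε : e ≤ ε / 8 := by rw [he]; exact min_le_left _ _
  have heg : e ≤ gap / 2 := by rw [he]; exact min_le_right _ _
  obtain ⟨C2, hC20, hC2⟩ := hp δ ε e hδ hε (by linarith) he0 heε
  have hr : 0 ≤ 1 / 2 - δ - ε := by linarith
  have hr' : 1 / 2 - δ - ε ≤ 1 := by linarith
  obtain ⟨S, hS⟩ : ∃ S : ℝ, S = (2 * ((j : ℝ) + 1) * (N0 : ℝ) + 1) *
        ((((j : ℝ) + 2) * (N0 : ℝ) * (4 + 3 * N0)) * (((j : ℝ) + 2) * (N0 : ℝ) * (4 + 3 * N0))) := ⟨_, rfl⟩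
  have hS0 : 0 ≤ S := by rw [hS]; positivity
  obtain ⟨η, hη⟩ : ∃ η : ℝ, η = min (min η1 1) (min (gap / 2) ε) := ⟨_, rfl⟩
  have hη0 : 0 < η := by
    rw [hη]
    exact lt_min (lt_min hη1 one_pos) (lt_min (by linarith) hε)
  have hηa : η ≤ η1 := by rw [hη]; exact (min_le_left _ _).trans (min_le_left _ _)
  have hηb : η ≤ 1 := by rw [hη]; exact (min_le_left _ _).trans (min_le_right _ _)
  have hηc : η ≤ gap / 2 := by rw [hη]; exact (min_le_right _ _).trans (min_le_left _ _)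
  have hηd : η ≤ ε := by rw [hη]; exact (min_le_right _ _).trans (min_le_right _ _)
  refine ⟨j, |C1| + 21 * C2 + S * (N0 : ℝ) ^ (2 * v), η, min κ1 (ε / 2), hη0, lt_min hκ1 (by linarith), ?_⟩
  intro N Q Q2 f L1 L2 K A c c' hN hκQ hQx hκQ2 hQ2x hf1 hfκ hL1 hL2 hcf hcf' hcv hcv' hA hK ha
  have hN1 : (1 : ℝ) ≤ N := by exact_mod_cast hN
  have hNp : (0 : ℝ) < N := by linarith
  have hK1 : 1 ≤ K := (Real.one_le_rpow hN1 hg).trans hK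
  have hK0 : 0 ≤ K := by linarith
  have hAA : (A.card : ℝ) * A.card ≤ K ^ 2 * (N : ℝ) ^ (2 * v) := by
    have g1 := mul_le_mul hA hA (Nat.cast_nonneg _) (by positivity)
    refine g1.trans (le_of_eq ?_)
    rw [two_mul, Real.rpow_add hNp]
    ring
  have hSN : 0 ≤ S * (N0 : ℝ) ^ (2 * v) := mul_nonneg hS0 (Real.rpow_nonneg (Nat.cast_nonneg _) _)
  have hκa : min κ1 (ε / 2) ≤ ε / 2 := min_le_right _ _
  have hκb : min κ1 (ε / 2) ≤ κ1 := min_le_left _ _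
  by_cases hcase : N0 ≤ N
  · -- large N
    have g1 : (N : ℝ) ^ (1 / 2 - δ - ε : ℝ) ≤ (N : ℝ) ^ ((1 : ℝ) / 2 - min κ1 (ε / 2)) :=
      Real.rpow_le_rpow_of_exponent_le hN1 (by linarith)
    have hRQr : (RN δ ε N : ℝ) ≤ Q := ((Vpr_RR hN hr).2.1.trans g1).trans hκQ
    have hRQ2r : (RN δ ε N : ℝ) ≤ Q2 := ((Vpr_RR hN hr).2.1.trans g1).trans hκQ2
    have hRQ : RN δ ε N ≤ Q := by exact_mod_cast hRQr
    have hRQ2 : RN δ ε N ≤ Q2 := by exact_mod_cast hRQ2r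
    have hR1 : (1 : ℝ) ≤ RN δ ε N := by exact_mod_cast (Vpr_RR hN hr).1
    have hQ0 : (0 : ℝ) < Q := by linarith
    have hQ20 : (0 : ℝ) < Q2 := by linarith
    have hκQ1 : (N : ℝ) ^ ((1 : ℝ) / 2 - κ1) ≤ Q :=
      le_trans (Real.rpow_le_rpow_of_exponent_le hN1 (by linarith)) hκQ
    have hκQ21 : (N : ℝ) ^ ((1 : ℝ) / 2 - κ1) ≤ Q2 :=
      le_trans (Real.rpow_le_rpow_of_exponent_le hN1 (by linarith)) hκQ2
    have hfκ1 : (f : ℝ) ≤ (N : ℝ) ^ κ1 := hfκ.trans (Real.rpow_le_rpow_of_exponent_le hN1 hκb)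
    have hfε : (f : ℝ) ≤ (N : ℝ) ^ (ε / 2) := hfκ.trans (Real.rpow_le_rpow_of_exponent_le hN1 hκa)
    have hB := hEE N Q Q2 f L1 L2 K A c c' hcase hN hκQ1 hQx hκQ21 hQ2x hf1 hfκ1 hL1 hL2 hcf hcf' hcv hcv' hA hK ha
    obtain ⟨E, hE⟩ : ∃ E : ℝ, E = ∑ a ∈ A, ∑ b ∈ A.erase a, ∑ d ∈ Ioc Q (2 * Q), ∑ d' ∈ Ioc Q2 (2 * Q2),
        c a d * c' b d' * (SSG N j f d d' a b - MM N d d' a b / f) := ⟨_, rfl⟩
    rw [← hE] at hB
    obtain ⟨q, hq⟩ : ∃ q : ℝ, q = 2 * (Q : ℝ) / Q2 + 2 * (Q2 : ℝ) / Q + 1 := ⟨_, rfl⟩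
    have hq0 : 0 ≤ q := by
      rw [hq]
      positivity
    have hD : |∑ a ∈ A, ∑ b ∈ A.erase a, ∑ n ∈ Iw N j, wt N j n * (if (f : ℤ) ∣ n then 1 else 0) *
        (FF (RN δ ε N) Q (c a) (n - a) * FF (RN δ ε N) Q2 (c' b) (n - b)) - E| ≤
        ∑ a ∈ A, ∑ b ∈ A.erase a, (C2 * (N : ℝ) ^ (1 / 2 + δ + ε + e)) +
        ∑ a ∈ A, ∑ b ∈ A.erase a, ∑ d ∈ Ioc Q (2 * Q), ∑ d' ∈ Ioc Q2 (2 * Q2),
          |c a d| * |c' b d'| * (C2 * (N : ℝ) ^ (-(2 * δ) - ε) * q) := by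
      rw [hE, ← Finset.sum_sub_distrib, ← Finset.sum_add_distrib]
      refine (Finset.abs_sum_le_sum_abs _ _).trans (Finset.sum_le_sum fun a haA => ?_)
      rw [← Finset.sum_sub_distrib, ← Finset.sum_add_distrib]
      refine (Finset.abs_sum_le_sum_abs _ _).trans (Finset.sum_le_sum fun b hbA => ?_)
      obtain ⟨hb1, hb2⟩ := Finset.mem_erase.1 hbA
      rw [hq]
      exact hC2 N j Q Q2 f (c a) (c' b) a b hN hRQ hQx hRQ2 hQ2x hf1 hfε (hcf.1 a) (hcf'.1 b)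
        (fun d hd => (hcv a d hd).2) (fun d hd => (hcv' b d hd).2) hb1.symm (ha a haA) (ha b hb2)
    have hD1 := Vog_card A (B := C2 * (N : ℝ) ^ (1 / 2 + δ + ε + e)) (by positivity)
    have hD2 := Vog_wsum A Q Q2 K (C2 * (N : ℝ) ^ (-(2 * δ) - ε) * q) c c' (by positivity) hK0 hcf.2 hcf'.2
    obtain ⟨Y, hY⟩ : ∃ Y : ℝ, Y = (N : ℝ) ^ (1 - η) := ⟨_, rfl⟩
    have hY0 : 0 ≤ Y := by rw [hY]; positivity
    have k1 : (A.card : ℝ) * A.card * (C2 * (N : ℝ) ^ (1 / 2 + δ + ε + e)) ≤ C2 * K ^ 2 * Y := by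
      have g1 : (A.card : ℝ) * A.card * (C2 * (N : ℝ) ^ (1 / 2 + δ + ε + e)) ≤
          K ^ 2 * (N : ℝ) ^ (2 * v) * (C2 * (N : ℝ) ^ (1 / 2 + δ + ε + e)) :=
        mul_le_mul_of_nonneg_right hAA (by positivity)
      refine g1.trans ?_
      have g2 : K ^ 2 * (N : ℝ) ^ (2 * v) * (C2 * (N : ℝ) ^ (1 / 2 + δ + ε + e)) =
          C2 * K ^ 2 * (N : ℝ) ^ (2 * v + (1 / 2 + δ + ε + e)) := by
        rw [Real.rpow_add hNp (2 * v)]
        ring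
      rw [g2, hY]
      refine mul_le_mul_of_nonneg_left (Real.rpow_le_rpow_of_exponent_le hN1 ?_) (by positivity)
      linarith
    have k2 : K ^ 2 * ((Q : ℝ) * Q2) * (C2 * (N : ℝ) ^ (-(2 * δ) - ε) * q) ≤ 20 * C2 * K ^ 2 * Y := by
      obtain ⟨P, hP⟩ : ∃ P : ℝ, P = (N : ℝ) ^ ((1 : ℝ) / 2 + δ) := ⟨_, rfl⟩
      rw [← hP] at hQx hQ2x
      have hP0 : 0 ≤ P := by rw [hP]; positivity
      have g1 : (Q : ℝ) * Q ≤ (2 * P) * (2 * P) := mul_le_mul hQx hQx (by positivity) (by positivity)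
      have g1' : (Q2 : ℝ) * Q2 ≤ (2 * P) * (2 * P) := mul_le_mul hQ2x hQ2x (by positivity) (by positivity)
      have g1'' : (Q : ℝ) * Q2 ≤ (2 * P) * (2 * P) := mul_le_mul hQx hQ2x (by positivity) (by positivity)
      have g0 : ((Q : ℝ) * Q2) * q = 2 * ((Q : ℝ) * Q) + 2 * ((Q2 : ℝ) * Q2) + (Q : ℝ) * Q2 := by
        rw [hq]
        field_simp
      have g2 : K ^ 2 * ((Q : ℝ) * Q2) * (C2 * (N : ℝ) ^ (-(2 * δ) - ε) * q) ≤
          20 * C2 * K ^ 2 * (P * P * (N : ℝ) ^ (-(2 * δ) - ε)) := by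
        have g3 : K ^ 2 * ((Q : ℝ) * Q2) * (C2 * (N : ℝ) ^ (-(2 * δ) - ε) * q) =
            (((Q : ℝ) * Q2) * q) * (C2 * K ^ 2 * (N : ℝ) ^ (-(2 * δ) - ε)) := by ring
        have g4 : 20 * C2 * K ^ 2 * (P * P * (N : ℝ) ^ (-(2 * δ) - ε)) =
            (20 * (P * P)) * (C2 * K ^ 2 * (N : ℝ) ^ (-(2 * δ) - ε)) := by ring
        rw [g3, g4, g0]
        exact mul_le_mul_of_nonneg_right (by linarith) (by positivity)
      refine g2.trans (mul_le_mul_of_nonneg_left ?_ (by positivity))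
      have g5 : P * P * (N : ℝ) ^ (-(2 * δ) - ε) =
          (N : ℝ) ^ ((1 / 2 + δ) + (1 / 2 + δ) + (-(2 * δ) - ε)) := by
        rw [hP, Real.rpow_add hNp ((1 / 2 + δ) + (1 / 2 + δ)), Real.rpow_add hNp (1 / 2 + δ)]
      rw [g5, hY]
      exact Real.rpow_le_rpow_of_exponent_le hN1 (by linarith)
    have k3 : |E| ≤ |C1| * K ^ 2 * Y := by
      refine hB.trans ?_
      have g1 : (N : ℝ) ^ (1 - η1) ≤ Y := by
        rw [hY]
        exact Real.rpow_le_rpow_of_exponent_le hN1 (by linarith)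
      calc C1 * K ^ 2 * (N : ℝ) ^ (1 - η1) ≤ |C1| * K ^ 2 * (N : ℝ) ^ (1 - η1) :=
            mul_le_mul_of_nonneg_right (mul_le_mul_of_nonneg_right (le_abs_self _) (by positivity)) (by positivity)
        _ ≤ _ := mul_le_mul_of_nonneg_left g1 (by positivity)
    have k4 : 0 ≤ S * (N0 : ℝ) ^ (2 * v) * K ^ 2 * Y := by positivity
    have hD3 := hD.trans (add_le_add (hD1.trans k1) (hD2.trans k2))
    rw [← hY]
    have e1 : (|C1| + 21 * C2 + S * (N0 : ℝ) ^ (2 * v)) * K ^ 2 * Y = |C1| * K ^ 2 * Y +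
      (C2 * K ^ 2 * Y + 20 * C2 * K ^ 2 * Y) + S * (N0 : ℝ) ^ (2 * v) * K ^ 2 * Y := by ring
    rw [e1]
    rw [abs_le] at hD3 k3 ⊢
    constructor
    · linarith [hD3.1, k3.1]
    · linarith [hD3.2, k3.2]
  · -- small N
    push Not at hcase
    have hD : |∑ a ∈ A, ∑ b ∈ A.erase a, ∑ n ∈ Iw N j, wt N j n * (if (f : ℤ) ∣ n then 1 else 0) *
        (FF (RN δ ε N) Q (c a) (n - a) * FF (RN δ ε N) Q2 (c' b) (n - b))| ≤
        ∑ a ∈ A, ∑ b ∈ A.erase a, S := by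
      refine (Finset.abs_sum_le_sum_abs _ _).trans (Finset.sum_le_sum fun a haA => ?_)
      refine (Finset.abs_sum_le_sum_abs _ _).trans (Finset.sum_le_sum fun b hbA => ?_)
      obtain ⟨hb1, hb2⟩ := Finset.mem_erase.1 hbA
      rw [hS]
      exact Vog_small h0 h1 N0 N j Q Q2 f (c a) (c' b) a b hN hcase.le hr hr' (hcf.1 a) (hcf'.1 b) (ha a haA)
        (ha b hb2)
    refine (hD.trans (Vog_card A hS0)).trans ?_
    have g1 : (A.card : ℝ) * A.card * S ≤ K ^ 2 * (N : ℝ) ^ (2 * v) * S := mul_le_mul_of_nonneg_right hAA hS0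
    have g2 : (N : ℝ) ^ (2 * v) ≤ (N0 : ℝ) ^ (2 * v) :=
      Real.rpow_le_rpow hNp.le (by exact_mod_cast hcase.le) (by linarith)
    have g3 : K ^ 2 * (N : ℝ) ^ (2 * v) * S ≤ K ^ 2 * (N0 : ℝ) ^ (2 * v) * S :=
      mul_le_mul_of_nonneg_right (mul_le_mul_of_nonneg_left g2 (by positivity)) hS0
    have g4 : (1 : ℝ) ≤ (N : ℝ) ^ (1 - η) := Real.one_le_rpow hN1 (by linarith)
    calc (A.card : ℝ) * A.card * S ≤ (S * (N0 : ℝ) ^ (2 * v)) * K ^ 2 * 1 := by linarith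
      _ ≤ (S * (N0 : ℝ) ^ (2 * v)) * K ^ 2 * (N : ℝ) ^ (1 - η) :=
          mul_le_mul_of_nonneg_left g4 (by positivity)
      _ ≤ (|C1| + 21 * C2 + S * (N0 : ℝ) ^ (2 * v)) * K ^ 2 * (N : ℝ) ^ (1 - η) := by
          refine mul_le_mul_of_nonneg_right (mul_le_mul_of_nonneg_right ?_ (by positivity)) (by positivity)
          have := abs_nonneg C1
          linarith

end Pool.Agent.Lib.TV
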