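import Pool.Agent.Lib.TM.StmM

/-!
MP_00e23e_nt, directory Lib/TV (THEOREM V), part M (helper19): statements of the modules.
-/

namespace Pool.Agent.Lib.TV

open Finset Pool.Agent.Lib.EH3 Pool.Agent.Lib.TB Pool.Agent.Lib.TN Pool.Agent.Lib.TM

/-- Module Vpr: the off-diagonal sum of a pair (a, b) is the sum of the error terms of the pairs (d, d') up to a small
error, in which the coefficients appear linearly. -/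
def VprStmt : Prop := ∀ δ ε e : ℝ, 0 ≤ δ → 0 < ε → δ + ε ≤ 1 / 2 → 0 < e → e ≤ ε / 4 → ∃ C : ℝ, 0 ≤ C ∧
  ∀ (N j Q : ℕ) (c c' : ℕ → ℝ) (a b : ℤ), 1 ≤ N → RN δ ε N ≤ Q → (Q : ℝ) ≤ 2 * (N : ℝ) ^ ((1 : ℝ) / 2 + δ) →
    (∀ d, |c d| ≤ 1) → (∀ d, |c' d| ≤ 1) → a ≠ b → |a| ≤ (N : ℤ) → |b| ≤ (N : ℤ) →
    |∑ n ∈ Iw N j, wt N j n * (FF (RN δ ε N) Q c (n - a) * FF (RN δ ε N) Q c' (n - b)) -
        ∑ d ∈ Ioc Q (2 * Q), ∑ d' ∈ Ioc Q (2 * Q), c d * c' d' * (SSN N j d d' a b - MM N d d' a b)| ≤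
      C * (N : ℝ) ^ (1 / 2 + δ + ε + e) +
        ∑ d ∈ Ioc Q (2 * Q), ∑ d' ∈ Ioc Q (2 * Q), |c d| * |c' d'| * (C * (N : ℝ) ^ (-(2 * δ) - ε))

end Pool.Agent.Lib.TV
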